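import Mathlib
import Pool.Agent.LibHall72

namespace Pool.Agent.Hall72

noncomputable section

/-- coefficients of the real cubic form attached to a point -/
def C0 (t e z q i : ℝ) : ℝ := 4*t*z^3 + 8*e*z*q^2 + 8*e*t*q^3 + i*z^4
def C1 (t e z w q s i : ℝ) : ℝ :=
  12*t*z^2*w + 8*e*(w*q^2+2*z*q*s) + 24*e*t*q^2*s + i*z*(3*z^2*w - z^2*i)
def C2 (t e z w q s i : ℝ) : ℝ :=
  12*t*z*w^2 + 8*e*(z*s^2+2*w*q*s) + 24*e*t*q*s^2 + i*z*(3*z*w^2 - 2*z*w*i + z*i^2)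

lemma relC0 {x y p q : ℤ} {t e z i : ℝ} (hx : (x:ℝ) = t^2) (hy : (y:ℝ) = t^3 + e)
    (hp : (p:ℝ) = z + t*q) (hi : i*q = 1) :
    (g0 x y p q : ℝ) = q * C0 t e z q i := by
  unfold g0 C0
  push_cast
  rw [hx, hy, hp]
  linear_combination (- z^4) * hi

lemma relC1 {x y p q r s : ℤ} {t e z w i : ℝ} (hx : (x:ℝ) = t^2) (hy : (y:ℝ) = t^3 + e)
    (hp : (p:ℝ) = z + t*q) (hr : (r:ℝ) = w + t*s) (hi : i*q = 1) (hd : z*s - w*q = 1) :
    (g1 x y p q r s : ℝ) = q * C1 t e z w q s i + s * C0 t e z q i := by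
  unfold g1 C0 C1
  push_cast
  rw [hx, hy, hp, hr]
  linear_combination (-(3*z^3*w) + z^3*i - z^3*w) * hi - (i*z^3) * hd

lemma relC2 {x y p q r s : ℤ} {t e z w i : ℝ} (hx : (x:ℝ) = t^2) (hy : (y:ℝ) = t^3 + e)
    (hp : (p:ℝ) = z + t*q) (hr : (r:ℝ) = w + t*s) (hi : i*q = 1) (hd : z*s - w*q = 1) :
    (g2 x y p q r s : ℝ) = q * C2 t e z w q s i + s * C1 t e z w q s i := by
  unfold g2 C1 C2
  push_cast
  rw [hx, hy, hp, hr]
  have h1 : i * z * s = i * (1 + w * q) := by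
    have : z * s = 1 + w*q := by linarith
    calc i*z*s = i*(z*s) := by ring
      _ = _ := by rw [this]
  have : i*z*(3*z^2*w - z^2*i)*s = (3*z^2*w - z^2*i) * (i + w) := by
    calc i*z*(3*z^2*w - z^2*i)*s = (3*z^2*w - z^2*i) * (i*z*s) := by ring
      _ = (3*z^2*w - z^2*i) * (i*(1+w*q)) := by rw [h1]
      _ = (3*z^2*w - z^2*i) * (i + w*(i*q)) := by ring
      _ = _ := by rw [hi]; ring
  linear_combination (-(z*(3*z*w^2 - 2*z*w*i + z*i^2))) * hi - this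

lemma abs_sub_lt_one_of_floor_eq {a b : ℝ} (h : ⌊a⌋ = ⌊b⌋) : |a - b| < 1 := by
  have h1 := Int.floor_le a
  have h2 := Int.lt_floor_add_one a
  have h3 := Int.floor_le b
  have h4 := Int.lt_floor_add_one b
  rw [h] at h1 h2
  rw [abs_lt]; constructor <;> linarith

/-- `z` and `w` of a vector at a point. -/
def tt (x : ℤ) : ℝ := Real.sqrt x
def ee (x y : ℤ) : ℝ := (y:ℝ) - (tt x)^3
def zz (x p q : ℤ) : ℝ := (p:ℝ) - tt x * q

lemma tt_sq {x : ℤ} (hx : 0 < x) : (x:ℝ) = (tt x)^2 := by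
  unfold tt; rw [Real.sq_sqrt]; exact_mod_cast hx.le

def D0 (x y p q : ℤ) : ℝ := C0 (tt x) (ee x y) (zz x p q) q (1/(q:ℝ))
def D1 (x y p q r s : ℤ) : ℝ :=
  C1 (tt x) (ee x y) (zz x p q) (zz x r s) q s (1/(q:ℝ))
def D2 (x y p q r s : ℤ) : ℝ :=
  C2 (tt x) (ee x y) (zz x p q) (zz x r s) q s (1/(q:ℝ))

lemma zdet {x p q r s : ℤ} (h : p*s - r*q = 1) :
    zz x p q * s - zz x r s * q = 1 := by
  unfold zz
  have : (p:ℝ)*s - r*q = 1 := by exact_mod_cast h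
  linear_combination this

lemma inj_floor {x y x' y' p r p' r' q s : ℤ} (hx : 0 < x) (hx' : 0 < x') (hq : 0 < q)
    (h1 : p*s - r*q = 1) (h2 : p'*s - r'*q = 1)
    (hW : p^3 - 3*x*p*q^2 + 2*y*q^3 ≠ 0)
    (f0 : ⌊D0 x y p q⌋ = ⌊D0 x' y' p' q⌋)
    (f1 : ⌊D1 x y p q r s⌋ = ⌊D1 x' y' p' q r' s⌋)
    (f2 : ⌊D2 x y p q r s⌋ = ⌊D2 x' y' p' q r' s⌋) : x = x' ∧ y = y' := by
  have hqR : (0:ℝ) < q := by exact_mod_cast hq
  have hi : (1/(q:ℝ)) * q = 1 := by field_simp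
  have a0 := relC0 (x := x) (y := y) (p := p) (q := q) (t := tt x) (e := ee x y)
    (z := zz x p q) (i := 1/(q:ℝ)) (tt_sq hx) (by unfold ee; ring) (by unfold zz; ring) hi
  have a1 := relC1 (x := x) (y := y) (p := p) (q := q) (r := r) (s := s) (t := tt x) (e := ee x y)
    (z := zz x p q) (w := zz x r s) (i := 1/(q:ℝ)) (tt_sq hx) (by unfold ee; ring)
    (by unfold zz; ring) (by unfold zz; ring) hi (zdet h1)
  have a2 := relC2 (x := x) (y := y) (p := p) (q := q) (r := r) (s := s) (t := tt x) (e := ee x y)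
    (z := zz x p q) (w := zz x r s) (i := 1/(q:ℝ)) (tt_sq hx) (by unfold ee; ring)
    (by unfold zz; ring) (by unfold zz; ring) hi (zdet h1)
  have b0 := relC0 (x := x') (y := y') (p := p') (q := q) (t := tt x') (e := ee x' y')
    (z := zz x' p' q) (i := 1/(q:ℝ)) (tt_sq hx') (by unfold ee; ring) (by unfold zz; ring) hi
  have b1 := relC1 (x := x') (y := y') (p := p') (q := q) (r := r') (s := s) (t := tt x')
    (e := ee x' y') (z := zz x' p' q) (w := zz x' r' s) (i := 1/(q:ℝ)) (tt_sq hx')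
    (by unfold ee; ring) (by unfold zz; ring) (by unfold zz; ring) hi (zdet h2)
  have b2 := relC2 (x := x') (y := y') (p := p') (q := q) (r := r') (s := s) (t := tt x')
    (e := ee x' y') (z := zz x' p' q) (w := zz x' r' s) (i := 1/(q:ℝ)) (tt_sq hx')
    (by unfold ee; ring) (by unfold zz; ring) (by unfold zz; ring) hi (zdet h2)
  have g0' := abs_sub_lt_one_of_floor_eq f0
  have g1' := abs_sub_lt_one_of_floor_eq f1
  have g2' := abs_sub_lt_one_of_floor_eq f2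
  change (g0 x y p q : ℝ) = q * D0 x y p q at a0
  change (g1 x y p q r s : ℝ) = q * D1 x y p q r s + s * D0 x y p q at a1
  change (g2 x y p q r s : ℝ) = q * D2 x y p q r s + s * D1 x y p q r s at a2
  change (g0 x' y' p' q : ℝ) = q * D0 x' y' p' q at b0
  change (g1 x' y' p' q r' s : ℝ) = q * D1 x' y' p' q r' s + s * D0 x' y' p' q at b1
  change (g2 x' y' p' q r' s : ℝ) = q * D2 x' y' p' q r' s + s * D1 x' y' p' q r' s at b2
  have key : ∀ {a b : ℝ}, |a - b| < 1 → |(q:ℝ) * a - q * b| < q := by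
    intro a b hab
    have : (q:ℝ) * a - q * b = q * (a - b) := by ring
    rw [this, abs_mul, abs_of_pos hqR]
    nlinarith
  refine core hq h1 h2 hW ?_ ?_ ?_
  · have := key g0'
    rw [← a0, ← b0] at this
    exact_mod_cast this
  · intro E0
    have E0R : (g0 x y p q : ℝ) = g0 x' y' p' q := by exact_mod_cast E0
    have e0 : D0 x y p q = D0 x' y' p' q := by
      have : (q:ℝ) * D0 x y p q = q * D0 x' y' p' q := by rw [← a0, ← b0, E0R]
      exact mul_left_cancel₀ hqR.ne' this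
    have := key g1'
    have h3 : (g1 x y p q r s : ℝ) - g1 x' y' p' q r' s
        = q * D1 x y p q r s - q * D1 x' y' p' q r' s := by
      rw [a1, b1, e0]; ring
    rw [← h3] at this
    exact_mod_cast this
  · intro E0 E1
    have E0R : (g0 x y p q : ℝ) = g0 x' y' p' q := by exact_mod_cast E0
    have E1R : (g1 x y p q r s : ℝ) = g1 x' y' p' q r' s := by exact_mod_cast E1
    have e0 : D0 x y p q = D0 x' y' p' q := by
      have : (q:ℝ) * D0 x y p q = q * D0 x' y' p' q := by rw [← a0, ← b0, E0R]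
      exact mul_left_cancel₀ hqR.ne' this
    have e1 : D1 x y p q r s = D1 x' y' p' q r' s := by
      have : (q:ℝ) * D1 x y p q r s = q * D1 x' y' p' q r' s := by
        rw [a1, b1, e0] at E1R; linarith
      exact mul_left_cancel₀ hqR.ne' this
    have := key g2'
    have h3 : (g2 x y p q r s : ℝ) - g2 x' y' p' q r' s
        = q * D2 x y p q r s - q * D2 x' y' p' q r' s := by
      rw [a2, b2, e1]; ring
    rw [← h3] at this
    exact_mod_cast this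

lemma floor_mem {a B : ℝ} (h : |a| ≤ B) : ⌊a⌋ ∈ Finset.Icc ⌊-B⌋ ⌊B⌋ := by
  rw [abs_le] at h
  rw [Finset.mem_Icc]
  exact ⟨Int.floor_le_floor h.1, Int.floor_le_floor h.2⟩

lemma card_box {B : ℝ} (hB : 0 ≤ B) : ((Finset.Icc ⌊-B⌋ ⌊B⌋).card : ℝ) ≤ 2*B+2 := by
  rw [Int.card_Icc]
  have h1 := Int.floor_le B
  have h2 := Int.lt_floor_add_one (-B)
  have h0 : (0:ℤ) ≤ ⌊B⌋ := Int.floor_nonneg.mpr hB
  have h0' : ⌊-B⌋ ≤ 0 := by
    have : ⌊-B⌋ ≤ ⌊(0:ℝ)⌋ := Int.floor_le_floor (by linarith)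
    simpa using this
  have h3 : ((⌊B⌋ + 1 - ⌊-B⌋).toNat : ℤ) = ⌊B⌋ + 1 - ⌊-B⌋ := Int.toNat_of_nonneg (by linarith)
  have h4 : (((⌊B⌋ + 1 - ⌊-B⌋).toNat : ℕ) : ℝ) = (⌊B⌋:ℝ) + 1 - ⌊-B⌋ := by
    have := congrArg (fun z : ℤ => (z:ℝ)) h3
    push_cast at this
    exact_mod_cast this
  rw [h4]; linarith

lemma card_le {S : Finset ℤ} {q s : ℤ} (hq : 0 < q) {B B2 : ℝ} (hB : 0 ≤ B) (hB2 : 0 ≤ B2)
    (h : ∀ x ∈ S, 0 < x ∧ ∃ y p r : ℤ, p*s - r*q = 1 ∧ p^3 - 3*x*p*q^2 + 2*y*q^3 ≠ 0 ∧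
      |D0 x y p q| ≤ B ∧ |D1 x y p q r s| ≤ B ∧ |D2 x y p q r s| ≤ B2) :
    (S.card : ℝ) ≤ (2*B+2)^2*(2*B2+2) := by
  classical
  choose! h0 y p r hdet hW b0 b1 b2 using h
  let f : ℤ → ℤ × ℤ × ℤ := fun x =>
    (⌊D0 x (y x) (p x) q⌋, ⌊D1 x (y x) (p x) q (r x) s⌋, ⌊D2 x (y x) (p x) q (r x) s⌋)
  have hf : ∀ x ∈ S, f x ∈ (Finset.Icc ⌊-B⌋ ⌊B⌋) ×ˢ ((Finset.Icc ⌊-B⌋ ⌊B⌋) ×ˢ
      (Finset.Icc ⌊-B2⌋ ⌊B2⌋)) := by
    intro x hx
    simp only [Finset.mem_product]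
    exact ⟨floor_mem (b0 x hx), floor_mem (b1 x hx), floor_mem (b2 x hx)⟩
  have hinj : Set.InjOn f (S : Set ℤ) := by
    intro a ha b hb hab
    have ha' : a ∈ S := ha
    have hb' : b ∈ S := hb
    simp only [f, Prod.mk.injEq] at hab
    exact (inj_floor (h0 a ha') (h0 b hb') hq (hdet a ha') (hdet b hb') (hW a ha')
      hab.1 hab.2.1 hab.2.2).1
  have hc := Finset.card_le_card_of_injOn f hf hinj
  rw [Finset.card_product, Finset.card_product] at hc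
  have hc' : (S.card : ℝ) ≤ ((Finset.Icc ⌊-B⌋ ⌊B⌋).card : ℝ) *
      (((Finset.Icc ⌊-B⌋ ⌊B⌋).card : ℝ) * ((Finset.Icc ⌊-B2⌋ ⌊B2⌋).card : ℝ)) := by
    exact_mod_cast hc
  have k1 := card_box hB
  have k2 := card_box hB2
  have n1 : (0:ℝ) ≤ ((Finset.Icc ⌊-B⌋ ⌊B⌋).card : ℝ) := by positivity
  have n2 : (0:ℝ) ≤ ((Finset.Icc ⌊-B2⌋ ⌊B2⌋).card : ℝ) := by positivity
  calc (S.card : ℝ) ≤ _ := hc'
    _ ≤ (2*B+2) * ((2*B+2) * (2*B2+2)) := by
        apply mul_le_mul k1 _ (by positivity) (by positivity)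
        apply mul_le_mul k1 k2 (by positivity) (by positivity)
    _ = _ := by ring

end

end Pool.Agent.Hall72
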