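import Mathlib
import Pool.Agent.LibHall72B

namespace Pool.Agent.Hall72

noncomputable section

lemma absC0 {t e z q i : ℝ} (ht : 0 ≤ t) (hq : 0 ≤ q) (hi : 0 ≤ i) :
    |C0 t e z q i| ≤ 4*(t * |z|^3) + 8*(|e| * |z| * q^2) + 8*(|e| * t * q^3) + i * |z|^4 := by
  unfold C0
  refine (abs_add_le _ _).trans ?_
  refine add_le_add ((abs_add_le _ _).trans (add_le_add ((abs_add_le _ _).trans
    (add_le_add ?_ ?_)) ?_)) ?_
  · rw [abs_mul, abs_mul, abs_pow, abs_of_nonneg ht]; norm_num; linarith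
  · rw [abs_mul, abs_mul, abs_mul, abs_pow, abs_of_nonneg hq]; norm_num; linarith
  · rw [abs_mul, abs_mul, abs_mul, abs_pow, abs_of_nonneg hq, abs_of_nonneg ht]; norm_num; linarith
  · rw [abs_mul, abs_pow, abs_of_nonneg hi]

lemma absC1 {t e z w q s i : ℝ} (ht : 0 ≤ t) (hq : 0 ≤ q) (hi : 0 ≤ i) :
    |C1 t e z w q s i| ≤ 12*(t * |z|^2 * |w|) + 8*(|e| * |w| * q^2) + 16 * (|e| * |z| * q * |s|)
      + 24*(|e| * t * q^2 * |s|) + (3 * (i * |z|^3 * |w|) + i^2 * |z|^3) := by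
  have h : C1 t e z w q s i = 12*(t*z^2*w) + 8*(e*w*q^2) + 16*(e*z*q*s) + 24*(e*t*q^2*s)
      + (3*(i*z^3*w) - i^2*z^3) := by unfold C1; ring
  rw [h]
  refine (abs_add_le _ _).trans (add_le_add ((abs_add_le _ _).trans (add_le_add
    ((abs_add_le _ _).trans (add_le_add ((abs_add_le _ _).trans (add_le_add ?_ ?_)) ?_)) ?_)) ?_)
  · simp only [abs_mul, abs_pow, abs_of_nonneg ht]; norm_num
  · simp only [abs_mul, abs_pow, abs_of_nonneg hq]; norm_num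
  · simp only [abs_mul, abs_of_nonneg hq]; norm_num
  · simp only [abs_mul, abs_pow, abs_of_nonneg hq, abs_of_nonneg ht]; norm_num
  · refine (abs_sub _ _).trans (add_le_add ?_ ?_)
    · simp only [abs_mul, abs_pow, abs_of_nonneg hi]; norm_num
    · simp only [abs_mul, abs_pow, abs_of_nonneg hi]; norm_num

lemma absC2 {t e z w q s i : ℝ} (ht : 0 ≤ t) (hq : 0 ≤ q) (hi : 0 ≤ i) :
    |C2 t e z w q s i| ≤ 12*(t * |z| * |w|^2) + 8*(|e| * |z| * |s|^2) + 16 * (|e| * |w| * q * |s|)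
      + 24*(|e| * t * q * |s|^2) + (3 * (i * |z|^2 * |w|^2) + 2*(i^2 * |z|^2 * |w|)
        + i^3 * |z|^2) := by
  have h : C2 t e z w q s i = 12*(t*z*w^2) + 8*(e*z*s^2) + 16*(e*w*q*s) + 24*(e*t*q*s^2)
      + (3*(i*z^2*w^2) - 2*(i^2*z^2*w) + i^3*z^2) := by unfold C2; ring
  rw [h]
  refine (abs_add_le _ _).trans (add_le_add ((abs_add_le _ _).trans (add_le_add
    ((abs_add_le _ _).trans (add_le_add ((abs_add_le _ _).trans (add_le_add ?_ ?_)) ?_)) ?_)) ?_)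
  · simp only [abs_mul, abs_pow, abs_of_nonneg ht]; norm_num
  · simp only [abs_mul, abs_pow]; norm_num
  · simp only [abs_mul, abs_of_nonneg hq]; norm_num
  · simp only [abs_mul, abs_pow, abs_of_nonneg hq, abs_of_nonneg ht]; norm_num
  · refine (abs_add_le _ _).trans (add_le_add ((abs_sub _ _).trans (add_le_add ?_ ?_)) ?_)
    · simp only [abs_mul, abs_pow, abs_of_nonneg hi]; norm_num
    · simp only [abs_mul, abs_pow, abs_of_nonneg hi]; norm_num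
    · simp only [abs_mul, abs_pow, abs_of_nonneg hi]; norm_num

lemma cub_le {a b : ℝ} (ha : 0 ≤ a) (h : a ≤ b) : a^3 ≤ b^3 := pow_le_pow_left₀ ha h 3

lemma bnd_common {Q t E q C : ℝ} (hQ : 1 ≤ Q) (hq1 : 1 ≤ q) (hqQ : q ≤ Q) (ht1 : Q^3 ≤ t)
    (hE : 0 ≤ E) (he : E * t^2 ≤ C) :
    1 ≤ t ∧ q ≤ t ∧ E * q^2 ≤ C ∧ E * t * q^3 ≤ C ∧ 0 ≤ C ∧ E * t ≤ C ∧ E ≤ C := by
  have hQ3 : Q ≤ Q^3 := by nlinarith [mul_nonneg (by linarith : (0:ℝ) ≤ Q) (by nlinarith : (0:ℝ) ≤ Q^2 - 1)]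
  have ht : 1 ≤ t := by linarith
  have hqt : q ≤ t := by linarith
  have hq3 : q^3 ≤ t := (cub_le (by linarith) hqQ).trans ht1
  have hC : 0 ≤ C := le_trans (by positivity) he
  have h2 : q^2 ≤ t^2 := pow_le_pow_left₀ (by linarith) hqt 2
  refine ⟨ht, hqt, ?_, ?_, hC, ?_, ?_⟩
  · exact (mul_le_mul_of_nonneg_left h2 hE).trans he
  · calc E * t * q^3 ≤ E * t * t := mul_le_mul_of_nonneg_left hq3 (by positivity)
      _ = E * t^2 := by ring
      _ ≤ C := he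
  · calc E * t = E * t * 1 := by ring
      _ ≤ E * t * t := mul_le_mul_of_nonneg_left ht (by positivity)
      _ = E * t^2 := by ring
      _ ≤ C := he
  · calc E = E * 1 := by ring
      _ ≤ E * t^2 := mul_le_mul_of_nonneg_left (by nlinarith) hE
      _ ≤ C := he

lemma bndC0 {Q t e z q i C : ℝ} (hQ : 1 ≤ Q) (hq1 : 1 ≤ q) (hqQ : q ≤ Q) (ht1 : Q^3 ≤ t)
    (ht2 : t ≤ 8*Q^3) (he : |e| * t^2 ≤ C) (hi0 : 0 ≤ i) (hi1 : i ≤ 1) (hz : |z| * Q ≤ 1) :
    |C0 t e z q i| ≤ 200 + 100 * C := by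
  obtain ⟨h1, h2, h3, h4, h5, h6, h7⟩ := bnd_common hQ hq1 hqQ ht1 (abs_nonneg e) he
  refine (absC0 (by linarith) (by linarith) hi0).trans ?_
  have hz0 := abs_nonneg z
  have hz1 : |z| ≤ 1 := by nlinarith
  have a1 : t * |z|^3 ≤ 8 := by
    calc t * |z|^3 ≤ 8*Q^3 * |z|^3 := mul_le_mul_of_nonneg_right ht2 (by positivity)
      _ = 8 * (|z| * Q)^3 := by ring
      _ ≤ 8 * 1^3 := by
        apply mul_le_mul_of_nonneg_left _ (by norm_num)
        exact cub_le (by positivity) hz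
      _ = 8 := by norm_num
  have a2 : |e| * |z| * q^2 ≤ C := by
    calc |e| * |z| * q^2 = |e| * q^2 * |z| := by ring
      _ ≤ |e| * q^2 * 1 := mul_le_mul_of_nonneg_left hz1 (by positivity)
      _ ≤ C := by linarith
  have a3 : i * |z|^4 ≤ 1 := by
    calc i * |z|^4 ≤ 1 * 1^4 := by
          apply mul_le_mul hi1 (pow_le_pow_left₀ hz0 hz1 4) (by positivity) (by norm_num)
      _ = 1 := by norm_num
  nlinarith

/-- first case -/
lemma bnd1 {Q t e z w q s i C R : ℝ} (hQ : 1 ≤ Q) (hq1 : 1 ≤ q) (hqQ : q ≤ Q) (ht1 : Q^3 ≤ t)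
    (ht2 : t ≤ 8*Q^3) (he : |e| * t^2 ≤ C) (hi0 : 0 ≤ i) (hi1 : i ≤ 1) (hz : |z| * Q ≤ 1)
    (hz2 : |z|^2 * Q^3 ≤ q) (hw : |w| * q ≤ 2) (hs : |s| ≤ q) (hR : 0 ≤ R)
    (hR2 : R^2 * q^3 = Q^3) :
    |C1 t e z w q s i| ≤ 200 + 100 * C ∧ |C2 t e z w q s i| ≤ 384 * R + (200 + 100 * C) := by
  obtain ⟨h1, h2, h3, h4, h5, h6, h7⟩ := bnd_common hQ hq1 hqQ ht1 (abs_nonneg e) he
  have hz0 := abs_nonneg z
  have hw0 := abs_nonneg w
  have hs0 := abs_nonneg s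
  have he0 := abs_nonneg e
  have hz1 : |z| ≤ 1 := by nlinarith
  have hw1 : |w| ≤ 2 := by nlinarith
  have b1 : |e| * |w| * q^2 ≤ 2 * C := by
    calc |e| * |w| * q^2 = |e| * q * (|w| * q) := by ring
      _ ≤ |e| * q * 2 := mul_le_mul_of_nonneg_left hw (by positivity)
      _ ≤ 2 * (|e| * q^2) := by nlinarith [mul_nonneg (mul_nonneg he0 (by linarith : 0 ≤ q)) (by linarith : 0 ≤ q - 1)]
      _ ≤ 2 * C := by linarith
  have b2 : |e| * |z| * q * |s| ≤ C := by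
    calc |e| * |z| * q * |s| ≤ |e| * 1 * q * q := by gcongr
      _ = |e| * q^2 := by ring
      _ ≤ C := h3
  have b3 : |e| * t * q^2 * |s| ≤ C := by
    calc |e| * t * q^2 * |s| ≤ |e| * t * q^2 * q := by gcongr
      _ = |e| * t * q^3 := by ring
      _ ≤ C := h4
  have b4 : |e| * t * q * |s|^2 ≤ C := by
    calc |e| * t * q * |s|^2 ≤ |e| * t * q * q^2 := by gcongr
      _ = |e| * t * q^3 := by ring
      _ ≤ C := h4
  have b5 : |e| * |z| * |s|^2 ≤ C := by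
    calc |e| * |z| * |s|^2 ≤ |e| * 1 * q^2 := by gcongr
      _ = |e| * q^2 := by ring
      _ ≤ C := h3
  have b6 : |e| * |w| * q * |s| ≤ 2 * C := by
    calc |e| * |w| * q * |s| ≤ |e| * |w| * q * q := by gcongr
      _ = |e| * |w| * q^2 := by ring
      _ ≤ 2 * C := b1
  have hi2 : i^2 ≤ 1 := by nlinarith
  have hi3 : i^3 ≤ 1 := by nlinarith [pow_nonneg hi0 2]
  constructor
  · refine (absC1 (by linarith) (by linarith) hi0).trans ?_
    have a1 : t * |z|^2 * |w| ≤ 16 := by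
      calc t * |z|^2 * |w| ≤ (8*Q^3) * |z|^2 * |w| := by gcongr
        _ = 8 * (|z|^2 * Q^3) * |w| := by ring
        _ ≤ 8 * q * |w| := by gcongr
        _ = 8 * (|w| * q) := by ring
        _ ≤ 16 := by linarith
    have a2 : i * |z|^3 * |w| ≤ 2 := by
      calc i * |z|^3 * |w| ≤ 1 * 1^3 * 2 := by gcongr
        _ = 2 := by norm_num
    have a3 : i^2 * |z|^3 ≤ 1 := by
      calc i^2 * |z|^3 ≤ 1 * 1^3 := by gcongr
        _ = 1 := by norm_num
    linarith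
  · refine (absC2 (by linarith) (by linarith) hi0).trans ?_
    have hRq : Q^3 * |z| ≤ R * q^2 := by
      apply le_of_sq_le_sq _ (by positivity)
      calc (Q^3 * |z|)^2 = Q^3 * (|z|^2 * Q^3) := by ring
        _ ≤ Q^3 * q := by gcongr
        _ = (R * q^2)^2 := by rw [← hR2]; ring
    have a1 : t * |z| * |w|^2 ≤ 32 * R := by
      have hw2 : |w|^2 * q^2 ≤ 4 := by
        calc |w|^2 * q^2 = (|w| * q)^2 := by ring
          _ ≤ 2^2 := pow_le_pow_left₀ (by positivity) hw 2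
          _ = 4 := by norm_num
      calc t * |z| * |w|^2 ≤ (8*Q^3) * |z| * |w|^2 := by gcongr
        _ = 8 * (Q^3 * |z|) * |w|^2 := by ring
        _ ≤ 8 * (R * q^2) * |w|^2 := by gcongr
        _ = 8 * R * (|w|^2 * q^2) := by ring
        _ ≤ 8 * R * 4 := by gcongr
        _ = 32 * R := by ring
    have a2 : i * |z|^2 * |w|^2 ≤ 4 := by
      calc i * |z|^2 * |w|^2 ≤ 1 * 1^2 * 2^2 := by gcongr
        _ = 4 := by norm_num
    have a3 : i^2 * |z|^2 * |w| ≤ 2 := by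
      calc i^2 * |z|^2 * |w| ≤ 1 * 1^2 * 2 := by gcongr
        _ = 2 := by norm_num
    have a4 : i^3 * |z|^2 ≤ 1 := by
      calc i^3 * |z|^2 ≤ 1 * 1^2 := by gcongr
        _ = 1 := by norm_num
    linarith

/-- second case -/
lemma bnd2 {Q t e z w q s i C : ℝ} (hQ : 1 ≤ Q) (hq1 : 1 ≤ q) (hqQ : q ≤ Q) (ht1 : Q^3 ≤ t)
    (ht2 : t ≤ 8*Q^3) (he : |e| * t^2 ≤ C) (hi0 : 0 ≤ i) (hi1 : i ≤ 1) (hz : |z| * Q ≤ 1)
    (hz2 : q ≤ |z|^2 * Q^3) (hw : |w| ≤ |z| / 2) (hs : |s| * |z| ≤ 3/2) :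
    |C1 t e z w q s i| ≤ 200 + 100 * C ∧ |C2 t e z w q s i| ≤ 200 + 100 * C := by
  obtain ⟨h1, h2, h3, h4, h5, h6, h7⟩ := bnd_common hQ hq1 hqQ ht1 (abs_nonneg e) he
  have hz0 := abs_nonneg z
  have hw0 := abs_nonneg w
  have hs0 := abs_nonneg s
  have he0 := abs_nonneg e
  have hQ0 : 0 < Q := by linarith
  have hz1 : |z| ≤ 1 := by nlinarith
  have hw1 : |w| ≤ 1 := by linarith
  have hzpos : 0 < |z| := by
    rcases hz0.lt_or_eq with h | h
    · exact h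
    · rw [← h] at hz2; norm_num at hz2; linarith
  have a0 : t * |z|^3 ≤ 8 := by
    calc t * |z|^3 ≤ 8*Q^3 * |z|^3 := mul_le_mul_of_nonneg_right ht2 (by positivity)
      _ = 8 * (|z| * Q)^3 := by ring
      _ ≤ 8 * 1^3 := by
        apply mul_le_mul_of_nonneg_left _ (by norm_num)
        exact cub_le (by positivity) hz
      _ = 8 := by norm_num
  -- |s| <= (3/2) t
  have hst : |s| ≤ 3/2 * t := by
    have : (|s| * |z|)^2 ≤ (3/2)^2 := pow_le_pow_left₀ (by positivity) hs 2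
    apply le_of_sq_le_sq _ (by positivity)
    have hQ3 : 1 ≤ Q^3 := by nlinarith [pow_pos hQ0 2, pow_le_pow_left₀ (by norm_num : (0:ℝ) ≤ 1) hQ 3]
    have h11 : 1 ≤ |z|^2 * Q^3 := by linarith
    calc |s|^2 = |s|^2 * 1 := by ring
      _ ≤ |s|^2 * (|z|^2 * Q^3) := by gcongr
      _ = (|s| * |z|)^2 * Q^3 := by ring
      _ ≤ (3/2)^2 * Q^3 := by gcongr
      _ ≤ (3/2)^2 * (Q^3)^2 := by gcongr; nlinarith
      _ ≤ (3/2)^2 * t^2 := by gcongr
      _ = (3/2*t)^2 := by ring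
  have hq2s : q^2 * |s| ≤ 3/2 * t := by
    apply le_of_sq_le_sq _ (by positivity)
    have : (|s| * |z|)^2 ≤ (3/2)^2 := pow_le_pow_left₀ (by positivity) hs 2
    calc (q^2 * |s|)^2 = q^3 * |s|^2 * q := by ring
      _ ≤ q^3 * |s|^2 * (|z|^2 * Q^3) := by gcongr
      _ = q^3 * (|s| * |z|)^2 * Q^3 := by ring
      _ ≤ Q^3 * (3/2)^2 * Q^3 := by gcongr
      _ = (3/2)^2 * (Q^3)^2 := by ring
      _ ≤ (3/2)^2 * t^2 := by gcongr
      _ = (3/2*t)^2 := by ring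
  have hqs2 : q * |s|^2 ≤ 9/4 * t := by
    have : (|s| * |z|)^2 ≤ (3/2)^2 := pow_le_pow_left₀ (by positivity) hs 2
    calc q * |s|^2 ≤ (|z|^2 * Q^3) * |s|^2 := by gcongr
      _ = (|s| * |z|)^2 * Q^3 := by ring
      _ ≤ (3/2)^2 * t := by gcongr
      _ = 9/4 * t := by ring
  have b1 : |e| * |w| * q^2 ≤ C := by
    calc |e| * |w| * q^2 ≤ |e| * 1 * q^2 := by gcongr
      _ = |e| * q^2 := by ring
      _ ≤ C := h3
  have b2 : |e| * |z| * q * |s| ≤ 3/2 * C := by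
    calc |e| * |z| * q * |s| = |e| * q * (|s| * |z|) := by ring
      _ ≤ |e| * q * (3/2) := by gcongr
      _ ≤ |e| * t * (3/2) := by gcongr
      _ ≤ 3/2 * C := by linarith
  have b3 : |e| * t * q^2 * |s| ≤ 3/2 * C := by
    calc |e| * t * q^2 * |s| = |e| * t * (q^2 * |s|) := by ring
      _ ≤ |e| * t * (3/2 * t) := by gcongr
      _ = 3/2 * (|e| * t^2) := by ring
      _ ≤ 3/2 * C := by linarith
  have b4 : |e| * t * q * |s|^2 ≤ 9/4 * C := by
    calc |e| * t * q * |s|^2 = |e| * t * (q * |s|^2) := by ring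
      _ ≤ |e| * t * (9/4 * t) := by gcongr
      _ = 9/4 * (|e| * t^2) := by ring
      _ ≤ 9/4 * C := by linarith
  have b5 : |e| * |z| * |s|^2 ≤ 9/4 * C := by
    calc |e| * |z| * |s|^2 = |e| * (|s| * |z|) * |s| := by ring
      _ ≤ |e| * (3/2) * (3/2 * t) := by gcongr
      _ = 9/4 * (|e| * t) := by ring
      _ ≤ 9/4 * C := by linarith
  have b6 : |e| * |w| * q * |s| ≤ 3/4 * C := by
    calc |e| * |w| * q * |s| ≤ |e| * (|z|/2) * q * |s| := by gcongr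
      _ = 1/2 * (|e| * |z| * q * |s|) := by ring
      _ ≤ 1/2 * (3/2 * C) := by gcongr
      _ = 3/4 * C := by ring
  have hi2 : i^2 ≤ 1 := by nlinarith
  have hi3 : i^3 ≤ 1 := by nlinarith [pow_nonneg hi0 2]
  constructor
  · refine (absC1 (by linarith) (by linarith) hi0).trans ?_
    have a1 : t * |z|^2 * |w| ≤ 4 := by
      calc t * |z|^2 * |w| ≤ t * |z|^2 * (|z|/2) := by gcongr
        _ = 1/2 * (t * |z|^3) := by ring
        _ ≤ 4 := by linarith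
    have a2 : i * |z|^3 * |w| ≤ 1 := by
      calc i * |z|^3 * |w| ≤ 1 * 1^3 * 1 := by gcongr
        _ = 1 := by norm_num
    have a3 : i^2 * |z|^3 ≤ 1 := by
      calc i^2 * |z|^3 ≤ 1 * 1^3 := by gcongr
        _ = 1 := by norm_num
    linarith
  · refine (absC2 (by linarith) (by linarith) hi0).trans ?_
    have a1 : t * |z| * |w|^2 ≤ 2 := by
      calc t * |z| * |w|^2 ≤ t * |z| * (|z|/2)^2 := by gcongr
        _ = 1/4 * (t * |z|^3) := by ring
        _ ≤ 2 := by linarith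
    have a2 : i * |z|^2 * |w|^2 ≤ 1 := by
      calc i * |z|^2 * |w|^2 ≤ 1 * 1^2 * 1^2 := by gcongr
        _ = 1 := by norm_num
    have a3 : i^2 * |z|^2 * |w| ≤ 1 := by
      calc i^2 * |z|^2 * |w| ≤ 1 * 1^2 * 1 := by gcongr
        _ = 1 := by norm_num
    have a4 : i^3 * |z|^2 ≤ 1 := by
      calc i^3 * |z|^2 ≤ 1 * 1^2 := by gcongr
        _ = 1 := by norm_num
    linarith

end

end Pool.Agent.Hall72
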