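import Mathlib
import Pool.Agent.LibHall72C

namespace Pool.Agent.Hall72

noncomputable section

lemma exists_vec (x : ℤ) {n : ℕ} (hn : 0 < n) :
    ∃ p q : ℤ, 1 ≤ q ∧ q ≤ n ∧ IsCoprime p q ∧ |zz x p q| * n ≤ 1 := by
  obtain ⟨a, ha, hd⟩ := Real.exists_rat_abs_sub_le_and_den_le (tt x) hn
  refine ⟨a.num, a.den, by exact_mod_cast a.pos, by exact_mod_cast hd, ?_, ?_⟩
  · rw [Int.isCoprime_iff_gcd_eq_one]
    have := a.reduced
    rw [Int.gcd_eq_natAbs]
    simpa [Nat.Coprime] using this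
  · have hden : (0:ℝ) < a.den := by exact_mod_cast a.pos
    have hcast : (a:ℝ) = a.num / a.den := by exact_mod_cast (Rat.num_div_den a).symm
    have hz : zz x a.num a.den = - ((tt x - a) * a.den) := by
      unfold zz
      rw [hcast]
      field_simp
      push_cast
      ring
    rw [hz, abs_neg, abs_mul, abs_of_pos hden]
    have hn' : (0:ℝ) < n := by exact_mod_cast hn
    have h2 : |tt x - a| * a.den ≤ 1 / (n+1) := by
      calc |tt x - a| * a.den ≤ 1 / ((n+1) * a.den) * a.den := by gcongr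
        _ = 1 / (n+1) := by field_simp
    calc |tt x - a| * a.den * n ≤ 1/(n+1) * n := by gcongr
      _ ≤ 1 := by
        rw [div_mul_eq_mul_div, one_mul, div_le_one (by positivity)]
        linarith

lemma exists_compl {p q : ℤ} (hq : 0 < q) (h : IsCoprime p q) :
    ∃ r s : ℤ, 0 ≤ s ∧ s < q ∧ p*s - r*q = 1 := by
  obtain ⟨a, b, hab⟩ := h
  refine ⟨-b - p * (a / q), a % q, Int.emod_nonneg _ hq.ne', Int.emod_lt_of_pos _ hq, ?_⟩
  have := Int.emod_add_mul_ediv a q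
  have h2 : a % q = a - q * (a/q) := by linarith
  rw [h2]
  linear_combination hab

lemma basis1 {x p q : ℤ} {n : ℕ} (hq : 1 ≤ q) (hqn : q ≤ n) (h : IsCoprime p q)
    (hz : |zz x p q| * n ≤ 1) :
    ∃ r s : ℤ, 0 ≤ s ∧ s < q ∧ p*s - r*q = 1 ∧ |zz x r s| * q ≤ 2 := by
  obtain ⟨r, s, hs0, hs1, hd⟩ := exists_compl (by linarith) h
  refine ⟨r, s, hs0, hs1, hd, ?_⟩
  have hdet := zdet (x := x) hd
  have hqR : (0:ℝ) < q := by exact_mod_cast (by linarith : (0:ℤ) < q)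
  have hsR : (0:ℝ) ≤ s := by exact_mod_cast hs0
  have hsn : (s:ℝ) ≤ n := by
    have : s ≤ (n:ℤ) := by linarith
    exact_mod_cast this
  have e1 : |zz x r s| * q = |zz x r s * q| := by rw [abs_mul, abs_of_pos hqR]
  rw [e1]
  have e2 : zz x r s * q = zz x p q * s - 1 := by linarith
  rw [e2]
  refine (abs_sub _ _).trans ?_
  rw [abs_mul, abs_of_nonneg hsR, abs_one]
  have : |zz x p q| * s ≤ |zz x p q| * n := by gcongr
  linarith

lemma basis2 {x p q : ℤ} {n : ℕ} (hq : 1 ≤ q) (hqn : q ≤ n) (h : IsCoprime p q)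
    (hz : |zz x p q| * n ≤ 1) (hz0 : zz x p q ≠ 0) :
    ∃ r s : ℤ, p*s - r*q = 1 ∧ |zz x r s| ≤ |zz x p q| / 2 ∧ |(s:ℝ)| * |zz x p q| ≤ 3/2 := by
  obtain ⟨r, s, hs0, hs1, hd⟩ := exists_compl (by linarith) h
  set j : ℤ := round (zz x r s / zz x p q) with hj
  have hd' : p*(s - j*q) - (r - j*p)*q = 1 := by linear_combination hd
  have hw : zz x (r - j*p) (s - j*q) = zz x r s - j * zz x p q := by
    unfold zz; push_cast; ring
  have hw2 : |zz x (r - j*p) (s - j*q)| ≤ |zz x p q| / 2 := by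
    rw [hw]
    have h1 := abs_sub_round (zz x r s / zz x p q)
    have h2 : zz x r s - j * zz x p q = (zz x r s / zz x p q - j) * zz x p q := by
      field_simp
    rw [h2, abs_mul]
    calc |zz x r s / zz x p q - j| * |zz x p q| ≤ 1/2 * |zz x p q| := by gcongr
      _ = _ := by ring
  refine ⟨r - j*p, s - j*q, hd', hw2, ?_⟩
  have hdet := zdet (x := x) hd'
  have hqR : (0:ℝ) < q := by exact_mod_cast (by linarith : (0:ℤ) < q)
  have hqn' : (q:ℝ) ≤ n := by exact_mod_cast hqn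
  rw [← abs_mul, mul_comm]
  have e2 : zz x p q * ((s - j*q : ℤ):ℝ) = 1 + zz x (r - j*p) (s - j*q) * q := by linarith
  rw [e2]
  refine (abs_add_le _ _).trans ?_
  rw [abs_one, abs_mul, abs_of_pos hqR]
  have : |zz x (r - j*p) (s - j*q)| * q ≤ |zz x p q| / 2 * n := by gcongr
  linarith

/-- `W ≠ 0`. -/
lemma W_ne {x y p q : ℤ} {C : ℝ} (hx : 0 < x) (hne : y^2 ≠ x^3)
    (hk : |((y:ℝ)^2 - (x:ℝ)^3)| ≤ C * tt x) (hq : 1 ≤ q) (hpq : IsCoprime p q)
    (hz : |zz x p q| ≤ 1) (ht : 3 ≤ tt x) (hC : 2 * C < tt x) :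
    p^3 - 3*x*p*q^2 + 2*y*q^3 ≠ 0 := by
  intro hW
  have hqd : q ∣ p^3 := ⟨3*x*p*q - 2*y*q^2, by linear_combination hW⟩
  have hq1 : q = 1 := by
    have hc : IsCoprime (p^3) q := hpq.pow_left
    have hu : IsUnit q := hc.isUnit_of_dvd' hqd dvd_rfl
    rcases Int.isUnit_iff.mp hu with h | h
    · exact h
    · omega
  subst hq1
  have h2y : 2*y = 3*x*p - p^3 := by linear_combination hW
  have h4 : 4*(y^2 - x^3) = -((x - p^2)^2 * (4*x - p^2)) := by
    have : 4*y^2 = (3*x*p - p^3)^2 := by rw [← h2y]; ring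
    linear_combination this
  have hxp : x - p^2 ≠ 0 := by
    intro h0
    apply hne
    rw [h0] at h4
    linarith
  have hsq : 1 ≤ (x - p^2)^2 := by
    have : 0 < (x - p^2)^2 := by positivity
    linarith
  have hxt := tt_sq hx
  have hpr : (p:ℝ) = tt x + zz x p 1 := by unfold zz; push_cast; ring
  have hz' := abs_le.mp hz
  have hp2 : (p:ℝ)^2 ≤ 2 * (tt x)^2 := by
    rw [hpr]
    nlinarith
  have h5 : (2:ℝ) * x ≤ 4*x - (p:ℝ)^2 := by rw [hxt]; linarith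
  have hxR : (0:ℝ) < x := by exact_mod_cast hx
  have h6 : (2:ℝ) * x ≤ |4*((y:ℝ)^2 - (x:ℝ)^3)| := by
    have e : 4*((y:ℝ)^2 - (x:ℝ)^3) = -(((x:ℝ) - p^2)^2 * (4*x - p^2)) := by exact_mod_cast h4
    rw [e, abs_neg, abs_of_nonneg (mul_nonneg (sq_nonneg _) (by linarith))]
    have hsqR : (1:ℝ) ≤ ((x:ℝ) - p^2)^2 := by exact_mod_cast hsq
    calc (2:ℝ)*x ≤ 4*x - (p:ℝ)^2 := h5
      _ = 1 * (4*x - (p:ℝ)^2) := by ring
      _ ≤ _ := by
        apply mul_le_mul_of_nonneg_right hsqR; linarith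
  rw [abs_mul] at h6
  norm_num at h6
  rw [hxt] at h6 hk
  have : tt x * (tt x - 2*C) ≤ 0 := by nlinarith
  nlinarith

end

end Pool.Agent.Hall72
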