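import Mathlib
import Pool.Agent.LibHall72D

namespace Pool.Agent.Hall72

noncomputable section

/-- `x` admits an exception to Hall's inequality with constant `C`. -/
def Exc (C : ℝ) (x : ℤ) : Prop :=
  ∃ y : ℤ, y^2 ≠ x^3 ∧ |((y:ℝ)^2 - (x:ℝ)^3)| ≤ C * tt x

def Gd (B B2 : ℝ) (q s x : ℤ) : Prop :=
  0 < x ∧ ∃ y p r : ℤ, p*s - r*q = 1 ∧ p^3 - 3*x*p*q^2 + 2*y*q^3 ≠ 0 ∧
      |D0 x y p q| ≤ B ∧ |D1 x y p q r s| ≤ B ∧ |D2 x y p q r s| ≤ B2

lemma ee_bound {C : ℝ} {x y : ℤ} (hx : 0 < x) (hy : 0 ≤ y)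
    (hk : |((y:ℝ)^2 - (x:ℝ)^3)| ≤ C * tt x) : |ee x y| * (tt x)^2 ≤ C := by
  have hxt := tt_sq hx
  have htpos : 0 < tt x := by
    unfold tt; exact Real.sqrt_pos.mpr (by exact_mod_cast hx)
  have h1 : (y:ℝ)^2 - (x:ℝ)^3 = ee x y * (y + (tt x)^3) := by
    unfold ee; rw [hxt]; ring
  rw [h1, abs_mul] at hk
  have hyR : (0:ℝ) ≤ y := by exact_mod_cast hy
  have h2 : (tt x)^3 ≤ |(y:ℝ) + (tt x)^3| := by
    rw [abs_of_nonneg (by positivity)]; linarith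
  have h3 : |ee x y| * (tt x)^3 ≤ C * tt x := by
    calc |ee x y| * (tt x)^3 ≤ |ee x y| * |(y:ℝ) + (tt x)^3| := by gcongr
      _ ≤ _ := hk
  have h4 : (|ee x y| * (tt x)^2) * tt x ≤ C * tt x := by
    calc (|ee x y| * (tt x)^2) * tt x = |ee x y| * (tt x)^3 := by ring
      _ ≤ _ := h3
  exact le_of_mul_le_mul_right h4 htpos

lemma good {C : ℝ} {n : ℕ} (hn : 0 < n) {x : ℤ} (hx1 : (n:ℤ)^6 ≤ x)
    (hx2 : x < 64 * (n:ℤ)^6) (ht : 3 ≤ tt x) (hCt : 2*C < tt x) (hE : Exc C x) :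
    ∃ q : ℤ, 1 ≤ q ∧ q ≤ n ∧
      ((∃ s : ℤ, 0 ≤ s ∧ s < q ∧
          Gd (200+100*C) (384 * Real.sqrt ((n:ℝ)^3/(q:ℝ)^3) + (200+100*C)) q s x) ∨
       (∃ s : ℤ, |(s:ℝ)| ≤ 3/2 * Real.sqrt ((n:ℝ)^3/q) ∧
          Gd (200+100*C) (200+100*C) q s x)) := by
  have hnZ : (0:ℤ) < n := by exact_mod_cast hn
  have hx : 0 < x := lt_of_lt_of_le (by positivity) hx1
  have hxt := tt_sq hx
  have htpos : 0 < tt x := by linarith
  -- choose y ≥ 0
  obtain ⟨y, hy0, hne, hk⟩ : ∃ y : ℤ, 0 ≤ y ∧ y^2 ≠ x^3 ∧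
      |((y:ℝ)^2 - (x:ℝ)^3)| ≤ C * tt x := by
    obtain ⟨y, h1, h2⟩ := hE
    refine ⟨|y|, abs_nonneg y, by rwa [sq_abs], ?_⟩
    push_cast
    rwa [sq_abs]
  have he := ee_bound hx hy0 hk
  have hQ : (1:ℝ) ≤ n := by exact_mod_cast hn
  have ht1 : (n:ℝ)^3 ≤ tt x := by
    apply le_of_sq_le_sq _ htpos.le
    rw [← hxt]
    have : ((n:ℤ)^6 : ℤ) ≤ x := hx1
    calc ((n:ℝ)^3)^2 = (((n:ℤ)^6 : ℤ):ℝ) := by push_cast; ring
      _ ≤ x := by exact_mod_cast this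
  have ht2 : tt x ≤ 8 * (n:ℝ)^3 := by
    apply le_of_sq_le_sq _ (by positivity)
    rw [← hxt]
    calc (x:ℝ) ≤ ((64*(n:ℤ)^6 : ℤ):ℝ) := by exact_mod_cast hx2.le
      _ = (8*(n:ℝ)^3)^2 := by push_cast; ring
  obtain ⟨p, q, hq1, hqn, hcop, hz⟩ := exists_vec x hn
  have hq1R : (1:ℝ) ≤ q := by exact_mod_cast hq1
  have hqnR : (q:ℝ) ≤ n := by exact_mod_cast hqn
  have hi0 : 0 ≤ 1/(q:ℝ) := by positivity
  have hi1 : 1/(q:ℝ) ≤ 1 := by rw [div_le_one (by linarith)]; exact hq1R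
  have hz1 : |zz x p q| ≤ 1 := by
    have := abs_nonneg (zz x p q)
    nlinarith
  have hW := W_ne hx hne hk hq1 hcop hz1 ht hCt
  have B0 : |D0 x y p q| ≤ 200 + 100*C := bndC0 hQ hq1R hqnR ht1 ht2 he hi0 hi1 hz
  refine ⟨q, hq1, hqn, ?_⟩
  rcases le_total (|zz x p q|^2 * (n:ℝ)^3) q with hcase | hcase
  · left
    obtain ⟨r, s, hs0, hs1, hd, hw⟩ := basis1 hq1 hqn hcop hz
    have hsq : |(s:ℝ)| ≤ q := by
      rw [abs_of_nonneg (by exact_mod_cast hs0)]; exact_mod_cast hs1.le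
    have hR2 : (Real.sqrt ((n:ℝ)^3/(q:ℝ)^3))^2 * (q:ℝ)^3 = (n:ℝ)^3 := by
      rw [Real.sq_sqrt (by positivity)]
      field_simp
    obtain ⟨b1, b2⟩ := bnd1 (i := 1/(q:ℝ)) hQ hq1R hqnR ht1 ht2 he hi0 hi1 hz hcase hw hsq
      (Real.sqrt_nonneg _) hR2
    exact ⟨s, hs0, hs1, hx, y, p, r, hd, hW, B0, b1, b2⟩
  · right
    have hz0 : zz x p q ≠ 0 := by
      intro h0
      rw [h0] at hcase
      norm_num at hcase
      linarith
    obtain ⟨r, s, hd, hw, hs⟩ := basis2 hq1 hqn hcop hz hz0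
    obtain ⟨b1, b2⟩ := bnd2 (i := 1/(q:ℝ)) hQ hq1R hqnR ht1 ht2 he hi0 hi1 hz hcase hw hs
    refine ⟨s, ?_, hx, y, p, r, hd, hW, B0, b1, b2⟩
    have hzpos : 0 < |zz x p q| := abs_pos.mpr hz0
    have : |(s:ℝ)| ≤ 3/2 * Real.sqrt ((n:ℝ)^3/q) := by
      apply le_of_sq_le_sq _ (by positivity)
      rw [mul_pow, Real.sq_sqrt (by positivity)]
      have h1 : (|(s:ℝ)| * |zz x p q|)^2 ≤ (3/2)^2 := pow_le_pow_left₀ (by positivity) hs 2
      rw [mul_div_assoc', le_div_iff₀ (by linarith)]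
      calc |(s:ℝ)|^2 * q ≤ |(s:ℝ)|^2 * (|zz x p q|^2 * (n:ℝ)^3) := by gcongr
        _ = (|(s:ℝ)| * |zz x p q|)^2 * (n:ℝ)^3 := by ring
        _ ≤ (3/2)^2 * (n:ℝ)^3 := by gcongr
    exact this

lemma sum_inv_sqrt (n : ℕ) : ∑ q ∈ Finset.Icc 1 n, 1 / Real.sqrt (q:ℝ) ≤ 2 * Real.sqrt n := by
  induction n with
  | zero => simp
  | succ m ih =>
    rw [Finset.sum_Icc_succ_top (by omega)]
    have h1 : 1 / Real.sqrt ((m+1 : ℕ):ℝ) ≤ 2 * Real.sqrt ((m+1:ℕ):ℝ) - 2 * Real.sqrt m := by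
      have hpos : 0 < Real.sqrt ((m+1:ℕ):ℝ) := Real.sqrt_pos.mpr (by positivity)
      rw [div_le_iff₀ hpos]
      have a1 : Real.sqrt ((m+1:ℕ):ℝ) * Real.sqrt ((m+1:ℕ):ℝ) = m + 1 := by
        rw [Real.mul_self_sqrt (by positivity)]; push_cast; ring
      have a2 : Real.sqrt (m:ℝ) * Real.sqrt ((m+1:ℕ):ℝ) ≤ m + 1/2 := by
        have b1 : Real.sqrt (m:ℝ) * Real.sqrt (m:ℝ) = m := Real.mul_self_sqrt (by positivity)
        nlinarith [sq_nonneg (Real.sqrt (m:ℝ) - Real.sqrt ((m+1:ℕ):ℝ))]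
      nlinarith
    linarith

open Classical in
lemma block {C : ℝ} (hC : 0 ≤ C) : ∃ K : ℝ, 0 ≤ K ∧ ∀ n : ℕ, 0 < n → 3 ≤ (n:ℝ) → 2*C < n →
    (((Finset.Ico ((n:ℤ)^6) (64*(n:ℤ)^6)).filter (Exc C)).card : ℝ) ≤ K * (n:ℝ)^2 := by
  set B : ℝ := 200 + 100*C with hB
  have hB0 : 0 ≤ B := by rw [hB]; positivity
  set K1 : ℝ := (2*B+2)^2*(768+2*B+2) with hK1
  set K2 : ℝ := (2*B+2)^2*(2*B+2) with hK2
  refine ⟨2*(K1 + 4*K2), by positivity, ?_⟩
  intro n hn hn3 hCn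
  set E := (Finset.Ico ((n:ℤ)^6) (64*(n:ℤ)^6)).filter (Exc C) with hEdef
  have hnR : (1:ℝ) ≤ n := by linarith
  let S : ℕ → ℝ := fun q => Real.sqrt ((n:ℝ)^3/(q:ℝ))
  let R : ℕ → ℝ := fun q => Real.sqrt ((n:ℝ)^3/(q:ℝ)^3)
  let M : ℕ → ℤ := fun q => ⌊3/2 * S q⌋
  let FA : ℕ → ℤ → Finset ℤ := fun q s => E.filter (Gd B (384 * R q + B) q s)
  let FB : ℕ → ℤ → Finset ℤ := fun q s => E.filter (Gd B B q s)
  have hcover : E ⊆ (Finset.Icc 1 n).biUnion (fun q =>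
      (Finset.Ico (0:ℤ) q).biUnion (FA q) ∪ (Finset.Icc (-(M q)) (M q)).biUnion (FB q)) := by
    intro x hx
    have hx' := hx
    rw [hEdef, Finset.mem_filter, Finset.mem_Ico] at hx'
    obtain ⟨⟨h1, h2⟩, h3⟩ := hx'
    have hxpos : 0 < x := lt_of_lt_of_le (by positivity) h1
    have htn : (n:ℝ) ≤ tt x := by
      have hxt := tt_sq hxpos
      apply le_of_sq_le_sq _ (by unfold tt; positivity)
      rw [← hxt]
      have a1 : (n:ℝ)^6 ≤ x := by exact_mod_cast h1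
      have a2 : (n:ℝ)^2 ≤ (n:ℝ)^6 := pow_le_pow_right₀ hnR (by norm_num)
      linarith
    obtain ⟨q, hq1, hqn, hh⟩ := good hn h1 h2 (by linarith) (by linarith) h3
    rw [Finset.mem_biUnion]
    have hqnat : ((q.toNat : ℕ) : ℤ) = q := Int.toNat_of_nonneg (by linarith)
    have hqR : ((q.toNat : ℕ) : ℝ) = (q:ℝ) := by exact_mod_cast congrArg (fun z : ℤ => (z:ℝ)) hqnat
    refine ⟨q.toNat, ?_, ?_⟩
    · rw [Finset.mem_Icc]; omega
    · rw [Finset.mem_union]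
      rcases hh with ⟨s, hs0, hs1, hg⟩ | ⟨s, hs, hg⟩
      · left
        rw [Finset.mem_biUnion]
        refine ⟨s, ?_, ?_⟩
        · rw [Finset.mem_Ico, hqnat]; exact ⟨hs0, hs1⟩
        · simp only [FA, R]
          rw [Finset.mem_filter, hqnat, hqR]
          exact ⟨hx, hg⟩
      · right
        rw [Finset.mem_biUnion]
        refine ⟨s, ?_, ?_⟩
        · simp only [M, S]
          rw [hqR, Finset.mem_Icc]
          rw [abs_le] at hs
          constructor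
          · have : -s ≤ ⌊3/2 * Real.sqrt ((n:ℝ)^3/q)⌋ := by
              rw [Int.le_floor]; push_cast; linarith [hs.1]
            linarith
          · rw [Int.le_floor]; exact hs.2
        · simp only [FB]
          rw [Finset.mem_filter, hqnat]
          exact ⟨hx, hg⟩
  have hcard : (E.card : ℝ) ≤ ∑ q ∈ Finset.Icc 1 n, (K1 + 4*K2) * S q := by
    have h1 : E.card ≤ ∑ q ∈ Finset.Icc 1 n, (∑ s ∈ Finset.Ico (0:ℤ) q, (FA q s).card
        + ∑ s ∈ Finset.Icc (-(M q)) (M q), (FB q s).card) := by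
      refine (Finset.card_le_card hcover).trans (Finset.card_biUnion_le.trans ?_)
      apply Finset.sum_le_sum
      intro q _
      refine (Finset.card_union_le _ _).trans ?_
      exact add_le_add Finset.card_biUnion_le Finset.card_biUnion_le
    have h2 : (E.card : ℝ) ≤ ∑ q ∈ Finset.Icc 1 n, (∑ s ∈ Finset.Ico (0:ℤ) q, ((FA q s).card:ℝ)
        + ∑ s ∈ Finset.Icc (-(M q)) (M q), ((FB q s).card:ℝ)) := by exact_mod_cast h1
    refine h2.trans (Finset.sum_le_sum ?_)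
    intro q hq
    rw [Finset.mem_Icc] at hq
    have hq1 : (1:ℝ) ≤ q := by exact_mod_cast hq.1
    have hq0 : (0:ℝ) < q := by linarith
    have hqn : (q:ℝ) ≤ n := by exact_mod_cast hq.2
    have hqZ : (0:ℤ) < (q:ℤ) := by exact_mod_cast hq.1
    have hR1 : 1 ≤ R q := by
      simp only [R]
      rw [Real.one_le_sqrt, le_div_iff₀ (by positivity), one_mul]
      exact cub_le hq0.le hqn
    have hS1 : 1 ≤ S q := by
      simp only [S]
      rw [Real.one_le_sqrt, le_div_iff₀ (by positivity), one_mul]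
      calc (q:ℝ) ≤ n := hqn
        _ ≤ (n:ℝ)^3 := by nlinarith [sq_nonneg ((n:ℝ)), pow_le_pow_right₀ hnR (show 1 ≤ 3 by norm_num)]
    have hqR : (q:ℝ) * R q = S q := by
      simp only [R, S]
      have e : (n:ℝ)^3/(q:ℝ) = (q:ℝ)^2 * ((n:ℝ)^3/(q:ℝ)^3) := by field_simp
      rw [e, Real.sqrt_mul (by positivity), Real.sqrt_sq hq0.le]
    have a1 : ∑ s ∈ Finset.Ico (0:ℤ) q, ((FA q s).card:ℝ) ≤ K1 * S q := by
      have : ∀ s ∈ Finset.Ico (0:ℤ) q, ((FA q s).card:ℝ) ≤ K1 * R q := by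
        intro s _
        have hc := card_le (S := FA q s) (q := (q:ℤ)) (s := s) hqZ hB0
          (B2 := 384 * R q + B) (by positivity) (by
            intro x hx
            simp only [FA] at hx
            rw [Finset.mem_filter] at hx
            exact hx.2)
        refine hc.trans ?_
        rw [hK1]
        have : 2*(384 * R q + B)+2 ≤ (768+2*B+2) * R q := by nlinarith
        calc (2*B+2)^2 * (2*(384 * R q + B)+2) ≤ (2*B+2)^2 * ((768+2*B+2) * R q) := by gcongr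
          _ = _ := by ring
      refine (Finset.sum_le_card_nsmul _ _ _ this).trans ?_
      rw [Int.card_Ico, nsmul_eq_mul]
      simp only [sub_zero, Int.toNat_natCast]
      rw [← hqR]
      apply le_of_eq; ring
    have a2 : ∑ s ∈ Finset.Icc (-(M q)) (M q), ((FB q s).card:ℝ) ≤ 4 * K2 * S q := by
      have : ∀ s ∈ Finset.Icc (-(M q)) (M q), ((FB q s).card:ℝ) ≤ K2 := by
        intro s _
        have hc := card_le (S := FB q s) (q := (q:ℤ)) (s := s) hqZ hB0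
          (B2 := B) hB0 (by
            intro x hx
            simp only [FB] at hx
            rw [Finset.mem_filter] at hx
            exact hx.2)
        exact hc
      refine (Finset.sum_le_card_nsmul _ _ _ this).trans ?_
      rw [nsmul_eq_mul]
      have hMle : ((Finset.Icc (-(M q)) (M q)).card : ℝ) ≤ 4 * S q := by
        rw [Int.card_Icc]
        have hM0 : 0 ≤ M q := Int.floor_nonneg.mpr (by positivity)
        have h3 : ((M q + 1 - -(M q)).toNat : ℤ) = M q + 1 - -(M q) :=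
          Int.toNat_of_nonneg (by linarith)
        have h4 : (((M q + 1 - -(M q)).toNat : ℕ) : ℝ) = 2 * (M q : ℝ) + 1 := by
          have := congrArg (fun z : ℤ => (z:ℝ)) h3
          push_cast at this
          have h5 : (((M q + 1 - -(M q)).toNat : ℕ) : ℝ) = (M q : ℝ) + 1 - -(M q : ℝ) := by
            exact_mod_cast this
          rw [h5]; ring
        rw [h4]
        have := Int.floor_le (3/2 * S q)
        have h6 : (M q : ℝ) ≤ 3/2 * S q := this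
        linarith
      calc ((Finset.Icc (-(M q)) (M q)).card : ℝ) * K2 ≤ 4 * S q * K2 := by gcongr
        _ = _ := by ring
    calc _ ≤ K1 * S q + 4 * K2 * S q := add_le_add a1 a2
      _ = _ := by ring
  refine hcard.trans ?_
  rw [← Finset.mul_sum]
  have hsum : ∑ q ∈ Finset.Icc 1 n, S q ≤ 2 * (n:ℝ)^2 := by
    have e : ∀ q ∈ Finset.Icc 1 n, S q = (n:ℝ) * Real.sqrt n * (1 / Real.sqrt (q:ℝ)) := by
      intro q hq
      simp only [S]
      rw [Real.sqrt_div (by positivity)]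
      have : Real.sqrt ((n:ℝ)^3) = n * Real.sqrt n := by
        have : (n:ℝ)^3 = (n:ℝ)^2 * n := by ring
        rw [this, Real.sqrt_mul (by positivity), Real.sqrt_sq (by positivity)]
      rw [this]; ring
    rw [Finset.sum_congr rfl e, ← Finset.mul_sum]
    have := sum_inv_sqrt n
    calc (n:ℝ) * Real.sqrt n * ∑ q ∈ Finset.Icc 1 n, 1 / Real.sqrt (q:ℝ)
        ≤ (n:ℝ) * Real.sqrt n * (2 * Real.sqrt n) := by gcongr
      _ = 2 * n * (Real.sqrt n * Real.sqrt n) := by ring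
      _ = 2 * (n:ℝ)^2 := by rw [Real.mul_self_sqrt (by positivity)]; ring
  calc (K1 + 4*K2) * ∑ q ∈ Finset.Icc 1 n, S q ≤ (K1 + 4*K2) * (2 * (n:ℝ)^2) := by gcongr
    _ = _ := by ring

end

end Pool.Agent.Hall72
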