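import Mathlib
import Pool.Agent.LibHall72E

namespace Pool.Agent.Hall72

noncomputable section

open Classical in
lemma total {C : ℝ} (hC : 0 ≤ C) : ∃ K : ℝ, 0 < K ∧ ∀ m : ℕ,
    (((Finset.Ico (1:ℤ) (64^m)).filter (Exc C)).card : ℝ) ≤ K * 4^m := by
  obtain ⟨K, hK0, hK⟩ := block hC
  obtain ⟨m0, hm0⟩ := pow_unbounded_of_one_lt (max 3 (2*C)) (by norm_num : (1:ℝ) < 2)
  have h3 : (3:ℝ) < 2^m0 := lt_of_le_of_lt (le_max_left _ _) hm0
  have h2C : 2*C < 2^m0 := lt_of_le_of_lt (le_max_right _ _) hm0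
  refine ⟨64^m0 + K, by positivity, ?_⟩
  intro m
  induction m with
  | zero => simp; positivity
  | succ m ih =>
    by_cases hm : m + 1 ≤ m0
    · have h1 : (((Finset.Ico (1:ℤ) (64^(m+1))).filter (Exc C)).card : ℝ) ≤ 64^(m+1) := by
        have : ((Finset.Ico (1:ℤ) (64^(m+1))).filter (Exc C)).card ≤ 64^(m+1) := by
          refine (Finset.card_filter_le _ _).trans ?_
          rw [Int.card_Ico]
          have : ((64:ℤ)^(m+1) - 1).toNat ≤ ((64:ℤ)^(m+1)).toNat := Int.toNat_le_toNat (by linarith)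
          refine this.trans (le_of_eq ?_)
          have : (64:ℤ)^(m+1) = ((64^(m+1) : ℕ) : ℤ) := by push_cast; ring
          rw [this, Int.toNat_natCast]
        exact_mod_cast this
      have h2 : (64:ℝ)^(m+1) ≤ 64^m0 := pow_le_pow_right₀ (by norm_num) hm
      have h4 : (1:ℝ) ≤ 4^(m+1) := one_le_pow₀ (by norm_num)
      calc _ ≤ (64:ℝ)^(m+1) := h1
        _ ≤ 64^m0 + K := by linarith
        _ = (64^m0 + K) * 1 := by ring
        _ ≤ (64^m0 + K) * 4^(m+1) := by gcongr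
    · have hm' : m0 ≤ m := by omega
      have hsplit : (Finset.Ico (1:ℤ) (64^(m+1))).filter (Exc C) ⊆
          (Finset.Ico (1:ℤ) (64^m)).filter (Exc C) ∪
          (Finset.Ico (((2^m:ℕ):ℤ)^6) (64*((2^m:ℕ):ℤ)^6)).filter (Exc C) := by
        intro x hx
        rw [Finset.mem_filter, Finset.mem_Ico] at hx
        have e1 : (((2^m:ℕ):ℤ)^6) = 64^m := by
          push_cast
          rw [← pow_mul, mul_comm, pow_mul]; norm_num
        rw [Finset.mem_union, Finset.mem_filter, Finset.mem_filter, Finset.mem_Ico,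
          Finset.mem_Ico, e1]
        rcases lt_or_ge x (64^m) with h | h
        · left; exact ⟨⟨hx.1.1, h⟩, hx.2⟩
        · right
          refine ⟨⟨h, ?_⟩, hx.2⟩
          have := hx.1.2
          rw [pow_succ] at this
          linarith
      have hb := hK (2^m) (by positivity) (by
        push_cast
        have : (2:ℝ)^m0 ≤ 2^m := pow_le_pow_right₀ (by norm_num) hm'
        linarith) (by
        push_cast
        have : (2:ℝ)^m0 ≤ 2^m := pow_le_pow_right₀ (by norm_num) hm'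
        linarith)
      have hc : (((Finset.Ico (1:ℤ) (64^(m+1))).filter (Exc C)).card : ℝ) ≤
          (((Finset.Ico (1:ℤ) (64^m)).filter (Exc C)).card : ℝ) +
          (((Finset.Ico (((2^m:ℕ):ℤ)^6) (64*((2^m:ℕ):ℤ)^6)).filter (Exc C)).card : ℝ) := by
        exact_mod_cast (Finset.card_le_card hsplit).trans (Finset.card_union_le _ _)
      have e2 : (((2^m:ℕ):ℝ))^2 = 4^m := by
        push_cast
        rw [← pow_mul, mul_comm, pow_mul]; norm_num
      rw [e2] at hb
      calc _ ≤ _ := hc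
        _ ≤ (64^m0 + K) * 4^m + K * 4^m := add_le_add ih hb
        _ ≤ (64^m0 + K) * 4^(m+1) := by
          rw [pow_succ]
          have h5 : (0:ℝ) < 4^m := by positivity
          have h6 : (0:ℝ) < 64^m0 := by positivity
          nlinarith

/-- for given large `x > 0` the value `y ≥ 0` is unique -/
lemma y_unique {C : ℝ} {x y y' : ℤ} (hx : 0 < x) (hC : C < tt x) (h1 : 2 ≤ tt x)
    (hy : 0 ≤ y) (hy' : 0 ≤ y')
    (hk : |((y:ℝ)^2 - (x:ℝ)^3)| ≤ C * tt x) (hk' : |((y':ℝ)^2 - (x:ℝ)^3)| ≤ C * tt x) :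
    y = y' := by
  by_contra hne
  have e1 := ee_bound hx hy hk
  have e2 := ee_bound hx hy' hk'
  have hd : |(y:ℝ) - y'| * (tt x)^2 ≤ 2 * C := by
    have : (y:ℝ) - y' = ee x y - ee x y' := by unfold ee; ring
    rw [this]
    have := abs_sub (ee x y) (ee x y')
    nlinarith [sq_nonneg (tt x)]
  have h3 : (1:ℝ) ≤ |(y:ℝ) - y'| := by
    have : (1:ℤ) ≤ |y - y'| := Int.one_le_abs (sub_ne_zero.mpr hne)
    exact_mod_cast this
  nlinarith [sq_nonneg (tt x)]

/-- the set of pairs with `|x| ≤ X` violating Hall's inequality with constant `C`. -/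
def ExcPairs (C X : ℝ) : Set (ℤ × ℤ) :=
  {P | |(P.1:ℝ)| ≤ X ∧ P.2^2 ≠ P.1^3 ∧
    |((P.2:ℝ)^2 - (P.1:ℝ)^3)| ≤ C * |(P.1:ℝ)|^((1:ℝ)/2)}

end

end Pool.Agent.Hall72
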