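import Mathlib
import Pool.Agent.LibHall72F

namespace Pool.Agent.Hall72

noncomputable section

lemma pow4_le {X : ℝ} {m : ℕ} (h : (64:ℝ)^m ≤ X) : (4:ℝ)^m ≤ X^((1:ℝ)/3) := by
  have h0 : (0:ℝ) < 64^m := by positivity
  have e : (4:ℝ)^m = ((64:ℝ)^m)^((1:ℝ)/3) := by
    have : (64:ℝ)^m = ((4:ℝ)^m)^(3:ℕ) := by
      rw [← pow_mul, mul_comm, pow_mul]; norm_num
    rw [this, ← Real.rpow_natCast ((4:ℝ)^m) 3, ← Real.rpow_mul (by positivity)]
    norm_num
  rw [e]
  exact Real.rpow_le_rpow h0.le h (by norm_num)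

lemma box_bound {C : ℝ} (hC : 1 ≤ C) : ∃ M : ℤ, 0 ≤ M ∧ ∀ x y : ℤ, y^2 ≠ x^3 →
    |((y:ℝ)^2 - (x:ℝ)^3)| ≤ C * |(x:ℝ)|^((1:ℝ)/2) →
    ((0 < x ∧ max 2 C < tt x) ∨ (|x| ≤ M ∧ |y| ≤ M)) := by
  set L : ℝ := max 2 C with hL
  have hL2 : 2 ≤ L := le_max_left _ _
  have hLC : C ≤ L := le_max_right _ _
  obtain ⟨M, hM⟩ := exists_int_gt (2 * L^6)
  have hL6 : (0:ℝ) < 2 * L^6 := by positivity
  refine ⟨M, by exact_mod_cast (hL6.trans hM).le, ?_⟩
  intro x y hne hk
  have hL1 : 1 ≤ L := by linarith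
  have pow1 : L ≤ L^6 := le_self_pow₀ hL1 (by norm_num)
  have pow2 : L^2 ≤ L^6 := pow_le_pow_right₀ hL1 (by norm_num)
  rcases le_or_gt x 0 with hx | hx
  · right
    -- x ≤ 0
    have hxR : (x:ℝ) ≤ 0 := by exact_mod_cast hx
    have habs : |(x:ℝ)| = -x := abs_of_nonpos hxR
    set a : ℝ := |(x:ℝ)| with ha
    have ha0 : 0 ≤ a := abs_nonneg _
    have hxa : (x:ℝ) = -a := by linarith
    have hk2 : (y:ℝ)^2 + a^3 ≤ C * a^((1:ℝ)/2) := by
      have : (y:ℝ)^2 - (x:ℝ)^3 = (y:ℝ)^2 + a^3 := by rw [hxa]; ring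
      rw [this, abs_of_nonneg (by positivity)] at hk
      exact hk
    rcases eq_or_lt_of_le ha0 with h0 | h0
    · exfalso
      rw [← h0] at hk2
      rw [Real.zero_rpow (by norm_num)] at hk2
      have hy0 : (y:ℝ)^2 ≤ 0 := by nlinarith
      have hy1 : (y:ℝ) = 0 := by nlinarith [sq_nonneg (y:ℝ)]
      have hx1 : (x:ℝ) = 0 := by rw [hxa, ← h0]; ring
      apply hne
      have : (y:ℤ) = 0 := by exact_mod_cast hy1
      have h' : (x:ℤ) = 0 := by exact_mod_cast hx1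
      rw [this, h']; norm_num
    · have ha1 : 1 ≤ a := by
        have : 0 < |x| := by
          have : (0:ℝ) < ((|x| : ℤ) : ℝ) := by push_cast; exact h0
          exact_mod_cast this
        have h1 : 1 ≤ |x| := this
        have : (1:ℝ) ≤ ((|x| : ℤ) : ℝ) := by exact_mod_cast h1
        push_cast at this; exact this
      have hr : a^((1:ℝ)/2) ≤ a := by
        calc a^((1:ℝ)/2) ≤ a^(1:ℝ) := Real.rpow_le_rpow_of_exponent_le ha1 (by norm_num)
          _ = a := Real.rpow_one a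
      have h3 : (y:ℝ)^2 + a^3 ≤ C * a := hk2.trans (by gcongr)
      have h4 : a^2 ≤ C := by
        have : a * a^2 ≤ a * C := by nlinarith [sq_nonneg (y:ℝ)]
        exact le_of_mul_le_mul_left this h0
      have h5 : a ≤ C := by nlinarith
      have h6 : (y:ℝ)^2 ≤ C * C := by nlinarith [pow_pos h0 3]
      have h7 : |(y:ℝ)| ≤ C := by
        apply abs_le_of_sq_le_sq _ (by linarith)
        linarith
      constructor
      · have : ((|x| : ℤ):ℝ) ≤ M := by push_cast; linarith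
        exact_mod_cast this
      · have : ((|y| : ℤ):ℝ) ≤ M := by push_cast; linarith
        exact_mod_cast this
  · rcases lt_or_ge L (tt x) with ht | ht
    · left; exact ⟨hx, ht⟩
    · right
      have hxt := tt_sq hx
      have hxR : (0:ℝ) < x := by exact_mod_cast hx
      have htp : 0 ≤ tt x := by unfold tt; positivity
      have hx2 : (x:ℝ) ≤ L^2 := by rw [hxt]; gcongr
      have e1 : |(x:ℝ)|^((1:ℝ)/2) = tt x := by
        rw [abs_of_pos hxR]; unfold tt; rw [Real.sqrt_eq_rpow]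
      rw [e1] at hk
      have h8 : (y:ℝ)^2 ≤ (2*L^6)^2 := by
        have h9 := (abs_le.mp hk).2
        have h10 : (x:ℝ)^3 ≤ L^6 := by
          calc (x:ℝ)^3 ≤ (L^2)^3 := by gcongr
            _ = L^6 := by ring
        have h11 : C * tt x ≤ L * L := by gcongr
        have h12 : (1:ℝ) ≤ L^6 := one_le_pow₀ hL1
        nlinarith
      have h13 : |(y:ℝ)| ≤ 2*L^6 := abs_le_of_sq_le_sq h8 (by positivity)
      constructor
      · have : ((|x| : ℤ):ℝ) ≤ M := by
          push_cast; rw [abs_of_pos hxR]; linarith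
        exact_mod_cast this
      · have : ((|y| : ℤ):ℝ) ≤ M := by push_cast; linarith
        exact_mod_cast this

open Classical in
theorem sparse (C : ℝ) : ∃ C' : ℝ, ∀ X : ℝ, 1 ≤ X →
    (ExcPairs C X).Finite ∧ ((ExcPairs C X).ncard : ℝ) ≤ C' * X^((1:ℝ)/3) := by
  -- reduce to C ≥ 1
  set D : ℝ := max C 1 with hD
  have hD1 : 1 ≤ D := le_max_right _ _
  have hsub : ∀ X, ExcPairs C X ⊆ ExcPairs D X := by
    intro X P hP
    obtain ⟨h1, h2, h3⟩ := hP
    refine ⟨h1, h2, h3.trans ?_⟩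
    gcongr
    exact le_max_left _ _
  obtain ⟨K, hK0, hK⟩ := total (C := D) (by linarith)
  obtain ⟨M, hM0, hM⟩ := box_bound hD1
  set Bx : Finset (ℤ × ℤ) := (Finset.Icc (-M) M) ×ˢ (Finset.Icc (-M) M) with hBx
  refine ⟨Bx.card + 8 * K, ?_⟩
  intro X hX
  obtain ⟨m, hm1, hm2⟩ := exists_nat_pow_near hX (by norm_num : (1:ℝ) < 64)
  set F := (Finset.Ico (1:ℤ) (64^(m+1))).filter (Exc D) with hF
  set Lg : Set (ℤ × ℤ) := {P | P ∈ ExcPairs D X ∧ 0 < P.1 ∧ max 2 D < tt P.1} with hLg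
  let f : ℤ × ℤ → ℤ × Bool := fun P => (P.1, decide (0 ≤ P.2))
  have hmaps : ∀ P ∈ Lg, f P ∈ ((F ×ˢ (Finset.univ : Finset Bool) : Finset (ℤ × Bool)) : Set (ℤ × Bool)) := by
    intro P hP
    obtain ⟨⟨h1, h2, h3⟩, h4, h5⟩ := hP
    rw [Finset.mem_coe, Finset.mem_product]
    refine ⟨?_, Finset.mem_univ _⟩
    simp only [f, hF]
    rw [Finset.mem_filter, Finset.mem_Ico]
    have hPR : (0:ℝ) < P.1 := by exact_mod_cast h4
    refine ⟨⟨h4, ?_⟩, P.2, h2, ?_⟩
    · have : (P.1:ℝ) < 64^(m+1) := by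
        rw [abs_of_pos hPR] at h1; linarith
      exact_mod_cast this
    · rw [abs_of_pos hPR, ← Real.sqrt_eq_rpow] at h3
      exact h3
  have hinj : Set.InjOn f Lg := by
    intro P hP P' hP' hPP
    obtain ⟨⟨h1, h2, h3⟩, h4, h5⟩ := hP
    obtain ⟨⟨h1', h2', h3'⟩, h4', h5'⟩ := hP'
    simp only [f, Prod.mk.injEq, decide_eq_decide] at hPP
    obtain ⟨e1, e2⟩ := hPP
    have hPR : (0:ℝ) < P.1 := by exact_mod_cast h4
    have hPR' : (0:ℝ) < P'.1 := by exact_mod_cast h4'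
    rw [abs_of_pos hPR, ← Real.sqrt_eq_rpow] at h3
    rw [abs_of_pos hPR', ← Real.sqrt_eq_rpow] at h3'
    rw [← e1] at h3'
    have t2 : 2 ≤ tt P.1 := (le_max_left _ _).trans h5.le
    have tD : D < tt P.1 := lt_of_le_of_lt (le_max_right _ _) h5
    rcases le_or_gt 0 P.2 with hp | hp
    · have := y_unique h4 tD t2 hp (e2.mp hp) h3 h3'
      exact Prod.ext e1 this
    · have hp' : P'.2 < 0 := by
        by_contra hcon
        push Not at hcon
        exact absurd (e2.mpr hcon) (not_le.mpr hp)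
      have := y_unique (y := -P.2) (y' := -P'.2) h4 tD t2 (by linarith) (by linarith)
        (by push_cast; rw [neg_sq]; exact h3) (by push_cast; rw [neg_sq]; exact h3')
      exact Prod.ext e1 (by linarith)
  have hcov : ExcPairs D X ⊆ (Bx : Set (ℤ × ℤ)) ∪ Lg := by
    intro P hP
    rcases hM P.1 P.2 hP.2.1 hP.2.2 with h | h
    · right; exact ⟨hP, h.1, h.2⟩
    · left
      rw [Finset.mem_coe, hBx, Finset.mem_product, Finset.mem_Icc, Finset.mem_Icc]
      exact ⟨abs_le.mp h.1, abs_le.mp h.2⟩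
  have hLfin : Lg.Finite := Set.Finite.of_finite_image
    ((Finset.finite_toSet _).subset (Set.image_subset_iff.mpr hmaps)) hinj
  have hLcard : (Lg.ncard : ℝ) ≤ 2 * F.card := by
    have h1 : Lg.ncard ≤ ((F ×ˢ (Finset.univ : Finset Bool) : Finset (ℤ × Bool)) : Set (ℤ × Bool)).ncard :=
      Set.ncard_le_ncard_of_injOn f hmaps hinj (Finset.finite_toSet _)
    rw [Set.ncard_coe_finset, Finset.card_product] at h1
    have h2 : (Finset.univ : Finset Bool).card = 2 := rfl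
    rw [h2] at h1
    have : (Lg.ncard : ℝ) ≤ ((F.card * 2 : ℕ) : ℝ) := by exact_mod_cast h1
    push_cast at this
    linarith
  have hfin : (ExcPairs C X).Finite :=
    (((Finset.finite_toSet Bx).union hLfin).subset hcov).subset (hsub X)
  refine ⟨hfin, ?_⟩
  have h1 : ((ExcPairs C X).ncard : ℝ) ≤ (Bx.card : ℝ) + Lg.ncard := by
    have a1 : (ExcPairs C X).ncard ≤ ((Bx : Set (ℤ × ℤ)) ∪ Lg).ncard :=
      Set.ncard_le_ncard ((hsub X).trans hcov) ((Finset.finite_toSet Bx).union hLfin)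
    have a2 := Set.ncard_union_le (Bx : Set (ℤ × ℤ)) Lg
    rw [Set.ncard_coe_finset] at a2
    exact_mod_cast a1.trans a2
  have h2 : (F.card : ℝ) ≤ K * 4^(m+1) := hK (m+1)
  have h3 := pow4_le hm1
  have hX13 : 1 ≤ X^((1:ℝ)/3) := Real.one_le_rpow hX (by norm_num)
  calc ((ExcPairs C X).ncard : ℝ) ≤ (Bx.card : ℝ) + Lg.ncard := h1
    _ ≤ (Bx.card : ℝ) + 2 * (K * 4^(m+1)) := by linarith
    _ = (Bx.card : ℝ) * 1 + 8 * K * 4^m := by rw [pow_succ]; ring
    _ ≤ (Bx.card : ℝ) * X^((1:ℝ)/3) + 8 * K * X^((1:ℝ)/3) := by gcongr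
    _ = _ := by ring

end

end Pool.Agent.Hall72
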