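import Pool.Statements.S00669
import Pool.Agent.LibPI54.M61
import Pool.Agent.LibPI54.M62
import Pool.Agent.LibPI54.M55
import Pool.Agent.LibPI54.M47

set_option autoImplicit false
open Pool Pool.MP_097e5c_al

namespace Pool.Agent.S00669

/-- Every associative ring satisfying a multilinear polynomial identity with coefficient 1 on the identity monomial is the image of a surjective ring homomorphism from such a ring whose additive group is torsion-free. -/
theorem result :
    ∀ (R : Type) [NonUnitalRing R],
      (∃ (d : ℕ) (a : Equiv.Perm (Fin (d + 1)) → ℤ), a 1 = 1 ∧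
        ∀ x : Fin (d + 1) → R,
          ∑ σ : Equiv.Perm (Fin (d + 1)),
            a σ • ((List.ofFn (fun i : Fin d => x (σ i.succ))).foldl
              (fun u v => u * v) (x (σ 0))) = 0) →
      ∃ (S : Type) (_ : NonUnitalRing S),
        (∃ (d : ℕ) (a : Equiv.Perm (Fin (d + 1)) → ℤ), a 1 = 1 ∧
          ∀ x : Fin (d + 1) → S,
            ∑ σ : Equiv.Perm (Fin (d + 1)),
              a σ • ((List.ofFn (fun i : Fin d => x (σ i.succ))).foldl
                (fun u v => u * v) (x (σ 0))) = 0) ∧
        (∀ (k : ℕ) (s : S), k ≠ 0 → k • s = 0 → s = 0) ∧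
        ∃ φ : S →ₙ+* R, Function.Surjective φ := by
  intro R _ h
  exact Pool.PI34.Fin669.im_of_engine2 (fun k l hk _ => Pool.PI34.XX.engine_two
    (fun k => Pool.PI34.XH.start k) Pool.PI34.EV.partII k l (Nat.add_pos_left hk l)) R h

end Pool.Agent.S00669
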