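import Pool.Statements.S00730
import Pool.Agent.Lamp28.Key

set_option autoImplicit false
open Pool Pool.MP_0ee5c7_al

namespace Pool.Agent.S00730

open Pool.Agent.Lamp28 in
theorem lip (x y : ℝ) (hx : 0 ≤ x) (hy : 0 ≤ y) :
    (Gam.dist (path ⌊x⌋₊) (path ⌊y⌋₊) : ℝ) ≤ 2 * |x - y| + 2 := by
  have hx1 := Nat.floor_le hx
  have hx2 := Nat.lt_floor_add_one x
  have hy1 := Nat.floor_le hy
  have hy2 := Nat.lt_floor_add_one y
  have hxy1 := le_abs_self (x - y)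
  have hxy2 := neg_abs_le (x - y)
  rcases le_total ⌊x⌋₊ ⌊y⌋₊ with h | h
  · obtain ⟨d, hd⟩ := Nat.exists_eq_add_of_le h
    have h1 := path_lip ⌊x⌋₊ d
    rw [← hd] at h1
    have h2 : (Gam.dist (path ⌊x⌋₊) (path ⌊y⌋₊) : ℝ) ≤ 2 * d := by exact_mod_cast h1
    have h3 : (⌊y⌋₊ : ℝ) = ⌊x⌋₊ + d := by exact_mod_cast hd
    linarith
  · obtain ⟨d, hd⟩ := Nat.exists_eq_add_of_le h
    have h1 := path_lip ⌊y⌋₊ d
    rw [← hd, SimpleGraph.dist_comm] at h1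
    have h2 : (Gam.dist (path ⌊x⌋₊) (path ⌊y⌋₊) : ℝ) ≤ 2 * d := by exact_mod_cast h1
    have h3 : (⌊x⌋₊ : ℝ) = ⌊y⌋₊ + d := by exact_mod_cast hd
    linarith

open Pool.Agent.Lamp28 in
theorem proper (M : ℝ) : ∃ N : ℝ, ∀ x y : ℝ, 0 ≤ x → 0 ≤ y → N ≤ |x - y| →
    M ≤ (Gam.dist (path ⌊x⌋₊) (path ⌊y⌋₊) : ℝ) := by
  obtain ⟨N, hN⟩ := path_proper ⌈M⌉₊
  refine ⟨N + 1, fun x y hx hy hxy => ?_⟩
  by_contra hlt
  push Not at hlt
  have h1 : Gam.dist (path ⌊x⌋₊) (path ⌊y⌋₊) ≤ ⌈M⌉₊ := by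
    have h2 : (Gam.dist (path ⌊x⌋₊) (path ⌊y⌋₊) : ℝ) ≤ (⌈M⌉₊ : ℝ) := hlt.le.trans (Nat.le_ceil M)
    exact_mod_cast h2
  have h3 := hN _ _ h1
  have h4 : |(⌊x⌋₊ : ℝ) - ⌊y⌋₊| ≤ N := by exact_mod_cast h3
  have hx1 := Nat.floor_le hx
  have hx2 := Nat.lt_floor_add_one x
  have hy1 := Nat.floor_le hy
  have hy2 := Nat.lt_floor_add_one y
  rw [abs_le] at h4
  rcases le_total 0 (x - y) with h | h
  · rw [abs_of_nonneg h] at hxy; linarith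
  · rw [abs_of_nonpos h] at hxy; linarith

/-- The negation of the preceding statement: In a Cayley graph of a finitely generated group with at most one end (equivalently, not splitting over a finite group), no subset of the image of a coarse uniform embedding of [0,∞) coarsely separates the graph into two deep pieces. -/
theorem result :
    ¬ (∀ (G : Type) [Group G] (S : Finset G), Subgroup.closure (S : Set G) = ⊤ →
      ∀ Γ : SimpleGraph G,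
        (∀ g h : G, Γ.Adj g h ↔ (g ≠ h ∧ ∃ s ∈ S, h = g * s ∨ g = h * s)) →
        (∀ F : Finset G, ∃ F' : Finset G, ∀ a b : G, a ∉ F' → b ∉ F' →
            ∃ p : Γ.Walk a b, ∀ v ∈ p.support, v ∉ F) →
        ∀ f : ℝ → G,
          (∃ C D : ℝ, ∀ x y : ℝ, 0 ≤ x → 0 ≤ y →
              (Γ.dist (f x) (f y) : ℝ) ≤ C * |x - y| + D) →
          (∀ M : ℝ, ∃ N : ℝ, ∀ x y : ℝ, 0 ≤ x → 0 ≤ y → N ≤ |x - y| →
              M ≤ (Γ.dist (f x) (f y) : ℝ)) →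
          ∀ Y : Set G, Y ⊆ f '' Set.Ici (0 : ℝ) →
            ¬ ∃ K : ℕ, ∃ A B : Set G,
                Disjoint A B ∧
                A ∪ B = {g : G | ∀ y ∈ Y, K < Γ.dist g y} ∧
                (∀ a ∈ A, ∀ b ∈ B, ¬ Γ.Adj a b) ∧
                (∀ R : ℕ, ¬ A ⊆ {g : G | ∃ y ∈ Y, Γ.dist g y ≤ R}) ∧
                (∀ R : ℕ, ¬ B ⊆ {g : G | ∃ y ∈ Y, Γ.dist g y ≤ R})) := by
  intro H
  refine H Pool.Agent.Lamp28.Lamp Pool.Agent.Lamp28.gens Pool.Agent.Lamp28.closure_gens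
    Pool.Agent.Lamp28.Gam Pool.Agent.Lamp28.gam_adj Pool.Agent.Lamp28.one_ended
    (fun x => Pool.Agent.Lamp28.path ⌊x⌋₊) ⟨2, 2, lip⟩ proper
    {g | g.pos = 0 ∧ ∀ z ∈ g.conf, 0 ≤ z} ?_
    ⟨0, {g | 0 < g.pos ∧ ∀ z ∈ g.conf, 0 ≤ z}, {g | ¬ (0 ≤ g.pos ∧ ∀ z ∈ g.conf, 0 ≤ z)}, ?_, ?_, ?_, ?_, ?_⟩
  · rintro g ⟨hg1, hg2⟩
    obtain ⟨i, hi⟩ := Pool.Agent.Lamp28.dat_surj g.conf hg2
    refine ⟨(Pool.Agent.Lamp28.tim i : ℝ), ?_, ?_⟩
    · exact Set.mem_Ici.2 (Nat.cast_nonneg _)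
    · simp only [Nat.floor_natCast, Pool.Agent.Lamp28.path_tim, hi]
      ext z
      · simp
      · simp [hg1]
  · rw [Set.disjoint_left]
    rintro g ⟨hg1, hg2⟩ hg3
    exact hg3 ⟨hg1.le, hg2⟩
  · ext g
    simp only [Set.mem_union, Set.mem_setOf_eq]
    constructor
    · rintro hg y ⟨hy1, hy2⟩
      rw [Nat.pos_iff_ne_zero]
      intro h0
      have hgy : g = y := (Pool.Agent.Lamp28.gam_connected.dist_eq_zero_iff).1 h0
      subst hgy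
      rcases hg with ⟨h1, h2⟩ | hg
      · omega
      · exact hg ⟨hy1.ge, hy2⟩
    · intro hg
      by_contra hc
      push Not at hc
      obtain ⟨hc1, hc2⟩ := hc
      have hnot : ¬ 0 < g.pos := fun h => by
        obtain ⟨z, hz, hz2⟩ := hc1 h
        have := hc2.2 z hz
        omega
      have h0 := hg g ⟨by omega, hc2.2⟩
      simp at h0
  · rintro a ⟨ha1, ha2⟩ b hb hadj
    apply hb
    rw [Pool.Agent.Lamp28.gam_adj'] at hadj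
    rcases hadj with ⟨h1, h2⟩ | ⟨h1, h2⟩
    · exact ⟨by omega, by rw [h1]; exact ha2⟩
    · refine ⟨by omega, fun z hz => ?_⟩
      rw [h2, Finset.mem_symmDiff, Finset.mem_singleton] at hz
      rcases hz with ⟨hz, -⟩ | ⟨hz, -⟩
      · exact ha2 z hz
      · omega
  · intro R hR
    obtain ⟨y, ⟨hy1, -⟩, hy⟩ := hR (a := (⟨∅, (R : ℤ) + 1⟩ : Pool.Agent.Lamp28.Lamp))
      ⟨by show (0 : ℤ) < (R : ℤ) + 1; omega, by simp⟩
    have h1 := (Pool.Agent.Lamp28.near_of_dist hy).1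
    rw [hy1, abs_le] at h1
    simp at h1
  · intro R hR
    obtain ⟨y, ⟨hy1, -⟩, hy⟩ := hR (a := (⟨∅, -(R : ℤ) - 1⟩ : Pool.Agent.Lamp28.Lamp))
      (by
        rintro ⟨h1, -⟩
        have h1 : (0 : ℤ) ≤ -(R : ℤ) - 1 := h1
        omega)
    have h1 := (Pool.Agent.Lamp28.near_of_dist hy).1
    rw [hy1, abs_le] at h1
    simp at h1

end Pool.Agent.S00730
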