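import Pool.Statements.S01354
import Pool.Agent.LibFPF.Assemble
-- import your own Pool.Agent.* helpers here

set_option autoImplicit false
open Pool Pool.MP_477103_al

namespace Pool.Agent.S01354

/-- The negation of the preceding statement: There is f(n) and c(p,n,d) such that every finite group of derived length ≤ d with a fixed-point-free elementary abelian automorphism group of order pⁿ has a normal series of length ≤ f(n) whose factors are nilpotent of class ≤ c. -/
theorem result :
    ¬ (∀ n : ℕ, ∃ f : ℕ, ∀ p d : ℕ, p.Prime → ∃ c : ℕ,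
      ∀ (G : Type) [Group G] [Finite G],
        derivedSeries G d = ⊥ →
        ∀ A : Subgroup (MulAut G),
          Nat.card (↥A) = p ^ n →
          (∀ a ∈ A, a ^ p = 1) →
          (∀ a ∈ A, ∀ b ∈ A, a * b = b * a) →
          (∀ g : G, (∀ a ∈ A, a g = g) → g = 1) →
          ∃ k : ℕ, k ≤ f ∧ ∃ s : ℕ → Subgroup G,
            s 0 = ⊥ ∧ s k = ⊤ ∧
            (∀ i, (s i).Normal) ∧
            (∀ i, i < k → s i ≤ s (i + 1)) ∧
            (∀ i, i < k →
              (fun L : Subgroup G => ⁅L, s (i + 1)⁆)^[c] (s (i + 1)) ≤ s i)) := by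
  intro H
  obtain ⟨f, hf⟩ := H 2
  obtain ⟨p, hp, hmain⟩ := Pool.Agent.LibFPF.main f
  obtain ⟨c, hc⟩ := hf p (2 * (f + 1)) hp
  obtain ⟨G, hG, hfin, hder, A, hA1, hA2, hA3, hA4, hno⟩ := hmain c
  exact hno (hc G hder A hA1 hA2 hA3 hA4)

end Pool.Agent.S01354
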