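import Pool.Statements.S01652
import Pool.Agent.LibLPres.Final

set_option autoImplicit false
open Pool Pool.MP_5fd2c3_al

namespace Pool.Agent.S01652

/-- The negation of the preceding statement: Every finitely presented group that maps onto the integers and has no rank-2 free subgroup is isomorphic to an ascending HNN extension of a group presented by generators a_1..a_m, finitely many relators R, and all iterates τ^n(Q) of a finite set Q under a free-group endomorphism τ. -/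
theorem result :
    ¬ (∀ (G : Type) [Group G],
    (∃ (n : ℕ) (rels : Set (FreeGroup (Fin n))), rels.Finite ∧ Nonempty (G ≃* PresentedGroup rels)) →
    (∃ f : G →* Multiplicative ℤ, Function.Surjective f) →
    (¬ ∃ f : FreeGroup (Fin 2) →* G, Function.Injective f) →
    ∃ (m : ℕ) (R Q : Set (FreeGroup (Fin m))) (τ : FreeGroup (Fin m) →* FreeGroup (Fin m)),
      R.Finite ∧ Q.Finite ∧
      ∃ (B : Subgroup (PresentedGroup (R ∪ ⋃ n : ℕ, (⇑τ)^[n] '' Q)))
        (ψ : (⊤ : Subgroup (PresentedGroup (R ∪ ⋃ n : ℕ, (⇑τ)^[n] '' Q))) ≃* B),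
        Nonempty (G ≃* HNNExtension (PresentedGroup (R ∪ ⋃ n : ℕ, (⇑τ)^[n] '' Q)) ⊤ B ψ)) := by
  intro H
  -- the group
  have hfp : ∃ (n : ℕ) (rels : Set (FreeGroup (Fin n))), rels.Finite ∧
      Nonempty (Pool.Agent.LibLPres.EE 5 ≃* PresentedGroup rels) := by
    obtain ⟨f⟩ := Pool.Agent.LibLPres.ee_presented 5
    refine ⟨Fintype.card (Pool.Agent.LibLPres.Gn 5),
      (FreeGroup.freeGroupCongr (Fintype.equivFin (Pool.Agent.LibLPres.Gn 5))) ''
        (Pool.Agent.LibLPres.rels 5), ?_, ?_⟩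
    · exact (Pool.Agent.LibLPres.rels_finite 5).image _
    · exact ⟨f.trans (PresentedGroup.equivPresentedGroup _ _)⟩
  obtain ⟨m, R, Q, τ, hR, hQ, B, ψ, ⟨iso⟩⟩ := H (Pool.Agent.LibLPres.EE 5) hfp
    (Pool.Agent.LibLPres.ee_indicable 5) (Pool.Agent.LibLPres.ee_no_free 5)
  have A1 := (Pool.Agent.LibLPres.asc_hnn ψ).transport iso.symm
  obtain ⟨J, hJ, hrow, h0, h1⟩ := Pool.Agent.LibLPres.exists_J (0 : Fin 5) A1
    (PresentedGroup.mk (R ∪ ⋃ n : ℕ, (⇑τ)^[n] '' Q)) (QuotientGroup.mk'_surjective _)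
  exact Pool.Agent.LibLPres.contra J hJ hrow 0 h0 h1
    (PresentedGroup.mk (R ∪ ⋃ n : ℕ, (⇑τ)^[n] '' Q)) (QuotientGroup.mk'_surjective _) R Q hR hQ τ
    (QuotientGroup.ker_mk' _)

end Pool.Agent.S01652
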