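import Pool.Statements.S01972
import Pool.Agent.ExtGap.Main

set_option autoImplicit false
open CategoryTheory
open Pool Pool.MP_77ea4f_al

namespace Pool.Agent.S01972

/-- The negation of the preceding statement: Every Noetherian local ring with Ext^i(k,R)=0 for large i (Gorenstein) and a uniform Ext-vanishing bound on finitely generated modules (UAC) has a uniform bound on the lengths of gaps in nonvanishing Ext between finitely generated modules. -/
theorem result :
    ¬ (∀ (R : Type) [CommRing R] [IsLocalRing R] [IsNoetherianRing R],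
    (∃ n : ℕ, ∀ i : ℕ, n ≤ i →
        Subsingleton (Abelian.Ext (ModuleCat.of R (IsLocalRing.ResidueField R))
          (ModuleCat.of R R) i : Type)) →
    (∃ b : ℕ, ∀ M N : ModuleCat.{0} R, Module.Finite R M → Module.Finite R N →
        (∃ n : ℕ, ∀ i : ℕ, n ≤ i → Subsingleton (Abelian.Ext M N i : Type)) →
        ∀ i : ℕ, b ≤ i → Subsingleton (Abelian.Ext M N i : Type)) →
    ∃ B : ℕ, ∀ M N : ModuleCat.{0} R, Module.Finite R M → Module.Finite R N →
      ∀ n g : ℕ, Nontrivial (Abelian.Ext M N n : Type) →
        Nontrivial (Abelian.Ext M N (n + g + 1) : Type) →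
        (∀ i : ℕ, n < i → i ≤ n + g → Subsingleton (Abelian.Ext M N i : Type)) →
        g ≤ B) := by
  intro h
  obtain ⟨B, hB⟩ := h ExtGap.R₀
    ⟨1, fun i hi => ExtGap.gorenstein _ i hi⟩
    ⟨1, fun M N hM hN hex i hi => ExtGap.uac M N hM hN hex i hi⟩
  obtain ⟨M, N, hM, hN, n, g, h1, h2, h3, h4⟩ := ExtGap.gaps B
  exact absurd (hB M N hM hN n g h1 h2 h3) (by omega)

end Pool.Agent.S01972
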