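import Pool.Statements.S02212
import Pool.Agent.LibSt16.Main

set_option autoImplicit false
open Pool Pool.MP_8b67e9_al

namespace Pool.Agent.S02212

/-- The negation of the preceding statement: For each i, for all large n, the i-th homology of the orthogonal group O(n), viewed as a discrete group, with coefficients in the rational Steinberg module of R^n (top reduced homology of the Tits building) is zero. -/
theorem result :
    ¬ (∀ i : ℕ, ∃ N : ℕ, ∀ m : ℕ, N ≤ m →
      ∀ (V : Type) [AddCommGroup V] [Module ℚ V]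
        (ρ : Representation ℚ (Matrix.orthogonalGroup (Fin (m + 2)) ℝ) V)
        (e : V ≃ₗ[ℚ] ↥(Finsupp.supported ℚ ℚ
            {f : Fin (m + 1) → Submodule ℝ (Fin (m + 2) → ℝ) |
              StrictMono f ∧ ∀ j, f j ≠ ⊥ ∧ f j ≠ ⊤} ⊓
          LinearMap.ker (Finsupp.linearCombination ℚ
            (fun f : Fin (m + 1) → Submodule ℝ (Fin (m + 2) → ℝ) =>
              ∑ j : Fin (m + 1), ((-1 : ℚ) ^ (j : ℕ)) •
                Finsupp.single (f ∘ Fin.succAbove j) (1 : ℚ))))),
        (∀ (g : Matrix.orthogonalGroup (Fin (m + 2)) ℝ) (v : V),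
          ((e (ρ g v) : (Fin (m + 1) → Submodule ℝ (Fin (m + 2) → ℝ)) →₀ ℚ)) =
            Finsupp.mapDomain
              (fun f i => Submodule.map
                (Matrix.toLin' (g : Matrix (Fin (m + 2)) (Fin (m + 2)) ℝ)) (f i))
              (e v : (Fin (m + 1) → Submodule ℝ (Fin (m + 2) → ℝ)) →₀ ℚ)) →
        Subsingleton (groupHomology (Rep.of ρ) i)) := by
  intro h
  obtain ⟨N, hN⟩ := h 1
  exact St16.main_odd (2 * N + 1) ⟨N, rfl⟩ (fun V _ _ ρ e he => hN _ (by omega) V ρ e he)

end Pool.Agent.S02212
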