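import Pool.Statements.S03871
import Pool.Agent.LibWaveDir.Main

set_option autoImplicit false
open Filter Topology Complex
open scoped InnerProductSpace
open Pool Pool.MP_135e37_an

namespace Pool.Agent.S03871

/-- For commuting selfadjoint pairs A, B with each difference A_j−B_j in the Lorentz ideal C₂⁻ and A's joint spectral measure absolutely continuous, wave operators along two distinct directions θ₁≠θ₂ in [0,2π), when they exist, coincide. -/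
theorem result :
    ∀ (H : Type) [NormedAddCommGroup H] [InnerProductSpace ℂ H] [CompleteSpace H]
      (A₁ A₂ B₁ B₂ : H →L[ℂ] H),
      IsSelfAdjoint A₁ → IsSelfAdjoint A₂ → IsSelfAdjoint B₁ → IsSelfAdjoint B₂ →
      Commute A₁ A₂ → Commute B₁ B₂ →
      (∀ T ∈ ({A₁ - B₁, A₂ - B₂} : Set (H →L[ℂ] H)),
        Summable (fun n : ℕ =>
          sInf {r : ℝ | ∃ F : H →L[ℂ] H,
            Module.rank ℂ (LinearMap.range (F : H →ₗ[ℂ] H)) ≤ (n : Cardinal) ∧ r = ‖T - F‖}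
            / Real.sqrt ((n : ℝ) + 1))) →
      (∀ x : H, ∃ f : ℝ × ℝ → ℂ, MeasureTheory.Integrable f ∧
        ∀ s t : ℝ,
          ⟪x, NormedSpace.exp (((s : ℂ) * Complex.I) • A₁ + ((t : ℂ) * Complex.I) • A₂) x⟫_ℂ
            = ∫ p : ℝ × ℝ, f p * Complex.exp (Complex.I * ((s : ℂ) * (p.1 : ℂ) + (t : ℂ) * (p.2 : ℂ)))) →
      ∀ θ₁ θ₂ : ℝ, 0 ≤ θ₁ → θ₁ < 2 * Real.pi → 0 ≤ θ₂ → θ₂ < 2 * Real.pi → θ₁ ≠ θ₂ →
      ∀ W₁ W₂ : H →L[ℂ] H,
      (∀ x : H, Tendsto (fun t : ℝ =>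
          (NormedSpace.exp ((-((t : ℂ) * Complex.I)) •
              ((Real.cos θ₁ : ℂ) • B₁ + (Real.sin θ₁ : ℂ) • B₂)) *
            NormedSpace.exp (((t : ℂ) * Complex.I) •
              ((Real.cos θ₁ : ℂ) • A₁ + (Real.sin θ₁ : ℂ) • A₂))) x)
        atTop (𝓝 (W₁ x))) →
      (∀ x : H, Tendsto (fun t : ℝ =>
          (NormedSpace.exp ((-((t : ℂ) * Complex.I)) •
              ((Real.cos θ₂ : ℂ) • B₁ + (Real.sin θ₂ : ℂ) • B₂)) *
            NormedSpace.exp (((t : ℂ) * Complex.I) •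
              ((Real.cos θ₂ : ℂ) • A₁ + (Real.sin θ₂ : ℂ) • A₂))) x)
        atTop (𝓝 (W₂ x))) →
      W₁ = W₂ := by
  intro H _ _ _ A₁ A₂ B₁ B₂ hA₁ hA₂ hB₁ hB₂ hA hB hT hac θ₁ θ₂ h01 h12 h02 h22 hne W₁ W₂ hW₁ hW₂
  have hT₁ := hT (A₁ - B₁) (by simp)
  have hT₂ := hT (A₂ - B₂) (by simp)
  have hac' : ∀ x : H, ∃ f : ℝ × ℝ → ℂ, MeasureTheory.Integrable f ∧
      ∀ s : ℝ × ℝ, ⟪x, LibWaveDir.U A₁ A₂ s x⟫_ℂ = ∫ p, f p * LibWaveDir.ch s p := by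
    intro x
    obtain ⟨f, hf, hfx⟩ := hac x
    exact ⟨f, hf, fun s => hfx s.1 s.2⟩
  have conv : ∀ (θ : ℝ) (W : H →L[ℂ] H), (∀ x : H, Tendsto (fun t : ℝ =>
          (NormedSpace.exp ((-((t : ℂ) * Complex.I)) •
              ((Real.cos θ : ℂ) • B₁ + (Real.sin θ : ℂ) • B₂)) *
            NormedSpace.exp (((t : ℂ) * Complex.I) •
              ((Real.cos θ : ℂ) • A₁ + (Real.sin θ : ℂ) • A₂))) x)
        atTop (𝓝 (W x))) → ∀ x : H, Tendsto (fun t : ℝ =>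
          LibWaveDir.U B₁ B₂ (-LibWaveDir.circ t θ) (LibWaveDir.U A₁ A₂ (LibWaveDir.circ t θ) x))
          atTop (𝓝 (W x)) := by
    intro θ W hW x
    refine (hW x).congr fun t => ?_
    have e1 : ((t : ℂ) * Complex.I) • ((Real.cos θ : ℂ) • A₁ + (Real.sin θ : ℂ) • A₂)
        = ((((LibWaveDir.circ t θ).1 : ℝ) : ℂ) * Complex.I) • A₁ +
          ((((LibWaveDir.circ t θ).2 : ℝ) : ℂ) * Complex.I) • A₂ := by
      simp only [LibWaveDir.circ, smul_add, smul_smul]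
      congr 2 <;> push_cast <;> ring
    have e2 : (-((t : ℂ) * Complex.I)) • ((Real.cos θ : ℂ) • B₁ + (Real.sin θ : ℂ) • B₂)
        = ((((-LibWaveDir.circ t θ).1 : ℝ) : ℂ) * Complex.I) • B₁ +
          ((((-LibWaveDir.circ t θ).2 : ℝ) : ℂ) * Complex.I) • B₂ := by
      simp only [LibWaveDir.circ, smul_add, smul_smul, Prod.neg_mk]
      congr 2 <;> push_cast <;> ring
    rw [e1, e2]
    rfl
  rcases lt_or_gt_of_ne hne with hlt | hlt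
  · exact LibWaveDir.wave_eq hA₁ hA₂ hB₁ hB₂ hA hB hT₁ hT₂ hac' θ₁ θ₂ h01 hlt h22.le W₁ W₂
      (conv θ₁ W₁ hW₁) (conv θ₂ W₂ hW₂)
  · exact (LibWaveDir.wave_eq hA₁ hA₂ hB₁ hB₂ hA hB hT₁ hT₂ hac' θ₂ θ₁ h02 hlt h12.le W₂ W₁
      (conv θ₂ W₂ hW₂) (conv θ₁ W₁ hW₁)).symm

end Pool.Agent.S03871
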