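import Pool.Statements.S04122
import Pool.Agent.CantorAP.Final

set_option autoImplicit false
open MeasureTheory Filter Topology
open Pool Pool.MP_28611e_an

namespace Pool.Agent.S04122

/-- The negation of the preceding statement: For 0<γ_k<1/4, if μ is the equilibrium (minimal log-energy, finite) probability measure of the Cantor set K(γ), its Jacobi recurrence coefficients a_n, b_n each differ by o(1) from some Bohr almost periodic sequence. -/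
theorem result :
    ¬ (∀ γ : ℕ → ℝ, (∀ k, 0 < γ k ∧ γ k < 1/4) →
  ∀ μ : Measure ℝ, IsProbabilityMeasure μ →
  μ {x : ℝ | ∃ s : ℕ, 1 < |List.foldl (fun (y : ℝ) (k : ℕ) => if k = 0 then 2 * y * (y - 1) / γ 0 + 1 else (y ^ 2 - 1) / (2 * γ k) + 1) x (List.range s)|} = 0 →
  (∫⁻ x, ∫⁻ y, (if x = y then (⊤ : ENNReal) else ENNReal.ofReal (-Real.log |x - y|)) ∂μ ∂μ) < ⊤ →
  (∀ ν : Measure ℝ, IsProbabilityMeasure ν →
    ν {x : ℝ | ∃ s : ℕ, 1 < |List.foldl (fun (y : ℝ) (k : ℕ) => if k = 0 then 2 * y * (y - 1) / γ 0 + 1 else (y ^ 2 - 1) / (2 * γ k) + 1) x (List.range s)|} = 0 →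
    (∫⁻ x, ∫⁻ y, (if x = y then (⊤ : ENNReal) else ENNReal.ofReal (-Real.log |x - y|)) ∂μ ∂μ)
      ≤ (∫⁻ x, ∫⁻ y, (if x = y then (⊤ : ENNReal) else ENNReal.ofReal (-Real.log |x - y|)) ∂ν ∂ν)) →
  ∀ p : ℕ → Polynomial ℝ, (∀ n, (p n).natDegree = n ∧ 0 < (p n).leadingCoeff) →
  (∀ m n, ∫ x, (p m).eval x * (p n).eval x ∂μ = if m = n then 1 else 0) →
  ∃ c d : ℤ → ℝ,
    (∀ ε : ℝ, 0 < ε → ∃ L : ℕ, ∀ m : ℤ, ∃ τ : ℤ, m ≤ τ ∧ τ ≤ m + L ∧ ∀ n : ℤ, |c (n + τ) - c n| < ε) ∧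
    (∀ ε : ℝ, 0 < ε → ∃ L : ℕ, ∀ m : ℤ, ∃ τ : ℤ, m ≤ τ ∧ τ ≤ m + L ∧ ∀ n : ℤ, |d (n + τ) - d n| < ε) ∧
    Tendsto (fun n : ℕ => (∫ x, x * (p n).eval x * (p (n + 1)).eval x ∂μ) - c n) atTop (𝓝 0) ∧
    Tendsto (fun n : ℕ => (∫ x, x * (p n).eval x * (p n).eval x ∂μ) - d n) atTop (𝓝 0)) := by
  intro H
  obtain ⟨γ, hγ0, c0, hc0, hdyn⟩ := CantorAP.dyn
  have hadm : CantorAP.Adm γ := fun k =>
    ⟨lt_of_lt_of_le (by positivity) (hγ0 k).1, (hγ0 k).2⟩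
  have hprob := CantorAP.muz_prob hadm
  have hb : CantorAP.muz γ (CantorAP.Bad γ) = 0 := by
    rw [CantorAP.Bad_ae hadm, CantorAP.muz_map]
    exact CantorAP.mu_Kset hadm
  have hle : CantorAP.En (CantorAP.mu γ) ≤ CantorAP.EE γ := CantorAP.En_mu_le hadm
  have hfin : (∫⁻ x, ∫⁻ y, (if x = y then (⊤ : ENNReal) else ENNReal.ofReal (-Real.log |x - y|))
      ∂(CantorAP.muz γ) ∂(CantorAP.muz γ)) < ⊤ := by
    rw [CantorAP.energy_eq, CantorAP.muz_map]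
    exact lt_of_le_of_lt hle (CantorAP.EE_lt_top hγ0)
  have hmin : ∀ ν : Measure ℝ, IsProbabilityMeasure ν → ν (CantorAP.Bad γ) = 0 →
      (∫⁻ x, ∫⁻ y, (if x = y then (⊤ : ENNReal) else ENNReal.ofReal (-Real.log |x - y|))
        ∂(CantorAP.muz γ) ∂(CantorAP.muz γ)) ≤
      (∫⁻ x, ∫⁻ y, (if x = y then (⊤ : ENNReal) else ENNReal.ofReal (-Real.log |x - y|)) ∂ν ∂ν) := by
    intro ν hν hνb
    rw [CantorAP.energy_eq, CantorAP.energy_eq, CantorAP.muz_map]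
    have h1 : IsProbabilityMeasure (ν.map fun z => 2 * z - 1) :=
      Measure.isProbabilityMeasure_map (by fun_prop)
    exact le_trans hle (CantorAP.EE_le_En hadm _ ((CantorAP.Bad_ae hadm ν).1 hνb))
  obtain ⟨c, d, hc, _, hct, _⟩ := H γ (fun k => hadm k) (CantorAP.muz γ) hprob hb hfin hmin
    (CantorAP.pz γ) (CantorAP.pz_deg hadm) (CantorAP.pz_orth hadm)
  refine CantorAP.not_ap hadm hc0 hdyn c hc ?_
  simp only [CantorAP.pz_coef hadm] at hct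
  exact hct


end Pool.Agent.S04122
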