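import Pool.Statements.S04317
import Pool.Agent.LibBohr.Final

set_option autoImplicit false
open Pool Pool.MP_3587f1_an

namespace Pool.Agent.S04317

/-- There exist c>0 and N such that every set A of at least N distinct positive integers, of size n, admits a real θ with ∣sum over a in A of sin(aθ)∣ at least n^(1/2+c). -/
theorem result :
    ∃ c : ℝ, 0 < c ∧ ∃ N : ℕ, ∀ A : Finset ℕ, (∀ a ∈ A, 0 < a) → N ≤ A.card →
      ∃ θ : ℝ, (A.card : ℝ) ^ ((1 : ℝ) / 2 + c) ≤ |∑ a ∈ A, Real.sin ((a : ℝ) * θ)| :=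
  Pool.Agent.LibBohr.bohr

end Pool.Agent.S04317
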