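import Pool.Statements.S04361
import Pool.Agent.LibWeakCap.Basic

set_option autoImplicit false
open Pool Pool.MP_38bb9b_an

namespace Pool.Agent.S04361

/-- For each n ≥ 1 there is C > 0 such that every non-empty compact K in ℂ satisfies cap(K)^n ≥ C times the least area-L² norm on K of p′ over monic degree-n p, with cap given as the Chebyshev constant. -/
theorem result :
    ∀ n : ℕ, 1 ≤ n → ∃ C : ℝ, 0 < C ∧ ∀ K : Set ℂ, IsCompact K → K.Nonempty →
      C * (⨅ p : {p : Polynomial ℂ // p.Monic ∧ p.natDegree = n},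
            Real.sqrt (∫ z in K, ‖(Polynomial.derivative p.1).eval z‖ ^ 2)) ≤
        (⨅ m : ℕ,
            (⨅ q : {q : Polynomial ℂ // q.Monic ∧ q.natDegree = m + 1},
                sSup ((fun z => ‖q.1.eval z‖) '' K)) ^ ((1 : ℝ) / ((m : ℝ) + 1))) ^ n := by
  exact Pool.Agent.LibWeakCap.final

end Pool.Agent.S04361
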