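import Pool.Statements.S04919
import Pool.Agent.LibKplane.Final

set_option autoImplicit false
open Pool Pool.MP_697303_an

namespace Pool.Agent.S04919

/-- For 0<k<n there is C such that for every finite field F and real f on F^n, the sum over k-dim subspaces W of (max over translates a+W of the sum of ∣f∣ on a+W)^n is at most C times #Gr(k,n) times (sum of ∣f∣^(n/k))^k. -/
theorem result :
    ∀ n k : ℕ, 0 < k → k < n → ∃ C : ℝ, 0 < C ∧
      ∀ (F : Type) [Field F] [Fintype F] (f : (Fin n → F) → ℝ),
        (∑ᶠ W : {W : Submodule F (Fin n → F) // Module.finrank F W = k},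
            (⨆ a : Fin n → F, ∑ᶠ w : W.1, |f (a + (w : Fin n → F))|) ^ n)
          ≤ C * (Nat.card {W : Submodule F (Fin n → F) // Module.finrank F W = k} : ℝ)
              * (∑ x : Fin n → F, |f x| ^ ((n : ℝ) / k)) ^ k := by
  intro n k hk0 hkn
  exact Pool.Agent.LibKplane.main n k hk0 hkn

end Pool.Agent.S04919
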