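import Pool.Statements.S05086
import Pool.Agent.MP7697eaLib.Terms

set_option autoImplicit false
open Pool Pool.MP_7697ea_an

namespace Pool.Agent.S05086

open Pool.Agent.MP7697eaLib

theorem sum_final (z : ℂ) :
    ∑ k ∈ Finset.Nat.antidiagonalTuple 3 11, T z k
      = 15697281600 * ((z + 2) * (z + 3) * (883 * z ^ 3 + 5349 * z ^ 2 + 9926 * z + 5880)) := by
  rw [sum_eq]
  simp only [List.map_cons, List.map_nil, List.sum_cons, List.sum_nil, T_eq,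
    U_0_0_11, U_0_1_10, U_0_2_9, U_0_3_8, U_0_4_7, U_0_5_6, U_0_6_5, U_0_7_4, U_0_8_3, U_0_9_2, U_0_10_1, U_0_11_0, U_1_0_10, U_1_1_9, U_1_2_8, U_1_3_7, U_1_4_6, U_1_5_5, U_1_6_4, U_1_7_3, U_1_8_2, U_1_9_1, U_1_10_0, U_2_0_9, U_2_1_8, U_2_2_7, U_2_3_6, U_2_4_5, U_2_5_4, U_2_6_3, U_2_7_2, U_2_8_1, U_2_9_0, U_3_0_8, U_3_1_7, U_3_2_6, U_3_3_5, U_3_4_4, U_3_5_3, U_3_6_2, U_3_7_1, U_3_8_0, U_4_0_7, U_4_1_6, U_4_2_5, U_4_3_4, U_4_4_3, U_4_5_2, U_4_6_1, U_4_7_0, U_5_0_6, U_5_1_5, U_5_2_4, U_5_3_3, U_5_4_2, U_5_5_1, U_5_6_0, U_6_0_5, U_6_1_4, U_6_2_3, U_6_3_2, U_6_4_1, U_6_5_0, U_7_0_4, U_7_1_3, U_7_2_2, U_7_3_1, U_7_4_0, U_8_0_3, U_8_1_2, U_8_2_1, U_8_3_0, U_9_0_2, U_9_1_1, U_9_2_0, U_10_0_1, U_10_1_0, U_11_0_0]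
  ring

theorem exists_real_root : ∃ r : ℝ, -319 / 100 ≤ r ∧ r ≤ -318 / 100 ∧
    883 * r ^ 3 + 5349 * r ^ 2 + 9926 * r + 5880 = 0 := by
  have hc : ContinuousOn (fun r : ℝ => 883 * r ^ 3 + 5349 * r ^ 2 + 9926 * r + 5880)
      (Set.Icc (-319 / 100 : ℝ) (-318 / 100)) := by fun_prop
  have := intermediate_value_Icc (by norm_num : (-319 / 100 : ℝ) ≤ -318 / 100) hc
  have h0 : (0 : ℝ) ∈ Set.Icc ((fun r : ℝ => 883 * r ^ 3 + 5349 * r ^ 2 + 9926 * r + 5880) (-319 / 100))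
      ((fun r : ℝ => 883 * r ^ 3 + 5349 * r ^ 2 + 9926 * r + 5880) (-318 / 100)) := by
    constructor <;> norm_num
  obtain ⟨r, hr, h⟩ := this h0
  exact ⟨r, hr.1, hr.2, h⟩

theorem exists_complex_root : ∃ z : ℂ, z.im ≠ 0 ∧
    883 * z ^ 3 + 5349 * z ^ 2 + 9926 * z + 5880 = 0 := by
  obtain ⟨r, hr1, hr2, hr⟩ := exists_real_root
  set b : ℝ := 5349 / 883 + r with hb
  set c : ℝ := 9926 / 883 + r * b with hc
  have hD : 0 < 4 * c - b ^ 2 := by
    rw [hc, hb]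
    nlinarith
  set s : ℝ := Real.sqrt (4 * c - b ^ 2) with hs
  have hs2 : s ^ 2 = 4 * c - b ^ 2 := Real.sq_sqrt hD.le
  have hs0 : 0 < s := Real.sqrt_pos.mpr hD
  refine ⟨⟨-b / 2, s / 2⟩, ?_, ?_⟩
  · show s / 2 ≠ 0
    positivity
  · have hz : (⟨-b / 2, s / 2⟩ : ℂ) = (-(b : ℂ) + (s : ℂ) * Complex.I) / 2 := by
      apply Complex.ext <;> simp
    rw [hz]
    have hs2c : (s : ℂ) ^ 2 = 4 * (c : ℂ) - (b : ℂ) ^ 2 := by exact_mod_cast hs2
    have hbc : (b : ℂ) = 5349 / 883 + (r : ℂ) := by rw [hb]; push_cast; ring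
    have hcc : (c : ℂ) = 9926 / 883 + (r : ℂ) * (b : ℂ) := by rw [hc]; push_cast; ring
    have hrc : 883 * (r : ℂ) ^ 3 + 5349 * (r : ℂ) ^ 2 + 9926 * (r : ℂ) + 5880 = 0 := by
      exact_mod_cast hr
    set z : ℂ := (-(b : ℂ) + (s : ℂ) * Complex.I) / 2 with hzdef
    have hq : z ^ 2 + (b : ℂ) * z + (c : ℂ) = 0 := by
      have hI : Complex.I ^ 2 = -1 := Complex.I_sq
      rw [hzdef]
      linear_combination (-1 / 4 : ℂ) * hs2c + ((s : ℂ) ^ 2 / 4) * hI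
    linear_combination 883 * (z - (r : ℂ)) * hq - 883 * z ^ 2 * hbc - 883 * z * hcc
      + 883 * (r : ℂ) * hcc + 883 * (r : ℂ) ^ 2 * hbc + hrc

/-- The negation of the preceding statement: For all n, real f with f n ≠ 0 whose degree-n polynomial has only real negative complex roots, and all r ≥ 2: if the Pochhammer–Toeplitz polynomial P_n^r is not identically zero, all its complex roots are real and negative. -/
theorem result :
    ¬ (∀ (n : ℕ) (f : ℕ → ℝ), f n ≠ 0 →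
      (∀ z : ℂ, ∑ k ∈ Finset.range (n + 1), (f k : ℂ) * z ^ k = 0 → z.im = 0 ∧ z.re < 0) →
      ∀ r : ℕ, 2 ≤ r →
        (∃ w : ℂ, ∑ k ∈ Finset.Nat.antidiagonalTuple r n,
            (Nat.multinomial Finset.univ k : ℂ) * (∏ i, (f (k i) : ℂ)) *
              Matrix.det (Matrix.of (fun i j : Fin r =>
                (ascPochhammer ℂ (k i)).eval (w + ((j : ℕ) : ℂ) - ((i : ℕ) : ℂ)))) ≠ 0) →
        ∀ z : ℂ, ∑ k ∈ Finset.Nat.antidiagonalTuple r n,
            (Nat.multinomial Finset.univ k : ℂ) * (∏ i, (f (k i) : ℂ)) *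
              Matrix.det (Matrix.of (fun i j : Fin r =>
                (ascPochhammer ℂ (k i)).eval (z + ((j : ℕ) : ℂ) - ((i : ℕ) : ℂ)))) = 0 →
          z.im = 0 ∧ z.re < 0) := by
  intro h
  obtain ⟨z, hz, hzero⟩ := exists_complex_root
  have hroots : ∀ z : ℂ, ∑ k ∈ Finset.range (11 + 1),
      ((fun k => ((Nat.choose 11 k : ℕ) : ℝ)) k : ℂ) * z ^ k = 0 → z.im = 0 ∧ z.re < 0 := by
    intro z hz
    have h1 : (z + 1) ^ 11 = 0 := by
      rw [← hz, add_pow]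
      apply Finset.sum_congr rfl
      intro k _
      push_cast
      ring
    have h2 : z + 1 = 0 := by
      exact pow_eq_zero_iff (by norm_num) |>.mp h1
    have h3 : z = -1 := by linear_combination h2
    rw [h3]
    constructor
    · simp
    · simp
  have hkey := h 11 (fun k => ((Nat.choose 11 k : ℕ) : ℝ)) (by norm_num) hroots 3 (by norm_num)
    ⟨1, by
      have := sum_final 1
      unfold T at this
      rw [this]
      norm_num⟩ z (by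
      have := sum_final z
      unfold T at this
      rw [this, hzero]
      ring)
  exact hz hkey.1

end Pool.Agent.S05086
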