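import Pool.Statements.S05438
import Pool.Agent.LibScxTree.Final

set_option autoImplicit false
open Pool Pool.MP_938f3b_an

namespace Pool.Agent.S05438

/-- The negation of the preceding statement: Every real Banach space admitting a bi-Lipschitz map into the space of bounded real sequences with sup norm carries a norm, equivalent to its own, whose unit sphere contains no nontrivial segment (strictly convex). -/
theorem result :
    ¬ (∀ (X : Type) [NormedAddCommGroup X] [NormedSpace ℝ X] [CompleteSpace X],
      (∃ f : X → lp (fun _ : ℕ => ℝ) ⊤, ∃ K₁ K₂ : NNReal,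
          LipschitzWith K₁ f ∧ AntilipschitzWith K₂ f) →
      ∃ N : X → ℝ, ∃ c C : ℝ, 0 < c ∧ 0 < C ∧
        (∀ x : X, c * ‖x‖ ≤ N x ∧ N x ≤ C * ‖x‖) ∧
        (∀ x y : X, N (x + y) ≤ N x + N y) ∧
        (∀ (r : ℝ) (x : X), N (r • x) = |r| * N x) ∧
        (∀ x y : X, N x = 1 → N y = 1 → x ≠ y → N ((1 / 2 : ℝ) • (x + y)) < 1)) := by
  intro h
  have hcomp : CompleteSpace Pool.Agent.LibScxTree.XS :=
    (Submodule.isClosed_topologicalClosure _).completeSpace_coe
  obtain ⟨N, c, C, hc, hC, hN, hadd, hsmul, hconv⟩ :=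
    h Pool.Agent.LibScxTree.XS Pool.Agent.LibScxTree.exists_embedding
  exact Pool.Agent.LibScxTree.not_strictly_convex hc hC hN hadd hsmul hconv

end Pool.Agent.S05438
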