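import Pool.Statements.S05468
import Pool.Agent.LibRD.HNot
import Pool.Agent.LibRD93.Gen
import Pool.Agent.LibRD54.RDGG

set_option autoImplicit false
open MeasureTheory
open Pool Pool.MP_968973_an

namespace Pool.Agent.S05468

/-- The negation of the preceding statement: If a Hausdorff locally compact, compactly generated group G has rapid decay for some length function, then every closed normal subgroup H with G/H compact also has rapid decay for its Haar measure. -/
theorem result :
    ¬ (∀ (G : Type) [TopologicalSpace G] [Group G] [IsTopologicalGroup G] [LocallyCompactSpace G]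
      [T2Space G] [MeasurableSpace G] [BorelSpace G],
      (∃ K : Set G, IsCompact K ∧ Subgroup.closure K = ⊤) →
      (∀ μ : Measure G, μ.IsHaarMeasure →
        ∃ L : G → ℝ, Measurable L ∧ L 1 = 0 ∧ (∀ g, 0 ≤ L g) ∧ (∀ g, L g⁻¹ = L g) ∧
          (∀ g h, L (g * h) ≤ L g + L h) ∧
          (∀ K : Set G, IsCompact K → BddAbove (L '' K)) ∧
          ∃ C s : ℝ, 0 ≤ C ∧ 0 ≤ s ∧
            ∀ f ξ : G → ℂ, Continuous f → HasCompactSupport f → Continuous ξ →
              HasCompactSupport ξ →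
              eLpNorm (fun x => ∫ y, f y * ξ (y⁻¹ * x) ∂μ) 2 μ ≤
                ENNReal.ofReal C * eLpNorm (fun g => f g * (((1 + L g) ^ s : ℝ) : ℂ)) 2 μ *
                  eLpNorm ξ 2 μ) →
      ∀ H : Subgroup G, H.Normal → IsClosed (H : Set G) → CompactSpace (G ⧸ H) →
        ∀ ν : Measure H, ν.IsHaarMeasure →
          ∃ L : H → ℝ, Measurable L ∧ L 1 = 0 ∧ (∀ g, 0 ≤ L g) ∧ (∀ g, L g⁻¹ = L g) ∧
            (∀ g h, L (g * h) ≤ L g + L h) ∧
            (∀ K : Set H, IsCompact K → BddAbove (L '' K)) ∧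
            ∃ C s : ℝ, 0 ≤ C ∧ 0 ≤ s ∧
              ∀ f ξ : H → ℂ, Continuous f → HasCompactSupport f → Continuous ξ →
                HasCompactSupport ξ →
                eLpNorm (fun x => ∫ y, f y * ξ (y⁻¹ * x) ∂ν) 2 ν ≤
                  ENNReal.ofReal C * eLpNorm (fun g => f g * (((1 + L g) ^ s : ℝ) : ℂ)) 2 ν *
                    eLpNorm ξ 2 ν) := by
  intro hmain
  letI : MeasurableSpace Pool.Agent.RD93.GG := borel _
  haveI : BorelSpace Pool.Agent.RD93.GG := ⟨rfl⟩
  have h1 := hmain Pool.Agent.RD93.GG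
    ⟨Pool.Agent.RD93.gens, Pool.Agent.RD93.isCompact_gens, Pool.Agent.RD93.closure_gens⟩
    (fun μ _ => Pool.Agent.RD54.rd_GG μ)
    Pool.Agent.RD93.HH inferInstance Pool.Agent.RD93.isClosed_HH inferInstance
  obtain ⟨K0⟩ : Nonempty (TopologicalSpace.PositiveCompacts Pool.Agent.RD93.HH) :=
    ⟨⟨⟨(Pool.Agent.RD93.OO 0 : Set Pool.Agent.RD93.HH), Pool.Agent.RD93.isCompact_OO 0⟩, by
      rw [(Pool.Agent.RD93.isClopen_OO 0).2.interior_eq]
      exact ⟨1, Subgroup.one_mem _⟩⟩⟩
  haveI : LocallyCompactSpace Pool.Agent.RD93.HH :=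
    Pool.Agent.RD93.isClosed_HH.isClosedEmbedding_subtypeVal.locallyCompactSpace
  exact Pool.Agent.RD93.HH_not_rd (Measure.haarMeasure K0) inferInstance
    (h1 (Measure.haarMeasure K0) inferInstance)

end Pool.Agent.S05468
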