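import Pool.Statements.S05490

set_option autoImplicit false
open Filter Topology
open Pool Pool.MP_97ee8d_an

namespace Pool.Agent.S05490


/-! algebraic core -/

section core
variable {H H' : Type*} [NormedAddCommGroup H] [InnerProductSpace ℝ H]
  [NormedAddCommGroup H'] [InnerProductSpace ℝ H']

/-- the quartic form -/
noncomputable def T (B : H →ₗ[ℝ] H') (u : H →ₗ[ℝ] ℝ) (x : H) : ℝ :=
  ‖x‖ ^ 4 + ‖B x‖ ^ 4 + (u x) ^ 4

lemma norm4 {G : Type*} [NormedAddCommGroup G] [InnerProductSpace ℝ G] (y z : G) (s : ℝ) :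
    ‖y + s • z‖ ^ 4 = (‖y‖ ^ 2 + 2 * s * inner ℝ y z + s ^ 2 * ‖z‖ ^ 2) ^ 2 := by
  have h : ‖y + s • z‖ ^ 2 = ‖y‖ ^ 2 + 2 * s * inner ℝ y z + s ^ 2 * ‖z‖ ^ 2 := by
    rw [norm_add_sq_real, inner_smul_right, norm_smul, mul_pow, Real.norm_eq_abs, sq_abs]
    ring
  calc ‖y + s • z‖ ^ 4 = (‖y + s • z‖ ^ 2) ^ 2 := by ring
    _ = _ := by rw [h]

lemma first_order (B : H →ₗ[ℝ] H') (u : H →ₗ[ℝ] ℝ) (p : H →ₗ[ℝ] H)
    (hT : ∀ x, T B u (p x) ≤ T B u x) (y z : H) (hy : p y = y) (hz : p z = 0) :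
    ‖y‖ ^ 2 * inner ℝ y z + ‖B y‖ ^ 2 * inner ℝ (B y) (B z) + (u y) ^ 3 * u z = 0 := by
  have key : ∀ s : ℝ, T B u (y + s • z) =
      (‖y‖ ^ 2 + 2 * s * inner ℝ y z + s ^ 2 * ‖z‖ ^ 2) ^ 2 +
      (‖B y‖ ^ 2 + 2 * s * inner ℝ (B y) (B z) + s ^ 2 * ‖B z‖ ^ 2) ^ 2 +
      (u y + s * u z) ^ 4 := by
    intro s
    simp only [T, map_add, map_smul, norm4, smul_eq_mul]
  have hmin : ∀ s : ℝ, T B u (y + (0:ℝ) • z) ≤ T B u (y + s • z) := by
    intro s
    have := hT (y + s • z)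
    rw [map_add, map_smul, hy, hz] at this
    simpa using this
  have hd : HasDerivAt (fun s : ℝ => T B u (y + s • z))
      (4 * (‖y‖ ^ 2 * inner ℝ y z + ‖B y‖ ^ 2 * inner ℝ (B y) (B z) + (u y) ^ 3 * u z)) 0 := by
    have e : (fun s : ℝ => T B u (y + s • z)) = fun s : ℝ =>
      (‖y‖ ^ 2 + 2 * s * inner ℝ y z + s ^ 2 * ‖z‖ ^ 2) ^ 2 +
      (‖B y‖ ^ 2 + 2 * s * inner ℝ (B y) (B z) + s ^ 2 * ‖B z‖ ^ 2) ^ 2 +
      (u y + s * u z) ^ 4 := funext key
    rw [e]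
    have h1 : ∀ A C D : ℝ, HasDerivAt (fun s : ℝ => (A + 2 * s * C + s ^ 2 * D) ^ 2)
        (4 * (A * C)) 0 := by
      intro A C D
      have h0 : HasDerivAt (fun s : ℝ => s) 1 0 := hasDerivAt_id 0
      have h2 : HasDerivAt (fun s : ℝ => A + 2 * s * C + s ^ 2 * D)
          (0 + 2 * 1 * C + (((2:ℕ) : ℝ) * (0:ℝ) ^ (2 - 1) * 1) * D) 0 :=
        (((hasDerivAt_const (0:ℝ) A).fun_add ((h0.const_mul 2).mul_const C))).fun_add
          ((h0.fun_pow 2).mul_const D)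
      have h3 := h2.fun_pow 2
      refine h3.congr_deriv ?_
      norm_num
      ring
    have h4 : HasDerivAt (fun s : ℝ => (u y + s * u z) ^ 4) (4 * ((u y) ^ 3 * u z)) 0 := by
      have h0 : HasDerivAt (fun s : ℝ => s) 1 0 := hasDerivAt_id 0
      have h2 := ((hasDerivAt_const (0:ℝ) (u y)).fun_add (h0.mul_const (u z))).fun_pow 4
      refine h2.congr_deriv ?_
      norm_num
      ring
    have := ((h1 (‖y‖ ^ 2) (inner ℝ y z) (‖z‖ ^ 2)).fun_add
      (h1 (‖B y‖ ^ 2) (inner ℝ (B y) (B z)) (‖B z‖ ^ 2))).fun_add h4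
    refine this.congr_deriv ?_
    ring
  have hloc : IsLocalMin (fun s : ℝ => T B u (y + s • z)) 0 :=
    Filter.Eventually.of_forall hmin
  have := hloc.hasDerivAt_eq_zero hd
  linarith

/-- two quadratic forms, kernel trick -/
lemma kernel_trick (B : H →ₗ[ℝ] H') (S : Submodule ℝ H) (z : H)
    (h : ∀ y ∈ S, ‖y‖ ^ 2 * inner ℝ y z + ‖B y‖ ^ 2 * inner ℝ (B y) (B z) = 0)
    (a b : H) (ha : a ∈ S) (hb : b ∈ S) (hab : ‖a‖ ^ 2 * ‖B b‖ ^ 2 ≠ ‖b‖ ^ 2 * ‖B a‖ ^ 2) :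
    ∀ y ∈ S, inner ℝ y z = (0:ℝ) ∧ inner ℝ (B y) (B z) = (0:ℝ) := by
  have step1 : ∀ y ∈ S, inner ℝ (B y) (B z) = (0:ℝ) → inner ℝ y z = (0:ℝ) := by
    intro y hy h2
    have := h y hy
    rw [h2, mul_zero, add_zero] at this
    rcases mul_eq_zero.mp this with h3 | h3
    · have : y = 0 := by simpa using h3
      rw [this, inner_zero_left]
    · exact h3
  have step2 : ∀ y ∈ S, inner ℝ (B y) (B z) = (0:ℝ) := by
    by_contra hcon
    push Not at hcon
    obtain ⟨y0, hy0, hne⟩ := hcon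
    set κ : ℝ := - (inner ℝ y0 z / inner ℝ (B y0) (B z)) with hκ
    have lin : ∀ y ∈ S, inner ℝ y z = - κ * inner ℝ (B y) (B z) := by
      intro y hy
      set t : ℝ := inner ℝ (B y) (B z) / inner ℝ (B y0) (B z) with ht
      have hmem : y - t • y0 ∈ S := S.sub_mem hy (S.smul_mem _ hy0)
      have h0 : inner ℝ (B (y - t • y0)) (B z) = (0:ℝ) := by
        rw [map_sub, map_smul, inner_sub_left, inner_smul_left]
        simp only [conj_trivial]
        rw [ht]; field_simp; ring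
      have h1 := step1 _ hmem h0
      rw [inner_sub_left, inner_smul_left] at h1
      simp only [conj_trivial] at h1
      rw [hκ]
      have : inner ℝ y z = t * inner ℝ y0 z := by linarith
      rw [this, ht]; field_simp
    have prop1 : ∀ y ∈ S, inner ℝ (B y) (B z) ≠ (0:ℝ) → ‖B y‖ ^ 2 = κ * ‖y‖ ^ 2 := by
      intro y hy hne'
      have h1 := h y hy
      rw [lin y hy] at h1
      have h2 : (‖B y‖ ^ 2 - κ * ‖y‖ ^ 2) * inner ℝ (B y) (B z) = 0 := by linarith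
      rcases mul_eq_zero.mp h2 with h3 | h3
      · linarith
      · exact absurd h3 hne'
    have prop2 : ∀ y ∈ S, ‖B y‖ ^ 2 = κ * ‖y‖ ^ 2 := by
      intro y hy
      by_cases hc : inner ℝ (B y) (B z) = (0:ℝ)
      · have e1 := prop1 (y + y0) (S.add_mem hy hy0) (by
          rw [map_add, inner_add_left, hc, zero_add]; exact hne)
        have e2 := prop1 (y - y0) (S.sub_mem hy hy0) (by
          rw [map_sub, inner_sub_left, hc, zero_sub]; exact neg_ne_zero.mpr hne)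
        have e3 := prop1 y0 hy0 hne
        rw [map_add, norm_add_sq_real, norm_add_sq_real] at e1
        rw [map_sub, norm_sub_sq_real, norm_sub_sq_real] at e2
        linarith
      · exact prop1 y hy hc
    apply hab
    rw [prop2 a ha, prop2 b hb]
    ring
  intro y hy
  exact ⟨step1 y hy (step2 y hy), step2 y hy⟩

/-- combined core -/
lemma core (B : H →ₗ[ℝ] H') (u : H →ₗ[ℝ] ℝ) (p : H →ₗ[ℝ] H)
    (hT : ∀ x, T B u (p x) ≤ T B u x)
    (v a b : H) (hv : p v = v) (ha : p a = a) (hb : p b = b)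
    (huv : u v ≠ 0) (hua : u a = 0) (hub : u b = 0)
    (hab : ‖a‖ ^ 2 * ‖B b‖ ^ 2 ≠ ‖b‖ ^ 2 * ‖B a‖ ^ 2) (z : H) (hz : p z = 0) :
    u z = 0 ∧ ∀ y, p y = y → inner ℝ y z = (0:ℝ) ∧ inner ℝ (B y) (B z) = (0:ℝ) := by
  have F := fun y hy => first_order B u p hT y z hy hz
  -- the subspace Y'
  let S : Submodule ℝ H := LinearMap.ker (p - LinearMap.id) ⊓ LinearMap.ker u
  have memS : ∀ y, y ∈ S ↔ p y = y ∧ u y = 0 := by
    intro y
    simp only [S, Submodule.mem_inf, LinearMap.mem_ker, LinearMap.sub_apply, LinearMap.id_apply,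
      sub_eq_zero]
  have hS : ∀ y ∈ S, inner ℝ y z = (0:ℝ) ∧ inner ℝ (B y) (B z) = (0:ℝ) := by
    apply kernel_trick B S z _ a b ((memS a).2 ⟨ha, hua⟩) ((memS b).2 ⟨hb, hub⟩) hab
    intro y hy
    obtain ⟨h1, h2⟩ := (memS y).1 hy
    have := F y h1
    rw [h2] at this
    simpa using this
  -- now v
  have lin : ∀ w, p w = w → u w = 0 →
      ‖w‖ ^ 2 * inner ℝ v z + ‖B w‖ ^ 2 * inner ℝ (B v) (B z) = 0 := by
    intro w hw huw
    obtain ⟨w1, w2⟩ := hS w ((memS w).2 ⟨hw, huw⟩)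
    -- identity at w + t v, t = 1 and -1 and compare with v
    have e1 := F (w + v) (by rw [map_add, hw, hv])
    have e2 := F (w - v) (by rw [map_sub, hw, hv])
    have e3 := F v hv
    simp only [map_add, map_sub, inner_add_left, inner_sub_left, norm_add_sq_real,
      norm_sub_sq_real, w1, w2, huw, zero_add, zero_sub] at e1 e2
    nlinarith [e1, e2, e3]
  have la := lin a ha hua
  have lb := lin b hb hub
  have d : (‖a‖ ^ 2 * ‖B b‖ ^ 2 - ‖b‖ ^ 2 * ‖B a‖ ^ 2) ≠ 0 := sub_ne_zero.mpr hab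
  have v1 : inner ℝ v z = (0:ℝ) := by
    have : (‖a‖ ^ 2 * ‖B b‖ ^ 2 - ‖b‖ ^ 2 * ‖B a‖ ^ 2) * inner ℝ v z = 0 := by
      linear_combination ‖B b‖ ^ 2 * la - ‖B a‖ ^ 2 * lb
    exact (mul_eq_zero.mp this).resolve_left d
  have v2 : inner ℝ (B v) (B z) = (0:ℝ) := by
    have : (‖a‖ ^ 2 * ‖B b‖ ^ 2 - ‖b‖ ^ 2 * ‖B a‖ ^ 2) * inner ℝ (B v) (B z) = 0 := by
      linear_combination ‖a‖ ^ 2 * lb - ‖b‖ ^ 2 * la
    exact (mul_eq_zero.mp this).resolve_left d
  have uz : u z = 0 := by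
    have := F v hv
    rw [v1, v2, mul_zero, mul_zero, zero_add, zero_add] at this
    exact (mul_eq_zero.mp this).resolve_left (pow_ne_zero _ huv)
  refine ⟨uz, fun y hy => ?_⟩
  set t := u y / u v with ht
  have hw := hS (y - t • v) ((memS _).2 ⟨by rw [map_sub, map_smul, hy, hv], by
    rw [map_sub, map_smul, smul_eq_mul, ht]; field_simp; ring⟩)
  rw [inner_sub_left, inner_smul_left, v1, map_sub, map_smul, inner_sub_left, inner_smul_left,
    v2] at hw
  simpa using hw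

end core


open scoped ENNReal

instance fact14 : Fact ((1:ℝ≥0∞) ≤ 4) := ⟨by norm_num⟩

abbrev H : Type := lp (fun _ : ℕ => ℝ) 2

lemma toReal_two : (2:ℝ≥0∞).toReal = 2 := by norm_num

lemma coord_le (x : H) (j : ℕ) : |x j| ≤ ‖x‖ := by
  have := lp.norm_apply_le_norm (p := 2) (by norm_num) x j
  simpa using this

noncomputable def Bfun (x : ℕ → ℝ) (j : ℕ) : ℝ := (1/2:ℝ) ^ j * (x j + x (j+1))

lemma Bfun_sq_le (x : H) (j : ℕ) : |Bfun x j| ^ 2 ≤ (2 * ‖x‖) ^ 2 * (1/4:ℝ) ^ j := by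
  have h1 := coord_le x j
  have h2 := coord_le x (j+1)
  have h3 : |Bfun x j| ≤ (1/2:ℝ) ^ j * (2 * ‖x‖) := by
    unfold Bfun
    rw [abs_mul, abs_of_nonneg (by positivity : (0:ℝ) ≤ (1/2:ℝ)^j)]
    apply mul_le_mul_of_nonneg_left _ (by positivity)
    calc |x j + x (j+1)| ≤ |x j| + |x (j+1)| := abs_add_le _ _
      _ ≤ 2 * ‖x‖ := by linarith
  calc |Bfun x j| ^ 2 ≤ ((1/2:ℝ) ^ j * (2 * ‖x‖)) ^ 2 := by
        apply pow_le_pow_left₀ (abs_nonneg _) h3
    _ = (2 * ‖x‖) ^ 2 * (1/4:ℝ) ^ j := by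
        rw [mul_pow, ← pow_mul, mul_comm j 2, pow_mul]; norm_num; ring

lemma summable_geo : Summable (fun j : ℕ => (1/4:ℝ) ^ j) :=
  summable_geometric_of_lt_one (by norm_num) (by norm_num)

lemma Bfun_summable (x : H) : Summable (fun j => ‖Bfun x j‖ ^ (2:ℝ≥0∞).toReal) := by
  apply Summable.of_nonneg_of_le (fun j => by positivity) (fun j => ?_)
    (summable_geo.mul_left ((2 * ‖x‖) ^ 2))
  rw [toReal_two, Real.norm_eq_abs]
  have := Bfun_sq_le x j
  rw [← Real.rpow_natCast] at this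
  simpa using this

noncomputable def B0 : H →ₗ[ℝ] H where
  toFun x := ⟨fun j => Bfun x j, memℓp_gen (Bfun_summable x)⟩
  map_add' x y := by
    ext j
    show Bfun (x + y : H) j = Bfun x j + Bfun y j
    simp only [Bfun, lp.coeFn_add, Pi.add_apply]
    ring
  map_smul' c x := by
    ext j
    show Bfun (c • x : H) j = c * Bfun x j
    simp only [Bfun, lp.coeFn_smul, Pi.smul_apply, smul_eq_mul]
    ring

lemma B0_apply (x : H) (j : ℕ) : B0 x j = (1/2:ℝ) ^ j * (x j + x (j+1)) := rfl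

lemma B0_bound (x : H) : ‖B0 x‖ ≤ 3 * ‖x‖ := by
  apply lp.norm_le_of_tsum_le (by norm_num) (by positivity)
  have h1 : ∑' j, ‖B0 x j‖ ^ (2:ℝ≥0∞).toReal ≤ ∑' j, (2 * ‖x‖) ^ 2 * (1/4:ℝ) ^ j := by
    apply Summable.tsum_le_tsum _ (Bfun_summable x) (summable_geo.mul_left _)
    intro j
    rw [toReal_two, Real.norm_eq_abs]
    have := Bfun_sq_le x j
    rw [← Real.rpow_natCast] at this
    simpa using this
  refine h1.trans ?_
  rw [tsum_mul_left, tsum_geometric_of_lt_one (by norm_num) (by norm_num), toReal_two]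
  have : (3 * ‖x‖) ^ (2:ℝ) = (3 * ‖x‖) ^ 2 := by
    rw [← Real.rpow_natCast]; norm_num
  rw [this]
  nlinarith [norm_nonneg x, sq_nonneg ‖x‖]

noncomputable def B : H →L[ℝ] H := B0.mkContinuous 3 B0_bound

lemma B_apply (x : H) (j : ℕ) : B x j = (1/2:ℝ) ^ j * (x j + x (j+1)) := rfl

/-- coordinates -/
noncomputable def co (j : ℕ) : H →L[ℝ] ℝ :=
  LinearMap.mkContinuous
    { toFun := fun x => x j
      map_add' := fun x y => by simp
      map_smul' := fun c x => by simp } 1 (fun x => by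
        rw [one_mul]; exact coord_le x j)

lemma co_apply (j : ℕ) (x : H) : co j x = x j := rfl

noncomputable def e (j : ℕ) : H := lp.single 2 j (1:ℝ)

lemma e_apply (i j : ℕ) : e i j = if j = i then 1 else 0 := by
  unfold e
  rw [lp.single_apply]
  by_cases h : j = i
  · subst h; simp
  · simp [h]

lemma inner_e (k : ℕ) (z : H) : inner ℝ (e k) z = z k := by
  unfold e
  rw [lp.inner_single_left]
  simp

noncomputable def tr (n : ℕ) : H →L[ℝ] H :=
  ∑ i ∈ Finset.range n, (co i).smulRight (e i)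

lemma tr_apply' (n : ℕ) (x : H) : tr n x = ∑ i ∈ Finset.range n, (x i) • e i := by
  simp [tr, co_apply]

lemma coe_sum (s : Finset ℕ) (f : ℕ → H) (j : ℕ) : (∑ i ∈ s, f i : H) j = ∑ i ∈ s, f i j := by
  exact map_sum (co j) f s

lemma tr_apply (n : ℕ) (x : H) (j : ℕ) : tr n x j = if j < n then x j else 0 := by
  rw [tr_apply', coe_sum]
  simp only [lp.coeFn_smul, Pi.smul_apply, e_apply, smul_eq_mul, mul_ite, mul_one, mul_zero]
  simp

lemma tr_comp (n m : ℕ) : (tr n).comp (tr m) = tr (min n m) := by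
  ext x j
  simp only [ContinuousLinearMap.comp_apply, tr_apply]
  by_cases h1 : j < n <;> by_cases h2 : j < m <;> simp [h1, h2]

lemma tr_tendsto (x : H) : Tendsto (fun n => tr n x) atTop (𝓝 x) := by
  have h := (lp.hasSum_single (p := 2) (by norm_num) x).tendsto_sum_nat
  refine h.congr (fun n => ?_)
  rw [tr_apply']
  apply Finset.sum_congr rfl
  intro i _
  unfold e
  ext j
  rw [lp.coeFn_smul, Pi.smul_apply, lp.single_apply, lp.single_apply]
  by_cases hh : j = i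
  · subst hh; simp
  · simp [hh]

lemma norm_sq_eq (x : H) : ‖x‖ ^ 2 = ∑' j, (x j) ^ 2 := by
  have := lp.norm_rpow_eq_tsum (p := 2) (by norm_num) x
  rw [toReal_two] at this
  rw [← Real.rpow_natCast]
  simpa using this

lemma summable_sq (x : H) : Summable (fun j => (x j) ^ 2) := by
  have := (lp.memℓp x).summable (by norm_num)
  rw [toReal_two] at this
  simpa using this

lemma tr_norm_le (n : ℕ) (x : H) : ‖tr n x‖ ≤ ‖x‖ := by
  have h : ‖tr n x‖ ^ 2 ≤ ‖x‖ ^ 2 := by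
    rw [norm_sq_eq, norm_sq_eq]
    apply Summable.tsum_le_tsum _ (summable_sq _) (summable_sq _)
    intro j
    rw [tr_apply]
    split_ifs
    · rfl
    · simpa using sq_nonneg (x j)
  exact le_of_sq_le_sq h (norm_nonneg _)


abbrev W : Type := WithLp 4 (H × WithLp 4 (H × ℝ))

lemma norm_four {α β : Type} [NormedAddCommGroup α] [NormedAddCommGroup β]
    (w : WithLp 4 (α × β)) : ‖w‖ ^ 4 = ‖w.fst‖ ^ 4 + ‖w.snd‖ ^ 4 := by
  have h4 : (4:ℝ≥0∞).toReal = 4 := by norm_num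
  rw [WithLp.prod_norm_eq_add (by norm_num), h4]
  have hp : (0:ℝ) ≤ ‖w.fst‖ ^ (4:ℝ) + ‖w.snd‖ ^ (4:ℝ) := by positivity
  rw [← Real.rpow_natCast, ← Real.rpow_mul hp]
  norm_num

noncomputable def J0 : H →ₗ[ℝ] W where
  toFun x := WithLp.toLp 4 (x, WithLp.toLp 4 (B x, x 0))
  map_add' x y := by
    rw [map_add, lp.coeFn_add, Pi.add_apply]
    rfl
  map_smul' c x := by
    rw [map_smul, lp.coeFn_smul, Pi.smul_apply]
    rfl

lemma J0_norm (x : H) : ‖J0 x‖ ^ 4 = ‖x‖ ^ 4 + ‖B x‖ ^ 4 + (x 0) ^ 4 := by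
  have h1 : ‖J0 x‖ ^ 4 = ‖x‖ ^ 4 + ‖(WithLp.toLp 4 (B x, x 0) : WithLp 4 (H × ℝ))‖ ^ 4 :=
    norm_four (J0 x)
  have h2 : ‖(WithLp.toLp 4 (B x, x 0) : WithLp 4 (H × ℝ))‖ ^ 4 = ‖B x‖ ^ 4 + ‖x 0‖ ^ 4 :=
    norm_four _
  rw [h1, h2, Real.norm_eq_abs, Even.pow_abs (by decide)]
  ring

lemma pow4_le {a b : ℝ} (hb : 0 ≤ b) (h : a ^ 4 ≤ b ^ 4) : a ≤ b :=
  le_of_pow_le_pow_left₀ (by norm_num) hb h

lemma B_bound (x : H) : ‖B x‖ ≤ 3 * ‖x‖ := B0_bound x

lemma J0_bound (x : H) : ‖J0 x‖ ≤ 4 * ‖x‖ := by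
  apply pow4_le (by positivity)
  rw [J0_norm]
  have h1 : ‖B x‖ ^ 4 ≤ (3 * ‖x‖) ^ 4 := pow_le_pow_left₀ (norm_nonneg _) (B_bound x) 4
  have h2 : (x 0) ^ 4 ≤ ‖x‖ ^ 4 := by
    rw [← Even.pow_abs (by decide : Even 4) (x 0)]
    exact pow_le_pow_left₀ (abs_nonneg _) (coord_le x 0) 4
  have h3 : 0 ≤ ‖x‖ ^ 4 := by positivity
  calc ‖x‖ ^ 4 + ‖B x‖ ^ 4 + (x 0) ^ 4 ≤ ‖x‖ ^ 4 + (3 * ‖x‖) ^ 4 + ‖x‖ ^ 4 := by linarith
    _ ≤ (4 * ‖x‖) ^ 4 := by ring_nf; nlinarith

lemma J0_lower (x : H) : ‖x‖ ≤ ‖J0 x‖ := by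
  apply pow4_le (norm_nonneg _)
  rw [J0_norm]
  have : 0 ≤ ‖B x‖ ^ 4 := by positivity
  have : 0 ≤ (x 0) ^ 4 := by positivity
  linarith

noncomputable def J : H →L[ℝ] W := J0.mkContinuous 4 J0_bound

lemma J_norm (x : H) : ‖J x‖ ^ 4 = ‖x‖ ^ 4 + ‖B x‖ ^ 4 + (x 0) ^ 4 := J0_norm x

lemma J_fst (x : H) : (J x).fst = x := rfl

abbrev E : Type := ↥(LinearMap.range (J : H →ₗ[ℝ] W))

instance completeE : CompleteSpace E := by
  have h : AntilipschitzWith 1 J := ContinuousLinearMap.antilipschitz_of_bound J (fun x => by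
    rw [NNReal.coe_one, one_mul]; exact J0_lower x)
  have hc : IsClosed (Set.range J) := h.isClosed_range J.uniformContinuous
  have : IsClosed ((LinearMap.range (J : H →ₗ[ℝ] W) : Submodule ℝ W) : Set W) := by
    rw [LinearMap.coe_range]; exact hc
  exact this.completeSpace_coe

noncomputable def toE : H →L[ℝ] E :=
  J.codRestrict (LinearMap.range (J : H →ₗ[ℝ] W)) (fun x => ⟨x, rfl⟩)

lemma toE_norm (x : H) : ‖toE x‖ ^ 4 = ‖x‖ ^ 4 + ‖B x‖ ^ 4 + (x 0) ^ 4 := J_norm x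

lemma fst_le (w : W) : ‖w.fst‖ ≤ ‖w‖ := by
  apply pow4_le (norm_nonneg _)
  rw [norm_four w]
  have : 0 ≤ ‖w.snd‖ ^ 4 := by positivity
  linarith

noncomputable def ofE : E →L[ℝ] H :=
  LinearMap.mkContinuous
    { toFun := fun w => (w : W).fst
      map_add' := fun x y => rfl
      map_smul' := fun c x => rfl } 1 (fun w => by
        rw [one_mul]; exact fst_le (w : W))

lemma ofE_toE (x : H) : ofE (toE x) = x := rfl

lemma toE_ofE (w : E) : toE (ofE w) = w := by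
  obtain ⟨w, ⟨x, rfl⟩⟩ := w
  rfl

def IsFDD (P : ℕ → E →L[ℝ] E) : Prop :=
  (∀ n, FiniteDimensional ℝ (LinearMap.range (P n : E →ₗ[ℝ] E))) ∧
    (∀ n m, (P n).comp (P m) = P (min n m)) ∧
    (∀ x : E, Tendsto (fun n => P n x) atTop (𝓝 x))

lemma B_tr (n : ℕ) (x : H) : B (tr (n+1) x) = tr n (B x) + ((1/2:ℝ) ^ n * x n) • e n := by
  ext j
  rw [B_apply, lp.coeFn_add, Pi.add_apply, tr_apply, tr_apply, tr_apply, lp.coeFn_smul,
    Pi.smul_apply, e_apply, B_apply]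
  rcases lt_trichotomy j n with h | h | h
  · have h1 : j < n + 1 := by omega
    have h2 : j + 1 < n + 1 := by omega
    have h3 : j ≠ n := by omega
    simp [h1, h, h3]
  · subst h
    simp
  · have h1 : ¬ j < n + 1 := by omega
    have h2 : ¬ j + 1 < n + 1 := by omega
    have h3 : j ≠ n := by omega
    have h4 : ¬ j < n := by omega
    simp [h1, h2, h3, h4]

lemma e_norm (n : ℕ) : ‖e n‖ = 1 := by
  unfold e
  rw [lp.norm_single (by norm_num)]
  simp

lemma poly_ineq (a b d : ℝ) (ha : 0 ≤ a) (hb : 0 ≤ b) (hd : 0 ≤ d) :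
    a ^ 4 + (b + d * a) ^ 4 ≤ (1 + d) ^ 4 * (a ^ 4 + b ^ 4) := by
  have h1 : b ^ 3 * a ≤ a ^ 4 + b ^ 4 := by
    rcases le_total a b with h | h
    · nlinarith [pow_nonneg hb 3, pow_nonneg ha 4, mul_le_mul_of_nonneg_left h (pow_nonneg hb 3)]
    · nlinarith [pow_nonneg hb 4, mul_le_mul_of_nonneg_right (pow_le_pow_left₀ hb h 3) ha]
  have h2 : b ^ 2 * a ^ 2 ≤ a ^ 4 + b ^ 4 := by nlinarith [sq_nonneg (a ^ 2 - b ^ 2), sq_nonneg (a^2), sq_nonneg (b^2)]
  have h3 : b * a ^ 3 ≤ a ^ 4 + b ^ 4 := by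
    rcases le_total a b with h | h
    · nlinarith [pow_nonneg ha 4, mul_le_mul_of_nonneg_right (pow_le_pow_left₀ ha h 3) hb]
    · nlinarith [pow_nonneg ha 3, pow_nonneg hb 4, mul_le_mul_of_nonneg_left h (pow_nonneg ha 3)]
  have e : (1 + d) ^ 4 * (a ^ 4 + b ^ 4) - (a ^ 4 + (b + d * a) ^ 4) =
      4 * d * (a ^ 4 + b ^ 4 - b ^ 3 * a) + 6 * d ^ 2 * (a ^ 4 + b ^ 4 - b ^ 2 * a ^ 2) +
      4 * d ^ 3 * (a ^ 4 + b ^ 4 - b * a ^ 3) + d ^ 4 * b ^ 4 := by ring
  have : 0 ≤ 4 * d * (a ^ 4 + b ^ 4 - b ^ 3 * a) + 6 * d ^ 2 * (a ^ 4 + b ^ 4 - b ^ 2 * a ^ 2) +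
      4 * d ^ 3 * (a ^ 4 + b ^ 4 - b * a ^ 3) + d ^ 4 * b ^ 4 := by
    have := sub_nonneg.mpr h1
    have := sub_nonneg.mpr h2
    have := sub_nonneg.mpr h3
    positivity
  linarith

lemma tr_E_norm (n : ℕ) (x : H) : ‖toE (tr (n+1) x)‖ ≤ (1 + (1/2:ℝ) ^ n) * ‖toE x‖ := by
  apply pow4_le (by positivity)
  rw [toE_norm, mul_pow, toE_norm]
  set d := (1/2:ℝ) ^ n with hd
  have hd0 : 0 ≤ d := by positivity
  have h0 : tr (n+1) x 0 = x 0 := by rw [tr_apply]; simp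
  have h1 : ‖B (tr (n+1) x)‖ ≤ ‖B x‖ + d * ‖x‖ := by
    rw [B_tr]
    calc ‖tr n (B x) + (d * x n) • e n‖ ≤ ‖tr n (B x)‖ + ‖(d * x n) • e n‖ := norm_add_le _ _
      _ ≤ ‖B x‖ + d * ‖x‖ := by
        rw [norm_smul, e_norm, mul_one, Real.norm_eq_abs, abs_mul, abs_of_nonneg hd0]
        exact add_le_add (tr_norm_le _ _) (mul_le_mul_of_nonneg_left (coord_le x n) hd0)
  have h2 : ‖tr (n+1) x‖ ^ 4 ≤ ‖x‖ ^ 4 := pow_le_pow_left₀ (norm_nonneg _) (tr_norm_le _ _) 4
  have h3 : ‖B (tr (n+1) x)‖ ^ 4 ≤ (‖B x‖ + d * ‖x‖) ^ 4 := pow_le_pow_left₀ (norm_nonneg _) h1 4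
  have h4 := poly_ineq ‖x‖ ‖B x‖ d (norm_nonneg _) (norm_nonneg _) hd0
  have h5 : (x 0) ^ 4 ≤ (1 + d) ^ 4 * (x 0) ^ 4 := by
    have : 1 ≤ (1 + d) ^ 4 := one_le_pow₀ (by linarith)
    have h6 : 0 ≤ (x 0) ^ 4 := by positivity
    nlinarith
  rw [h0]
  linarith

lemma tr_range (n : ℕ) : FiniteDimensional ℝ (LinearMap.range (tr n : H →ₗ[ℝ] H)) := by
  have h : LinearMap.range (tr n : H →ₗ[ℝ] H) ≤
      Submodule.span ℝ ((fun i => e i) '' (Finset.range n : Set ℕ)) := by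
    rintro _ ⟨x, rfl⟩
    show tr n x ∈ _
    rw [tr_apply']
    exact Submodule.sum_mem _ (fun i hi => Submodule.smul_mem _ _
      (Submodule.subset_span ⟨i, hi, rfl⟩))
  have : FiniteDimensional ℝ (Submodule.span ℝ ((fun i => e i) '' (Finset.range n : Set ℕ))) :=
    FiniteDimensional.span_of_finite ℝ ((Finset.finite_toSet _).image _)
  exact Submodule.finiteDimensional_of_le h

noncomputable def Q (N m : ℕ) : E →L[ℝ] E := toE.comp ((tr (m + N + 1)).comp ofE)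

lemma Q_apply (N m : ℕ) (w : E) : Q N m w = toE (tr (m + N + 1) (ofE w)) := rfl

lemma Q_isFDD (N : ℕ) : IsFDD (Q N) := by
  refine ⟨fun n => ?_, fun n m => ?_, fun x => ?_⟩
  · have := tr_range (n + N + 1)
    have : LinearMap.range (Q N n : E →ₗ[ℝ] E) ≤
        (LinearMap.range (tr (n + N + 1) : H →ₗ[ℝ] H)).map (toE : H →ₗ[ℝ] E) := by
      rintro _ ⟨w, rfl⟩
      exact ⟨tr (n + N + 1) (ofE w), ⟨ofE w, rfl⟩, rfl⟩
    exact Submodule.finiteDimensional_of_le this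
  · ext1 w
    rw [ContinuousLinearMap.comp_apply, Q_apply, Q_apply, Q_apply, ofE_toE]
    have := tr_comp (n + N + 1) (m + N + 1)
    have h2 : min (n + N + 1) (m + N + 1) = min n m + N + 1 := by omega
    rw [h2] at this
    rw [← this]
    rfl
  · have h1 : Tendsto (fun n => toE (tr (n + N + 1) (ofE x))) atTop (𝓝 (toE (ofE x))) := by
      apply (toE.continuous.tendsto _).comp
      have := tr_tendsto (ofE x)
      have h2 : Tendsto (fun n : ℕ => n + (N + 1)) atTop atTop := tendsto_add_atTop_nat (N + 1)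
      exact this.comp h2
    rw [toE_ofE] at h1
    exact h1

lemma Q_norm (N m : ℕ) : ‖Q N m‖ ≤ 1 + (1/2:ℝ) ^ N := by
  apply ContinuousLinearMap.opNorm_le_bound _ (by positivity)
  intro w
  rw [Q_apply]
  have h := tr_E_norm (m + N) (ofE w)
  rw [toE_ofE] at h
  refine h.trans ?_
  apply mul_le_mul_of_nonneg_right _ (norm_nonneg _)
  have : (1/2:ℝ) ^ (m + N) ≤ (1/2:ℝ) ^ N := pow_le_pow_of_le_one (by norm_num) (by norm_num) (by omega)
  linarith

lemma e_linIndep : LinearIndependent ℝ (fun i : ℕ => e i) := by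
  rw [linearIndependent_iff']
  intro s g hg i hi
  have h1 := congrArg (fun x : H => x i) hg
  simp only [coe_sum, lp.coeFn_smul, Pi.smul_apply, e_apply, smul_eq_mul] at h1
  simpa [hi] using h1

lemma B_e_zero : B (e 0) = e 0 := by
  ext j
  rw [B_apply, e_apply, e_apply]
  by_cases h : j = 0
  · subst h; simp
  · simp [h]

lemma B_e_succ (k : ℕ) : B (e (k+1)) = (1/2:ℝ) ^ (k+1) • e (k+1) + (1/2:ℝ) ^ k • e k := by
  ext j
  rw [B_apply, lp.coeFn_add, Pi.add_apply, lp.coeFn_smul, Pi.smul_apply, lp.coeFn_smul,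
    Pi.smul_apply, e_apply, e_apply, e_apply]
  by_cases h : j = k
  · subst h; simp
  · by_cases h2 : j = k + 1
    · subst h2; simp
    · simp [h, h2]

lemma no_monotone (P : ℕ → E →L[ℝ] E) (hP : IsFDD P) (h1 : ∀ n, ‖P n‖ ≤ 1) : False := by
  obtain ⟨hfin, hcomp, hlim⟩ := hP
  -- transfer to H
  set p : ℕ → H →L[ℝ] H := fun n => ofE.comp ((P n).comp toE) with hp
  have p_apply : ∀ n x, p n x = ofE (P n (toE x)) := fun n x => rfl
  have pp : ∀ n x, p n (p n x) = p n x := by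
    intro n x
    rw [p_apply, p_apply, toE_ofE]
    have := hcomp n n
    rw [min_self] at this
    have h2 : P n (P n (toE x)) = P n (toE x) := by
      conv_rhs => rw [← this]
      rfl
    rw [h2]
  have plim : ∀ x, Tendsto (fun n => p n x) atTop (𝓝 x) := by
    intro x
    have := (ofE.continuous.tendsto _).comp (hlim (toE x))
    exact this
  set u : H →ₗ[ℝ] ℝ := (co 0 : H →ₗ[ℝ] ℝ) with hu
  have u_apply : ∀ x, u x = x 0 := fun x => rfl
  have hT : ∀ n x, T (B : H →ₗ[ℝ] H) u (p n x) ≤ T (B : H →ₗ[ℝ] H) u x := by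
    intro n x
    have e1 : T (B : H →ₗ[ℝ] H) u (p n x) = ‖P n (toE x)‖ ^ 4 := by
      have : P n (toE x) = toE (p n x) := by rw [p_apply, toE_ofE]
      rw [this, toE_norm]
      rfl
    have e2 : T (B : H →ₗ[ℝ] H) u x = ‖toE x‖ ^ 4 := by
      rw [toE_norm]; rfl
    rw [e1, e2]
    apply pow_le_pow_left₀ (norm_nonneg _)
    calc ‖P n (toE x)‖ ≤ ‖P n‖ * ‖toE x‖ := (P n).le_opNorm _
      _ ≤ 1 * ‖toE x‖ := mul_le_mul_of_nonneg_right (h1 n) (norm_nonneg _)
      _ = ‖toE x‖ := one_mul _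
  -- find n
  have cu : Continuous (fun x : H => x 0) := (co 0).continuous
  have L0 : Tendsto (fun n => (p n (e 0)) 0) atTop (𝓝 1) := by
    have := (cu.tendsto _).comp (plim (e 0))
    simp only [e_apply] at this
    simpa [Function.comp_def] using this
  have L1 : Tendsto (fun n => (p n (e 1)) 0) atTop (𝓝 0) := by
    have := (cu.tendsto _).comp (plim (e 1))
    simp only [e_apply] at this
    simpa [Function.comp_def] using this
  have L2 : Tendsto (fun n => (p n (e 2)) 0) atTop (𝓝 0) := by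
    have := (cu.tendsto _).comp (plim (e 2))
    simp only [e_apply] at this
    simpa [Function.comp_def] using this
  set a : ℕ → H := fun n => p n (e 1) - ((p n (e 1)) 0 / (p n (e 0)) 0) • p n (e 0) with ha
  set b : ℕ → H := fun n => p n (e 2) - ((p n (e 2)) 0 / (p n (e 0)) 0) • p n (e 0) with hb
  have La : Tendsto a atTop (𝓝 (e 1)) := by
    have := (plim (e 1)).sub ((L1.div L0 one_ne_zero).smul (plim (e 0)))
    simpa using this
  have Lb : Tendsto b atTop (𝓝 (e 2)) := by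
    have := (plim (e 2)).sub ((L2.div L0 one_ne_zero).smul (plim (e 0)))
    simpa using this
  have LD : Tendsto (fun n => ‖a n‖ ^ 2 * ‖B (b n)‖ ^ 2 - ‖b n‖ ^ 2 * ‖B (a n)‖ ^ 2) atTop
      (𝓝 (‖e 1‖ ^ 2 * ‖B (e 2)‖ ^ 2 - ‖e 2‖ ^ 2 * ‖B (e 1)‖ ^ 2)) := by
    have ca := (La.norm).pow 2
    have cb := (Lb.norm).pow 2
    have cBa := (((B.continuous.tendsto _).comp La).norm).pow 2
    have cBb := (((B.continuous.tendsto _).comp Lb).norm).pow 2
    exact (ca.mul cBb).sub (cb.mul cBa)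
  have nB : ∀ k, ‖B (e (k+1))‖ ^ 2 = ((1/2:ℝ) ^ (k+1)) ^ 2 + ((1/2:ℝ) ^ k) ^ 2 := by
    intro k
    rw [B_e_succ, norm_add_sq_real, norm_smul, norm_smul, e_norm, e_norm, inner_smul_left,
      inner_smul_right, inner_e, e_apply]
    simp
  have hne : ‖e 1‖ ^ 2 * ‖B (e 2)‖ ^ 2 - ‖e 2‖ ^ 2 * ‖B (e 1)‖ ^ 2 ≠ 0 := by
    rw [e_norm, e_norm, nB 1, nB 0]
    norm_num
  obtain ⟨n, hn0, hnD⟩ := ((L0.eventually_ne one_ne_zero).and (LD.eventually_ne hne)).exists
  have C := core (B : H →ₗ[ℝ] H) u (p n : H →ₗ[ℝ] H) (hT n) (p n (e 0)) (a n) (b n)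
    (pp n _) (by
      show p n (a n) = a n
      simp only [ha, map_sub, map_smul, pp]) (by
      show p n (b n) = b n
      simp only [hb, map_sub, map_smul, pp]) hn0 (by
      rw [u_apply]
      simp only [ha, lp.coeFn_sub, Pi.sub_apply, lp.coeFn_smul, Pi.smul_apply, smul_eq_mul]
      field_simp
      ring) (by
      rw [u_apply]
      simp only [hb, lp.coeFn_sub, Pi.sub_apply, lp.coeFn_smul, Pi.smul_apply, smul_eq_mul]
      field_simp
      ring) (fun h => hnD (sub_eq_zero.mpr h))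
  have C1 : ∀ z, p n z = 0 → z 0 = 0 := fun z hz => (C z hz).1
  have C2 : ∀ z, p n z = 0 → ∀ y, p n y = y → inner ℝ y z = (0:ℝ) ∧ inner ℝ (B y) (B z) = (0:ℝ) :=
    fun z hz => (C z hz).2
  have memY : ∀ k, (∀ z, p n z = 0 → z k = 0) → p n (e k) = e k := by
    intro k hk
    set z := e k - p n (e k) with hz
    have hz0 : p n z = 0 := by rw [hz, map_sub, pp, sub_self]
    have i1 : inner ℝ (e k) z = (0:ℝ) := by rw [inner_e]; exact hk z hz0
    have i2 : inner ℝ (p n (e k)) z = (0:ℝ) := (C2 z hz0 _ (pp n _)).1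
    have i3 : inner ℝ z z = (0:ℝ) := by
      nth_rewrite 1 [hz]
      rw [inner_sub_left, i1, i2, sub_self]
    have : z = 0 := inner_self_eq_zero.mp i3
    rw [hz, sub_eq_zero] at this
    exact this.symm
  have allz : ∀ k, ∀ j ≤ k, ∀ z, p n z = 0 → z j = 0 := by
    intro k
    induction k with
    | zero =>
      intro j hj z hz
      obtain rfl : j = 0 := by omega
      exact C1 z hz
    | succ k ih =>
      intro j hj z hz
      rcases Nat.lt_or_ge j (k+1) with h | h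
      · exact ih j (by omega) z hz
      · obtain rfl : j = k + 1 := by omega
        have hk := ih k le_rfl z hz
        have hy := memY k (ih k le_rfl)
        have i2 := (C2 z hz _ hy).2
        cases k with
        | zero =>
          rw [B_e_zero, inner_e, B_apply, hk] at i2
          simpa using i2
        | succ k =>
          have hk' := ih k (by omega) z hz
          rw [B_e_succ, inner_add_left, inner_smul_left, inner_smul_left, inner_e, inner_e,
            B_apply, B_apply, hk, hk'] at i2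
          simpa using i2
  have zero : ∀ z, p n z = 0 → z = 0 := by
    intro z hz
    ext j
    exact allz j j le_rfl z hz
  have full : ∀ x, p n x = x := by
    intro x
    have := zero (x - p n x) (by rw [map_sub, pp, sub_self])
    exact (sub_eq_zero.mp this).symm
  have fullE : ∀ w : E, P n w = w := by
    intro w
    have := full (ofE w)
    rw [p_apply, toE_ofE] at this
    have h2 := congrArg toE this
    rwa [toE_ofE, toE_ofE] at h2
  have hr : LinearMap.range (P n : E →ₗ[ℝ] E) = ⊤ := by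
    rw [LinearMap.range_eq_top]
    intro w
    exact ⟨w, fullE w⟩
  have : FiniteDimensional ℝ (LinearMap.range (P n : E →ₗ[ℝ] E)) := hfin n
  rw [hr] at this
  have : FiniteDimensional ℝ E := Module.finite_def.mpr ((Module.Finite.iff_fg).mp this)
  have inj : Function.Injective (toE : H →ₗ[ℝ] E) := by
    intro x y hxy
    have := congrArg ofE hxy
    exact this
  have : FiniteDimensional ℝ H := FiniteDimensional.of_injective (toE : H →ₗ[ℝ] E) inj
  have := e_linIndep.finite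
  exact not_finite ℕ

/-- The negation of the preceding statement: For every real or complex Banach space with a finite-dimensional decomposition, some decomposition has partial-sum projections whose norms are bounded by any bound valid for every other decomposition, so the decomposition constant is attained. -/
theorem result :
    ¬ (∀ (𝕜 : Type) [RCLike 𝕜] (E : Type) [NormedAddCommGroup E] [NormedSpace 𝕜 E]
      [CompleteSpace E],
      (∃ P : ℕ → E →L[𝕜] E,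
          (∀ n, FiniteDimensional 𝕜 (LinearMap.range (P n : E →ₗ[𝕜] E))) ∧
          (∀ n m, (P n).comp (P m) = P (min n m)) ∧
          (∀ x : E, Tendsto (fun n => P n x) atTop (𝓝 x))) →
      ∃ P : ℕ → E →L[𝕜] E,
        ((∀ n, FiniteDimensional 𝕜 (LinearMap.range (P n : E →ₗ[𝕜] E))) ∧
          (∀ n m, (P n).comp (P m) = P (min n m)) ∧
          (∀ x : E, Tendsto (fun n => P n x) atTop (𝓝 x))) ∧
        ∀ Q : ℕ → E →L[𝕜] E,
          ((∀ n, FiniteDimensional 𝕜 (LinearMap.range (Q n : E →ₗ[𝕜] E))) ∧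
            (∀ n m, (Q n).comp (Q m) = Q (min n m)) ∧
            (∀ x : E, Tendsto (fun n => Q n x) atTop (𝓝 x))) →
          ∀ c : ℝ, (∀ m, ‖Q m‖ ≤ c) → ∀ n, ‖P n‖ ≤ c) := by
  intro h
  obtain ⟨P, hP, hQ⟩ := h ℝ E ⟨Q 0, Q_isFDD 0⟩
  refine no_monotone P hP (fun n => ?_)
  have h1 : ∀ N : ℕ, ‖P n‖ ≤ 1 + (1/2:ℝ) ^ N := fun N =>
    hQ (Q N) (Q_isFDD N) _ (Q_norm N) n
  have h2 : Tendsto (fun N : ℕ => 1 + (1/2:ℝ) ^ N) atTop (𝓝 (1 + 0)) :=
    tendsto_const_nhds.add (tendsto_pow_atTop_nhds_zero_of_lt_one (by norm_num) (by norm_num))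
  rw [add_zero] at h2
  exact ge_of_tendsto' h2 h1

end Pool.Agent.S05490
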