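import Pool.Statements.S05767
import Pool.Agent.Q4.Main

set_option autoImplicit false
open Filter Topology Real
open Pool Pool.MP_ab3195_an

namespace Pool.Agent.S05767

open MeasureTheory in
/-- Convergence of the masses of small balls. -/
lemma tendsto_mass_ball {g : ℕ → Pool.Agent.Q4.E4 → ENNReal} {p : ℕ → Pool.Agent.Q4.E4} {η : ℕ → ℝ}
    (hη : Tendsto η atTop (𝓝 0)) (hp : Tendsto (fun k => 2 * ‖p k‖) atTop (𝓝 0))
    (h1 : ∀ k, ∫⁻ x in Metric.ball (0 : Pool.Agent.Q4.E4) 1, g k x ≤ ENNReal.ofReal (32 * π ^ 2 + η k))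
    (h2 : ∀ k, ENNReal.ofReal (32 * π ^ 2 - η k) ≤
      ∫⁻ x in Metric.ball (0 : Pool.Agent.Q4.E4) (2 * ‖p k‖), g k x) {R : ℝ} (hR : 0 < R) :
    Tendsto (fun k => ∫⁻ x in Metric.ball (0 : Pool.Agent.Q4.E4) 1 ∩ Metric.ball 0 R, g k x) atTop
      (𝓝 (ENNReal.ofReal (32 * π ^ 2))) := by
  have t1 : Tendsto (fun k => ENNReal.ofReal (32 * π ^ 2 + η k)) atTop
      (𝓝 (ENNReal.ofReal (32 * π ^ 2))) := by
    refine (ENNReal.continuous_ofReal.tendsto _).comp ?_
    simpa using hη.const_add (32 * π ^ 2)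
  have t2 : Tendsto (fun k => ENNReal.ofReal (32 * π ^ 2 - η k)) atTop
      (𝓝 (ENNReal.ofReal (32 * π ^ 2))) := by
    refine (ENNReal.continuous_ofReal.tendsto _).comp ?_
    simpa using hη.const_sub (32 * π ^ 2)
  refine tendsto_of_tendsto_of_tendsto_of_le_of_le' t2 t1 ?_ ?_
  · filter_upwards [hp.eventually_le_const hR, hp.eventually_le_const one_pos] with k hk hk1
    refine (h2 k).trans (lintegral_mono_set ?_)
    exact Set.subset_inter (Metric.ball_subset_ball hk1) (Metric.ball_subset_ball hk)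
  · exact Eventually.of_forall fun k => (lintegral_mono_set Set.inter_subset_left).trans (h1 k)

/-- There exist an open connected Ω in R^4, C^1 functions Q_k converging in C^1_loc to Q_0>0, and C^4 solutions of Δ²u_k = Q_k e^{4u_k} with bounded volume, concentrating Q-curvature mass α(x_0) > 16π² = 6 vol(S^4) at some x_0 in Ω. -/
theorem result :
    ∃ (Ω : Set (EuclideanSpace ℝ (Fin 4)))
      (Q : ℕ → EuclideanSpace ℝ (Fin 4) → ℝ)
      (Q₀ : EuclideanSpace ℝ (Fin 4) → ℝ)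
      (u : ℕ → EuclideanSpace ℝ (Fin 4) → ℝ),
      IsOpen Ω ∧ IsConnected Ω ∧
      (∀ k, ContDiffOn ℝ 1 (Q k) Ω) ∧ ContDiffOn ℝ 1 Q₀ Ω ∧
      (∀ K ⊆ Ω, IsCompact K →
        TendstoUniformlyOn Q Q₀ atTop K ∧
        TendstoUniformlyOn (fun k => fderiv ℝ (Q k)) (fderiv ℝ Q₀) atTop K) ∧
      (∀ x ∈ Ω, 0 < Q₀ x) ∧
      (∀ k, ContDiffOn ℝ 4 (u k) Ω) ∧
      (∀ k, ∀ x ∈ Ω,
        ∑ i : Fin 4, ∑ j : Fin 4,
          iteratedFDeriv ℝ 4 (u k) x
            ![(EuclideanSpace.single i (1 : ℝ) : EuclideanSpace ℝ (Fin 4)),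
              (EuclideanSpace.single i (1 : ℝ) : EuclideanSpace ℝ (Fin 4)),
              (EuclideanSpace.single j (1 : ℝ) : EuclideanSpace ℝ (Fin 4)),
              (EuclideanSpace.single j (1 : ℝ) : EuclideanSpace ℝ (Fin 4))]
          = Q k x * Real.exp (4 * u k x)) ∧
      (∃ C : ℝ, ∀ᶠ k in atTop,
        ∫⁻ x in Ω, ENNReal.ofReal (Real.exp (4 * u k x)) ≤ ENNReal.ofReal C) ∧
      ∃ x₀ ∈ Ω, ∃ α : ℝ, 16 * π ^ 2 < α ∧
        Tendsto (fun R : ℝ => liminf (fun k : ℕ =>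
            ∫⁻ x in Ω ∩ Metric.ball x₀ R,
              ENNReal.ofReal (|Q k x| * Real.exp (4 * u k x))) atTop)
          (𝓝[>] 0) (𝓝 (ENNReal.ofReal α)) ∧
        Tendsto (fun R : ℝ => limsup (fun k : ℕ =>
            ∫⁻ x in Ω ∩ Metric.ball x₀ R,
              ENNReal.ofReal (|Q k x| * Real.exp (4 * u k x))) atTop)
          (𝓝[>] 0) (𝓝 (ENNReal.ofReal α)) := by
  classical
  have key : ∀ k : ℕ, ∃ u Q : Pool.Agent.Q4.E4 → ℝ, ContDiff ℝ (⊤ : ℕ∞) u ∧
      ContDiff ℝ (⊤ : ℕ∞) Q ∧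
      (∀ x ∈ Metric.ball (0 : Pool.Agent.Q4.E4) 1,
        Pool.Agent.Q4.lap (Pool.Agent.Q4.lap u) x = Q x * Real.exp (4 * u x)) ∧
      (∀ x ∈ Metric.ball (0 : Pool.Agent.Q4.E4) 1, |Q x - 6| ≤ 1 / ((k : ℝ) + 1)) ∧
      (∀ x ∈ Metric.ball (0 : Pool.Agent.Q4.E4) 1, ‖fderiv ℝ Q x‖ ≤ 1 / ((k : ℝ) + 1)) ∧
      (∀ x ∈ Metric.ball (0 : Pool.Agent.Q4.E4) 1, 5 ≤ Q x) ∧
      ∫⁻ x in Metric.ball (0 : Pool.Agent.Q4.E4) 1, ENNReal.ofReal (|Q x| * Real.exp (4 * u x)) ≤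
        ENNReal.ofReal (32 * π ^ 2 + 1 / ((k : ℝ) + 1)) ∧
      ENNReal.ofReal (32 * π ^ 2 - 1 / ((k : ℝ) + 1)) ≤
        ∫⁻ x in Metric.ball (0 : Pool.Agent.Q4.E4)
          (2 * ‖(1 / ((k : ℝ) + 3)) • (EuclideanSpace.single 0 (1 : ℝ) : Pool.Agent.Q4.E4)‖),
          ENNReal.ofReal (|Q x| * Real.exp (4 * u x)) := by
    intro k
    have hk3 : (0 : ℝ) < 1 / ((k : ℝ) + 3) := by positivity
    have hn : ‖(1 / ((k : ℝ) + 3)) • (EuclideanSpace.single 0 (1 : ℝ) : Pool.Agent.Q4.E4)‖ =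
        1 / ((k : ℝ) + 3) := by
      rw [norm_smul, PiLp.norm_single, Real.norm_eq_abs, abs_of_pos hk3]
      simp
    refine Pool.Agent.Q4.main_lemma ?_ ?_ (by positivity)
    · rw [← norm_pos_iff, hn]
      exact hk3
    · rw [hn, div_lt_div_iff₀ (by positivity) (by norm_num)]
      have : (0 : ℝ) ≤ k := Nat.cast_nonneg k
      linarith
  choose u Q hu hQ heq hQ6 hQd hQ5 hm1 hm2 using key
  have hη : Tendsto (fun k : ℕ => 1 / ((k : ℝ) + 1)) atTop (𝓝 0) :=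
    tendsto_one_div_add_atTop_nhds_zero_nat
  have hp : Tendsto (fun k : ℕ =>
      2 * ‖(1 / ((k : ℝ) + 3)) • (EuclideanSpace.single 0 (1 : ℝ) : Pool.Agent.Q4.E4)‖) atTop
      (𝓝 0) := by
    have h3 : Tendsto (fun k : ℕ => 1 / ((k : ℝ) + 3)) atTop (𝓝 0) := by
      have h4 : Tendsto (fun k : ℕ => (k : ℝ) + 3) atTop atTop :=
        tendsto_atTop_add_const_right _ _ tendsto_natCast_atTop_atTop
      have h7 := h4.inv_tendsto_atTop
      refine h7.congr fun k => ?_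
      simp
    have h5 : Tendsto (fun k : ℕ =>
        (1 / ((k : ℝ) + 3)) • (EuclideanSpace.single 0 (1 : ℝ) : Pool.Agent.Q4.E4)) atTop
        (𝓝 ((0 : ℝ) • (EuclideanSpace.single 0 (1 : ℝ) : Pool.Agent.Q4.E4))) := h3.smul_const _
    have h6 := (h5.norm).const_mul 2
    simpa using h6
  have hlim : ∀ R : ℝ, 0 < R → Tendsto (fun k : ℕ =>
      ∫⁻ x in Metric.ball (0 : Pool.Agent.Q4.E4) 1 ∩ Metric.ball 0 R,
        ENNReal.ofReal (|Q k x| * Real.exp (4 * u k x))) atTop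
      (𝓝 (ENNReal.ofReal (32 * π ^ 2))) := fun R hR => tendsto_mass_ball hη hp hm1 hm2 hR
  refine ⟨Metric.ball 0 1, Q, fun _ => 6, u, Metric.isOpen_ball, ?_, ?_, ?_, ?_, ?_, ?_, ?_, ?_, ?_⟩
  · exact (convex_ball (0 : Pool.Agent.Q4.E4) 1).isConnected (Metric.nonempty_ball.2 one_pos)
  · exact fun k => ((hQ k).of_le (by exact_mod_cast le_top)).contDiffOn
  · exact contDiffOn_const
  · intro K hKΩ _
    constructor
    · rw [Metric.tendstoUniformlyOn_iff]
      intro ε hε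
      filter_upwards [hη.eventually_lt_const hε] with k hk x hx
      rw [dist_comm, Real.dist_eq]
      exact (hQ6 k x (hKΩ hx)).trans_lt hk
    · rw [Metric.tendstoUniformlyOn_iff]
      intro ε hε
      filter_upwards [hη.eventually_lt_const hε] with k hk x hx
      rw [fderiv_const_apply, dist_zero_left]
      exact (hQd k x (hKΩ hx)).trans_lt hk
  · intro x _
    norm_num
  · exact fun k => ((hu k).of_le (WithTop.coe_le_coe.2 (le_top : (4 : ℕ∞) ≤ ⊤))).contDiffOn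
  · intro k x hx
    rw [← heq k x hx]
    exact Pool.Agent.Q4.sum_iteratedFDeriv (hu k) x
  · refine ⟨32 * π ^ 2 + 1, Eventually.of_forall fun k => ?_⟩
    calc ∫⁻ x in Metric.ball (0 : Pool.Agent.Q4.E4) 1, ENNReal.ofReal (Real.exp (4 * u k x))
        ≤ ∫⁻ x in Metric.ball (0 : Pool.Agent.Q4.E4) 1,
          ENNReal.ofReal (|Q k x| * Real.exp (4 * u k x)) := by
          refine MeasureTheory.setLIntegral_mono' Metric.isOpen_ball.measurableSet fun x hx => ?_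
          apply ENNReal.ofReal_le_ofReal
          have h1 := hQ5 k x hx
          have h2 : 1 ≤ |Q k x| := by
            rw [abs_of_pos (by linarith)]
            linarith
          exact le_mul_of_one_le_left (Real.exp_pos _).le h2
      _ ≤ ENNReal.ofReal (32 * π ^ 2 + 1 / ((k : ℝ) + 1)) := hm1 k
      _ ≤ ENNReal.ofReal (32 * π ^ 2 + 1) := by
          apply ENNReal.ofReal_le_ofReal
          have : 1 / ((k : ℝ) + 1) ≤ 1 := by
            rw [div_le_one (by positivity)]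
            have : (0 : ℝ) ≤ k := Nat.cast_nonneg k
            linarith
          linarith
  · refine ⟨0, Metric.mem_ball_self one_pos, 32 * π ^ 2, ?_, ?_, ?_⟩
    · have := Real.pi_pos
      nlinarith [sq_nonneg π, mul_pos Real.pi_pos Real.pi_pos]
    · refine tendsto_const_nhds.congr' ?_
      filter_upwards [self_mem_nhdsWithin] with R hR
      exact (hlim R hR).liminf_eq.symm
    · refine tendsto_const_nhds.congr' ?_
      filter_upwards [self_mem_nhdsWithin] with R hR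
      exact (hlim R hR).limsup_eq.symm

end Pool.Agent.S05767
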