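import Pool.Statements.S06062

set_option autoImplicit false
open Pool Pool.MP_c46510_an
open MeasureTheory

namespace Pool.Agent.S06062

/-- The Haar function. -/
noncomputable def haar (x : ℝ) : ℝ := if ⌊2 * x⌋ = 0 then 1 else if ⌊2 * x⌋ = 1 then -1 else 0

theorem haar_eq (x : ℝ) : haar x =
    Set.indicator (Set.Ico (0:ℝ) (1/2)) (fun _ => (1:ℝ)) x
      - Set.indicator (Set.Ico (1/2:ℝ) 1) (fun _ => (1:ℝ)) x := by
  unfold haar
  have h0 : ⌊2 * x⌋ = 0 ↔ x ∈ Set.Ico (0:ℝ) (1/2) := by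
    rw [Int.floor_eq_iff, Set.mem_Ico]
    constructor
    · rintro ⟨h1, h2⟩
      push_cast at h1 h2
      constructor <;> linarith
    · rintro ⟨h1, h2⟩
      push_cast
      constructor <;> linarith
  have h1 : ⌊2 * x⌋ = 1 ↔ x ∈ Set.Ico (1/2:ℝ) 1 := by
    rw [Int.floor_eq_iff, Set.mem_Ico]
    constructor
    · rintro ⟨h1, h2⟩
      push_cast at h1 h2
      constructor <;> linarith
    · rintro ⟨h1, h2⟩
      push_cast
      constructor <;> linarith
  by_cases a : x ∈ Set.Ico (0:ℝ) (1/2)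
  · have b : x ∉ Set.Ico (1/2:ℝ) 1 := by
      intro b; exact absurd a.2 (not_lt.mpr b.1)
    rw [if_pos (h0.2 a), Set.indicator_of_mem a, Set.indicator_of_notMem b]; norm_num
  · rw [if_neg (fun h => a (h0.1 h)), Set.indicator_of_notMem a]
    by_cases b : x ∈ Set.Ico (1/2:ℝ) 1
    · rw [if_pos (h1.2 b), Set.indicator_of_mem b]; norm_num
    · rw [if_neg (fun h => b (h1.1 h)), Set.indicator_of_notMem b]; norm_num

theorem haar_integrable : Integrable haar := by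
  have : haar = (fun x => Set.indicator (Set.Ico (0:ℝ) (1/2)) (fun _ => (1:ℝ)) x
      - Set.indicator (Set.Ico (1/2:ℝ) 1) (fun _ => (1:ℝ)) x) := funext haar_eq
  rw [this]
  apply Integrable.sub
  · rw [integrable_indicator_iff measurableSet_Ico]
    exact integrableOn_const (by simp)
  · rw [integrable_indicator_iff measurableSet_Ico]
    exact integrableOn_const (by simp)

theorem haar_integral : ∫ x, haar x = 0 := by
  have : haar = (fun x => Set.indicator (Set.Ico (0:ℝ) (1/2)) (fun _ => (1:ℝ)) x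
      - Set.indicator (Set.Ico (1/2:ℝ) 1) (fun _ => (1:ℝ)) x) := funext haar_eq
  rw [this]
  rw [integral_sub]
  · rw [integral_indicator measurableSet_Ico, integral_indicator measurableSet_Ico]
    simp
    norm_num
  · rw [integrable_indicator_iff measurableSet_Ico]
    exact integrableOn_const (by simp)
  · rw [integrable_indicator_iff measurableSet_Ico]
    exact integrableOn_const (by simp)

theorem haar_off (x : ℝ) (hx : x ∉ Set.Ico (0:ℝ) 1) : haar x = 0 := by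
  rw [haar_eq, Set.indicator_of_notMem, Set.indicator_of_notMem]
  · ring
  · rintro ⟨a, b⟩; exact hx ⟨by linarith, b⟩
  · rintro ⟨a, b⟩; exact hx ⟨a, by linarith⟩

theorem haar_sq (x : ℝ) : haar x * haar x = Set.indicator (Set.Ico (0:ℝ) 1) (fun _ => (1:ℝ)) x := by
  rw [haar_eq]
  by_cases a : x ∈ Set.Ico (0:ℝ) (1/2)
  · have b : x ∉ Set.Ico (1/2:ℝ) 1 := by
      intro b; exact absurd a.2 (not_lt.mpr b.1)
    have c : x ∈ Set.Ico (0:ℝ) 1 := ⟨a.1, by linarith [a.2]⟩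
    rw [Set.indicator_of_mem a, Set.indicator_of_notMem b, Set.indicator_of_mem c]; norm_num
  · by_cases b : x ∈ Set.Ico (1/2:ℝ) 1
    · have c : x ∈ Set.Ico (0:ℝ) 1 := ⟨by linarith [b.1], b.2⟩
      rw [Set.indicator_of_notMem a, Set.indicator_of_mem b, Set.indicator_of_mem c]; norm_num
    · have c : x ∉ Set.Ico (0:ℝ) 1 := by
        rintro ⟨c1, c2⟩
        by_cases d : x < 1/2
        · exact a ⟨c1, d⟩
        · exact b ⟨not_lt.1 d, c2⟩
      rw [Set.indicator_of_notMem a, Set.indicator_of_notMem b, Set.indicator_of_notMem c]; norm_num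

theorem haar_sq_integral : ∫ x, haar x * haar x = 1 := by
  simp_rw [haar_sq]
  rw [integral_indicator measurableSet_Ico]
  simp

theorem haar_measurable : Measurable haar := by
  have : haar = (fun x => Set.indicator (Set.Ico (0:ℝ) (1/2)) (fun _ => (1:ℝ)) x
      - Set.indicator (Set.Ico (1/2:ℝ) 1) (fun _ => (1:ℝ)) x) := funext haar_eq
  rw [this]
  exact (measurable_const.indicator measurableSet_Ico).sub
    (measurable_const.indicator measurableSet_Ico)

theorem haar_const (n : ℕ) (hn : 1 ≤ n) (m k : ℤ) (y : ℝ) (hy : y ∈ Set.Ico (0:ℝ) 1) :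
    haar ((y + m) / 2 ^ n - k) = haar ((m : ℝ) / 2 ^ n - k) := by
  obtain ⟨r, rfl⟩ : ∃ r, n = r + 1 := ⟨n - 1, by omega⟩
  have key : ∀ z : ℝ, z ∈ Set.Ico (0:ℝ) 1 →
      ⌊2 * ((z + m) / 2 ^ (r+1) - k)⌋ = m / ((2 ^ r : ℕ) : ℤ) - 2 * k := by
    intro z hz
    have e : 2 * ((z + m) / 2 ^ (r+1) - k) = (z + m) / ((2 ^ r : ℕ) : ℝ) - ((2 * k : ℤ) : ℝ) := by
      push_cast
      rw [pow_succ]
      field_simp
    rw [e, Int.floor_sub_intCast, Int.floor_div_natCast]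
    have : ⌊z + (m:ℝ)⌋ = m := by
      rw [Int.floor_add_intCast]
      have : ⌊z⌋ = 0 := Int.floor_eq_zero_iff.2 hz
      rw [this]; simp
    rw [this]
  unfold haar
  rw [key y hy]
  have := key 0 (by simp)
  rw [zero_add] at this
  rw [this]

/-- The normalised Haar system, indexed by scale and position. -/
noncomputable def H (p : ℤ × ℤ) (x : ℝ) : ℝ := Real.sqrt 2 ^ p.1 * haar ((2:ℝ) ^ p.1 * x - p.2)

theorem subst_integral (F : ℝ → ℝ) (j k : ℤ) :
    ∫ x, F ((2:ℝ) ^ j * x - k) = (2:ℝ) ^ (-j) * ∫ y, F y := by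
  have h1 := Measure.integral_comp_mul_left (fun x => F (x - k)) ((2:ℝ) ^ j)
  rw [h1, integral_sub_right_eq_self]
  rw [abs_of_pos (by positivity), zpow_neg, smul_eq_mul]

theorem sqrt_zpow_sq (j : ℤ) : Real.sqrt 2 ^ j * Real.sqrt 2 ^ j = (2:ℝ) ^ j := by
  rw [← mul_zpow, Real.mul_self_sqrt (by norm_num)]

theorem H_norm (p : ℤ × ℤ) : ∫ x, H p x * H p x = 1 := by
  have e : ∀ x, H p x * H p x = (2:ℝ)^p.1 * (fun y => haar y * haar y) ((2:ℝ) ^ p.1 * x - p.2) := by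
    intro x
    unfold H
    rw [← sqrt_zpow_sq]; ring
  simp_rw [e]
  rw [integral_const_mul, subst_integral (fun y => haar y * haar y), haar_sq_integral]
  rw [mul_one, zpow_neg, mul_inv_cancel₀ (by positivity)]

theorem H_orth_aux (p q : ℤ × ℤ) (hpq : p ≠ q) (hle : p.1 ≤ q.1) :
    ∫ x, H p x * H q x = 0 := by
  obtain ⟨j, k⟩ := p
  obtain ⟨j', k'⟩ := q
  simp only at hle
  obtain ⟨n, hn⟩ := Int.eq_ofNat_of_zero_le (sub_nonneg.2 hle)
  have hj' : j' = j + n := by omega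
  have e : ∀ x, H (j,k) x * H (j',k') x =
      (Real.sqrt 2 ^ j * Real.sqrt 2 ^ j') *
        (fun y => haar ((y + k') / 2 ^ n - k) * haar y) ((2:ℝ) ^ j' * x - k') := by
    intro x
    unfold H
    simp only
    have : ((2:ℝ) ^ j' * x - k' + k') / 2 ^ n = (2:ℝ)^j * x := by
      rw [hj', zpow_add₀ (by norm_num), zpow_natCast]
      field_simp
      ring
    rw [this]
    ring
  simp_rw [e]
  rw [integral_const_mul, subst_integral (fun y => haar ((y + k') / 2 ^ n - k) * haar y)]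
  have : ∫ y, haar ((y + k') / 2 ^ n - k) * haar y = 0 := by
    by_cases h0 : n = 0
    · subst h0
      have hk : k ≠ k' := by
        rintro rfl
        apply hpq
        simp at hj'
        rw [hj']
      have : ∀ y : ℝ, haar ((y + k') / 2 ^ 0 - k) * haar y = 0 := by
        intro y
        rw [pow_zero, div_one]
        by_cases hy : y ∈ Set.Ico (0:ℝ) 1
        · have : haar (y + k' - k) = 0 := by
            apply haar_off
            rintro ⟨a, b⟩
            apply hk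
            obtain ⟨c, d⟩ := hy
            have h1 : (k:ℝ) < k' + 1 := by linarith
            have h2 : (k':ℝ) < k + 1 := by linarith
            have h1' : k < k' + 1 := by exact_mod_cast h1
            have h2' : k' < k + 1 := by exact_mod_cast h2
            omega
          rw [this, zero_mul]
        · rw [haar_off y hy, mul_zero]
      simp_rw [this]
      simp
    · have : ∀ y : ℝ, haar ((y + k') / 2 ^ n - k) * haar y
          = haar ((k' : ℝ) / 2 ^ n - k) * haar y := by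
        intro y
        by_cases hy : y ∈ Set.Ico (0:ℝ) 1
        · rw [haar_const n (by omega) k' k y hy]
        · rw [haar_off y hy, mul_zero, mul_zero]
      simp_rw [this]
      rw [integral_const_mul, haar_integral, mul_zero]
  rw [this, mul_zero, mul_zero]

theorem H_orth (p q : ℤ × ℤ) (hpq : p ≠ q) : ∫ x, H p x * H q x = 0 := by
  rcases le_total p.1 q.1 with h | h
  · exact H_orth_aux p q hpq h
  · have := H_orth_aux q p hpq.symm h
    rw [← this]
    congr 1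
    ext x
    ring


/-- Bessel inequality for finitely many square integrable functions. -/
theorem bessel {ι : Type} [DecidableEq ι] (v : ι → ℝ → ℂ) (hv : ∀ i, MemLp (v i) 2 volume)
    (ho : ∀ i j, ∫ x, v i x * (starRingEnd ℂ) (v j x) = if i = j then 1 else 0)
    (f : ℝ → ℂ) (hf : MemLp f 2 volume) (S : Finset ι) :
    ∑ i ∈ S, ‖∫ x, f x * (starRingEnd ℂ) (v i x)‖ ^ 2 ≤ ∫ x, ‖f x‖ ^ 2 := by
  set V : ι → Lp ℂ 2 (volume : Measure ℝ) := fun i => (hv i).toLp with hV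
  have inner_eq : ∀ (a b : ℝ → ℂ) (ha : MemLp a 2 volume) (hb : MemLp b 2 volume),
      inner ℂ (ha.toLp) (hb.toLp) = ∫ x, b x * (starRingEnd ℂ) (a x) := by
    intro a b ha hb
    rw [L2.inner_def]
    apply integral_congr_ae
    filter_upwards [ha.coeFn_toLp, hb.coeFn_toLp] with x h1 h2
    rw [h1, h2]
    simp [RCLike.inner_apply]
  have horth : Orthonormal ℂ V := by
    rw [orthonormal_iff_ite]
    intro i j
    rw [inner_eq, ho]
    simp [eq_comm]
  have := horth.sum_inner_products_le (x := hf.toLp) (s := S)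
  have e1 : ∀ i, inner ℂ (V i) (hf.toLp) = ∫ x, f x * (starRingEnd ℂ) (v i x) := by
    intro i
    rw [hV, inner_eq]
  simp_rw [e1] at this
  refine this.trans (le_of_eq ?_)
  have h2 : ((‖hf.toLp‖ ^ 2 : ℝ) : ℂ) = ((∫ x, ‖f x‖ ^ 2 : ℝ) : ℂ) := by
    rw [← integral_complex_ofReal]
    have h3 := inner_self_eq_norm_sq_to_K (𝕜 := ℂ) (hf.toLp)
    rw [inner_eq] at h3
    have h4 : ((‖hf.toLp‖ : ℝ) : ℂ) ^ 2 = ∫ x, f x * (starRingEnd ℂ) (f x) := h3.symm
    push_cast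
    rw [h4]
    congr 1
    ext x
    rw [RCLike.mul_conj]
    rfl
  exact_mod_cast h2

/-- Wavelet system. -/
noncomputable def wav (φ : ℝ → ℂ) (p : ℤ × ℤ) (x : ℝ) : ℂ :=
  ((Real.sqrt 2 ^ p.1 : ℝ) : ℂ) * φ ((2 : ℝ) ^ p.1 * x - (p.2 : ℝ))

theorem comp_memLp (φ : ℝ → ℂ) (hφ : MemLp φ 2 volume) (j k : ℤ) :
    MemLp (fun x => φ ((2 : ℝ) ^ j * x - (k : ℝ))) 2 volume := by
  have h1 : MemLp (fun x => φ (x - (k:ℝ))) 2 volume :=
    hφ.comp_measurePreserving (measurePreserving_sub_right volume (k:ℝ))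
  have hne : ((2:ℝ)^j) ≠ 0 := by positivity
  have h2 : MemLp (fun x => φ (x - (k:ℝ))) 2 (Measure.map (fun x => (2:ℝ)^j * x) volume) := by
    rw [Real.map_volume_mul_left hne]
    exact h1.smul_measure (by simp)
  exact h2.comp_of_map (by fun_prop)

theorem wav_memLp (φ : ℝ → ℂ) (hφ : MemLp φ 2 volume) (p : ℤ × ℤ) :
    MemLp (wav φ p) 2 volume := by
  unfold wav
  exact (comp_memLp φ hφ p.1 p.2).const_mul _

/-- Squared modulus of a wavelet coefficient. -/
noncomputable def co (φ f : ℝ → ℂ) (p : ℤ × ℤ) : ℝ :=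
  ‖∫ x, f x * (starRingEnd ℂ) (wav φ p x)‖ ^ 2

theorem co_nonneg (φ f : ℝ → ℂ) (p : ℤ × ℤ) : 0 ≤ co φ f p := by
  unfold co; positivity

/-- Complex valued Haar system. -/
noncomputable def HC (p : ℤ × ℤ) (x : ℝ) : ℂ := ((H p x : ℝ) : ℂ)

theorem HC_orth (p q : ℤ × ℤ) :
    ∫ x, HC p x * (starRingEnd ℂ) (HC q x) = if p = q then 1 else 0 := by
  have e : ∀ x, HC p x * (starRingEnd ℂ) (HC q x) = ((H p x * H q x : ℝ) : ℂ) := by
    intro x
    unfold HC
    rw [Complex.conj_ofReal]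
    push_cast
    rfl
  simp_rw [e]
  rw [integral_complex_ofReal]
  by_cases h : p = q
  · subst h
    rw [H_norm]; simp
  · rw [H_orth p q h, if_neg h]; simp

theorem haarC_memLp : MemLp (fun x => ((haar x : ℝ) : ℂ)) 2 volume := by
  have hm : Measurable (fun x => ((haar x : ℝ) : ℂ)) := Complex.measurable_ofReal.comp haar_measurable
  rw [memLp_two_iff_integrable_sq_norm hm.aestronglyMeasurable]
  have e : ∀ x, ‖((haar x : ℝ) : ℂ)‖ ^ 2 = haar x * haar x := by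
    intro x
    rw [Complex.norm_real, Real.norm_eq_abs, sq_abs, sq]
  simp_rw [e, haar_sq]
  rw [integrable_indicator_iff measurableSet_Ico]
  exact integrableOn_const (by simp)

theorem HC_eq_wav (p : ℤ × ℤ) : HC p = wav (fun x => ((haar x : ℝ) : ℂ)) p := by
  ext x
  unfold HC H wav
  push_cast
  rfl

theorem HC_memLp (p : ℤ × ℤ) : MemLp (HC p) 2 volume := by
  rw [HC_eq_wav]
  exact wav_memLp _ haarC_memLp p

theorem set_norm (φ : ℝ → ℂ) (j k : ℤ) :
    ∫ x in Set.Ico (1:ℝ) 2, ‖wav φ (j,k) x‖ ^ 2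
      = ∫ y in Set.Ico ((2:ℝ)^j - k) ((2:ℝ)^(j+1) - k), ‖φ y‖ ^ 2 := by
  rw [← integral_indicator measurableSet_Ico, ← integral_indicator measurableSet_Ico]
  have e : ∀ x, (Set.Ico (1:ℝ) 2).indicator (fun x => ‖wav φ (j,k) x‖ ^ 2) x
      = (2:ℝ)^j * (Set.Ico ((2:ℝ)^j - k) ((2:ℝ)^(j+1) - k)).indicator (fun y => ‖φ y‖ ^ 2)
          ((2:ℝ)^j * x - k) := by
    intro x
    have hpos : (0:ℝ) < (2:ℝ)^j := by positivity
    by_cases hx : x ∈ Set.Ico (1:ℝ) 2
    · have hx' : (2:ℝ)^j * x - k ∈ Set.Ico ((2:ℝ)^j - k) ((2:ℝ)^(j+1) - k) := by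
        obtain ⟨a, b⟩ := hx
        constructor
        · nlinarith
        · rw [zpow_add₀ (by norm_num)]
          have := mul_lt_mul_of_pos_left b hpos
          simp only [zpow_one]
          linarith
      rw [Set.indicator_of_mem hx, Set.indicator_of_mem hx']
      unfold wav
      simp only
      rw [norm_mul, mul_pow, Complex.norm_real, Real.norm_eq_abs, sq_abs, sq, sqrt_zpow_sq]
    · have hx' : (2:ℝ)^j * x - k ∉ Set.Ico ((2:ℝ)^j - k) ((2:ℝ)^(j+1) - k) := by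
        rintro ⟨a, b⟩
        apply hx
        constructor
        · have : (2:ℝ)^j * 1 ≤ (2:ℝ)^j * x := by linarith
          exact le_of_mul_le_mul_left this hpos
        · rw [zpow_add₀ (by norm_num)] at b
          simp only [zpow_one] at b
          have : (2:ℝ)^j * x < (2:ℝ)^j * 2 := by linarith
          exact lt_of_mul_lt_mul_left this hpos.le
      rw [Set.indicator_of_notMem hx, Set.indicator_of_notMem hx', mul_zero]
  simp_rw [e]
  rw [integral_const_mul, subst_integral, ← mul_assoc, ← zpow_add₀ (by norm_num)]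
  simp

theorem sum_set_norm (φ : ℝ → ℂ) (hφ : MemLp φ 2 volume) (T : Finset (ℤ × ℤ))
    (hT : ∀ p ∈ T, p.1 < 0) :
    ∑ p ∈ T, ∫ x in Set.Ico (1:ℝ) 2, ‖wav φ p x‖ ^ 2 ≤ ∫ y, ‖φ y‖ ^ 2 := by
  have hint : Integrable (fun y => ‖φ y‖ ^ 2) := by
    have := (memLp_two_iff_integrable_sq_norm hφ.1).1 hφ
    exact this
  have e : ∑ p ∈ T, ∫ x in Set.Ico (1:ℝ) 2, ‖wav φ p x‖ ^ 2
      = ∑ p ∈ T, ∫ y in Set.Ico ((2:ℝ)^p.1 - p.2) ((2:ℝ)^(p.1+1) - p.2), ‖φ y‖ ^ 2 := by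
    apply Finset.sum_congr rfl
    rintro ⟨j, k⟩ _
    exact set_norm φ j k
  rw [e, ← integral_biUnion_finset]
  · exact setIntegral_le_integral hint (Filter.Eventually.of_forall (fun x => by positivity))
  · intro p _
    exact measurableSet_Ico
  · rintro ⟨j, k⟩ hp ⟨j', k'⟩ hq hne
    rw [Function.onFun, Set.disjoint_left]
    rintro y ⟨a, b⟩ ⟨a', b'⟩
    apply hne
    have hj := hT _ hp
    have hj' := hT _ hq
    simp only at hj hj' a b a' b'
    have h1 : (2:ℝ)^(j+1) ≤ 1 := by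
      have : (2:ℝ)^(j+1) ≤ (2:ℝ)^(0:ℤ) := zpow_le_zpow_right₀ (by norm_num) (by omega)
      simpa using this
    have h1' : (2:ℝ)^(j'+1) ≤ 1 := by
      have : (2:ℝ)^(j'+1) ≤ (2:ℝ)^(0:ℤ) := zpow_le_zpow_right₀ (by norm_num) (by omega)
      simpa using this
    have p1 : (0:ℝ) < (2:ℝ)^j := by positivity
    have p1' : (0:ℝ) < (2:ℝ)^j' := by positivity
    have k1 : (k:ℝ) < k' + 1 := by linarith
    have k2 : (k':ℝ) < k + 1 := by linarith
    have k1' : k < k' + 1 := by exact_mod_cast k1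
    have k2' : k' < k + 1 := by exact_mod_cast k2
    have hk : k = k' := by omega
    subst hk
    have m1 : (2:ℝ)^j < (2:ℝ)^(j'+1) := by linarith
    have m2 : (2:ℝ)^j' < (2:ℝ)^(j+1) := by linarith
    have m1' : j < j' + 1 := (zpow_lt_zpow_iff_right₀ (by norm_num)).1 m1
    have m2' : j' < j + 1 := (zpow_lt_zpow_iff_right₀ (by norm_num)).1 m2
    have : j = j' := by omega
    rw [this]
  · intro p _
    exact hint.integrableOn

theorem HC_supp (p : ℤ × ℤ) (h1 : (2:ℝ)^p.1 = p.2) (h0 : 0 ≤ p.1) (x : ℝ)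
    (hx : x ∉ Set.Ico (1:ℝ) 2) : HC p x = 0 := by
  unfold HC H
  have hp : (1:ℝ) ≤ (2:ℝ)^p.1 := one_le_zpow₀ (by norm_num) h0
  rw [haar_off, mul_zero, Complex.ofReal_zero]
  rw [← h1]
  rintro ⟨a, b⟩
  apply hx
  constructor
  · have : (2:ℝ)^p.1 * 1 ≤ (2:ℝ)^p.1 * x := by linarith
    exact le_of_mul_le_mul_left this (by positivity)
  · have : (2:ℝ)^p.1 * x < (2:ℝ)^p.1 * 2 := by linarith
    exact lt_of_mul_lt_mul_left this (by positivity)

theorem three_le (φ : ℝ → ℂ) (hφ : MemLp φ 2 volume) (p : ℤ × ℤ) :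
    co φ (HC (0,1)) p + co φ (HC (1,2)) p + co φ (HC (2,4)) p
      ≤ ∫ x in Set.Ico (1:ℝ) 2, ‖wav φ p x‖ ^ 2 := by
  have hw := wav_memLp φ hφ p
  have hf : MemLp ((Set.Ico (1:ℝ) 2).indicator (wav φ p)) 2 volume :=
    hw.indicator measurableSet_Ico
  have hb := bessel HC HC_memLp HC_orth _ hf {((0:ℤ),(1:ℤ)), ((1:ℤ),(2:ℤ)), ((2:ℤ),(4:ℤ))}
  rw [Finset.sum_insert (by simp), Finset.sum_insert (by simp), Finset.sum_singleton] at hb
  have hr : ∫ x, ‖(Set.Ico (1:ℝ) 2).indicator (wav φ p) x‖ ^ 2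
      = ∫ x in Set.Ico (1:ℝ) 2, ‖wav φ p x‖ ^ 2 := by
    rw [← integral_indicator measurableSet_Ico]
    congr 1
    ext x
    by_cases hx : x ∈ Set.Ico (1:ℝ) 2
    · rw [Set.indicator_of_mem hx, Set.indicator_of_mem hx]
    · rw [Set.indicator_of_notMem hx, Set.indicator_of_notMem hx]; simp
  have hc : ∀ q : ℤ × ℤ, (2:ℝ)^q.1 = q.2 → 0 ≤ q.1 →
      ‖∫ x, (Set.Ico (1:ℝ) 2).indicator (wav φ p) x * (starRingEnd ℂ) (HC q x)‖ ^ 2
        = co φ (HC q) p := by
    intro q h1 h0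
    unfold co
    congr 1
    have e : ∀ x, (Set.Ico (1:ℝ) 2).indicator (wav φ p) x * (starRingEnd ℂ) (HC q x)
        = (starRingEnd ℂ) (HC q x * (starRingEnd ℂ) (wav φ p x)) := by
      intro x
      by_cases hx : x ∈ Set.Ico (1:ℝ) 2
      · rw [Set.indicator_of_mem hx, map_mul, Complex.conj_conj, mul_comm]
      · rw [Set.indicator_of_notMem hx, HC_supp q h1 h0 x hx]; simp
    simp_rw [e]
    rw [integral_conj, RCLike.norm_conj]
  rw [hc (0,1) (by norm_num) (by norm_num), hc (1,2) (by norm_num) (by norm_num),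
    hc (2,4) (by norm_num) (by norm_num), hr] at hb
  linarith

theorem co_shift (φ f : ℝ → ℂ) (j : ℕ) (k : ℤ) :
    co φ (fun x => f (x - 1)) ((j:ℤ), k) = co φ f ((j:ℤ), k - 2 ^ j) := by
  unfold co
  congr 2
  have h := integral_sub_right_eq_self (μ := volume)
    (fun x => f x * (starRingEnd ℂ) (wav φ ((j:ℤ), k - 2 ^ j) x)) (1:ℝ)
  rw [← h]
  congr 1
  ext x
  congr 2
  unfold wav
  simp only
  congr 2
  push_cast
  rw [zpow_natCast]
  ring

theorem norm_shift (f : ℝ → ℂ) : ∫ x, ‖f (x - 1)‖ ^ 2 = ∫ x, ‖f x‖ ^ 2 :=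
  integral_sub_right_eq_self (μ := volume) (fun x => ‖f x‖ ^ 2) (1:ℝ)

/-- Position shift at nonnegative scales. -/
def sh : (ℤ × ℤ) ≃ (ℤ × ℤ) where
  toFun p := (p.1, p.2 - (if p.1 < 0 then 0 else 2 ^ p.1.toNat))
  invFun p := (p.1, p.2 + (if p.1 < 0 then 0 else 2 ^ p.1.toNat))
  left_inv p := by simp
  right_inv p := by simp

/-- Total coefficient mass of two generators. -/
noncomputable def tot (φ φ' f : ℝ → ℂ) (p : ℤ × ℤ) : ℝ := co φ f p + co φ' f p

theorem tot_nonneg (φ φ' f : ℝ → ℂ) (p : ℤ × ℤ) : 0 ≤ tot φ φ' f p :=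
  add_nonneg (co_nonneg _ _ _) (co_nonneg _ _ _)

/-- Coarse scale part. -/
noncomputable def neg (φ φ' f : ℝ → ℂ) (p : ℤ × ℤ) : ℝ := if p.1 < 0 then tot φ φ' f p else 0

/-- Fine scale part. -/
noncomputable def pos (φ φ' f : ℝ → ℂ) (p : ℤ × ℤ) : ℝ := if p.1 < 0 then 0 else tot φ φ' f p

theorem neg_add_pos (φ φ' f : ℝ → ℂ) (p : ℤ × ℤ) :
    neg φ φ' f p + pos φ φ' f p = tot φ φ' f p := by
  unfold neg pos
  split_ifs <;> simp

theorem pos_shift (φ φ' f : ℝ → ℂ) (p : ℤ × ℤ) :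
    pos φ φ' (fun x => f (x - 1)) p = pos φ φ' f (sh p) := by
  obtain ⟨j, k⟩ := p
  unfold pos sh
  simp only [Equiv.coe_fn_mk]
  by_cases hj : j < 0
  · rw [if_pos hj, if_pos hj]
  · rw [if_neg hj, if_neg hj, if_neg hj]
    obtain ⟨n, rfl⟩ := Int.eq_ofNat_of_zero_le (not_lt.1 hj)
    unfold tot
    rw [co_shift, co_shift]
    simp

theorem neg_shift (φ φ' f : ℝ → ℂ)
    (h1 : HasSum (tot φ φ' f) (∫ x, ‖f x‖ ^ 2))
    (h2 : HasSum (tot φ φ' (fun x => f (x - 1))) (∫ x, ‖f (x - 1)‖ ^ 2)) :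
    ∑' p, neg φ φ' (fun x => f (x - 1)) p = ∑' p, neg φ φ' f p := by
  have sp : ∀ g : ℝ → ℂ, Summable (tot φ φ' g) → Summable (pos φ φ' g) := by
    intro g hg
    refine Summable.of_nonneg_of_le ?_ ?_ hg
    · intro p; unfold pos; split_ifs
      · exact le_rfl
      · exact tot_nonneg _ _ _ _
    · intro p; unfold pos; split_ifs
      · exact tot_nonneg _ _ _ _
      · exact le_rfl
  have sn : ∀ g : ℝ → ℂ, Summable (tot φ φ' g) → Summable (neg φ φ' g) := by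
    intro g hg
    refine Summable.of_nonneg_of_le ?_ ?_ hg
    · intro p; unfold neg; split_ifs
      · exact tot_nonneg _ _ _ _
      · exact le_rfl
    · intro p; unfold neg; split_ifs
      · exact le_rfl
      · exact tot_nonneg _ _ _ _
  have key : ∀ g : ℝ → ℂ, HasSum (tot φ φ' g) (∫ x, ‖g x‖ ^ 2) →
      ∑' p, neg φ φ' g p + ∑' p, pos φ φ' g p = ∫ x, ‖g x‖ ^ 2 := by
    intro g hg
    rw [← (sn g hg.summable).tsum_add (sp g hg.summable)]
    simp_rw [neg_add_pos]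
    exact hg.tsum_eq
  have k1 := key _ h1
  have k2 := key _ h2
  have e : ∑' p, pos φ φ' (fun x => f (x - 1)) p = ∑' p, pos φ φ' f p := by
    simp_rw [pos_shift]
    exact sh.tsum_eq (pos φ φ' f)
  rw [norm_shift] at k2
  linarith

/-- The Bessel wavelet. -/
noncomputable def psi (x : ℝ) : ℂ := ((Real.sqrt 3 / 2 : ℝ) : ℂ) * HC (3, 0) x

theorem psi_memLp : MemLp psi 2 volume := (HC_memLp (3,0)).const_mul _

theorem wav_psi (p : ℤ × ℤ) (x : ℝ) :
    wav psi p x = ((Real.sqrt 3 / 2 : ℝ) : ℂ) * HC (p.1 + 3, 8 * p.2) x := by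
  unfold wav psi HC H
  simp only
  have : (2:ℝ)^(3:ℤ) * ((2:ℝ)^p.1 * x - p.2) - ((0:ℤ):ℝ)
      = (2:ℝ)^(p.1+3) * x - ((8 * p.2 : ℤ):ℝ) := by
    rw [zpow_add₀ (by norm_num)]
    push_cast
    ring
  have h2 : Real.sqrt 2 ^ (p.1 + 3) = Real.sqrt 2 ^ p.1 * Real.sqrt 2 ^ (3:ℤ) :=
    zpow_add₀ (by positivity) _ _
  rw [this, h2]
  push_cast
  ring

theorem co_psi (f : ℝ → ℂ) (p : ℤ × ℤ) :
    co psi f p = 3 / 4 * ‖∫ x, f x * (starRingEnd ℂ) (HC (p.1 + 3, 8 * p.2) x)‖ ^ 2 := by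
  unfold co
  have e : ∀ x, f x * (starRingEnd ℂ) (wav psi p x) =
      ((Real.sqrt 3 / 2 : ℝ) : ℂ) * (f x * (starRingEnd ℂ) (HC (p.1 + 3, 8 * p.2) x)) := by
    intro x
    rw [wav_psi, map_mul, Complex.conj_ofReal]
    ring
  simp_rw [e]
  rw [integral_const_mul, norm_mul, mul_pow, Complex.norm_real, Real.norm_eq_abs, sq_abs, div_pow,
    Real.sq_sqrt (by norm_num)]
  norm_num

theorem HC_norm (p : ℤ × ℤ) : ∫ x, ‖HC p x‖ ^ 2 = 1 := by
  rw [← H_norm p]
  congr 1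
  ext x
  unfold HC
  rw [Complex.norm_real, Real.norm_eq_abs, sq_abs, sq]

theorem psi_norm : ∫ x, ‖psi x‖ ^ 2 = 3 / 4 := by
  have e : ∀ x, ‖psi x‖ ^ 2 = 3 / 4 * ‖HC (3,0) x‖ ^ 2 := by
    intro x
    unfold psi
    rw [norm_mul, mul_pow, Complex.norm_real, Real.norm_eq_abs, sq_abs, div_pow,
      Real.sq_sqrt (by norm_num)]
    norm_num
  simp_rw [e]
  rw [integral_const_mul, HC_norm]
  norm_num

theorem psi_bessel (f : ℝ → ℂ) (hf : MemLp f 2 volume) (S : Finset (ℤ × ℤ)) :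
    ∑ p ∈ S, co psi f p ≤ 3 / 4 * ∫ x, ‖f x‖ ^ 2 := by
  simp_rw [co_psi]
  rw [← Finset.mul_sum]
  apply mul_le_mul_of_nonneg_left _ (by norm_num)
  have := bessel (fun p : ℤ × ℤ => HC (p.1 + 3, 8 * p.2)) (fun p => HC_memLp _)
    (fun p q => by
      rw [HC_orth]
      congr 1
      simp only [Prod.mk.injEq, eq_iff_iff]
      constructor
      · rintro ⟨a, b⟩
        ext <;> omega
      · rintro rfl
        exact ⟨rfl, rfl⟩) f hf S
  exact this

theorem HC_shift (j : ℕ) (x : ℝ) : HC ((j:ℤ), 2 ^ j) x = HC ((j:ℤ), 0) (x - 1) := by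
  unfold HC H
  simp only
  congr 3
  push_cast
  rw [zpow_natCast]
  ring

theorem contra (ψ' : ℝ → ℂ) (hψ' : MemLp ψ' 2 volume)
    (hP : ∀ f : ℝ → ℂ, MemLp f 2 volume → HasSum (tot psi ψ' f) (∫ x, ‖f x‖ ^ 2)) : False := by
  -- lower bound
  have low : ∀ j : ℕ, j < 3 → 3 / 4 ≤ ∑' p, neg psi ψ' (HC ((j:ℤ), 2 ^ j)) p := by
    intro j hj
    have e : HC ((j:ℤ), 2 ^ j) = fun x => HC ((j:ℤ), 0) (x - 1) := by
      ext x; exact HC_shift j x
    have h1 := hP _ (HC_memLp ((j:ℤ), 0))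
    have h2 := hP _ (HC_memLp ((j:ℤ), 2 ^ j))
    rw [e] at h2 ⊢
    rw [neg_shift psi ψ' _ h1 h2]
    have sn : Summable (neg psi ψ' (HC ((j:ℤ), 0))) := by
      refine Summable.of_nonneg_of_le ?_ ?_ h1.summable
      · intro p; unfold neg; split_ifs
        · exact tot_nonneg _ _ _ _
        · exact le_rfl
      · intro p; unfold neg; split_ifs
        · exact le_rfl
        · exact tot_nonneg _ _ _ _
    have h3 : neg psi ψ' (HC ((j:ℤ), 0)) ((j:ℤ) - 3, 0) ≤ ∑' p, neg psi ψ' (HC ((j:ℤ), 0)) p := by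
      apply sn.le_tsum
      intro p _; unfold neg; split_ifs
      · exact tot_nonneg _ _ _ _
      · exact le_rfl
    refine le_trans ?_ h3
    unfold neg
    rw [if_pos (by simp only; omega)]
    unfold tot
    have h4 : co psi (HC ((j:ℤ), 0)) ((j:ℤ) - 3, 0) = 3 / 4 := by
      rw [co_psi]
      simp only [sub_add_cancel, mul_zero]
      rw [HC_orth, if_pos rfl]
      simp
    rw [h4]
    linarith [co_nonneg ψ' (HC ((j:ℤ), 0)) ((j:ℤ) - 3, 0)]
  -- upper bound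
  have snn : ∀ j : ℕ, Summable (neg psi ψ' (HC ((j:ℤ), 2 ^ j))) := by
    intro j
    refine Summable.of_nonneg_of_le ?_ ?_ (hP _ (HC_memLp ((j:ℤ), 2 ^ j))).summable
    · intro p; unfold neg; split_ifs
      · exact tot_nonneg _ _ _ _
      · exact le_rfl
    · intro p; unfold neg; split_ifs
      · exact le_rfl
      · exact tot_nonneg _ _ _ _
  have up : ∑' p, (neg psi ψ' (HC (((0:ℕ):ℤ), 2 ^ 0)) p + neg psi ψ' (HC (((1:ℕ):ℤ), 2 ^ 1)) p
      + neg psi ψ' (HC (((2:ℕ):ℤ), 2 ^ 2)) p) ≤ (∫ x, ‖psi x‖ ^ 2) + (∫ x, ‖ψ' x‖ ^ 2) := by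
    apply Real.tsum_le_of_sum_le
    · intro p
      have : ∀ g, 0 ≤ neg psi ψ' g p := by
        intro g; unfold neg; split_ifs
        · exact tot_nonneg _ _ _ _
        · exact le_rfl
      have a := this (HC (((0:ℕ):ℤ), 2 ^ 0))
      have b := this (HC (((1:ℕ):ℤ), 2 ^ 1))
      have c := this (HC (((2:ℕ):ℤ), 2 ^ 2))
      positivity
    · intro T
      have h1 : ∀ p ∈ T, (neg psi ψ' (HC (((0:ℕ):ℤ), 2 ^ 0)) p
          + neg psi ψ' (HC (((1:ℕ):ℤ), 2 ^ 1)) p + neg psi ψ' (HC (((2:ℕ):ℤ), 2 ^ 2)) p) =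
          if p.1 < 0 then (tot psi ψ' (HC (0, 1)) p + tot psi ψ' (HC (1, 2)) p
            + tot psi ψ' (HC (2, 4)) p) else 0 := by
        intro p _
        unfold neg
        split_ifs
        · norm_num
        · simp
      rw [Finset.sum_congr rfl h1, ← Finset.sum_filter]
      have h2 : ∀ p ∈ T.filter (fun p => p.1 < 0), (tot psi ψ' (HC (0, 1)) p
          + tot psi ψ' (HC (1, 2)) p + tot psi ψ' (HC (2, 4)) p)
          ≤ (∫ x in Set.Ico (1:ℝ) 2, ‖wav psi p x‖ ^ 2)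
            + ∫ x in Set.Ico (1:ℝ) 2, ‖wav ψ' p x‖ ^ 2 := by
        intro p _
        have a := three_le psi psi_memLp p
        have b := three_le ψ' hψ' p
        unfold tot
        linarith
      refine (Finset.sum_le_sum h2).trans ?_
      rw [Finset.sum_add_distrib]
      exact add_le_add
        (sum_set_norm psi psi_memLp _ (fun p hp => (Finset.mem_filter.1 hp).2))
        (sum_set_norm ψ' hψ' _ (fun p hp => (Finset.mem_filter.1 hp).2))
  rw [((snn 0).add (snn 1)).tsum_add (snn 2), (snn 0).tsum_add (snn 1)] at up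
  -- norm of the second generator
  have hn : ∫ x, ‖ψ' x‖ ^ 2 ≤ 1 := by
    have h1 := hP ψ' hψ'
    have h2 : tot psi ψ' ψ' (0, 0) ≤ ∫ x, ‖ψ' x‖ ^ 2 :=
      le_hasSum h1 _ (fun p _ => tot_nonneg _ _ _ _)
    have h3 : co ψ' ψ' (0, 0) = (∫ x, ‖ψ' x‖ ^ 2) ^ 2 := by
      unfold co
      have e : ∀ x, ψ' x * (starRingEnd ℂ) (wav ψ' (0,0) x) = ((‖ψ' x‖ ^ 2 : ℝ) : ℂ) := by
        intro x
        unfold wav
        simp only [zpow_zero, Complex.ofReal_one, one_mul, Int.cast_zero, sub_zero]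
        rw [RCLike.mul_conj]
        push_cast
        rfl
      simp_rw [e]
      rw [integral_complex_ofReal, Complex.norm_real, Real.norm_eq_abs, sq_abs]
    have h4 : tot psi ψ' ψ' (0,0) = co psi ψ' (0,0) + co ψ' ψ' (0,0) := rfl
    have h5 := co_nonneg psi ψ' (0,0)
    have h6 : (∫ x, ‖ψ' x‖ ^ 2) ^ 2 ≤ ∫ x, ‖ψ' x‖ ^ 2 := by
      rw [← h3]; linarith
    nlinarith
  have l0 := low 0 (by norm_num)
  have l1 := low 1 (by norm_num)
  have l2 := low 2 (by norm_num)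
  rw [psi_norm] at up
  linarith

/-- The negation of the preceding statement: For every square-integrable ψ whose dyadic wavelet system is Bessel with bound below 1, there is a square-integrable ψ' such that the wavelet systems of ψ and ψ' together form a Parseval frame of L²(ℝ). -/
theorem result :
    ¬ (∀ ψ : ℝ → ℂ, MeasureTheory.MemLp ψ 2 MeasureTheory.volume →
    (∃ B : ℝ, B < 1 ∧ ∀ f : ℝ → ℂ, MeasureTheory.MemLp f 2 MeasureTheory.volume →
      ∀ S : Finset (ℤ × ℤ),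
        ∑ p ∈ S, ‖∫ x : ℝ, f x * (starRingEnd ℂ)
            (((Real.sqrt 2 ^ p.1 : ℝ) : ℂ) * ψ ((2 : ℝ) ^ p.1 * x - (p.2 : ℝ)))‖ ^ 2
          ≤ B * ∫ x : ℝ, ‖f x‖ ^ 2) →
    ∃ ψ' : ℝ → ℂ, MeasureTheory.MemLp ψ' 2 MeasureTheory.volume ∧
      ∀ f : ℝ → ℂ, MeasureTheory.MemLp f 2 MeasureTheory.volume →
        HasSum (fun p : ℤ × ℤ =>
            ‖∫ x : ℝ, f x * (starRingEnd ℂ)
              (((Real.sqrt 2 ^ p.1 : ℝ) : ℂ) * ψ ((2 : ℝ) ^ p.1 * x - (p.2 : ℝ)))‖ ^ 2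
            + ‖∫ x : ℝ, f x * (starRingEnd ℂ)
              (((Real.sqrt 2 ^ p.1 : ℝ) : ℂ) * ψ' ((2 : ℝ) ^ p.1 * x - (p.2 : ℝ)))‖ ^ 2)
          (∫ x : ℝ, ‖f x‖ ^ 2)) := by
  intro hmain
  obtain ⟨ψ', hψ', hP⟩ := hmain psi psi_memLp
    ⟨3 / 4, by norm_num, fun f hf S => psi_bessel f hf S⟩
  exact contra ψ' hψ' (fun f hf => hP f hf)

end Pool.Agent.S06062
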