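import Pool.Statements.S06089
import Pool.Agent.MPc64be7Lib.Per

set_option autoImplicit false
open Pool Pool.MP_c64be7_an

namespace Pool.Agent.S06089

open Pool.Agent.MPc64be7Lib

theorem four_cos (k : ℕ) :
    4 * Real.cos ((k : ℝ) * Real.pi / (2 * (k : ℝ) + 1)) = 2 * (2 * sm (2 * k + 1)) := by
  unfold sm
  have hk : (0 : ℝ) < 2 * (k : ℝ) + 1 := by positivity
  have e : Real.pi / (2 * ((2 * k + 1 : ℕ) : ℝ))
      = Real.pi / 2 - (k : ℝ) * Real.pi / (2 * (k : ℝ) + 1) := by
    push_cast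
    field_simp
    ring
  rw [e, Real.sin_pi_div_two_sub]
  ring

theorem if_part (k : ℕ) (hk : 2 ≤ k) (β : ℝ) (hβ : 0 < β) (hb : β / 2 ≤ 2 * sm (2 * k + 1)) :
    (∀ ε : ℝ, 0 < ε → ∃ δ : ℝ, 0 < δ ∧
          ∀ y : ℕ → ℝ, (∀ i, i ≤ k → 0 < y i ∧ y i < 1) →
            (∀ n : ℕ, y (n + k + 1) =
                y (n + k) * Real.exp (β * (1 - 2 * y n)) /
                  (1 - y (n + k) + y (n + k) * Real.exp (β * (1 - 2 * y n)))) →
            (∀ i, i ≤ k → |y i - 1 / 2| < δ) →
            ∀ n : ℕ, |y n - 1 / 2| < ε) ∧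
        (∀ y : ℕ → ℝ, (∀ i, i ≤ k → 0 < y i ∧ y i < 1) →
            (∀ n : ℕ, y (n + k + 1) =
                y (n + k) * Real.exp (β * (1 - 2 * y n)) /
                  (1 - y (n + k) + y (n + k) * Real.exp (β * (1 - 2 * y n)))) →
            Filter.Tendsto y Filter.atTop (nhds (1 / 2))) := by
  have hnl := nl_fs β hβ
  have hpos := hpos_fs β hβ
  have hsig0 : Real.sigmoid 0 = 1 / 2 := by rw [Real.sigmoid_zero]; norm_num
  constructor
  · intro ε hε
    have hsc := continuous_sigmoid.continuousAt (x := 0)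
    rw [Metric.continuousAt_iff] at hsc
    obtain ⟨ε1, hε1, hball1⟩ := hsc ε hε
    obtain ⟨δ1, hδ1, hst⟩ := stable hnl hk hb hpos ε1 hε1
    have hlc := lg_cont
    rw [Metric.continuousAt_iff] at hlc
    obtain ⟨δ, hδ, hball2⟩ := hlc δ1 hδ1
    refine ⟨δ, hδ, fun y hi hy hsmall n => ?_⟩
    have hz := z_of_y hi hy
    have h1 := hst (fun n => lg (y n)) hz (by
      intro n hn
      have h2 := hball2 (x := y n) (by rw [Real.dist_eq]; exact hsmall n hn)
      rw [lg_half, Real.dist_eq, sub_zero] at h2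
      exact h2.le) n
    obtain ⟨a1, a2⟩ := range_y hi hy n
    have h3 := hball1 (x := lg (y n)) (by rw [Real.dist_eq, sub_zero]; exact h1)
    rw [sig_lg a1 a2, hsig0, Real.dist_eq] at h3
    exact h3
  · intro y hi hy
    have hz := z_of_y hi hy
    have h1 := tendsto_zero (z := fun n => lg (y n)) hnl hk hb hpos hz
    have h2 := (continuous_sigmoid.tendsto 0).comp h1
    rw [hsig0] at h2
    refine h2.congr fun n => ?_
    obtain ⟨a1, a2⟩ := range_y hi hy n
    exact sig_lg a1 a2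

theorem only_if_part (k : ℕ) (hk : 2 ≤ k) (β : ℝ) (hβ : 0 < β)
    (hatt : ∀ y : ℕ → ℝ, (∀ i, i ≤ k → 0 < y i ∧ y i < 1) →
            (∀ n : ℕ, y (n + k + 1) =
                y (n + k) * Real.exp (β * (1 - 2 * y n)) /
                  (1 - y (n + k) + y (n + k) * Real.exp (β * (1 - 2 * y n)))) →
            Filter.Tendsto y Filter.atTop (nhds (1 / 2))) :
    β / 2 ≤ 2 * sm (2 * k + 1) := by
  by_contra hcon
  push Not at hcon
  have hnl := nl_fs β hβ
  obtain ⟨ε, hε, hlin⟩ := fs_lin β hβ _ hcon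
  have hcont : Continuous (fs β) := continuous_iff_continuousAt.mpr fun x => (hnl.hf x).continuousAt
  obtain ⟨U, hU0, hU⟩ := exists_fixed (k := k) (by omega) hnl.mono hnl.f_zero hcont β hnl.bd ε hε hlin
  obtain ⟨p1, p2⟩ := fixed_props hU
  have hlim := hatt (fun n => Real.sigmoid (Zs (fs β) k U n))
    (fun i _ => ⟨Real.sigmoid_pos _, Real.sigmoid_lt_one _⟩)
    (fun n => by
      rw [Zs_rec]
      exact sig_step β _ _ _ rfl)
  have hsub : Filter.Tendsto (fun j : ℕ => j * (2 * (2 * k + 1))) Filter.atTop Filter.atTop :=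
    Filter.tendsto_id.atTop_mul_const' (by omega)
  have h1 := hlim.comp hsub
  have h2 : ((fun n => Real.sigmoid (Zs (fs β) k U n)) ∘ fun j : ℕ => j * (2 * (2 * k + 1)))
      = fun _ => Real.sigmoid (U 0) := by
    funext j
    simp only [Function.comp_apply]
    rw [Zs_period hnl.odd p1 p2]
  rw [h2] at h1
  have h3 := tendsto_nhds_unique h1 tendsto_const_nhds
  have h4 := Real.sigmoid_strictMono (show (0 : ℝ) < U 0 by linarith)
  rw [Real.sigmoid_zero] at h4
  norm_num at h3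
  linarith

/-- For integer delay k≥2 and β>0, the equilibrium 1/2 of y' = y e^{β(1−2y_{delayed})}/(1−y+y e^{β(1−2y_{delayed})}) with initial values in (0,1) is globally asymptotically stable iff β ≤ 4cos(kπ/(2k+1)). -/
theorem result :
    ∀ k : ℕ, 2 ≤ k → ∀ β : ℝ, 0 < β →
      (((∀ ε : ℝ, 0 < ε → ∃ δ : ℝ, 0 < δ ∧
          ∀ y : ℕ → ℝ, (∀ i, i ≤ k → 0 < y i ∧ y i < 1) →
            (∀ n : ℕ, y (n + k + 1) =
                y (n + k) * Real.exp (β * (1 - 2 * y n)) /
                  (1 - y (n + k) + y (n + k) * Real.exp (β * (1 - 2 * y n)))) →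
            (∀ i, i ≤ k → |y i - 1 / 2| < δ) →
            ∀ n : ℕ, |y n - 1 / 2| < ε) ∧
        (∀ y : ℕ → ℝ, (∀ i, i ≤ k → 0 < y i ∧ y i < 1) →
            (∀ n : ℕ, y (n + k + 1) =
                y (n + k) * Real.exp (β * (1 - 2 * y n)) /
                  (1 - y (n + k) + y (n + k) * Real.exp (β * (1 - 2 * y n)))) →
            Filter.Tendsto y Filter.atTop (nhds (1 / 2))))
        ↔ β ≤ 4 * Real.cos ((k : ℝ) * Real.pi / (2 * (k : ℝ) + 1))) := by
  intro k hk β hβ
  rw [four_cos k]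
  constructor
  · rintro ⟨_, hatt⟩
    have := only_if_part k hk β hβ hatt
    linarith
  · intro hb
    exact if_part k hk β hβ (by linarith)

end Pool.Agent.S06089
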