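import Pool.Statements.S06689
import Pool.Agent.LibHaar.Main

set_option autoImplicit false
open MeasureTheory
open scoped ENNReal
open Pool Pool.MP_f389f8_an

namespace Pool.Agent.S06689

/-- For every p with 1<p<∞, p≠2, the operator of multiplication by x on complex L^p[0,1] has a compact perturbation M+K that is similar, via a bounded isomorphism, to the direct sum M⊕M on L^p⊕L^p. -/
theorem result :
    ∀ (p : ℝ≥0∞) [Fact (1 ≤ p)], 1 < p → p ≠ ∞ → p ≠ 2 →
      ∀ M : Lp ℂ p ((volume : Measure ℝ).restrict (Set.Icc 0 1)) →L[ℂ]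
          Lp ℂ p ((volume : Measure ℝ).restrict (Set.Icc 0 1)),
        (∀ f : Lp ℂ p ((volume : Measure ℝ).restrict (Set.Icc 0 1)),
          (M f : ℝ → ℂ) =ᵐ[(volume : Measure ℝ).restrict (Set.Icc 0 1)]
            fun x => (x : ℂ) * (f : ℝ → ℂ) x) →
        ∃ K : Lp ℂ p ((volume : Measure ℝ).restrict (Set.Icc 0 1)) →L[ℂ]
            Lp ℂ p ((volume : Measure ℝ).restrict (Set.Icc 0 1)),
          IsCompactOperator K ∧
          ∃ S : (Lp ℂ p ((volume : Measure ℝ).restrict (Set.Icc 0 1)) ×
                  Lp ℂ p ((volume : Measure ℝ).restrict (Set.Icc 0 1))) ≃L[ℂ]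
                Lp ℂ p ((volume : Measure ℝ).restrict (Set.Icc 0 1)),
            (M + K).comp S.toContinuousLinearMap =
              S.toContinuousLinearMap.comp (M.prodMap M) := by
  intro p _ hp1 hpt _ M hM
  exact Pool.Agent.LibHaar.main hp1 hpt M hM

end Pool.Agent.S06689
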