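import Pool.Statements.S06809
import Pool.Agent.LibLac65.Final

set_option autoImplicit false
open Pool Pool.MP_fc7644_an

namespace Pool.Agent.S06809

/-- For every d > 2 and every measurable set E in R^d of positive Lebesgue measure, there is a Lipschitz map from R^d into the cube [0,1]^d whose image of E is the whole cube. -/
theorem result :
    ∀ d : ℕ, 2 < d → ∀ E : Set (Fin d → ℝ), MeasurableSet E →
      0 < MeasureTheory.volume E →
      ∃ f : (Fin d → ℝ) → (Fin d → ℝ), ∃ K : NNReal, LipschitzWith K f ∧
        Set.range f ⊆ Set.Icc (0 : Fin d → ℝ) 1 ∧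
        f '' E = Set.Icc (0 : Fin d → ℝ) 1 := by
  intro d hd E hE hpos
  exact Pool.Agent.LibLac65.final d (by omega) E hE hpos

end Pool.Agent.S06809
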