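import Pool.Statements.S07905

set_option autoImplicit false
set_option linter.unusedSectionVars false
set_option linter.unusedSimpArgs false
set_option linter.unusedVariables false
open Pool Pool.MP_2eecae_co
open Matrix

namespace Pool.Agent.S07905


section spectral
variable {V : Type} [Fintype V] [DecidableEq V] {A : Matrix V V ℝ} (hA : A.IsHermitian)

/-- real eigenvectors as plain functions -/
noncomputable def ev (j : V) : V → ℝ := (hA.eigenvectorBasis j).ofLp

lemma ev_mulVec (j : V) : A *ᵥ (ev hA j) = hA.eigenvalues j • ev hA j :=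
  hA.mulVec_eigenvectorBasis j

lemma ev_orth (i j : V) : ev hA i ⬝ᵥ ev hA j = if i = j then 1 else 0 := by
  have h := hA.eigenvectorBasis.orthonormal
  rw [orthonormal_iff_ite] at h
  have := h i j
  rw [EuclideanSpace.inner_eq_star_dotProduct] at this
  simp only [star_trivial] at this
  rw [dotProduct_comm] at this
  exact this

lemma dot_expand (x y : V → ℝ) :
    x ⬝ᵥ y = ∑ j, (ev hA j ⬝ᵥ x) * (ev hA j ⬝ᵥ y) := by
  have h := hA.eigenvectorBasis.sum_inner_mul_inner (WithLp.toLp 2 x) (WithLp.toLp 2 y)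
  rw [EuclideanSpace.inner_toLp_toLp] at h
  simp only [star_trivial] at h
  rw [dotProduct_comm, ← h]
  refine Finset.sum_congr rfl fun j _ => ?_
  rw [EuclideanSpace.inner_eq_star_dotProduct, EuclideanSpace.inner_eq_star_dotProduct]
  simp only [star_trivial]
  rw [dotProduct_comm y]
  rfl

omit [DecidableEq V] in
lemma symm_dot (hA : A.IsHermitian) (x y : V → ℝ) : x ⬝ᵥ A *ᵥ y = (A *ᵥ x) ⬝ᵥ y := by
  rw [dotProduct_mulVec, ← mulVec_transpose]
  congr 2

lemma ev_dot_mulVec (j : V) (x : V → ℝ) :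
    ev hA j ⬝ᵥ A *ᵥ x = hA.eigenvalues j * (ev hA j ⬝ᵥ x) := by
  rw [symm_dot hA, ev_mulVec, smul_dotProduct, smul_eq_mul]

lemma quad_expand (x : V → ℝ) :
    x ⬝ᵥ A *ᵥ x = ∑ j, hA.eigenvalues j * (ev hA j ⬝ᵥ x) ^ 2 := by
  rw [dot_expand hA]
  refine Finset.sum_congr rfl fun j _ => ?_
  rw [ev_dot_mulVec]; ring

lemma norm_expand (x : V → ℝ) : x ⬝ᵥ x = ∑ j, (ev hA j ⬝ᵥ x) ^ 2 := by
  rw [dot_expand hA]
  refine Finset.sum_congr rfl fun j _ => ?_
  ring

/-- Rayleigh bound. -/
lemma rayleigh {l : ℝ} (hl : ∀ j, hA.eigenvalues j ≤ l) (x : V → ℝ) :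
    x ⬝ᵥ A *ᵥ x ≤ l * (x ⬝ᵥ x) := by
  rw [quad_expand hA, norm_expand hA, Finset.mul_sum]
  exact Finset.sum_le_sum fun j _ => mul_le_mul_of_nonneg_right (hl j) (sq_nonneg _)

lemma vec_expand (x : V → ℝ) (v : V) : x v = ∑ j, (ev hA j ⬝ᵥ x) * ev hA j v := by
  have := dot_expand hA (Pi.single v 1) x
  rw [single_dotProduct, one_mul] at this
  rw [this]
  refine Finset.sum_congr rfl fun j _ => ?_
  rw [dotProduct_single, mul_one]; ring

/-- equality in Rayleigh gives an eigenvector -/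
lemma rayleigh_eq {l : ℝ} (hl : ∀ j, hA.eigenvalues j ≤ l) (x : V → ℝ)
    (hx : l * (x ⬝ᵥ x) ≤ x ⬝ᵥ A *ᵥ x) : A *ᵥ x = l • x := by
  have h0 : ∑ j, (l - hA.eigenvalues j) * (ev hA j ⬝ᵥ x) ^ 2 ≤ 0 := by
    have h1 := hx
    rw [quad_expand hA, norm_expand hA, Finset.mul_sum] at h1
    have : ∑ j, (l - hA.eigenvalues j) * (ev hA j ⬝ᵥ x) ^ 2 =
        ∑ j, l * (ev hA j ⬝ᵥ x) ^ 2 - ∑ j, hA.eigenvalues j * (ev hA j ⬝ᵥ x) ^ 2 := by
      rw [← Finset.sum_sub_distrib]
      exact Finset.sum_congr rfl fun j _ => by ring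
    linarith
  have hnn : ∀ j ∈ Finset.univ, 0 ≤ (l - hA.eigenvalues j) * (ev hA j ⬝ᵥ x) ^ 2 := fun j _ =>
    mul_nonneg (sub_nonneg.2 (hl j)) (sq_nonneg _)
  have hz := (Finset.sum_eq_zero_iff_of_nonneg hnn).1 (le_antisymm h0 (Finset.sum_nonneg hnn))
  funext v
  rw [vec_expand hA (A *ᵥ x) v, Pi.smul_apply, smul_eq_mul, vec_expand hA x v, Finset.mul_sum]
  refine Finset.sum_congr rfl fun j _ => ?_
  rw [ev_dot_mulVec]
  have := hz j (Finset.mem_univ j)
  rcases mul_eq_zero.1 this with h | h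
  · have : hA.eigenvalues j = l := by linarith
    rw [this]; ring
  · have : ev hA j ⬝ᵥ x = 0 := by simpa using h
    rw [this]; ring

lemma sum_sq_eig : ∑ j, hA.eigenvalues j ^ 2 = ∑ v, ∑ w, A v w ^ 2 := by
  have h1 : ∀ v, ∑ w, A v w ^ 2 = ∑ j, (hA.eigenvalues j) ^ 2 * (ev hA j v) ^ 2 := by
    intro v
    have h2 : ∑ w, A v w ^ 2 = (A *ᵥ Pi.single v 1) ⬝ᵥ (A *ᵥ Pi.single v 1) := by
      rw [dotProduct]
      refine Finset.sum_congr rfl fun w _ => ?_
      rw [mulVec_single_one]
      have : A w v = A v w := by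
        have := hA.apply v w
        simpa using this
      simp [Matrix.col, this, sq]
    rw [h2, norm_expand hA]
    refine Finset.sum_congr rfl fun j _ => ?_
    rw [ev_dot_mulVec, dotProduct_single, mul_one]; ring
  simp_rw [h1]
  rw [Finset.sum_comm]
  refine Finset.sum_congr rfl fun j _ => ?_
  rw [← Finset.mul_sum]
  have : ∑ v, ev hA j v ^ 2 = 1 := by
    have := ev_orth hA j j
    rw [if_pos rfl, dotProduct] at this
    rw [← this]
    exact Finset.sum_congr rfl fun v _ => by ring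
  rw [this, mul_one]

end spectral

section graph
variable {V : Type} [Fintype V] [DecidableEq V] (G : SimpleGraph V) [DecidableRel G.Adj]

/-- complement adjacency -/
def cB (v w : V) : ℝ := if v ≠ w ∧ ¬ G.Adj v w then 1 else 0

lemma adj_eq (v w : V) : G.adjMatrix ℝ v w = 1 - (if v = w then 1 else 0) - cB G v w := by
  rw [SimpleGraph.adjMatrix_apply, cB]
  by_cases h : v = w
  · subst h; simp
  · by_cases h2 : G.Adj v w <;> simp [h, h2]

lemma cB_nonneg (v w : V) : 0 ≤ cB G v w := by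
  rw [cB]; split_ifs <;> norm_num

lemma cB_symm (v w : V) : cB G v w = cB G w v := by
  simp only [cB, G.adj_comm v w, ne_comm (a := v)]

lemma sum_adj (v : V) : ∑ w, G.adjMatrix ℝ v w = G.degree v := by
  have := G.adjMatrix_mulVec_const_apply (α := ℝ) (a := 1) (v := v)
  rw [mul_one] at this
  rw [← this]
  simp [mulVec, dotProduct]

lemma sum_cB (v : V) : ∑ w, cB G v w = (Fintype.card V : ℝ) - 1 - G.degree v := by
  have h := sum_adj G v
  simp_rw [adj_eq] at h
  rw [Finset.sum_sub_distrib, Finset.sum_sub_distrib] at h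
  simp at h
  linarith

lemma quad_adj (x : V → ℝ) :
    x ⬝ᵥ (G.adjMatrix ℝ) *ᵥ x = (∑ v, x v) ^ 2 - x ⬝ᵥ x - ∑ v, ∑ w, cB G v w * (x v * x w) := by
  have h1 : x ⬝ᵥ (G.adjMatrix ℝ) *ᵥ x = ∑ v, ∑ w, G.adjMatrix ℝ v w * (x v * x w) := by
    rw [dotProduct]
    refine Finset.sum_congr rfl fun v _ => ?_
    rw [mulVec, dotProduct, Finset.mul_sum]
    exact Finset.sum_congr rfl fun w _ => by ring
  rw [h1]
  have h2 : (∑ v, x v) ^ 2 = ∑ v, ∑ w, x v * x w := by
    rw [sq, Finset.sum_mul_sum]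
  have h3 : x ⬝ᵥ x = ∑ v, ∑ w, (if v = w then 1 else 0) * (x v * x w) := by
    rw [dotProduct]
    refine Finset.sum_congr rfl fun v _ => ?_
    simp
  rw [h2, h3, ← Finset.sum_sub_distrib, ← Finset.sum_sub_distrib]
  refine Finset.sum_congr rfl fun v _ => ?_
  rw [← Finset.sum_sub_distrib, ← Finset.sum_sub_distrib]
  refine Finset.sum_congr rfl fun w _ => ?_
  rw [adj_eq]; ring

lemma cB_bound (x : V → ℝ) :
    |∑ v, ∑ w, cB G v w * (x v * x w)| ≤ ((Fintype.card V : ℝ) - 1 - G.minDegree) * (x ⬝ᵥ x) := by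
  have h1 : |∑ v, ∑ w, cB G v w * (x v * x w)| ≤
      ∑ v, ∑ w, cB G v w * ((x v ^ 2 + x w ^ 2) / 2) := by
    refine (Finset.abs_sum_le_sum_abs _ _).trans (Finset.sum_le_sum fun v _ => ?_)
    refine (Finset.abs_sum_le_sum_abs _ _).trans (Finset.sum_le_sum fun w _ => ?_)
    rw [abs_mul, abs_of_nonneg (cB_nonneg G v w)]
    refine mul_le_mul_of_nonneg_left ?_ (cB_nonneg G v w)
    rw [abs_le]; constructor <;> nlinarith [sq_nonneg (x v - x w), sq_nonneg (x v + x w)]
  have h2 : ∑ v, ∑ w, cB G v w * ((x v ^ 2 + x w ^ 2) / 2) = ∑ v, (∑ w, cB G v w) * x v ^ 2 := by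
    have e1 : ∑ v, ∑ w, cB G v w * ((x v ^ 2 + x w ^ 2) / 2) =
        ∑ v, ∑ w, cB G v w * (x v ^ 2 / 2) + ∑ v, ∑ w, cB G v w * (x w ^ 2 / 2) := by
      rw [← Finset.sum_add_distrib]
      refine Finset.sum_congr rfl fun v _ => ?_
      rw [← Finset.sum_add_distrib]
      exact Finset.sum_congr rfl fun w _ => by ring
    have e2 : ∑ v, ∑ w, cB G v w * (x w ^ 2 / 2) = ∑ v, ∑ w, cB G v w * (x v ^ 2 / 2) := by
      rw [Finset.sum_comm]
      refine Finset.sum_congr rfl fun v _ => ?_
      refine Finset.sum_congr rfl fun w _ => ?_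
      rw [cB_symm]
    rw [e1, e2, ← Finset.sum_add_distrib]
    refine Finset.sum_congr rfl fun v _ => ?_
    rw [← Finset.sum_add_distrib, Finset.sum_mul]
    exact Finset.sum_congr rfl fun w _ => by ring
  refine h1.trans ?_
  rw [h2, dotProduct, Finset.mul_sum]
  refine Finset.sum_le_sum fun v _ => ?_
  rw [sum_cB, ← sq]
  refine mul_le_mul_of_nonneg_right ?_ (sq_nonneg _)
  have : (G.minDegree : ℝ) ≤ G.degree v := by exact_mod_cast G.minDegree_le_degree v
  linarith

variable (hA : (G.adjMatrix ℝ).IsHermitian)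

/-- all eigenvalues other than the top one are at most `n - δ` in absolute value -/
lemma abs_eig_le [Nonempty V] {i0 : V} (hmax : ∀ j, hA.eigenvalues j ≤ hA.eigenvalues i0)
    {i : V} (hi : i ≠ i0) :
    |hA.eigenvalues i| ≤ (Fintype.card V : ℝ) - G.minDegree := by
  set D : ℝ := (Fintype.card V : ℝ) - 1 - G.minDegree with hD
  set ui := ev hA i with hui
  set u0 := ev hA i0 with hu0
  have n1 : ui ⬝ᵥ ui = 1 := by rw [hui, ev_orth, if_pos rfl]
  have n2 : u0 ⬝ᵥ u0 = 1 := by rw [hu0, ev_orth, if_pos rfl]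
  have n3 : ui ⬝ᵥ u0 = 0 := by rw [hui, hu0, ev_orth, if_neg hi]
  have n3' : u0 ⬝ᵥ ui = 0 := by rw [dotProduct_comm]; exact n3
  have q1 : ui ⬝ᵥ (G.adjMatrix ℝ) *ᵥ ui = hA.eigenvalues i := by
    rw [hui, ev_mulVec, dotProduct_smul, ← hui, n1, smul_eq_mul, mul_one]
  rw [abs_le]
  constructor
  · have := quad_adj G ui
    rw [q1, n1] at this
    have hb := abs_le.1 (cB_bound G ui)
    rw [n1, mul_one] at hb
    nlinarith [sq_nonneg (∑ v, ui v), hb.1, hb.2]
  · -- upper bound
    have key : ∀ z : V → ℝ, ∑ v, z v = 0 → z ⬝ᵥ (G.adjMatrix ℝ) *ᵥ z ≤ (D - 1) * (z ⬝ᵥ z) := by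
      intro z hz
      rw [quad_adj, hz]
      have hb := abs_le.1 (cB_bound G z)
      nlinarith [hb.1, hb.2]
    set α := ∑ v, ui v with hα
    set β := ∑ v, u0 v with hβ
    by_cases h0 : α = 0
    · have := key ui h0
      rw [q1, n1] at this
      linarith
    · have hz : ∑ v, (β • ui - α • u0) v = 0 := by
        simp only [Pi.sub_apply, Pi.smul_apply, smul_eq_mul, Finset.sum_sub_distrib,
          ← Finset.mul_sum]
        rw [← hα, ← hβ]; ring
      have := key _ hz
      have e1 : (β • ui - α • u0) ⬝ᵥ (β • ui - α • u0) = β ^ 2 + α ^ 2 := by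
        simp only [sub_dotProduct, dotProduct_sub, smul_dotProduct, dotProduct_smul, n1, n2, n3,
          n3', smul_eq_mul]
        ring
      have e2 : (β • ui - α • u0) ⬝ᵥ (G.adjMatrix ℝ) *ᵥ (β • ui - α • u0) =
          β ^ 2 * hA.eigenvalues i + α ^ 2 * hA.eigenvalues i0 := by
        rw [mulVec_sub, mulVec_smul, mulVec_smul, hui, hu0, ev_mulVec, ev_mulVec, ← hui, ← hu0]
        simp only [sub_dotProduct, dotProduct_sub, smul_dotProduct, dotProduct_smul, n1, n2, n3,
          n3', smul_eq_mul]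
        ring
      rw [e1, e2] at this
      have hp : 0 < β ^ 2 + α ^ 2 := by positivity
      have h3 : (β ^ 2 + α ^ 2) * hA.eigenvalues i ≤ (β ^ 2 + α ^ 2) * (D - 1) := by
        nlinarith [mul_le_mul_of_nonneg_left (hmax i) (sq_nonneg α)]
      have := le_of_mul_le_mul_left h3 hp
      linarith

/-- a nonnegative eigenvector for the top eigenvalue -/
lemma perron {i0 : V} (hmax : ∀ j, hA.eigenvalues j ≤ hA.eigenvalues i0) :
    ∃ y : V → ℝ, (∀ v, 0 ≤ y v) ∧ 0 < ∑ v, y v ∧
      (G.adjMatrix ℝ) *ᵥ y = hA.eigenvalues i0 • y := by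
  set u := ev hA i0 with hu
  have n1 : u ⬝ᵥ u = 1 := by rw [hu, ev_orth, if_pos rfl]
  have q1 : u ⬝ᵥ (G.adjMatrix ℝ) *ᵥ u = hA.eigenvalues i0 := by
    rw [hu, ev_mulVec, dotProduct_smul, ← hu, n1, smul_eq_mul, mul_one]
  refine ⟨fun v => |u v|, fun v => abs_nonneg _, ?_, ?_⟩
  · by_contra hcon
    have h0 : ∑ v, |u v| = 0 :=
      le_antisymm (not_lt.1 hcon) (Finset.sum_nonneg fun v _ => abs_nonneg _)
    have h1 := (Finset.sum_eq_zero_iff_of_nonneg (fun v _ => abs_nonneg (u v))).1 h0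
    have h2 : u ⬝ᵥ u = 0 := by
      rw [dotProduct]
      refine Finset.sum_eq_zero fun v hv => ?_
      have := h1 v hv
      rw [abs_eq_zero] at this
      rw [this]; ring
    rw [n1] at h2
    norm_num at h2
  · refine rayleigh_eq hA hmax _ ?_
    have e1 : (fun v => |u v|) ⬝ᵥ (fun v => |u v|) = 1 := by
      rw [← n1]
      simp only [dotProduct]
      exact Finset.sum_congr rfl fun v _ => abs_mul_abs_self _
    rw [e1, mul_one, ← q1]
    simp only [dotProduct, mulVec]
    refine Finset.sum_le_sum fun v _ => ?_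
    refine (le_abs_self _).trans ?_
    rw [abs_mul]
    refine mul_le_mul_of_nonneg_left ?_ (abs_nonneg _)
    refine (Finset.abs_sum_le_sum_abs _ _).trans (Finset.sum_le_sum fun w _ => ?_)
    rw [abs_mul]
    refine mul_le_mul_of_nonneg_right ?_ (abs_nonneg _)
    rw [SimpleGraph.adjMatrix_apply]
    split_ifs <;> simp

/-- sum of degrees over the neighbours of `v` -/
lemma nbr_deg_sum (v : V) (hδ : 1 ≤ G.minDegree) :
    ((G.adjMatrix ℝ) *ᵥ (fun w => (G.degree w : ℝ))) v ≤
      (∑ w, (G.degree w : ℝ)) - ((Fintype.card V : ℝ) - 1) * G.minDegree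
        + ((G.minDegree : ℝ) - 1) * G.degree v := by
  have h1 : ((G.adjMatrix ℝ) *ᵥ (fun w => (G.degree w : ℝ))) v =
      (∑ w, (G.degree w : ℝ)) - G.degree v - ∑ w, cB G v w * G.degree w := by
    rw [mulVec, dotProduct]
    have : ∀ w, G.adjMatrix ℝ v w * (G.degree w : ℝ) =
        (G.degree w : ℝ) - (if v = w then 1 else 0) * (G.degree w : ℝ) - cB G v w * G.degree w := by
      intro w; rw [adj_eq]; ring
    simp_rw [this]
    rw [Finset.sum_sub_distrib, Finset.sum_sub_distrib]
    simp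
  have h2 : (∑ w, cB G v w) * (G.minDegree : ℝ) ≤ ∑ w, cB G v w * G.degree w := by
    rw [Finset.sum_mul]
    refine Finset.sum_le_sum fun w _ => mul_le_mul_of_nonneg_left ?_ (cB_nonneg G v w)
    exact_mod_cast G.minDegree_le_degree w
  rw [sum_cB] at h2
  rw [h1]
  nlinarith

/-- The bound of Hong, Shu and Fang. -/
lemma hsf {i0 : V} (hmax : ∀ j, hA.eigenvalues j ≤ hA.eigenvalues i0) (hδ : 1 ≤ G.minDegree) :
    hA.eigenvalues i0 ^ 2 - ((G.minDegree : ℝ) - 1) * hA.eigenvalues i0 ≤
      (∑ w, (G.degree w : ℝ)) - ((Fintype.card V : ℝ) - 1) * G.minDegree := by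
  obtain ⟨y, hy0, hys, hy⟩ := perron G hA hmax
  set l := hA.eigenvalues i0
  have hone : (G.adjMatrix ℝ) *ᵥ (fun _ => (1 : ℝ)) = fun w => (G.degree w : ℝ) := by
    funext v
    rw [← sum_adj G v]
    simp [mulVec, dotProduct]
  have e1 : y ⬝ᵥ (fun w => (G.degree w : ℝ)) = l * ∑ v, y v := by
    rw [← hone, symm_dot hA, hy]
    simp [dotProduct, Finset.mul_sum]
  have e2 : y ⬝ᵥ (G.adjMatrix ℝ) *ᵥ (fun w => (G.degree w : ℝ)) = l ^ 2 * ∑ v, y v := by
    rw [symm_dot hA, hy, smul_dotProduct, e1, smul_eq_mul]; ring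
  have e3 : y ⬝ᵥ (G.adjMatrix ℝ) *ᵥ (fun w => (G.degree w : ℝ)) ≤
      ((∑ w, (G.degree w : ℝ)) - ((Fintype.card V : ℝ) - 1) * G.minDegree) * (∑ v, y v)
        + ((G.minDegree : ℝ) - 1) * (y ⬝ᵥ (fun w => (G.degree w : ℝ))) := by
    simp only [dotProduct]
    rw [Finset.mul_sum, Finset.mul_sum, ← Finset.sum_add_distrib]
    refine Finset.sum_le_sum fun v _ => ?_
    have := mul_le_mul_of_nonneg_left (nbr_deg_sum G v hδ) (hy0 v)
    nlinarith
  rw [e2, e1] at e3
  have h4 : (l ^ 2 - ((G.minDegree : ℝ) - 1) * l) * (∑ v, y v) ≤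
      ((∑ w, (G.degree w : ℝ)) - ((Fintype.card V : ℝ) - 1) * G.minDegree) * (∑ v, y v) := by
    nlinarith
  exact le_of_mul_le_mul_right h4 hys

/-- Rayleigh with test vector `1 + a e_v` -/
lemma test_vec {i0 : V} (hmax : ∀ j, hA.eigenvalues j ≤ hA.eigenvalues i0) (v : V) (a : ℝ) :
    (∑ w, (G.degree w : ℝ)) + 2 * a * G.degree v ≤
      hA.eigenvalues i0 * ((Fintype.card V : ℝ) + 2 * a + a ^ 2) := by
  have h := rayleigh hA hmax ((fun _ => (1 : ℝ)) + a • Pi.single v 1)
  have hone : (G.adjMatrix ℝ) *ᵥ (fun _ => (1 : ℝ)) = fun w => (G.degree w : ℝ) := by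
    funext v
    rw [← sum_adj G v]
    simp [mulVec, dotProduct]
  have e1 : ((fun _ => (1 : ℝ)) + a • Pi.single v 1 : V → ℝ) ⬝ᵥ
      ((fun _ => (1 : ℝ)) + a • Pi.single v 1) = (Fintype.card V : ℝ) + 2 * a + a ^ 2 := by
    simp only [add_dotProduct, dotProduct_add, smul_dotProduct, dotProduct_smul,
      dotProduct_single, single_dotProduct, smul_eq_mul, mul_one, one_mul, Pi.single_eq_same]
    simp [dotProduct]
    ring
  have e2 : ((fun _ => (1 : ℝ)) + a • Pi.single v 1 : V → ℝ) ⬝ᵥ (G.adjMatrix ℝ) *ᵥ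
      ((fun _ => (1 : ℝ)) + a • Pi.single v 1) = (∑ w, (G.degree w : ℝ)) + 2 * a * G.degree v := by
    rw [mulVec_add, mulVec_smul, hone]
    have e3 : (fun _ => (1 : ℝ)) ⬝ᵥ (G.adjMatrix ℝ) *ᵥ (Pi.single v 1) = G.degree v := by
      rw [symm_dot hA, hone, dotProduct_single, mul_one]
    have e4 : (Pi.single v 1 : V → ℝ) ⬝ᵥ (G.adjMatrix ℝ) *ᵥ (Pi.single v 1) = 0 := by
      rw [mulVec_single_one]; simp [Matrix.col]
    simp only [add_dotProduct, dotProduct_add, smul_dotProduct, dotProduct_smul, smul_eq_mul,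
      e3, e4, single_dotProduct]
    simp [dotProduct]
    ring
  rw [e1, e2] at h
  exact h

lemma abs_det_ge (h : (G.adjMatrix ℝ).det ≠ 0) : 1 ≤ |(G.adjMatrix ℝ).det| := by
  have h1 : (G.adjMatrix ℝ).det = (((G.adjMatrix ℤ).det : ℤ) : ℝ) := by
    have := RingHom.map_det (Int.castRingHom ℝ) (G.adjMatrix ℤ)
    rw [eq_intCast] at this
    rw [this]
    congr 1
    ext v w
    simp [SimpleGraph.adjMatrix_apply]
  rw [h1] at h ⊢
  have h2 : (G.adjMatrix ℤ).det ≠ 0 := by exact_mod_cast h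
  have := Int.one_le_abs h2
  exact_mod_cast this

end graph

section real

lemma pade_deriv {x : ℝ} (hx : 0 < x) :
    HasDerivAt (fun x : ℝ => (x - 1) * (x + 5) / (4 * x + 2) - Real.log x)
      ((x - 1) ^ 3 / ((2 * x + 1) ^ 2 * x)) x := by
  have h1 : HasDerivAt (fun x : ℝ => (x - 1) * (x + 5)) (1 * (x + 5) + (x - 1) * 1) x :=
    ((hasDerivAt_id x).sub_const 1).mul ((hasDerivAt_id x).add_const 5)
  have h2 : HasDerivAt (fun x : ℝ => 4 * x + 2) (4 * 1) x :=
    ((hasDerivAt_id x).const_mul 4).add_const 2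
  have hne : 4 * x + 2 ≠ 0 := by positivity
  have h3 := (h1.div h2 hne).sub (Real.hasDerivAt_log hx.ne')
  have h5 : 2 * x + 1 ≠ 0 := by positivity
  have h6 : (x - 1) ^ 3 / ((2 * x + 1) ^ 2 * x) =
      ((1 * (x + 5) + (x - 1) * 1) * (4 * x + 2) - (x - 1) * (x + 5) * (4 * 1)) / (4 * x + 2) ^ 2
        - x⁻¹ := by
    have h7 : 4 * x + 2 = 2 * (2 * x + 1) := by ring
    rw [h7]
    field_simp
    ring
  rw [h6]
  exact h3

lemma pade {x : ℝ} (hx : 0 < x) : Real.log x ≤ (x - 1) * (x + 5) / (4 * x + 2) := by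
  set g : ℝ → ℝ := fun x : ℝ => (x - 1) * (x + 5) / (4 * x + 2) - Real.log x with hg
  have g1 : g 1 = 0 := by simp [hg]
  suffices h : g 1 ≤ g x by
    rw [g1] at h
    simp only [hg] at h
    linarith
  rcases le_total 1 x with h | h
  · have hm : MonotoneOn g (Set.Ici 1) := by
      refine monotoneOn_of_deriv_nonneg (convex_Ici 1) ?_ ?_ ?_
      · intro y hy
        have : (0 : ℝ) < y := lt_of_lt_of_le one_pos hy
        exact (pade_deriv this).continuousAt.continuousWithinAt
      · intro y hy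
        rw [interior_Ici] at hy
        have : (0 : ℝ) < y := lt_trans one_pos hy
        exact (pade_deriv this).differentiableAt.differentiableWithinAt
      · intro y hy
        rw [interior_Ici] at hy
        have h0 : (0 : ℝ) < y := lt_trans one_pos hy
        rw [(pade_deriv h0).deriv]
        have : (0 : ℝ) ≤ y - 1 := by linarith [Set.mem_Ioi.1 hy]
        positivity
    exact hm (Set.mem_Ici.2 le_rfl) h h
  · have hm : AntitoneOn g (Set.Ioc 0 1) := by
      refine antitoneOn_of_deriv_nonpos (convex_Ioc 0 1) ?_ ?_ ?_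
      · intro y hy
        exact (pade_deriv hy.1).continuousAt.continuousWithinAt
      · intro y hy
        rw [interior_Ioc] at hy
        exact (pade_deriv hy.1).differentiableAt.differentiableWithinAt
      · intro y hy
        rw [interior_Ioc] at hy
        rw [(pade_deriv hy.1).deriv]
        have h0 : (0 : ℝ) ≤ 1 - y := by linarith [hy.2]
        have : (y - 1) ^ 3 = - (1 - y) ^ 3 := by ring
        rw [this, neg_div]
        have h1 := hy.1
        have : 0 ≤ (1 - y) ^ 3 / ((2 * y + 1) ^ 2 * y) := by positivity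
        linarith
    exact hm ⟨hx, h⟩ ⟨one_pos, le_rfl⟩ h

/-- quadratic bound for `x - 1 - log x`, for `0 < x ≤ X` -/
lemma sq_le {x X : ℝ} (hx : 0 < x) (hX : x ≤ X) :
    (x - 1) ^ 2 ≤ ((4 * X + 2) / 3) * (x - 1 - Real.log x) := by
  have h := pade hx
  have hpos : 0 < 4 * x + 2 := by positivity
  have h1 : 3 * (x - 1) ^ 2 / (4 * x + 2) ≤ x - 1 - Real.log x := by
    have : 3 * (x - 1) ^ 2 / (4 * x + 2) = (x - 1) - (x - 1) * (x + 5) / (4 * x + 2) := by
      field_simp; ring
    rw [this]; linarith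
  have h2 : 0 ≤ x - 1 - Real.log x := by
    have := Real.log_le_sub_one_of_pos hx
    linarith
  have h3 : (x - 1) ^ 2 ≤ ((4 * x + 2) / 3) * (x - 1 - Real.log x) := by
    rw [div_le_iff₀ hpos] at h1
    linarith
  refine h3.trans (mul_le_mul_of_nonneg_right ?_ h2)
  linarith

lemma log_add {a w L : ℝ} (ha : 0 < a) (hw : 0 ≤ w) (hL : Real.log a ≤ L) :
    Real.log (a + w) ≤ L + w / a := by
  have h1 : Real.log (a + w) = Real.log a + Real.log (1 + w / a) := by
    rw [← Real.log_mul ha.ne' (by positivity)]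
    congr 1
    field_simp
  have h2 : Real.log (1 + w / a) ≤ 1 + w / a - 1 := Real.log_le_sub_one_of_pos (by positivity)
  linarith

lemma log2 : Real.log 2 ≤ 0.6932 := by linarith [Real.log_two_lt_d9]

lemma log4 : Real.log 4 ≤ 1.3864 := by
  have : (4 : ℝ) = 2 * 2 := by norm_num
  rw [this, Real.log_mul (by norm_num) (by norm_num)]
  linarith [Real.log_two_lt_d9]

lemma log3 : Real.log 3 ≤ 1.1364 := by
  have h : Real.log (3 / 4) ≤ 3 / 4 - 1 := Real.log_le_sub_one_of_pos (by norm_num)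
  rw [Real.log_div (by norm_num) (by norm_num)] at h
  linarith [log4]

lemma log5 : Real.log 5 ≤ 1.6364 := by
  have h : Real.log (5 / 4) ≤ 5 / 4 - 1 := Real.log_le_sub_one_of_pos (by norm_num)
  rw [Real.log_div (by norm_num) (by norm_num)] at h
  linarith [log4]

lemma alg_aux (d D s w M l E : ℝ) (hl : l = d + w)
    (hE : E < (d + 1 + D) - 1 - s + d)
    (hM : l ^ 2 - (d - 1) * l ≤ M - ((d + 1 + D) - 1) * d) :
    (d - 1) * (D - w) + 2 * (s + w) < M - l ^ 2 - 2 * (E - l) + ((d + 1 + D) - 1) := by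
  subst hl
  have h1 : M ≥ (d + w) ^ 2 - (d - 1) * (d + w) + ((d + 1 + D) - 1) * d := by linarith
  have h2 : (d + w) ^ 2 - (d - 1) * (d + w) + ((d + 1 + D) - 1) * d - (d + w) ^ 2
      - 2 * (((d + 1 + D) - 1 - s + d) - (d + w)) + ((d + 1 + D) - 1) =
      (d - 1) * (D - w) + 2 * (s + w) := by ring
  linarith

/-- The final numerical inequality. -/
lemma final_real (a D s : ℕ) (w : ℝ) (ha : 2 ≤ a) (hD : 2 ≤ D) (hw : 0 ≤ w)
    (hw2 : 2 * w ≤ (D : ℝ) - s)
    (hs : s = 0 → 2 * (D : ℝ) - a / 4 ≤ w * ((a : ℝ) + D + 1 + 5 / 4)) :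
    (2 + 4 * (D : ℝ) / 3) * (Real.log (a + w) - s - w) ≤
      ((a : ℝ) - 1) * (D - w) + 2 * (s + w) := by
  have hD' : (2 : ℝ) ≤ D := by exact_mod_cast hD
  have hs0 : (0 : ℝ) ≤ s := Nat.cast_nonneg s
  have hc : (0 : ℝ) ≤ 2 + 4 * (D : ℝ) / 3 := by positivity
  -- large `a`
  rcases Nat.lt_or_ge a 5 with hlt | hge
  · have hsplit : s = 0 ∨ 1 ≤ s := by omega
    interval_cases a
    · have h1 := log_add (by norm_num : (0 : ℝ) < 2) hw log2
      push_cast at *
      have h2 := mul_le_mul_of_nonneg_left h1 hc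
      rcases hsplit with h0 | h0
      · have h3 := hs h0
        subst h0
        push_cast at *
        have h5 : 0.56 ≤ w := by
          by_contra hcon
          push Not at hcon
          nlinarith
        nlinarith
      · have h0' : (1 : ℝ) ≤ s := by exact_mod_cast h0
        nlinarith
    · have h1 := log_add (by norm_num : (0 : ℝ) < 3) hw log3
      push_cast at *
      have h2 := mul_le_mul_of_nonneg_left h1 hc
      rcases hsplit with h0 | h0
      · have h3 := hs h0
        subst h0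
        push_cast at *
        have h5 : 0.448 ≤ w := by
          by_contra hcon
          push Not at hcon
          nlinarith
        nlinarith
      · have h0' : (1 : ℝ) ≤ s := by exact_mod_cast h0
        nlinarith
    · have h1 := log_add (by norm_num : (0 : ℝ) < 4) hw log4
      push_cast at *
      have h2 := mul_le_mul_of_nonneg_left h1 hc
      rcases hsplit with h0 | h0
      · have h3 := hs h0
        subst h0
        push_cast at *
        have h5 : 0.363 ≤ w := by
          by_contra hcon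
          push Not at hcon
          nlinarith
        nlinarith
      · have h0' : (1 : ℝ) ≤ s := by exact_mod_cast h0
        nlinarith
  · have ha5 : (5 : ℝ) ≤ a := by exact_mod_cast hge
    have hapos : (0 : ℝ) < a := by linarith
    have hla : Real.log a ≤ 1.6364 + ((a : ℝ) - 5) / 5 := by
      have := log_add (by norm_num : (0 : ℝ) < 5) (by linarith : (0 : ℝ) ≤ (a : ℝ) - 5) log5
      have e : (5 : ℝ) + ((a : ℝ) - 5) = a := by ring
      rwa [e] at this
    have h1 := log_add hapos hw hla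
    have hwa : w / a ≤ w / 5 := by
      apply div_le_div_of_nonneg_left hw (by norm_num) ha5
    have h2 : Real.log (a + w) ≤ 0.6364 + (a : ℝ) / 5 + w / 5 := by linarith
    have h3 := mul_le_mul_of_nonneg_left h2 hc
    nlinarith [mul_nonneg hw (by linarith : (0 : ℝ) ≤ (D : ℝ) - 2),
      mul_nonneg hw (by linarith : (0 : ℝ) ≤ (D : ℝ) - 2 * w),
      mul_nonneg (by linarith : (0 : ℝ) ≤ (D : ℝ) - 2) (by linarith : (0 : ℝ) ≤ (a : ℝ) - 5),
      mul_nonneg (by linarith : (0 : ℝ) ≤ (D : ℝ) - 2 * w) (by linarith : (0 : ℝ) ≤ (a : ℝ) - 5),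
      mul_nonneg hw (by linarith : (0 : ℝ) ≤ (a : ℝ) - 5)]

end real

section main
variable {V : Type} [Fintype V] [DecidableEq V] (G : SimpleGraph V) [DecidableRel G.Adj]

lemma minDeg_pos [Nonempty V] (hdet : (G.adjMatrix ℝ).det ≠ 0) : 1 ≤ G.minDegree := by
  by_contra hcon
  obtain ⟨v, hv⟩ := G.exists_minimal_degree_vertex
  have h0 : G.degree v = 0 := by omega
  apply hdet
  refine Matrix.det_eq_zero_of_row_eq_zero v fun w => ?_
  rw [SimpleGraph.adjMatrix_apply, if_neg]
  intro hadj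
  have : 0 < G.degree v := by
    rw [G.degree_pos_iff_exists_adj]
    exact ⟨w, hadj⟩
  omega

/-- if the minimum degree is `n - 2`, the adjacency matrix is singular -/
lemma det_zero_of_twin [Nonempty V] (h : G.minDegree + 2 = Fintype.card V) :
    (G.adjMatrix ℝ).det = 0 := by
  obtain ⟨u, hu⟩ := G.exists_minimal_degree_vertex
  -- non-neighbours of any vertex, other than itself, number at most one
  have hcard : ∀ v : V, (Finset.univ.filter fun w => w ≠ v ∧ ¬ G.Adj v w).card + G.degree v + 1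
      = Fintype.card V := by
    intro v
    have h1 : (Finset.univ.filter fun w => w ≠ v ∧ ¬ G.Adj v w) =
        (Finset.univ \ (insert v (G.neighborFinset v))) := by
      ext w
      simp [SimpleGraph.mem_neighborFinset, not_or]
    rw [h1, Finset.card_sdiff_of_subset (Finset.subset_univ _), Finset.card_insert_of_notMem (by simp),
      Finset.card_univ, SimpleGraph.card_neighborFinset_eq_degree]
    have : G.degree v < Fintype.card V := G.degree_lt_card_verts v
    omega
  have hu1 : (Finset.univ.filter fun w => w ≠ u ∧ ¬ G.Adj u w).card = 1 := by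
    have := hcard u
    omega
  obtain ⟨v, hv⟩ := Finset.card_eq_one.1 hu1
  have hvm : v ∈ (Finset.univ.filter fun w => w ≠ u ∧ ¬ G.Adj u w) := by rw [hv]; simp
  rw [Finset.mem_filter] at hvm
  obtain ⟨-, hvu, hnadj⟩ := hvm
  have hv1 : (Finset.univ.filter fun w => w ≠ v ∧ ¬ G.Adj v w).card ≤ 1 := by
    have := hcard v
    have := G.minDegree_le_degree v
    omega
  have hum : u ∈ (Finset.univ.filter fun w => w ≠ v ∧ ¬ G.Adj v w) := by
    rw [Finset.mem_filter]
    exact ⟨Finset.mem_univ _, hvu.symm, fun h => hnadj h.symm⟩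
  have hv2 : ∀ w, w ≠ v → ¬ G.Adj v w → w = u := by
    intro w h1 h2
    exact Finset.card_le_one.1 hv1 w (by simp [h1, h2]) u hum
  have hu2 : ∀ w, w ≠ u → ¬ G.Adj u w → w = v := by
    intro w h1 h2
    have : w ∈ (Finset.univ.filter fun w => w ≠ u ∧ ¬ G.Adj u w) := by simp [h1, h2]
    rw [hv] at this
    simpa using this
  refine Matrix.det_zero_of_row_eq hvu ?_
  funext w
  rw [SimpleGraph.adjMatrix_apply, SimpleGraph.adjMatrix_apply]
  by_cases hwu : w = u
  · subst hwu
    rw [if_neg (fun h => hnadj h.symm), if_neg (G.irrefl)]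
  · by_cases hwv : w = v
    · subst hwv
      rw [if_neg (G.irrefl), if_neg hnadj]
    · have a1 : G.Adj u w := by
        by_contra h; exact hwv (hu2 w hwu h)
      have a2 : G.Adj v w := by
        by_contra h; exact hwu (hv2 w hwv h)
      rw [if_pos a1, if_pos a2]

end main

/-- For every finite simple graph whose real adjacency matrix has nonzero determinant, the sum of absolute values of the adjacency eigenvalues is at least the maximum degree plus the minimum degree. -/
theorem result :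
    ∀ (V : Type) [Fintype V] [DecidableEq V] (G : SimpleGraph V) [DecidableRel G.Adj]
      (hA : (G.adjMatrix ℝ).IsHermitian),
      (G.adjMatrix ℝ).det ≠ 0 →
        ((G.maxDegree + G.minDegree : ℕ) : ℝ) ≤ ∑ i, |hA.eigenvalues i| := by
  intro V _ _ G _ hA hdet
  rcases isEmpty_or_nonempty V with hV | hV
  · have h1 : G.maxDegree = 0 := by
      simp
    have h2 : G.minDegree = 0 := by
      simp
    rw [h1, h2]; simp
  by_contra hcon
  rw [not_le] at hcon
  obtain ⟨i0, hmax⟩ := Finite.exists_max hA.eigenvalues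
  set ev := hA.eigenvalues with hev
  set l := ev i0 with hl
  set E := ∑ i, |ev i| with hE
  set n := Fintype.card V with hn
  have hnpos : 0 < n := Fintype.card_pos
  -- basic facts
  have hδ1 : 1 ≤ G.minDegree := minDeg_pos G hdet
  have hδn : G.minDegree < n := G.minDegree_lt_card
  have hΔn : G.maxDegree < n := G.maxDegree_lt_card_verts
  obtain ⟨D, hD⟩ : ∃ D : ℕ, G.minDegree + 1 + D = n := ⟨n - (G.minDegree + 1), by omega⟩
  obtain ⟨s, hs⟩ : ∃ s : ℕ, G.maxDegree + 1 + s = n := ⟨n - (G.maxDegree + 1), by omega⟩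
  have hDr : (n : ℝ) = G.minDegree + 1 + D := by rw [← hD]; push_cast; ring
  have hsr : (n : ℝ) = G.maxDegree + 1 + s := by rw [← hs]; push_cast; ring
  have hs0 : (0 : ℝ) ≤ s := Nat.cast_nonneg s
  have hδr : (1 : ℝ) ≤ G.minDegree := by exact_mod_cast hδ1
  set M := ∑ v, (G.degree v : ℝ) with hM
  have htr : ∑ i, ev i = 0 := by
    have h1 := hA.trace_eq_sum_eigenvalues
    rw [SimpleGraph.trace_adjMatrix] at h1
    simpa using h1.symm
  have hsq : ∑ i, ev i ^ 2 = M := by
    rw [hev, sum_sq_eig hA, hM]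
    refine Finset.sum_congr rfl fun v _ => ?_
    rw [← sum_adj]
    refine Finset.sum_congr rfl fun w _ => ?_
    rw [SimpleGraph.adjMatrix_apply]; split_ifs <;> norm_num
  have hprod : 1 ≤ ∏ i, |ev i| := by
    have h1 := abs_det_ge G hdet
    rw [hA.det_eq_prod_eigenvalues] at h1
    rw [← Finset.abs_prod]
    simpa using h1
  have hne : ∀ i, ev i ≠ 0 := by
    intro i hi
    have : ∏ i, |ev i| = 0 := Finset.prod_eq_zero (Finset.mem_univ i) (by rw [hi, abs_zero])
    rw [this] at hprod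
    norm_num at hprod
  have hlnn : 0 ≤ l := by
    have h1 : ∑ i, ev i ≤ ∑ _i : V, l := Finset.sum_le_sum fun i _ => hmax i
    rw [htr, Finset.sum_const, Finset.card_univ, nsmul_eq_mul] at h1
    have : (0 : ℝ) < Fintype.card V := by exact_mod_cast hnpos
    exact nonneg_of_mul_nonneg_right h1 this
  have hlpos : 0 < l := lt_of_le_of_ne hlnn (hne i0).symm
  -- split off the top eigenvalue
  have hEsplit : E = l + ∑ i ∈ Finset.univ.erase i0, |ev i| := by
    rw [hE, ← Finset.add_sum_erase _ _ (Finset.mem_univ i0), ← hl, abs_of_pos hlpos]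
  have h2l : 2 * l ≤ E := by
    have h1 : ∑ i ∈ Finset.univ.erase i0, ev i = - l := by
      have := Finset.add_sum_erase Finset.univ ev (Finset.mem_univ i0)
      rw [htr] at this
      linarith
    have h2 := Finset.abs_sum_le_sum_abs ev (Finset.univ.erase i0)
    rw [h1, abs_neg, abs_of_pos hlpos] at h2
    linarith
  have hMδ : (n : ℝ) * G.minDegree ≤ M := by
    have : ∑ _v : V, (G.minDegree : ℝ) ≤ M :=
      Finset.sum_le_sum fun v _ => by exact_mod_cast G.minDegree_le_degree v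
    rw [Finset.sum_const, Finset.card_univ, nsmul_eq_mul] at this
    exact this
  have hMl : M ≤ l * n := by
    have := test_vec G hA hmax i0 0
    simp only [mul_zero, zero_mul, add_zero, ne_eq, OfNat.ofNat_ne_zero, not_false_eq_true,
      zero_pow] at this
    exact this
  have hnr : (0 : ℝ) < n := by exact_mod_cast hnpos
  have hlδ : (G.minDegree : ℝ) ≤ l := by
    have : (n : ℝ) * G.minDegree ≤ n * l := by linarith
    exact le_of_mul_le_mul_left this hnr
  obtain ⟨w, hw⟩ : ∃ w : ℝ, w = l - G.minDegree := ⟨_, rfl⟩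
  have hw0 : 0 ≤ w := by linarith
  have hlw : l = G.minDegree + w := by linarith
  push_cast at hcon
  have hw2 : 2 * w < (D : ℝ) - s := by linarith
  have hD2 : 2 ≤ D := by
    by_contra hlt
    have : D = 0 ∨ D = 1 := by omega
    rcases this with h | h
    · rw [h] at hw2; push_cast at hw2; linarith
    · exact hdet (det_zero_of_twin G (by omega))
  -- the two sums
  have hcard : (((Finset.univ : Finset V).erase i0).card : ℝ) = n - 1 := by
    rw [Finset.card_erase_of_mem (Finset.mem_univ i0), Finset.card_univ, Nat.cast_sub (by omega)]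
    simp [hn]
  have I1 : ∑ i ∈ Finset.univ.erase i0, (|ev i| - 1) ^ 2 =
      (M - l ^ 2) - 2 * (E - l) + (n - 1) := by
    have e1 : ∑ i ∈ Finset.univ.erase i0, ev i ^ 2 = M - l ^ 2 := by
      have := Finset.add_sum_erase Finset.univ (fun i => ev i ^ 2) (Finset.mem_univ i0)
      rw [hsq] at this
      linarith
    have e2 : ∑ i ∈ Finset.univ.erase i0, |ev i| = E - l := by linarith
    rw [← e1, ← e2, ← hcard, Finset.mul_sum, Finset.card_eq_sum_ones]
    push_cast
    rw [← Finset.sum_sub_distrib, ← Finset.sum_add_distrib]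
    refine Finset.sum_congr rfl fun i _ => ?_
    rw [← sq_abs (ev i)]; ring
  have hlogsum : - Real.log l ≤ ∑ i ∈ Finset.univ.erase i0, Real.log |ev i| := by
    have h1 : Real.log (∏ i, |ev i|) = ∑ i, Real.log |ev i| :=
      Real.log_prod fun i _ => abs_ne_zero.2 (hne i)
    have h2 : 0 ≤ Real.log (∏ i, |ev i|) := Real.log_nonneg hprod
    rw [h1, ← Finset.add_sum_erase _ _ (Finset.mem_univ i0), ← hl, abs_of_pos hlpos] at h2
    linarith
  have I2 : ∑ i ∈ Finset.univ.erase i0, (|ev i| - 1 - Real.log |ev i|) ≤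
      (E - l) - (n - 1) + Real.log l := by
    rw [Finset.sum_sub_distrib, Finset.sum_sub_distrib]
    have e2 : ∑ i ∈ Finset.univ.erase i0, |ev i| = E - l := by linarith
    have e3 : ∑ _i ∈ (Finset.univ : Finset V).erase i0, (1 : ℝ) = n - 1 := by
      rw [← hcard]; simp
    rw [e2, e3]
    linarith
  have hnn : 0 ≤ ∑ i ∈ Finset.univ.erase i0, (|ev i| - 1 - Real.log |ev i|) := by
    refine Finset.sum_nonneg fun i _ => ?_
    have := Real.log_le_sub_one_of_pos (abs_pos.2 (hne i))
    linarith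
  rcases Nat.lt_or_ge G.minDegree 2 with hlt | hge
  · -- minimum degree one
    have h1 : G.minDegree = 1 := by omega
    have h2 := Real.log_le_sub_one_of_pos hlpos
    have h1r : (G.minDegree : ℝ) = 1 := by rw [h1]; norm_num
    linarith
  · have I3 : ∑ i ∈ Finset.univ.erase i0, (|ev i| - 1) ^ 2 ≤
        (2 + 4 * (D : ℝ) / 3) * ∑ i ∈ Finset.univ.erase i0, (|ev i| - 1 - Real.log |ev i|) := by
      rw [Finset.mul_sum]
      refine Finset.sum_le_sum fun i hi => ?_
      have hi' := Finset.ne_of_mem_erase hi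
      have hb := abs_eig_le G hA hmax hi'
      have hb2 : |ev i| ≤ (D : ℝ) + 1 := by
        have : (Fintype.card V : ℝ) = G.minDegree + 1 + D := hDr
        linarith
      have := sq_le (abs_pos.2 (hne i)) hb2
      have e : (4 * ((D : ℝ) + 1) + 2) / 3 = 2 + 4 * (D : ℝ) / 3 := by ring
      rwa [e] at this
    have I4 := hsf G hA hmax hδ1
    have hc : (0 : ℝ) < 2 + 4 * (D : ℝ) / 3 := by positivity
    have I5 : (2 + 4 * (D : ℝ) / 3) * ∑ i ∈ Finset.univ.erase i0, (|ev i| - 1 - Real.log |ev i|) ≤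
        (2 + 4 * (D : ℝ) / 3) * ((E - l) - (n - 1) + Real.log l) :=
      mul_le_mul_of_nonneg_left I2 hc.le
    have I6 : (2 + 4 * (D : ℝ) / 3) * ((E - l) - (n - 1) + Real.log l) ≤
        (2 + 4 * (D : ℝ) / 3) * (Real.log (G.minDegree + w) - s - w) := by
      refine mul_le_mul_of_nonneg_left ?_ hc.le
      rw [← hlw]
      linarith
    have I7 := final_real G.minDegree D s w hge hD2 hw0 hw2.le (by
      intro h0
      obtain ⟨v, hv⟩ := G.exists_maximal_degree_vertex
      have ht := test_vec G hA hmax v (1/2)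
      have hM2 : (G.maxDegree : ℝ) + (n - 1) * G.minDegree ≤ M := by
        rw [hM, ← Finset.add_sum_erase _ _ (Finset.mem_univ v), hv]
        have : ∑ _w ∈ (Finset.univ : Finset V).erase v, (G.minDegree : ℝ) ≤
            ∑ w ∈ (Finset.univ : Finset V).erase v, (G.degree w : ℝ) :=
          Finset.sum_le_sum fun w _ => by exact_mod_cast G.minDegree_le_degree w
        have hcard' : (((Finset.univ : Finset V).erase v).card : ℝ) = n - 1 := by
          rw [Finset.card_erase_of_mem (Finset.mem_univ v), Finset.card_univ,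
            Nat.cast_sub (by omega)]
          simp [hn]
        rw [Finset.sum_const, nsmul_eq_mul, hcard'] at this
        linarith
      rw [← hv] at ht
      subst h0
      push_cast at *
      have e0 : (Fintype.card V : ℝ) = G.minDegree + 1 + D := hDr
      have e1 : (G.maxDegree : ℝ) = G.minDegree + D := by linarith
      rw [e0] at ht
      change M + _ ≤ l * _ at ht
      rw [hlw, e1] at ht
      rw [hDr, e1] at hM2
      nlinarith)
    have e5 : (Fintype.card V : ℝ) = G.minDegree + 1 + D := hDr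
    rw [e5] at I4
    change l ^ 2 - _ * l ≤ M - _ at I4
    have e6 : (G.maxDegree : ℝ) = n - 1 - s := by linarith
    have I8 : ((G.minDegree : ℝ) - 1) * (D - w) + 2 * (s + w) <
        ∑ i ∈ Finset.univ.erase i0, (|ev i| - 1) ^ 2 := by
      rw [I1]
      rw [e6] at hcon
      rw [hDr] at hcon ⊢
      exact alg_aux _ _ _ _ _ _ _ hlw hcon I4
    linarith

end Pool.Agent.S07905
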