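import Pool.Statements.S08220
import Pool.Agent.LibStrong.Concrete

set_option autoImplicit false
open Pool Pool.MP_3bb84f_co

namespace Pool.Agent.S08220

/-- The negation of the preceding statement: For every c ≥ 2: each finite hypergraph whose distinct edges pairwise share at least c−1 vertices can be coloured with 2c−1 colours so every edge sees at least min(size,c) colours, and some such hypergraph cannot with 2c−2. -/
theorem result :
    ¬ (∀ c : ℕ, 2 ≤ c →
      (∀ n : ℕ, ∀ H : Finset (Finset (Fin n)),
          (∀ e ∈ H, ∀ f ∈ H, e ≠ f → c - 1 ≤ (e ∩ f).card) →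
          ∃ col : Fin n → Fin (2 * c - 1),
            ∀ e ∈ H, min e.card c ≤ (e.image col).card) ∧
      (∃ n : ℕ, ∃ H : Finset (Finset (Fin n)),
          (∀ e ∈ H, ∀ f ∈ H, e ≠ f → c - 1 ≤ (e ∩ f).card) ∧
          ∀ col : Fin n → Fin (2 * c - 2),
            ∃ e ∈ H, (e.image col).card < min e.card c)) := by
  intro hall
  obtain ⟨t, n, H, ht, hint, hsize, hcol⟩ := Pool.Agent.LibStrong.exists_bad
  have h := (hall (t + 1) (by omega)).1 n H (fun e he f hf _ => by
    have := hint e he f hf
    omega)
  have e1 : 2 * (t + 1) - 1 = 2 * t + 1 := by omega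
  rw [e1] at h
  obtain ⟨col, hc⟩ := h
  obtain ⟨e, he, hcard⟩ := hcol col
  have h1 := hc e he
  have h2 := hsize e he
  omega

end Pool.Agent.S08220
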