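import Pool.Statements.S08281
import Pool.Agent.LibSQ58.Main

/-!
# Every two-colouring of three-space has a monochromatic unit square (no measurability assumed)

Outline.  Suppose `c` has no monochromatic unit square.

A. (Exact decoupling.)  Averaging `c` over translations and over rotations about the third, the first and again
the third axis (invariant means on the discrete group `ℝ`) gives a finitely additive stationary random colouring without
monochromatic unit squares.  Its correlation function is EXACTLY a continuous positive definite
function plus a multiple of the indicator of `0`.  This rests on a version, without any measurability, of
the theorem of Schoenberg and Crum on radial positive definite functions of the plane: if `G` is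
orthogonal to the vectors on which horizontal translations act continuously and its correlation is
invariant under rotation about the vertical axis, then it is orthogonal to all its non-vertical
translates.  Proof: `G` is wild along every horizontal line, so the mean over `t` in `[0,1)` of
`⟨k, τ(P(t) e₁) G⟩` is zero for each non-constant real polynomial `P` (van der Corput differences);
for the points at the angles `2jβ` on a circle of radius `2b sin mβ` all distances are the absolute values of
`2b (T_{m-n}(t) - T_{m+n}(t))`, `t = cos β`, and Bessel's inequality is used twice, on this circle and on the circle of
radius `b`.

B. By the Riesz representation theorem there is a countably additive stationary random colouring `χ` with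
`χ = ρ + g`, `ρ` continuous in `L²`, and the translates `g_x` pairwise orthogonal.  By Bessel's inequality
every `L²` function is orthogonal to all but countably many `g_x`, hence all pairs and triples
of vertices of a generic unit square decouple.  Only the four-point correlation is free, and this
gives: almost surely the values of `ρ` at the vertices of a unit square are all `0`, or `+1` and `-1` both
occur.

C. A three-valued version of the theorem for measurable colourings (`LibMS49`) shows that then `ρ = 0`.

D. Then generic unit squares have almost surely an odd number of vertices of each colour, which is
impossible for the three lateral faces of a prism over an equilateral triangle.
-/

set_option autoImplicit false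
open Pool Pool.MP_3e7293_co

namespace Pool.Agent.S08281

/-- For every 2-coloring of 3-dimensional Euclidean space there are points p, q, s with q-p and s-p orthogonal of length 1 such that p, q, s and q+s-p (a unit square) all get the same color. -/
theorem result :
    ∀ f : EuclideanSpace ℝ (Fin 3) → Fin 2,
      ∃ p q s : EuclideanSpace ℝ (Fin 3),
        ‖q - p‖ = 1 ∧ ‖s - p‖ = 1 ∧ inner ℝ (q - p) (s - p) = 0 ∧
        f q = f p ∧ f s = f p ∧ f (q + s - p) = f p := by
  intro f
  exact Pool.Agent.LibSQ58.main f

end Pool.Agent.S08281
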