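import Pool.Statements.S08445
import Pool.Agent.TriDil.F2

set_option autoImplicit false
open Pool Pool.MP_44e1ea_co

namespace Pool.Agent.S08445

open MeasureTheory ComplexConjugate in
/-- non-collinear points have non-zero oriented area -/
theorem area_ne_zero (e : ℂ ≃ₗᵢ[ℝ] EuclideanSpace ℝ (Fin 2)) (u v w : EuclideanSpace ℝ (Fin 2))
    (h : ¬ Collinear ℝ ({u, v, w} : Set (EuclideanSpace ℝ (Fin 2)))) :
    (conj (e.symm v - e.symm u) * (e.symm w - e.symm u)).im ≠ 0 := by
  intro h0
  apply h
  set a := e.symm v - e.symm u with ha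
  set b := e.symm w - e.symm u with hb
  have ea : e a = v - u := by rw [ha, map_sub]; simp
  have eb : e b = w - u := by rw [hb, map_sub]; simp
  by_cases hz : a = 0
  · have huv : v = u := by
      have : v - u = 0 := by rw [← ea, hz, map_zero]
      exact sub_eq_zero.mp this
    rw [huv]
    simp only [Set.mem_insert_iff, true_or, Set.insert_eq_of_mem]
    exact collinear_pair ℝ u w
  · have hn : Complex.normSq a ≠ 0 := by rwa [Ne, Complex.normSq_eq_zero]
    set t : ℝ := (conj a * b).re / Complex.normSq a with ht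
    have hbt : b = (t : ℂ) * a := by
      have h1 : conj a * b = (((conj a * b).re : ℝ) : ℂ) := by
        apply Complex.ext
        · simp
        · rw [h0]; simp
      have h2 : a * (conj a * b) = (Complex.normSq a : ℂ) * b := by
        rw [← mul_assoc, Complex.mul_conj]
      have h3 : (Complex.normSq a : ℂ) ≠ 0 := by exact_mod_cast hn
      have h4 : (Complex.normSq a : ℂ) * b = (Complex.normSq a : ℂ) * ((t : ℂ) * a) := by
        rw [← h2, h1, ht]
        push_cast
        field_simp
      exact mul_left_cancel₀ h3 h4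
    have hw : w = t • (v - u) + u := by
      have : e b = t • e a := by rw [hbt, ← Complex.real_smul, map_smul]
      rw [ea, eb] at this
      rw [← this]; abel
    rw [collinear_iff_of_mem (p₀ := u) (by simp)]
    refine ⟨v - u, ?_⟩
    intro p hp
    simp only [Set.mem_insert_iff, Set.mem_singleton_iff] at hp
    rcases hp with rfl | rfl | rfl
    · exact ⟨0, by simp⟩
    · exact ⟨1, by simp⟩
    · exact ⟨t, by simpa using hw⟩

/-- Let A be a measurable planar set with positive upper density and u, v, w non-collinear. Then for all sufficiently large l there are x, y, z in A whose pairwise distances are l times those of u, v, w. -/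
theorem result :
    ∀ (A : Set (EuclideanSpace ℝ (Fin 2))), MeasurableSet A →
      0 < Filter.limsup
        (fun R : ℝ => MeasureTheory.volume (A ∩ Metric.ball (0 : EuclideanSpace ℝ (Fin 2)) R) /
          MeasureTheory.volume (Metric.ball (0 : EuclideanSpace ℝ (Fin 2)) R)) Filter.atTop →
      ∀ u v w : EuclideanSpace ℝ (Fin 2),
        ¬ Collinear ℝ ({u, v, w} : Set (EuclideanSpace ℝ (Fin 2))) →
        ∃ l₀ : ℝ, 0 < l₀ ∧ ∀ l : ℝ, l₀ ≤ l →
          ∃ x ∈ A, ∃ y ∈ A, ∃ z ∈ A,
            dist x y = l * dist u v ∧ dist y z = l * dist v w ∧ dist x z = l * dist u w := by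
  intro A hA hd u v w hc
  let e : ℂ ≃ₗᵢ[ℝ] EuclideanSpace ℝ (Fin 2) := Complex.orthonormalBasisOneI.repr
  have hmp : MeasureTheory.MeasurePreserving e MeasureTheory.volume MeasureTheory.volume :=
    e.measurePreserving
  have hball : ∀ R : ℝ, e ⁻¹' (Metric.ball (0 : EuclideanSpace ℝ (Fin 2)) R) = Metric.ball (0 : ℂ) R := by
    intro R
    ext x
    simp only [Set.mem_preimage, mem_ball_zero_iff, LinearIsometryEquiv.norm_map]
  have h1 : ∀ R : ℝ, MeasureTheory.volume ((e ⁻¹' A) ∩ Metric.ball (0 : ℂ) R)
      = MeasureTheory.volume (A ∩ Metric.ball (0 : EuclideanSpace ℝ (Fin 2)) R) := by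
    intro R
    rw [← hball R, ← Set.preimage_inter]
    exact hmp.measure_preimage (hA.inter measurableSet_ball).nullMeasurableSet
  have h2 : ∀ R : ℝ, MeasureTheory.volume (Metric.ball (0 : ℂ) R)
      = MeasureTheory.volume (Metric.ball (0 : EuclideanSpace ℝ (Fin 2)) R) := by
    intro R
    rw [← hball R]
    exact hmp.measure_preimage measurableSet_ball.nullMeasurableSet
  have hd' : 0 < Filter.limsup
        (fun R : ℝ => MeasureTheory.volume ((e ⁻¹' A) ∩ Metric.ball (0 : ℂ) R) /
          MeasureTheory.volume (Metric.ball (0 : ℂ) R)) Filter.atTop := by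
    simp only [h1, h2]; exact hd
  obtain ⟨l₀, hl₀, H⟩ := TriDil.plane_thm (e ⁻¹' A) (hmp.measurable hA) hd' (e.symm u) (e.symm v) (e.symm w)
    (area_ne_zero e u v w hc)
  refine ⟨l₀, hl₀, fun l hl => ?_⟩
  obtain ⟨x, hx, y, hy, z, hz, d1, d2, d3⟩ := H l hl
  refine ⟨e x, hx, e y, hy, e z, hz, ?_, ?_, ?_⟩
  · rw [e.dist_map, d1, e.symm.dist_map]
  · rw [e.dist_map, d2, e.symm.dist_map]
  · rw [e.dist_map, d3, e.symm.dist_map]

end Pool.Agent.S08445
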