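import Pool.Statements.S08765
import Pool.Agent.LibFC.Asm
import Pool.Agent.LibFC.PartA
import Pool.Agent.LibFC.PartB
import Pool.Agent.LibFC.CntMain

set_option autoImplicit false
open Filter
open Pool Pool.MP_52de8b_co

namespace Pool.Agent.S08765

/-- Any fixed point u of an everywhere-growing, non-quasi-uniform morphism prolongable on a letter, with all letters occurring in u, is eventually periodic or has s_u(n) ~ C log log n or s_u(n) ~ C log n for some C>0. -/
theorem result :
  ∀ (k : ℕ) (σ : Fin k → List (Fin k)) (a : Fin k) (u : ℕ → Fin k),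
    (∀ b : Fin k, Tendsto
      (fun m : ℕ => ((fun w : List (Fin k) => w.flatMap σ)^[m] [b]).length) atTop atTop) →
    (σ a).head? = some a → 2 ≤ (σ a).length →
    (∀ m i : ℕ, i < ((fun w : List (Fin k) => w.flatMap σ)^[m] [a]).length →
      ((fun w : List (Fin k) => w.flatMap σ)^[m] [a])[i]? = some (u i)) →
    (∀ b : Fin k, ∃ i : ℕ, u i = b) →
    ¬ (∀ b c : Fin k, Asymptotics.IsTheta atTop
        (fun m : ℕ => (((fun w : List (Fin k) => w.flatMap σ)^[m] [b]).length : ℝ))
        (fun m : ℕ => (((fun w : List (Fin k) => w.flatMap σ)^[m] [c]).length : ℝ))) →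
    (∃ p N : ℕ, 0 < p ∧ ∀ i : ℕ, N ≤ i → u (i + p) = u i) ∨
    ∃ C : ℝ, 0 < C ∧
      (Asymptotics.IsEquivalent atTop
        (fun n : ℕ =>
          ((Set.range (fun i : ℕ => List.ofFn (fun j : Fin (n + 1) => u (i + j.val)))).ncard : ℝ)
          - ((Set.range (fun i : ℕ => List.ofFn (fun j : Fin n => u (i + j.val)))).ncard : ℝ))
        (fun n : ℕ => C * Real.log (Real.log (n : ℝ))) ∨
       Asymptotics.IsEquivalent atTop
        (fun n : ℕ =>
          ((Set.range (fun i : ℕ => List.ofFn (fun j : Fin (n + 1) => u (i + j.val)))).ncard : ℝ)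
          - ((Set.range (fun i : ℕ => List.ofFn (fun j : Fin n => u (i + j.val)))).ncard : ℝ))
        (fun n : ℕ => C * Real.log (n : ℝ))) := by
  intro k σ a u hgr _ h2 hu hall hnq
  have hfix := FC.fix_of σ a u hgr h2 hu hall
  have : Nonempty (Fin k) := ⟨a⟩
  obtain ⟨gr⟩ := FC.exists_gr σ hfix.grow
  obtain ⟨C1, C2, K, hC, hA⟩ := FC.partA_of_count σ u gr (FC.count_main σ u hfix gr) hnq
  obtain ⟨K', hB⟩ := FC.partB σ u hfix
  obtain ⟨K2, hK2⟩ := FC.diff_bound u C1 C2 K hA K' hB
  right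
  exact FC.equiv_of_bound _ C1 C2 K2 hC hK2

end Pool.Agent.S08765
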