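import Pool.Statements.S08885
import Pool.Agent.LibMP58b56d.Reduction
import Pool.Agent.LibMP58b56d.Final
import Pool.Agent.LibMP58b56d.TL

set_option autoImplicit false
open N289fa9c1
open Filter SimpleGraph
open Pool Pool.MP_58b56d_co

namespace Pool.Agent.S08885

/-- Tendsto (n ↦ h n − log₂ n) atTop atTop, where h n = least t∈ℕ such that some simple graph on Fin n with exactly n+t edges contains C_k for every 3 ≤ k ≤ n -/
theorem result :
    Tendsto (fun n : ℕ ↦ (h n : ℝ) - Real.logb 2 (n : ℝ)) atTop atTop := by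
  by_contra hcon
  obtain ⟨C, Δ, hC⟩ := Pool.Agent.LibMP58b56d.reduction hcon
  obtain ⟨n0, hn0⟩ := Pool.Agent.LibMP58b56d.no_datum Pool.Agent.LibMP58b56d.tl C Δ
  obtain ⟨n, hn, ⟨D⟩⟩ := hC n0
  exact hn0 n hn D

end Pool.Agent.S08885
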