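import Pool.Statements.S09188
import Pool.Agent.LibAdmissible.Exact
import Pool.Agent.LibInt99.Countable
import Pool.Agent.LibInt99.Line

set_option autoImplicit false
open Cardinal
open Pool Pool.MP_637f5b_co

namespace Pool.Agent.S09188

open Pool.Agent.LibInt99 in
theorem aux1 (κ : Cardinal.{0}) (hκ : ℵ₀ ≤ κ) : ∃ (V : Type) (G : SimpleGraph V),
    (∃ α : Type, Cardinal.mk α = κ ∧ Nonempty (G.Coloring α)) ∧
    (∀ β : Type, Cardinal.mk β < κ → IsEmpty (G.Coloring β)) ∧
    ∀ (n : ℕ) (F : SimpleGraph (Fin n)) (f : F →g G), Function.Injective f → A1 F := by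
  classical
  obtain ⟨V, G, hG, hc⟩ := exists_A1 κ hκ
  obtain ⟨W, H, h1, h2, h3⟩ := Pool.Agent.LibAdmissible.exact_graph G κ hκ
    (fun β hβ => hc β hβ.le)
  refine ⟨W, H, h1, h2, ?_⟩
  intro n F f hf
  obtain ⟨e, he1, he2⟩ := h3 (Finset.univ.image f)
  refine hG.sub F ⟨fun x => e (f x), ?_⟩ ?_
  · intro x y hxy
    exact he2 _ (Finset.mem_image_of_mem _ (Finset.mem_univ _)) _
      (Finset.mem_image_of_mem _ (Finset.mem_univ _)) (f.map_adj hxy)
  · intro x y hxy
    apply hf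
    refine he1 ?_ ?_ hxy
    · simp
    · simp

open Pool.Agent.LibInt99 in
theorem aux2 (κ : Cardinal.{0}) (hκ : ℵ₀ ≤ κ) : ∃ (V : Type) (G : SimpleGraph V),
    (∃ α : Type, Cardinal.mk α = κ ∧ Nonempty (G.Coloring α)) ∧
    (∀ β : Type, Cardinal.mk β < κ → IsEmpty (G.Coloring β)) ∧
    ∀ (n : ℕ) (F : SimpleGraph (Fin n)) (f : F →g G), Function.Injective f → A2 F := by
  classical
  obtain ⟨V, G, hG, hc⟩ := exists_A2 κ hκ
  obtain ⟨W, H, h1, h2, h3⟩ := Pool.Agent.LibAdmissible.exact_graph G κ hκ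
    (fun β hβ => hc β hβ.le)
  refine ⟨W, H, h1, h2, ?_⟩
  intro n F f hf
  obtain ⟨e, he1, he2⟩ := h3 (Finset.univ.image f)
  refine hG.sub F ⟨fun x => e (f x), ?_⟩ ?_
  · intro x y hxy
    exact he2 _ (Finset.mem_image_of_mem _ (Finset.mem_univ _)) _
      (Finset.mem_image_of_mem _ (Finset.mem_univ _)) (f.map_adj hxy)
  · intro x y hxy
    apply hf
    refine he1 ?_ ?_ hxy
    · simp
    · simp

/-- The negation of the preceding statement: For isomorphism-closed classes A1, A2 of finite graphs: if for each infinite κ some graph of chromatic number exactly κ has all its finite subgraphs in A1, and likewise for A2, then the same holds for A1 ∩ A2. -/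
theorem result :
    ¬ (∀ (A₁ A₂ : (n : ℕ) → SimpleGraph (Fin n) → Prop),
      (∀ (n m : ℕ) (G : SimpleGraph (Fin n)) (H : SimpleGraph (Fin m)),
          Nonempty (G ≃g H) → A₁ n G → A₁ m H) →
      (∀ (n m : ℕ) (G : SimpleGraph (Fin n)) (H : SimpleGraph (Fin m)),
          Nonempty (G ≃g H) → A₂ n G → A₂ m H) →
      (∀ κ : Cardinal.{0}, Cardinal.aleph0 ≤ κ →
          ∃ (V : Type) (G : SimpleGraph V),
            (∃ α : Type, Cardinal.mk α = κ ∧ Nonempty (G.Coloring α)) ∧
            (∀ β : Type, Cardinal.mk β < κ → IsEmpty (G.Coloring β)) ∧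
            ∀ (n : ℕ) (F : SimpleGraph (Fin n)) (f : F →g G),
              Function.Injective f → A₁ n F) →
      (∀ κ : Cardinal.{0}, Cardinal.aleph0 ≤ κ →
          ∃ (V : Type) (G : SimpleGraph V),
            (∃ α : Type, Cardinal.mk α = κ ∧ Nonempty (G.Coloring α)) ∧
            (∀ β : Type, Cardinal.mk β < κ → IsEmpty (G.Coloring β)) ∧
            ∀ (n : ℕ) (F : SimpleGraph (Fin n)) (f : F →g G),
              Function.Injective f → A₂ n F) →
      (∀ κ : Cardinal.{0}, Cardinal.aleph0 ≤ κ →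
          ∃ (V : Type) (G : SimpleGraph V),
            (∃ α : Type, Cardinal.mk α = κ ∧ Nonempty (G.Coloring α)) ∧
            (∀ β : Type, Cardinal.mk β < κ → IsEmpty (G.Coloring β)) ∧
            ∀ (n : ℕ) (F : SimpleGraph (Fin n)) (f : F →g G),
              Function.Injective f → (A₁ n F ∧ A₂ n F))) := by
  intro h
  obtain ⟨V, G, -, hG, hA⟩ := h (fun _ F => Pool.Agent.LibInt99.A1 F)
    (fun _ F => Pool.Agent.LibInt99.A2 F)
    (fun n m G H ⟨e⟩ hG => hG.sub H e.symm.toHom e.symm.injective)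
    (fun n m G H ⟨e⟩ hG => hG.sub H e.symm.toHom e.symm.injective)
    aux1 aux2 (Order.succ ℵ₀) (Order.le_succ _)
  have hA' : ∀ s : Finset V, Pool.Agent.LibInt99.A1 (Pool.Agent.LibInt99.gph G s) ∧
      Pool.Agent.LibInt99.A2 (Pool.Agent.LibInt99.gph G s) := fun s =>
    hA s.card (Pool.Agent.LibInt99.gph G s) ⟨Pool.Agent.LibInt99.pt s, fun h => h⟩
      (Pool.Agent.LibInt99.pt_inj s)
  obtain ⟨c⟩ := Pool.Agent.LibInt99.countable_of_A1_A2 G
    (Pool.Agent.LibInt99.A1.compact G (fun s => (hA' s).1))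
    (Pool.Agent.LibInt99.A2.compact G (fun s => (hA' s).2))
  exact (hG ℕ (by rw [Cardinal.mk_nat]; exact Order.lt_succ _)).false c

end Pool.Agent.S09188
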