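import Pool.Statements.S09309
import Pool.Agent.TwoPar.Spec

set_option autoImplicit false
open Pool Pool.MP_6adf2c_co

namespace Pool.Agent.S09309

open Pool.Agent.TwoPar Matrix

/-- any row space has dimension at most `m + 2n - 2`. -/
lemma upper {n m : ℕ} (hn : 0 < n) (A : Fin m → ℝ) (s : Set (Fin n × Fin m)) :
    Module.finrank ℝ (Submodule.span ℝ (row A '' s)) + 2 ≤ m + (n + n) := by
  classical
  set f : (Fin m ⊕ (Fin n ⊕ Fin n) → ℝ) →ₗ[ℝ] (Fin 2 → ℝ) :=
    { toFun := fun v => ![∑ i, v (Sum.inr (Sum.inr i)) - ∑ j, v (Sum.inl j),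
        ∑ i, v (Sum.inr (Sum.inl i)) - ∑ j, A j * v (Sum.inl j)]
      map_add' := by
        intro v w
        ext k
        fin_cases k
        · simp [Finset.sum_add_distrib]; ring
        · simp [Finset.sum_add_distrib, mul_add]; ring
      map_smul' := by
        intro c v
        ext k
        fin_cases k
        · simp [← Finset.mul_sum]; ring
        · simp only [Pi.smul_apply, smul_eq_mul, RingHom.id_apply, Matrix.smul_cons]
          simp only [Fin.mk_one, Matrix.cons_val_one, Matrix.cons_val_fin_one]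
          rw [mul_sub, Finset.mul_sum, Finset.mul_sum]
          congr 1
          refine Finset.sum_congr rfl fun j _ => by ring } with hf
  have hsurj : Function.Surjective f := by
    intro w
    refine ⟨Sum.elim (fun _ => 0) (Sum.elim (Pi.single ⟨0, hn⟩ (w 1)) (Pi.single ⟨0, hn⟩ (w 0))), ?_⟩
    ext k
    fin_cases k
    · simp [hf]
    · simp [hf]
  have hle : Submodule.span ℝ (row A '' s) ≤ LinearMap.ker f := by
    rw [Submodule.span_le]
    rintro _ ⟨p, _, rfl⟩
    simp only [SetLike.mem_coe, LinearMap.mem_ker]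
    ext k
    fin_cases k
    · simp [hf, row_inl, row_inr_inr]
    · simp [hf, row_inl, row_inr_inl]
  have h1 := Submodule.finrank_mono hle
  have h2 := LinearMap.finrank_range_add_finrank_ker f
  rw [LinearMap.range_eq_top.2 hsurj, finrank_top] at h2
  simp only [Module.finrank_fintype_fun_eq_card, Fintype.card_sum, Fintype.card_fin] at h2
  omega

/-- with generic normals the row space has dimension at least `m + 2n - 2`. -/
lemma lower {n m : ℕ} (i0 : Fin n) (I : Finset (Fin n × Fin m)) (B : Fin m → ℝ)
    (hB : ∀ v : Fin m ⊕ (Fin n ⊕ Fin n) → ℝ,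
      (∀ p ∈ I, row B p ⬝ᵥ v = 0) → v (Sum.inr (Sum.inl i0)) = 0 →
      v (Sum.inr (Sum.inr i0)) = 0 → v = 0) :
    m + (n + n) ≤ Module.finrank ℝ (Submodule.span ℝ (row B '' (I : Set (Fin n × Fin m)))) + 2 := by
  classical
  set N : Matrix I (Fin m ⊕ (Fin n ⊕ Fin n)) ℝ := Matrix.of (fun p => row B p.1) with hN
  have hrange : Set.range N.row = row B '' (I : Set (Fin n × Fin m)) := by
    ext v
    constructor
    · rintro ⟨p, rfl⟩
      exact ⟨p.1, p.2, rfl⟩
    · rintro ⟨p, hp, rfl⟩
      exact ⟨⟨p, hp⟩, rfl⟩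
  have hrank : N.rank = Module.finrank ℝ (Submodule.span ℝ (row B '' (I : Set (Fin n × Fin m)))) := by
    rw [Matrix.rank_eq_finrank_span_row, hrange]
  rw [← hrank]
  have h2 := LinearMap.finrank_range_add_finrank_ker N.mulVecLin
  simp only [Module.finrank_fintype_fun_eq_card, Fintype.card_sum, Fintype.card_fin] at h2
  have hrk : N.rank = Module.finrank ℝ (LinearMap.range N.mulVecLin) := rfl
  have hker : Module.finrank ℝ (LinearMap.ker N.mulVecLin) ≤ 2 := by
    set g : LinearMap.ker N.mulVecLin →ₗ[ℝ] (Fin 2 → ℝ) :=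
      { toFun := fun v => ![v.1 (Sum.inr (Sum.inl i0)), v.1 (Sum.inr (Sum.inr i0))]
        map_add' := by
          intro v w
          ext k
          fin_cases k <;> simp
        map_smul' := by
          intro c v
          ext k
          fin_cases k <;> simp } with hg
    have hinj : Function.Injective g := by
      rw [← LinearMap.ker_eq_bot, LinearMap.ker_eq_bot']
      rintro ⟨v, hv⟩ hgv
      have h0 := congrFun hgv 0
      have h1 := congrFun hgv 1
      simp only [hg, LinearMap.coe_mk, AddHom.coe_mk, Matrix.cons_val_zero, Matrix.cons_val_one,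
        Matrix.cons_val_fin_one, Pi.zero_apply] at h0 h1
      ext1
      refine hB v (fun p hp => ?_) h0 h1
      rw [LinearMap.mem_ker, Matrix.mulVecLin_apply] at hv
      exact congrFun hv ⟨p, hp⟩
    have := LinearMap.finrank_le_finrank_of_injective hinj
    simpa using this
  omega

/-- If the bipartite vertex-face graph of an incidence set I is 4-connected, then every vertex-face pair lies in the closure of I in the generic 2-parallel matroid (generic rank = max rank over normals), i.e. I is 2-tight. -/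
theorem result :
  ∀ (n m : ℕ) (I : Finset (Fin n × Fin m)),
    4 < n + m →
    (∀ X : Finset (Fin n ⊕ Fin m), X.card < 4 →
      ((SimpleGraph.fromRel (fun a b : Fin n ⊕ Fin m =>
          ∃ p ∈ I, a = Sum.inl p.1 ∧ b = Sum.inr p.2)).induce
        ((↑X : Set (Fin n ⊕ Fin m))ᶜ)).Connected) →
    ∀ (r : Fin n × Fin m) (A : Fin m → ℝ), ∃ B : Fin m → ℝ,
      Module.finrank ℝ (Submodule.span ℝ ((fun p : Fin n × Fin m =>
          (Sum.elim (fun j : Fin m => if j = p.2 then (1:ℝ) else 0)
            (Sum.elim (fun i : Fin n => if i = p.1 then A p.2 else 0)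
              (fun i : Fin n => if i = p.1 then (1:ℝ) else 0)) :
            Fin m ⊕ (Fin n ⊕ Fin n) → ℝ)) ''
          (↑(insert r I) : Set (Fin n × Fin m))))
      ≤ Module.finrank ℝ (Submodule.span ℝ ((fun p : Fin n × Fin m =>
          (Sum.elim (fun j : Fin m => if j = p.2 then (1:ℝ) else 0)
            (Sum.elim (fun i : Fin n => if i = p.1 then B p.2 else 0)
              (fun i : Fin n => if i = p.1 then (1:ℝ) else 0)) :
            Fin m ⊕ (Fin n ⊕ Fin n) → ℝ)) ''
          (↑I : Set (Fin n × Fin m)))) := by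
  intro n m I hnm hX r A
  have h4 : Conn4 I := ⟨hnm, hX⟩
  have hn : 0 < n := n_pos h4
  obtain ⟨B, hB⟩ := exists_generic h4 ⟨0, hn⟩
  refine ⟨B, ?_⟩
  have h1 := upper hn A (↑(insert r I) : Set (Fin n × Fin m))
  have h2 := lower ⟨0, hn⟩ I B hB
  change Module.finrank ℝ (Submodule.span ℝ (row A '' (↑(insert r I) : Set (Fin n × Fin m)))) ≤
    Module.finrank ℝ (Submodule.span ℝ (row B '' (↑I : Set (Fin n × Fin m))))
  omega

end Pool.Agent.S09309
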