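import Pool.Statements.S09686
import Pool.Agent.H58.InterCode
import Pool.Agent.H58.BinMat

set_option autoImplicit false
open Pool Pool.MP_7c85f7_co

namespace Pool.Agent.S09686

open Pool.Agent.H58.InterCode Pool.Agent.H58.BinMat Finset

/-- the code word of a functional -/
def word {k n : ℕ} (g : Fin n → (Fin k → ZMod 2)) (u : Fin k → ZMod 2) : Fin n → ZMod 2 :=
  fun i => u ⬝ᵥ g i

/-- the code -/
def code {k n : ℕ} (g : Fin n → (Fin k → ZMod 2)) : Submodule (ZMod 2) (Fin n → ZMod 2) where
  carrier := Set.range (word g)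
  add_mem' := by
    rintro _ _ ⟨u, rfl⟩ ⟨u', rfl⟩
    exact ⟨u + u', by ext i; simp [word, add_dotProduct]⟩
  zero_mem' := ⟨0, by ext i; simp [word]⟩
  smul_mem' := by
    rintro c _ ⟨u, rfl⟩
    exact ⟨c • u, by ext i; simp [word, smul_dotProduct]⟩

lemma exists_third {k : ℕ} (hk : 3 ≤ k) (u : Fin k → ZMod 2) :
    ∃ a b : Fin k → ZMod 2, a ≠ 0 ∧ b ≠ 0 ∧ a + b ≠ 0 ∧ a ≠ u ∧ b ≠ u ∧ a + b ≠ u := by
  classical
  by_contra hcon
  push Not at hcon
  -- pick a outside {0,u}, then b outside {0,u,a,a+u}
  have hcard : Fintype.card (Fin k → ZMod 2) = 2 ^ k := by simp [ZMod.card]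
  have h8 : 8 ≤ 2 ^ k := by
    calc 8 = 2 ^ 3 := by norm_num
      _ ≤ 2 ^ k := Nat.pow_le_pow_right (by norm_num) hk
  obtain ⟨a, ha⟩ : ∃ a, a ∉ ({0, u} : Finset (Fin k → ZMod 2)) := by
    by_contra h
    push Not at h
    have := Finset.card_le_card (fun a _ => h a : (univ : Finset (Fin k → ZMod 2)) ⊆ _)
    rw [Finset.card_univ, hcard] at this
    have h2 := Finset.card_le_two (a := (0 : Fin k → ZMod 2)) (b := u)
    omega
  obtain ⟨b, hb⟩ : ∃ b, b ∉ ({0, u, a, a + u} : Finset (Fin k → ZMod 2)) := by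
    by_contra h
    push Not at h
    have := Finset.card_le_card (fun a _ => h a : (univ : Finset (Fin k → ZMod 2)) ⊆ _)
    rw [Finset.card_univ, hcard] at this
    have h2 := Finset.card_le_four (a := (0 : Fin k → ZMod 2)) (b := u) (c := a) (d := a + u)
    omega
  simp only [Finset.mem_insert, Finset.mem_singleton, not_or] at ha hb
  have hself : ∀ x : Fin k → ZMod 2, x + x = 0 := by
    intro x; ext j; exact CharTwo.add_self_eq_zero (x j)
  have hab : a + b ≠ 0 := by
    intro h
    apply hb.2.2.1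
    calc b = (a + a) + b := by rw [hself]; simp
      _ = a + (a + b) := by rw [add_assoc]
      _ = a := by rw [h]; simp
  have := hcon a b ha.1 hb.1 hab ha.2 hb.2.1
  apply hb.2.2.2
  calc b = (a + a) + b := by rw [hself]; simp
    _ = a + (a + b) := by rw [add_assoc]
    _ = a + u := by rw [this]

theorem result :
    ¬ (∃ t : ℕ, ∀ (α : Type) (M : Matroid α),
      M.E.Finite → M.E.Nonempty →
      (∃ (n : ℕ) (v : α → (Fin n → ZMod 2)),
        ∀ I : Set α, M.Indep I ↔ (I ⊆ M.E ∧ LinearIndepOn (ZMod 2) v I)) →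
      (∀ e ∈ M.E, ∀ f ∈ M.E, e ≠ f → ∃ C : Set α, M.IsCircuit C ∧ e ∈ C ∧ f ∈ C) →
      (∀ K : Set α, M.IsCocircuit K → t ≤ K.ncard) →
      ∃ D : Set α, M.IsCircuit D ∧
        ∀ e ∈ (M.restrict (M.E \ D)).E, ∀ f ∈ (M.restrict (M.E \ D)).E, e ≠ f →
          ∃ C : Set α, (M.restrict (M.E \ D)).IsCircuit C ∧ e ∈ C ∧ f ∈ C) := by
  classical
  rintro ⟨t, ht⟩
  obtain ⟨k, n, g, hk3, hn1, hint, hdual⟩ := exists_good (max t 3)
  obtain ⟨m, v, hv⟩ := exists_vectors (code g)
  have hself : ∀ x : Fin k → ZMod 2, x + x = 0 := by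
    intro x; ext j; exact CharTwo.add_self_eq_zero (x j)
  -- words of nonzero functionals are nonzero
  have hword_ne : ∀ u : Fin k → ZMod 2, u ≠ 0 → word g u ≠ 0 := by
    intro u hu h
    obtain ⟨i, hi, -⟩ := hint u u hu hu
    have := congrFun h i
    simp only [word, Pi.zero_apply] at this
    rw [this] at hi
    exact zero_ne_one hi
  -- dependence
  have hdep : ∀ I : Set (Fin n), ¬ (vecMatroid v).Indep I ↔
      ∃ u : Fin k → ZMod 2, u ≠ 0 ∧ ∀ i, u ⬝ᵥ g i = 1 → i ∈ I := by
    intro I
    rw [vecMatroid_indep, not_linearIndepOn_iff]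
    constructor
    · rintro ⟨c, hc, hcI, hsum⟩
      obtain ⟨u, rfl⟩ := (hv c).mp hsum
      refine ⟨u, ?_, ?_⟩
      · rintro rfl
        apply hc
        ext i; simp [word]
      · intro i hi
        apply hcI
        simp [word, hi]
    · rintro ⟨u, hu, huI⟩
      refine ⟨word g u, hword_ne u hu, ?_, (hv _).mpr ⟨u, rfl⟩⟩
      intro i hi
      rcases zmod2_cases (u ⬝ᵥ g i) with h | h
      · exact absurd h hi
      · exact huI i h
  -- every word of a nonzero functional is a circuit
  have hcirc : ∀ u : Fin k → ZMod 2, u ≠ 0 →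
      (vecMatroid v).IsCircuit {i | u ⬝ᵥ g i = 1} := by
    intro u hu
    rw [Matroid.isCircuit_iff]
    refine ⟨⟨(hdep _).mpr ⟨u, hu, fun i hi => hi⟩, Set.subset_univ _⟩, ?_⟩
    intro D hD hDsub
    obtain ⟨u', hu', hu'D⟩ := (hdep _).mp hD.not_indep
    by_cases huu : u + u' = 0
    · have : u' = u := by
        calc u' = (u + u) + u' := by rw [hself]; simp
          _ = u + (u + u') := by rw [add_assoc]
          _ = u := by rw [huu]; simp
      subst this
      exact Set.Subset.antisymm hDsub hu'D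
    · exfalso
      obtain ⟨i, hi, hi'⟩ := hint (u + u') u' huu hu'
      have h1 : u ⬝ᵥ g i = 1 := hDsub (hu'D i hi')
      rw [add_dotProduct, h1, hi'] at hi
      exact absurd hi (by decide)
  -- circuits come from functionals
  have hcirc' : ∀ D : Set (Fin n), (vecMatroid v).IsCircuit D →
      ∃ u : Fin k → ZMod 2, u ≠ 0 ∧ D = {i | u ⬝ᵥ g i = 1} := by
    intro D hD
    obtain ⟨u, hu, huD⟩ := (hdep _).mp hD.not_indep
    refine ⟨u, hu, ?_⟩
    exact (hD.eq_of_dep_subset (hcirc u hu).dep huD).symm
  obtain ⟨D, hD, hconn⟩ := ht (Fin n) (vecMatroid v) (Set.toFinite _)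
    (by rw [vecMatroid_E]; exact ⟨⟨0, hn1⟩, trivial⟩)
    ⟨m, v, fun I => by rw [vecMatroid_indep, vecMatroid_E]; simp⟩
    (by
      intro e _ f _ hef
      -- functional which is one on both
      have hge : ∀ i, g i ≠ 0 := by
        intro i hi
        apply hdual {i} (by simp) (by simp)
        simp [hi]
      have hgef : g e + g f ≠ 0 := by
        intro h
        apply hdual {e, f} (by simp) (by rw [Finset.card_pair hef]; omega)
        rw [Finset.sum_pair hef, h]
      obtain ⟨u, hu, hu'⟩ := exists_common (hge e) (hge f)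
      rw [dotProduct_comm] at hu hu'
      have hu0 : u ≠ 0 := by
        rintro rfl
        simp at hu
      exact ⟨_, hcirc u hu0, hu, hu'⟩)
    (by
      intro K hK
      by_contra hlt
      push Not at hlt
      -- a base avoiding K unless a short dual word exists
      rw [Matroid.isCocircuit_iff_minimal] at hK
      have hKB := hK.prop
      obtain ⟨I, hI⟩ := (vecMatroid v).exists_isBasis (Set.univ \ K) (Set.subset_univ _)
      have hInb : ¬ (vecMatroid v).IsBase I := by
        intro hb
        obtain ⟨x, hxK, hxI⟩ := hKB I hb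
        exact (hI.subset hxI).2 hxK
      obtain ⟨B, hB⟩ := (vecMatroid v).exists_isBase
      obtain ⟨e, heBI, heins⟩ := hI.indep.exists_insert_of_not_isBase hInb hB
      have hns : v e ∉ Submodule.span (ZMod 2) (v '' I) :=
        ((linearIndepOn_insert heBI.2).mp heins).2
      obtain ⟨φ, hφe, hφ⟩ := Submodule.exists_le_ker_of_notMem hns
      -- φ vanishes on v i for i ∉ K
      have hvan : ∀ i, i ∉ K → φ (v i) = 0 := by
        intro i hi
        have hmem : v i ∈ Submodule.span (ZMod 2) (v '' I) := by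
          by_cases hiI : i ∈ I
          · exact Submodule.subset_span ⟨i, hiI, rfl⟩
          · by_contra hn
            have hind : (vecMatroid v).Indep (insert i I) :=
              (linearIndepOn_insert hiI).mpr ⟨hI.indep, hn⟩
            exact hiI (hI.mem_of_insert_indep ⟨trivial, hi⟩ hind)
        exact hφ hmem
      -- the dual word
      have hsum : ∑ i, φ (v i) • g i = 0 := by
        have key : ∀ u : Fin k → ZMod 2, u ⬝ᵥ (∑ i, φ (v i) • g i) = 0 := by
          intro u
          have h1 : ∑ i, (word g u) i • v i = 0 := (hv _).mpr ⟨u, rfl⟩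
          have h2 := congrArg φ h1
          rw [map_sum, map_zero] at h2
          simp only [map_smul, smul_eq_mul] at h2
          rw [dotProduct_sum, ← h2]
          apply Finset.sum_congr rfl
          intro i _
          rw [dotProduct_smul, smul_eq_mul, mul_comm]
          rfl
        ext j
        have := key (Pi.single j 1)
        simpa using this
      let S : Finset (Fin n) := Finset.univ.filter fun i => φ (v i) = 1
      have hSsub : (S : Set (Fin n)) ⊆ K := by
        intro i hi
        by_contra hiK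
        have h0 := hvan i hiK
        simp only [S, Finset.coe_filter, Finset.mem_univ, true_and, Set.mem_ofPred_eq] at hi
        rw [h0] at hi
        exact zero_ne_one hi
      have hSne : S.Nonempty := by
        refine ⟨e, ?_⟩
        simp only [S, Finset.mem_filter, Finset.mem_univ, true_and]
        rcases zmod2_cases (φ (v e)) with h | h
        · exact absurd h hφe
        · exact h
      have hScard : S.card ≤ K.ncard := by
        rw [← Set.ncard_coe_finset]
        exact Set.ncard_le_ncard hSsub (Set.toFinite _)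
      apply hdual S hSne (by omega)
      rw [← hsum, Finset.sum_filter]
      apply Finset.sum_congr rfl
      intro i _
      rcases zmod2_cases (φ (v i)) with h | h <;> simp [h])
  obtain ⟨u, hu, rfl⟩ := hcirc' D hD
  -- the complement of D has two elements
  obtain ⟨a, b, ha, hb, hab, hau, hbu, habu⟩ := exists_third hk3 u
  have hself' : ∀ x y : Fin k → ZMod 2, x ≠ y → x + y ≠ 0 := by
    intro x y hxy h
    apply hxy
    calc x = x + (y + y) := by rw [hself]; simp
      _ = (x + y) + y := by rw [add_assoc]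
      _ = y := by rw [h]; simp
  have hpick : ∀ c : Fin k → ZMod 2, c ≠ 0 → c ≠ u → ∃ i, c ⬝ᵥ g i = 1 ∧ u ⬝ᵥ g i = 0 := by
    intro c hc hcu
    obtain ⟨i, hi, hi'⟩ := hint c (c + u) hc (hself' c u hcu)
    refine ⟨i, hi, ?_⟩
    rw [add_dotProduct, hi] at hi'
    rcases zmod2_cases (u ⬝ᵥ g i) with h | h
    · exact h
    · rw [h] at hi'
      exact absurd hi' (by decide)
  obtain ⟨i, hia, hiu⟩ := hpick a ha hau
  have htwo : ∃ j, j ≠ i ∧ u ⬝ᵥ g j = 0 := by
    by_contra hcon
    push Not at hcon
    obtain ⟨i1, h1, h1u⟩ := hpick b hb hbu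
    obtain ⟨i2, h2, h2u⟩ := hpick (a + b) hab habu
    have e1 : i1 = i := by
      by_contra hne; exact hcon i1 hne h1u
    have e2 : i2 = i := by
      by_contra hne; exact hcon i2 hne h2u
    subst e1
    rw [e2, add_dotProduct, hia, h1] at h2
    exact absurd h2 (by decide)
  obtain ⟨j, hji, hju⟩ := htwo
  obtain ⟨C, hC, -, -⟩ := hconn i (by
      simp [Matroid.restrict_ground_eq, vecMatroid_E, hiu]) j (by
      simp [Matroid.restrict_ground_eq, vecMatroid_E, hju]) hji.symm
  have hCsub : C ⊆ (vecMatroid v).E \ {i | u ⬝ᵥ g i = 1} := hC.subset_ground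
  have hCdep : ¬ (vecMatroid v).Indep C := by
    intro h
    exact hC.not_indep (Matroid.restrict_indep_iff.mpr ⟨h, hCsub⟩)
  obtain ⟨u', hu', hu'C⟩ := (hdep _).mp hCdep
  obtain ⟨l, hl, hl'⟩ := hint u u' hu hu'
  exact (hCsub (hu'C l hl')).2 hl

end Pool.Agent.S09686
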