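import Pool.Statements.S10962
import Pool.Agent.LibPE82.Final64

set_option autoImplicit false
open Pool Pool.MP_b63a31_co

namespace Pool.Agent.S10962

/-- The negation of the preceding statement: For every c there is k such that every finite graph whose r-shallow minors all have at most c(r+1)^c times as many edges as vertices admits a k-colouring in which no path has its first half coloured identically to its second half. -/
theorem result :
    ¬ (∀ c : ℕ, ∃ k : ℕ, ∀ (V : Type) [Fintype V] (G : SimpleGraph V),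
    (∀ (r n : ℕ) (H : SimpleGraph (Fin n)) (B : Fin n → Set V) (x : Fin n → V),
      (∀ i j, i ≠ j → Disjoint (B i) (B j)) →
      (∀ i, x i ∈ B i ∧ ∀ y ∈ B i, ∃ p : G.Walk (x i) y,
        p.length ≤ r ∧ ∀ z ∈ p.support, z ∈ B i) →
      (∀ i j, H.Adj i j → ∃ a ∈ B i, ∃ b ∈ B j, G.Adj a b) →
      H.edgeSet.ncard ≤ c * (r + 1) ^ c * n) →
    ∃ f : V → Fin k, ∀ (u v : V) (p : G.Walk u v), p.IsPath →
      ∀ t : ℕ, p.support.length = 2 * t →
        (p.support.take t).map f ≠ (p.support.drop t).map f) := by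
  intro h
  obtain ⟨k, hk⟩ := h 8
  obtain ⟨V, hV, G, hexp, hno⟩ := LibPE82.linear_unbounded k
  apply hno
  apply hk V G
  intro r n H B x hB hr hH
  refine (hexp r n H B x hB hr hH).trans (Nat.mul_le_mul_right _ ?_)
  calc 8 * r + 6 ≤ 8 * (r + 1) := by omega
    _ = 8 * (r + 1) ^ 1 := by rw [pow_one]
    _ ≤ 8 * (r + 1) ^ 8 :=
        Nat.mul_le_mul_left _ (Nat.pow_le_pow_right (Nat.succ_pos r) (by norm_num))

end Pool.Agent.S10962
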