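import Pool.Statements.S11210

set_option autoImplicit false
open Pool Pool.MP_c0cbcd_co

namespace Pool.Agent.S11210

/-- Formal sums of the four games a = {0}, b = {0, a}, c = {a, a + b, a + b + b} and
d = {0, a + b + c}; the position (i, j, k, l) is the sum of i copies of a, j copies of b,
k copies of c and l copies of d. -/
structure Pos where
  i : ℕ
  j : ℕ
  k : ℕ
  l : ℕ

/-- Disjunctive sum. -/
def Pos.sum (G H : Pos) : Pos := ⟨G.i + H.i, G.j + H.j, G.k + H.k, G.l + H.l⟩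

lemma sum_mk (a b c d a' b' c' d' : ℕ) :
    Pos.sum ⟨a, b, c, d⟩ ⟨a', b', c', d'⟩ = ⟨a + a', b + b', c + c', d + d'⟩ := rfl

lemma sum_eq {a b c d a' b' c' d' x y z w : ℕ} (h1 : a + a' = x) (h2 : b + b' = y)
    (h3 : c + c' = z) (h4 : d + d' = w) :
    Pos.sum ⟨a, b, c, d⟩ ⟨a', b', c', d'⟩ = ⟨x, y, z, w⟩ := by
  rw [sum_mk, h1, h2, h3, h4]

/-- `Move K G` : `K` is an option of `G`. -/
inductive Move : Pos → Pos → Prop
  | a0 (i j k l : ℕ) : Move ⟨i, j, k, l⟩ ⟨i + 1, j, k, l⟩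
  | b0 (i j k l : ℕ) : Move ⟨i, j, k, l⟩ ⟨i, j + 1, k, l⟩
  | b1 (i j k l : ℕ) : Move ⟨i + 1, j, k, l⟩ ⟨i, j + 1, k, l⟩
  | c1 (i j k l : ℕ) : Move ⟨i + 1, j, k, l⟩ ⟨i, j, k + 1, l⟩
  | c2 (i j k l : ℕ) : Move ⟨i + 1, j + 1, k, l⟩ ⟨i, j, k + 1, l⟩
  | c3 (i j k l : ℕ) : Move ⟨i + 1, j + 2, k, l⟩ ⟨i, j, k + 1, l⟩
  | d0 (i j k l : ℕ) : Move ⟨i, j, k, l⟩ ⟨i, j, k, l + 1⟩
  | d1 (i j k l : ℕ) : Move ⟨i + 1, j + 1, k + 1, l⟩ ⟨i, j, k, l + 1⟩

/-- The positions in which the player who just moved wins under the misere rule. -/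
def IsP (G : Pos) : Prop :=
  (2 ≤ G.k ∧ G.i % 2 = 0 ∧ (G.j + G.l) % 2 = 0) ∨
  (G.k = 1 ∧ G.i % 2 = 0 ∧ (G.j + G.l) % 2 = 1) ∨
  (G.k = 0 ∧ G.l % 2 = 0 ∧ G.j = 0 ∧ G.i % 2 = 1) ∨
  (G.k = 0 ∧ G.l % 2 = 0 ∧ 1 ≤ G.j ∧ G.j % 2 = 0 ∧ G.i % 2 = 0) ∨
  (G.k = 0 ∧ G.l % 2 = 1 ∧ G.j = 0 ∧ G.i % 2 = 0) ∨
  (G.k = 0 ∧ G.l % 2 = 1 ∧ 3 ≤ G.j ∧ G.j % 2 = 1 ∧ G.i % 2 = 0)

lemma isP_iff (i j k l : ℕ) : IsP ⟨i, j, k, l⟩ ↔
    ((2 ≤ k ∧ i % 2 = 0 ∧ (j + l) % 2 = 0) ∨
    (k = 1 ∧ i % 2 = 0 ∧ (j + l) % 2 = 1) ∨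
    (k = 0 ∧ l % 2 = 0 ∧ j = 0 ∧ i % 2 = 1) ∨
    (k = 0 ∧ l % 2 = 0 ∧ 1 ≤ j ∧ j % 2 = 0 ∧ i % 2 = 0) ∨
    (k = 0 ∧ l % 2 = 1 ∧ j = 0 ∧ i % 2 = 0) ∨
    (k = 0 ∧ l % 2 = 1 ∧ 3 ≤ j ∧ j % 2 = 1 ∧ i % 2 = 0)) := Iff.rfl

/-- The normal-play Grundy value. -/
def gr (G : Pos) : ℕ := (G.i + G.l) % 2 + 2 * (G.j % 2)

lemma move_finite (G : Pos) : Set.Finite {K : Pos | Move K G} := by
  obtain ⟨gi, gj, gk, gl⟩ := G
  have hsub : {K : Pos | Move K ⟨gi, gj, gk, gl⟩} ⊆
      {⟨gi - 1, gj, gk, gl⟩, ⟨gi, gj - 1, gk, gl⟩, ⟨gi + 1, gj - 1, gk, gl⟩,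
        ⟨gi + 1, gj, gk - 1, gl⟩, ⟨gi + 1, gj + 1, gk - 1, gl⟩, ⟨gi + 1, gj + 2, gk - 1, gl⟩,
        ⟨gi, gj, gk, gl - 1⟩, ⟨gi + 1, gj + 1, gk + 1, gl - 1⟩} := by
    intro K hK
    have hK' : Move K ⟨gi, gj, gk, gl⟩ := hK
    cases hK' <;> simp
  exact Set.Finite.subset (Set.toFinite _) hsub

lemma move_wf : WellFounded Move := by
  apply Subrelation.wf (r := InvImage (· < ·) (fun G : Pos => G.i + 2 * G.j + 6 * G.k + 10 * G.l))
  · intro K G h
    cases h <;> simp only [InvImage] <;> omega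
  · exact InvImage.wf _ Nat.lt_wfRel.wf

lemma mk_eq {a b c d a' b' c' d' : ℕ} (h1 : a = a') (h2 : b = b') (h3 : c = c') (h4 : d = d') :
    (⟨a, b, c, d⟩ : Pos) = ⟨a', b', c', d'⟩ := by
  rw [h1, h2, h3, h4]

lemma move_of_eq {K G K' G' : Pos} (h : Move K' G') (h1 : K = K') (h2 : G = G') : Move K G := by
  rw [h1, h2]; exact h

lemma move_sum_left (G H G' : Pos) (h : Move G' G) : Move (G'.sum H) (G.sum H) := by
  obtain ⟨hi, hj, hk, hl⟩ := H
  cases h with
  | a0 i j k l =>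
    exact move_of_eq (Move.a0 (i + hi) (j + hj) (k + hk) (l + hl))
      (sum_eq (by omega) (by omega) (by omega) (by omega))
      (sum_eq (by omega) (by omega) (by omega) (by omega))
  | b0 i j k l =>
    exact move_of_eq (Move.b0 (i + hi) (j + hj) (k + hk) (l + hl))
      (sum_eq (by omega) (by omega) (by omega) (by omega))
      (sum_eq (by omega) (by omega) (by omega) (by omega))
  | b1 i j k l =>
    exact move_of_eq (Move.b1 (i + hi) (j + hj) (k + hk) (l + hl))
      (sum_eq (by omega) (by omega) (by omega) (by omega))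
      (sum_eq (by omega) (by omega) (by omega) (by omega))
  | c1 i j k l =>
    exact move_of_eq (Move.c1 (i + hi) (j + hj) (k + hk) (l + hl))
      (sum_eq (by omega) (by omega) (by omega) (by omega))
      (sum_eq (by omega) (by omega) (by omega) (by omega))
  | c2 i j k l =>
    exact move_of_eq (Move.c2 (i + hi) (j + hj) (k + hk) (l + hl))
      (sum_eq (by omega) (by omega) (by omega) (by omega))
      (sum_eq (by omega) (by omega) (by omega) (by omega))
  | c3 i j k l =>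
    exact move_of_eq (Move.c3 (i + hi) (j + hj) (k + hk) (l + hl))
      (sum_eq (by omega) (by omega) (by omega) (by omega))
      (sum_eq (by omega) (by omega) (by omega) (by omega))
  | d0 i j k l =>
    exact move_of_eq (Move.d0 (i + hi) (j + hj) (k + hk) (l + hl))
      (sum_eq (by omega) (by omega) (by omega) (by omega))
      (sum_eq (by omega) (by omega) (by omega) (by omega))
  | d1 i j k l =>
    exact move_of_eq (Move.d1 (i + hi) (j + hj) (k + hk) (l + hl))
      (sum_eq (by omega) (by omega) (by omega) (by omega))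
      (sum_eq (by omega) (by omega) (by omega) (by omega))

lemma sum_comm (G H : Pos) : G.sum H = H.sum G := by
  obtain ⟨gi, gj, gk, gl⟩ := G
  obtain ⟨hi, hj, hk, hl⟩ := H
  rw [sum_mk, sum_mk]
  exact mk_eq (by omega) (by omega) (by omega) (by omega)

lemma move_sum_right (G H H' : Pos) (h : Move H' H) : Move (G.sum H') (G.sum H) := by
  rw [sum_comm G H', sum_comm G H]
  exact move_sum_left H G H' h

lemma move_sum_split (G H K M : Pos) (h : Move K M) (hM : M = G.sum H) :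
    (∃ G' : Pos, Move G' G ∧ K = G'.sum H) ∨ (∃ H' : Pos, Move H' H ∧ K = G.sum H') := by
  obtain ⟨gi, gj, gk, gl⟩ := G
  obtain ⟨hi, hj, hk, hl⟩ := H
  cases h with
  | a0 i j k l =>
    simp only [Pos.sum, Pos.mk.injEq] at hM
    cases gi with
    | zero =>
      cases hi with
      | zero => omega
      | succ n => exact Or.inr ⟨_, Move.a0 n hj hk hl,
        (sum_eq (by omega) (by omega) (by omega) (by omega)).symm⟩
    | succ n => exact Or.inl ⟨_, Move.a0 n gj gk gl,
        (sum_eq (by omega) (by omega) (by omega) (by omega)).symm⟩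
  | b0 i j k l =>
    simp only [Pos.sum, Pos.mk.injEq] at hM
    cases gj with
    | zero =>
      cases hj with
      | zero => omega
      | succ n => exact Or.inr ⟨_, Move.b0 hi n hk hl,
        (sum_eq (by omega) (by omega) (by omega) (by omega)).symm⟩
    | succ n => exact Or.inl ⟨_, Move.b0 gi n gk gl,
        (sum_eq (by omega) (by omega) (by omega) (by omega)).symm⟩
  | b1 i j k l =>
    simp only [Pos.sum, Pos.mk.injEq] at hM
    cases gj with
    | zero =>
      cases hj with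
      | zero => omega
      | succ n => exact Or.inr ⟨_, Move.b1 hi n hk hl,
        (sum_eq (by omega) (by omega) (by omega) (by omega)).symm⟩
    | succ n => exact Or.inl ⟨_, Move.b1 gi n gk gl,
        (sum_eq (by omega) (by omega) (by omega) (by omega)).symm⟩
  | c1 i j k l =>
    simp only [Pos.sum, Pos.mk.injEq] at hM
    cases gk with
    | zero =>
      cases hk with
      | zero => omega
      | succ n => exact Or.inr ⟨_, Move.c1 hi hj n hl,
        (sum_eq (by omega) (by omega) (by omega) (by omega)).symm⟩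
    | succ n => exact Or.inl ⟨_, Move.c1 gi gj n gl,
        (sum_eq (by omega) (by omega) (by omega) (by omega)).symm⟩
  | c2 i j k l =>
    simp only [Pos.sum, Pos.mk.injEq] at hM
    cases gk with
    | zero =>
      cases hk with
      | zero => omega
      | succ n => exact Or.inr ⟨_, Move.c2 hi hj n hl,
        (sum_eq (by omega) (by omega) (by omega) (by omega)).symm⟩
    | succ n => exact Or.inl ⟨_, Move.c2 gi gj n gl,
        (sum_eq (by omega) (by omega) (by omega) (by omega)).symm⟩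
  | c3 i j k l =>
    simp only [Pos.sum, Pos.mk.injEq] at hM
    cases gk with
    | zero =>
      cases hk with
      | zero => omega
      | succ n => exact Or.inr ⟨_, Move.c3 hi hj n hl,
        (sum_eq (by omega) (by omega) (by omega) (by omega)).symm⟩
    | succ n => exact Or.inl ⟨_, Move.c3 gi gj n gl,
        (sum_eq (by omega) (by omega) (by omega) (by omega)).symm⟩
  | d0 i j k l =>
    simp only [Pos.sum, Pos.mk.injEq] at hM
    cases gl with
    | zero =>
      cases hl with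
      | zero => omega
      | succ n => exact Or.inr ⟨_, Move.d0 hi hj hk n,
        (sum_eq (by omega) (by omega) (by omega) (by omega)).symm⟩
    | succ n => exact Or.inl ⟨_, Move.d0 gi gj gk n,
        (sum_eq (by omega) (by omega) (by omega) (by omega)).symm⟩
  | d1 i j k l =>
    simp only [Pos.sum, Pos.mk.injEq] at hM
    cases gl with
    | zero =>
      cases hl with
      | zero => omega
      | succ n => exact Or.inr ⟨_, Move.d1 hi hj hk n,
        (sum_eq (by omega) (by omega) (by omega) (by omega)).symm⟩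
    | succ n => exact Or.inl ⟨_, Move.d1 gi gj gk n,
        (sum_eq (by omega) (by omega) (by omega) (by omega)).symm⟩

lemma move_sum (G H K : Pos) : Move K (G.sum H) ↔
    ((∃ G' : Pos, Move G' G ∧ K = G'.sum H) ∨ (∃ H' : Pos, Move H' H ∧ K = G.sum H')) := by
  constructor
  · intro h
    exact move_sum_split G H K _ h rfl
  · rintro (⟨G', h, rfl⟩ | ⟨H', h, rfl⟩)
    · exact move_sum_left G H G' h
    · exact move_sum_right G H H' h

/-- No option of a P-position is a P-position. -/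
lemma isP_closed (G K : Pos) (h : Move K G) (hG : IsP G) : ¬ IsP K := by
  intro hK
  cases h <;> simp only [IsP] at hG hK <;>
  rcases hG with hG | hG | hG | hG | hG | hG <;>
  rcases hK with hK | hK | hK | hK | hK | hK <;>
  omega

/-- A P-position is not terminal. -/
lemma isP_nonterminal (G : Pos) (hG : IsP G) : ∃ K : Pos, Move K G := by
  obtain ⟨gi, gj, gk, gl⟩ := G
  simp only [IsP] at hG
  cases gi with
  | succ n => exact ⟨_, Move.a0 n gj gk gl⟩
  | zero =>
    cases gj with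
    | succ n => exact ⟨_, Move.b0 0 n gk gl⟩
    | zero =>
      cases gk with
      | succ n => exact ⟨_, Move.c1 0 0 n gl⟩
      | zero =>
        cases gl with
        | succ n => exact ⟨_, Move.d0 0 0 0 n⟩
        | zero => omega

lemma opt_a0 {i j k l : ℕ} (hi : 1 ≤ i) (h : IsP ⟨i - 1, j, k, l⟩) :
    ∃ K : Pos, Move K ⟨i, j, k, l⟩ ∧ IsP K := by
  obtain ⟨n, rfl⟩ : ∃ n, i = n + 1 := ⟨i - 1, by omega⟩
  exact ⟨_, Move.a0 n j k l, h⟩

lemma opt_b0 {i j k l : ℕ} (hi : 1 ≤ j) (h : IsP ⟨i, j - 1, k, l⟩) :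
    ∃ K : Pos, Move K ⟨i, j, k, l⟩ ∧ IsP K := by
  obtain ⟨n, rfl⟩ : ∃ n, j = n + 1 := ⟨j - 1, by omega⟩
  exact ⟨_, Move.b0 i n k l, h⟩

lemma opt_b1 {i j k l : ℕ} (hi : 1 ≤ j) (h : IsP ⟨i + 1, j - 1, k, l⟩) :
    ∃ K : Pos, Move K ⟨i, j, k, l⟩ ∧ IsP K := by
  obtain ⟨n, rfl⟩ : ∃ n, j = n + 1 := ⟨j - 1, by omega⟩
  exact ⟨_, Move.b1 i n k l, h⟩

lemma opt_c1 {i j k l : ℕ} (hi : 1 ≤ k) (h : IsP ⟨i + 1, j, k - 1, l⟩) :
    ∃ K : Pos, Move K ⟨i, j, k, l⟩ ∧ IsP K := by
  obtain ⟨n, rfl⟩ : ∃ n, k = n + 1 := ⟨k - 1, by omega⟩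
  exact ⟨_, Move.c1 i j n l, h⟩

lemma opt_c2 {i j k l : ℕ} (hi : 1 ≤ k) (h : IsP ⟨i + 1, j + 1, k - 1, l⟩) :
    ∃ K : Pos, Move K ⟨i, j, k, l⟩ ∧ IsP K := by
  obtain ⟨n, rfl⟩ : ∃ n, k = n + 1 := ⟨k - 1, by omega⟩
  exact ⟨_, Move.c2 i j n l, h⟩

lemma opt_c3 {i j k l : ℕ} (hi : 1 ≤ k) (h : IsP ⟨i + 1, j + 2, k - 1, l⟩) :
    ∃ K : Pos, Move K ⟨i, j, k, l⟩ ∧ IsP K := by
  obtain ⟨n, rfl⟩ : ∃ n, k = n + 1 := ⟨k - 1, by omega⟩
  exact ⟨_, Move.c3 i j n l, h⟩

lemma opt_d0 {i j k l : ℕ} (hi : 1 ≤ l) (h : IsP ⟨i, j, k, l - 1⟩) :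
    ∃ K : Pos, Move K ⟨i, j, k, l⟩ ∧ IsP K := by
  obtain ⟨n, rfl⟩ : ∃ n, l = n + 1 := ⟨l - 1, by omega⟩
  exact ⟨_, Move.d0 i j k n, h⟩

lemma opt_d1 {i j k l : ℕ} (hi : 1 ≤ l) (h : IsP ⟨i + 1, j + 1, k + 1, l - 1⟩) :
    ∃ K : Pos, Move K ⟨i, j, k, l⟩ ∧ IsP K := by
  obtain ⟨n, rfl⟩ : ∃ n, l = n + 1 := ⟨l - 1, by omega⟩
  exact ⟨_, Move.d1 i j k n, h⟩

/-- A nonterminal position that is not a P-position has a P-position as an option. -/
lemma isP_reach (G : Pos) (hG : ¬ IsP G) (hne : ∃ K : Pos, Move K G) :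
    ∃ K : Pos, Move K G ∧ IsP K := by
  obtain ⟨i, j, k, l⟩ := G
  have h0 : 1 ≤ i + j + k + l := by
    obtain ⟨K, hK⟩ := hne
    generalize hM : (⟨i, j, k, l⟩ : Pos) = M at hK
    cases hK <;> simp only [Pos.mk.injEq] at hM <;> omega
  rcases Nat.lt_or_ge k 2 with hk | hk
  · rcases Nat.eq_zero_or_pos k with hk0 | hk1
    · subst hk0
      rcases Nat.mod_two_eq_zero_or_one l with hl | hl <;>
      rcases Nat.mod_two_eq_zero_or_one i with hi | hi <;>
      rcases Nat.mod_two_eq_zero_or_one j with hj | hj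
      · -- l even, i even, j even: N means j = 0
        have hj0 : j = 0 := by
          by_contra hne0
          exact hG (by rw [isP_iff]; omega)
        subst hj0
        rcases Nat.eq_zero_or_pos i with hi0 | hi1
        · exact opt_d0 (by omega) (by rw [isP_iff]; omega)
        · exact opt_a0 (by omega) (by rw [isP_iff]; omega)
      · rcases Nat.lt_or_ge j 2 with hj2 | hj2
        · exact opt_b1 (by omega) (by rw [isP_iff]; omega)
        · exact opt_b0 (by omega) (by rw [isP_iff]; omega)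
      · have hj0 : j ≠ 0 := by
          intro hj0
          exact hG (by rw [isP_iff]; omega)
        exact opt_a0 (by omega) (by rw [isP_iff]; omega)
      · rcases Nat.lt_or_ge j 2 with hj2 | hj2
        · exact opt_b0 (by omega) (by rw [isP_iff]; omega)
        · exact opt_b1 (by omega) (by rw [isP_iff]; omega)
      · have hj0 : j ≠ 0 := by
          intro hj0
          exact hG (by rw [isP_iff]; omega)
        exact opt_d0 (by omega) (by rw [isP_iff]; omega)
      · have hj0 : j = 1 := by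
          by_contra hne0
          exact hG (by rw [isP_iff]; omega)
        exact opt_b0 (by omega) (by rw [isP_iff]; omega)
      · rcases Nat.lt_or_ge j 1 with hj1 | hj1
        · exact opt_a0 (by omega) (by rw [isP_iff]; omega)
        · rcases Nat.lt_or_ge j 3 with hj3 | hj3
          · exact opt_d1 (by omega) (by rw [isP_iff]; omega)
          · exact opt_b1 (by omega) (by rw [isP_iff]; omega)
      · rcases Nat.lt_or_ge j 3 with hj3 | hj3
        · exact opt_b1 (by omega) (by rw [isP_iff]; omega)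
        · exact opt_a0 (by omega) (by rw [isP_iff]; omega)
    · have hk1' : k = 1 := by omega
      subst hk1'
      rcases Nat.mod_two_eq_zero_or_one (j + l) with hl | hl <;>
      rcases Nat.mod_two_eq_zero_or_one i with hi | hi
      · rcases Nat.eq_zero_or_pos j with hj0 | hj1
        · rcases Nat.eq_zero_or_pos l with hl0 | hl1
          · exact opt_c1 (by omega) (by rw [isP_iff]; omega)
          · exact opt_d0 (by omega) (by rw [isP_iff]; omega)
        · exact opt_b0 (by omega) (by rw [isP_iff]; omega)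
      · rcases Nat.eq_zero_or_pos j with hj0 | hj1
        · rcases Nat.eq_zero_or_pos l with hl0 | hl1
          · exact opt_c3 (by omega) (by rw [isP_iff]; omega)
          · exact opt_d1 (by omega) (by rw [isP_iff]; omega)
        · exact opt_b1 (by omega) (by rw [isP_iff]; omega)
      · exact absurd (by rw [isP_iff]; omega) hG
      · exact opt_a0 (by omega) (by rw [isP_iff]; omega)
  · rcases Nat.mod_two_eq_zero_or_one (j + l) with hl | hl <;>
    rcases Nat.mod_two_eq_zero_or_one i with hi | hi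
    · exact absurd (by rw [isP_iff]; omega) hG
    · exact opt_a0 (by omega) (by rw [isP_iff]; omega)
    · rcases Nat.eq_zero_or_pos j with hj0 | hj1
      · exact opt_d0 (by omega) (by rw [isP_iff]; omega)
      · exact opt_b0 (by omega) (by rw [isP_iff]; omega)
    · rcases Nat.eq_zero_or_pos j with hj0 | hj1
      · rcases Nat.lt_or_ge k 3 with hk3 | hk3
        · exact opt_c1 (by omega) (by rw [isP_iff]; omega)
        · exact opt_c2 (by omega) (by rw [isP_iff]; omega)
      · exact opt_b1 (by omega) (by rw [isP_iff]; omega)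

lemma outcome (G : Pos) :
    (¬ IsP G) ↔ ((∀ K : Pos, ¬ Move K G) ∨ ∃ K : Pos, Move K G ∧ ¬ ¬ IsP K) := by
  constructor
  · intro hG
    by_cases hne : ∃ K : Pos, Move K G
    · obtain ⟨K, hK, hP⟩ := isP_reach G hG hne
      exact Or.inr ⟨K, hK, not_not_intro hP⟩
    · exact Or.inl (fun K hK => hne ⟨K, hK⟩)
  · rintro (h | ⟨K, hK, hP⟩) hG
    · obtain ⟨K, hK⟩ := isP_nonterminal G hG
      exact h K hK
    · exact hP (isP_closed G K hK hG)

lemma grundy (G : Pos) : (∀ K : Pos, Move K G → gr K ≠ gr G) ∧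
    (∀ m : ℕ, m < gr G → ∃ K : Pos, Move K G ∧ gr K = m) := by
  constructor
  · intro K hK
    cases hK <;> simp only [gr] <;> omega
  · intro m hm
    obtain ⟨i, j, k, l⟩ := G
    simp only [gr] at hm
    rcases Nat.mod_two_eq_zero_or_one j with hj | hj
    · -- value 1, m = 0
      rcases Nat.eq_zero_or_pos i with hi0 | hi1
      · obtain ⟨n, rfl⟩ : ∃ n, l = n + 1 := ⟨l - 1, by omega⟩
        exact ⟨_, Move.d0 i j k n, by simp only [gr]; omega⟩
      · obtain ⟨n, rfl⟩ : ∃ n, i = n + 1 := ⟨i - 1, by omega⟩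
        exact ⟨_, Move.a0 n j k l, by simp only [gr]; omega⟩
    · obtain ⟨n, rfl⟩ : ∃ n, j = n + 1 := ⟨j - 1, by omega⟩
      rcases Nat.mod_two_eq_zero_or_one (i + l) with hil | hil
      · -- value 2, m = 0 or 1
        rcases Nat.eq_zero_or_pos m with hm0 | hm1
        · exact ⟨_, Move.b0 i n k l, by simp only [gr]; omega⟩
        · exact ⟨_, Move.b1 i n k l, by simp only [gr]; omega⟩
      · -- value 3, m = 0, 1 or 2
        rcases Nat.eq_zero_or_pos m with hm0 | hm1
        · exact ⟨_, Move.b1 i n k l, by simp only [gr]; omega⟩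
        · rcases Nat.lt_or_ge m 2 with hm2 | hm2
          · exact ⟨_, Move.b0 i n k l, by simp only [gr]; omega⟩
          · rcases Nat.eq_zero_or_pos i with hi0 | hi1
            · obtain ⟨p, rfl⟩ : ∃ p, l = p + 1 := ⟨l - 1, by omega⟩
              exact ⟨_, Move.d0 i (n + 1) k p, by simp only [gr]; omega⟩
            · obtain ⟨p, rfl⟩ : ∃ p, i = p + 1 := ⟨i - 1, by omega⟩
              exact ⟨_, Move.a0 p (n + 1) k l, by simp only [gr]; omega⟩

lemma isP_shift (G : Pos) (h2 : 2 ≤ G.k) : IsP G ↔ (G.i % 2 = 0 ∧ (G.j + G.l) % 2 = 0) := by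
  constructor
  · intro h
    simp only [IsP] at h
    rcases h with h | h | h | h | h | h <;> omega
  · intro h
    exact Or.inl ⟨h2, h.1, h.2⟩

lemma indist (X : Pos) : (¬ IsP (Pos.sum ⟨0, 0, 2, 1⟩ X)) ↔ (¬ IsP (Pos.sum ⟨0, 1, 2, 0⟩ X)) := by
  rw [isP_shift _ (by simp only [Pos.sum]; omega), isP_shift _ (by simp only [Pos.sum]; omega)]
  simp only [Pos.sum]
  omega

/-- The negation of the preceding statement: For every closed set of finite impartial games (closed under options and sums), any two games in it that are misère-indistinguishable modulo the set (same misère outcome when added to every member) have the same normal-play Grundy value. -/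
theorem result :
    ¬ (∀ (A : Type) (add : A → A → A) (mv : A → A → Prop),
      (∀ G : A, Set.Finite {K : A | mv K G}) →
      WellFounded mv →
      (∀ G H K : A, mv K (add G H) ↔
          ((∃ G' : A, mv G' G ∧ K = add G' H) ∨ (∃ H' : A, mv H' H ∧ K = add G H'))) →
      ∀ (N : A → Prop),
        (∀ G : A, N G ↔ ((∀ K : A, ¬ mv K G) ∨ ∃ K : A, mv K G ∧ ¬ N K)) →
      ∀ (g : A → ℕ),
        (∀ G : A, (∀ K : A, mv K G → g K ≠ g G) ∧
          (∀ m : ℕ, m < g G → ∃ K : A, mv K G ∧ g K = m)) →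
      ∀ G H : A, (∀ X : A, (N (add G X) ↔ N (add H X))) → g G = g H) := by
  intro h
  have key : gr ⟨0, 0, 2, 1⟩ = gr ⟨0, 1, 2, 0⟩ :=
    h Pos Pos.sum Move move_finite move_wf move_sum (fun G => ¬ IsP G) outcome gr grundy
      ⟨0, 0, 2, 1⟩ ⟨0, 1, 2, 0⟩ indist
  simp only [gr] at key
  omega

end Pool.Agent.S11210
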