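import Pool.Statements.S11383
import Pool.Agent.LibKom92.M3

set_option autoImplicit false
open Pool Pool.MP_c81d26_co

namespace Pool.Agent.S11383

/-- There is a constant c > 0 such that for all n, d and all vectors v_1..v_n in R^d of Euclidean length at most 1, some signs ±1 make every coordinate of the signed sum at most c in absolute value. -/
theorem result :
    ∃ c : ℝ, 0 < c ∧
      ∀ (n d : ℕ) (v : Fin n → Fin d → ℝ),
        (∀ i, ∑ j, (v i j) ^ 2 ≤ 1) →
        ∃ ε : Fin n → ℝ, (∀ i, ε i = 1 ∨ ε i = -1) ∧
          ∀ j : Fin d, |∑ i, ε i * v i j| ≤ c :=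
  Kom92.komlos

end Pool.Agent.S11383
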