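import Pool.Statements.S11475

set_option autoImplicit false
set_option linter.unusedSectionVars false
open scoped Classical
open Pool Pool.MP_cc41ac_co

namespace Pool.Agent.S11475


section parent
variable {T : Type} [Fintype T]

/-- Choice of parents in a connected graph, with the corresponding bound on the total weight. -/
lemma exists_parent [DecidableEq T] (G : SimpleGraph T) (hG : G.Connected) (r : T) (ω : T → T → ℝ)
    (hsym : ∀ x y, ω x y = ω y x) (hnn : ∀ x y, 0 ≤ ω x y) :
    ∃ p : T → T, (∀ x, x ≠ r → G.dist r (p x) < G.dist r x) ∧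
      ∑ x ∈ Finset.univ.erase r, ω x (p x) ≤
        (∑ x : T, ∑ y : T, if G.Adj x y then ω x y else 0) / 2 := by
  have hex : ∀ x, x ≠ r → ∃ y, G.Adj x y ∧ G.dist r y < G.dist r x := by
    intro x hx
    obtain ⟨w, hw⟩ := (hG x r).exists_walk_length_eq_dist
    cases w with
    | nil => exact absurd rfl hx
    | @cons _ y _ h p' =>
      refine ⟨y, h, ?_⟩
      have h1 : G.dist y r ≤ p'.length := SimpleGraph.dist_le p'
      rw [SimpleGraph.Walk.length_cons] at hw
      rw [G.dist_comm (u := r) (v := y), G.dist_comm (u := r) (v := x)]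
      omega
  choose! p hp using hex
  refine ⟨p, fun x hx => (hp x hx).2, ?_⟩
  set W : T → T → ℝ := fun x y => if G.Adj x y then ω x y else 0 with hW
  have hWnn : ∀ x y, 0 ≤ W x y := by
    intro x y; simp only [hW]; split_ifs; exacts [hnn x y, le_rfl]
  have hWsym : ∀ x y, W x y = W y x := by
    intro x y; simp only [hW, G.adj_comm x y, hsym x y]
  have h1 : ∑ x ∈ Finset.univ.erase r, ω x (p x) ≤
      ∑ x : T, ∑ y : T, if G.dist r y < G.dist r x then W x y else 0 := by
    calc ∑ x ∈ Finset.univ.erase r, ω x (p x)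
        ≤ ∑ x ∈ Finset.univ.erase r, ∑ y : T, if G.dist r y < G.dist r x then W x y else 0 := by
          refine Finset.sum_le_sum fun x hx => ?_
          have hx' := Finset.ne_of_mem_erase hx
          have h2 := hp x hx'
          have h3 : ω x (p x) = if G.dist r (p x) < G.dist r x then W x (p x) else 0 := by
            rw [if_pos h2.2]; simp only [hW]; rw [if_pos h2.1]
          rw [h3]
          refine Finset.single_le_sum (f := fun y => if G.dist r y < G.dist r x then W x y else 0)
            (fun y _ => ?_) (Finset.mem_univ (p x))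
          split_ifs; exacts [hWnn x y, le_rfl]
      _ ≤ _ := by
          refine Finset.sum_le_sum_of_subset_of_nonneg (Finset.erase_subset _ _) fun x _ _ => ?_
          refine Finset.sum_nonneg fun y _ => ?_
          split_ifs; exacts [hWnn x y, le_rfl]
  have h2 : (∑ x : T, ∑ y : T, if G.dist r y < G.dist r x then W x y else 0) =
      ∑ x : T, ∑ y : T, if G.dist r x < G.dist r y then W x y else 0 := by
    rw [Finset.sum_comm]
    refine Finset.sum_congr rfl fun x _ => Finset.sum_congr rfl fun y _ => ?_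
    rw [hWsym]
  have h3 : (∑ x : T, ∑ y : T, if G.dist r y < G.dist r x then W x y else 0) +
      (∑ x : T, ∑ y : T, if G.dist r x < G.dist r y then W x y else 0) ≤
      ∑ x : T, ∑ y : T, W x y := by
    rw [← Finset.sum_add_distrib]
    refine Finset.sum_le_sum fun x _ => ?_
    rw [← Finset.sum_add_distrib]
    refine Finset.sum_le_sum fun y _ => ?_
    rcases lt_trichotomy (G.dist r x) (G.dist r y) with h | h | h
    · rw [if_neg (by omega), if_pos h]; linarith
    · rw [if_neg (by omega), if_neg (by omega)]; linarith [hWnn x y]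
    · rw [if_pos h, if_neg (by omega)]; linarith
  linarith

end parent

section induct
/-- abstract potential argument -/
lemma potential {T ι : Type} [Fintype T] [DecidableEq T] [DecidableEq ι] (rk : T → ℕ) (r : T) (p : T → T)
    (hp : ∀ x, x ≠ r → rk (p x) < rk x) (g : Finset ι → T → ℝ) (len : T → ℝ)
    (hstep : ∀ (x : T) (A B : Finset ι), x ≠ r → Disjoint A B →
      g (A ∪ B) (p x) ≤ g A x + len x + g B (p x)) :
    ∀ (m : ℕ) (W : Finset T) (S : T → Finset ι), W.card = m → r ∈ W →
      (∀ x ∈ W, x ≠ r → p x ∈ W) →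
      (∀ x ∈ W, ∀ y ∈ W, x ≠ y → Disjoint (S x) (S y)) →
      g (W.biUnion S) r ≤ ∑ x ∈ W, g (S x) x + ∑ x ∈ W.erase r, len x := by
  intro m
  induction m with
  | zero =>
    intro W S hc hr
    rw [Finset.card_eq_zero] at hc
    subst hc
    simp at hr
  | succ m ih =>
    intro W S hc hr hclosed hdisj
    by_cases hW : W = {r}
    · subst hW
      simp
    · -- choose an element of maximal rank
      have hne : (W.erase r).Nonempty := by
        rw [Finset.nonempty_iff_ne_empty]
        intro h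
        apply hW
        rw [Finset.erase_eq_empty_iff] at h
        rcases h with h | h
        · rw [h] at hr; simp at hr
        · exact h
      obtain ⟨x, hx, hmax⟩ := Finset.exists_max_image (W.erase r) rk hne
      have hxr : x ≠ r := Finset.ne_of_mem_erase hx
      have hxW : x ∈ W := Finset.mem_of_mem_erase hx
      have hpx : p x ∈ W := hclosed x hxW hxr
      have hpxx : p x ≠ x := by
        intro h
        have := hp x hxr
        rw [h] at this
        exact lt_irrefl _ this
      set W' := W.erase x with hW'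
      set S' := Function.update S (p x) (S x ∪ S (p x)) with hS'
      have hpxW' : p x ∈ W' := Finset.mem_erase.2 ⟨hpxx, hpx⟩
      have hrW' : r ∈ W' := Finset.mem_erase.2 ⟨hxr.symm, hr⟩
      have hc' : W'.card = m := by
        rw [hW', Finset.card_erase_of_mem hxW, hc]; rfl
      have hcl' : ∀ y ∈ W', y ≠ r → p y ∈ W' := by
        intro y hy hyr
        have hyW := Finset.mem_of_mem_erase hy
        refine Finset.mem_erase.2 ⟨?_, hclosed y hyW hyr⟩
        intro h
        have h1 := hp y hyr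
        have h2 := hmax y (Finset.mem_erase.2 ⟨hyr, hyW⟩)
        rw [h] at h1
        omega
      have hdis' : ∀ a ∈ W', ∀ b ∈ W', a ≠ b → Disjoint (S' a) (S' b) := by
        intro a ha b hb hab
        have haW := Finset.mem_of_mem_erase ha
        have hbW := Finset.mem_of_mem_erase hb
        have hax : a ≠ x := Finset.ne_of_mem_erase ha
        have hbx : b ≠ x := Finset.ne_of_mem_erase hb
        by_cases h1 : a = p x
        · subst h1
          rw [hS', Function.update_self, Function.update_of_ne (Ne.symm hab)]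
          rw [Finset.disjoint_union_left]
          exact ⟨hdisj x hxW b hbW (Ne.symm hbx), hdisj _ haW b hbW hab⟩
        · by_cases h2 : b = p x
          · subst h2
            rw [hS', Function.update_self, Function.update_of_ne h1]
            rw [Finset.disjoint_union_right]
            exact ⟨hdisj a haW x hxW hax, hdisj a haW _ hbW hab⟩
          · rw [hS', Function.update_of_ne h1, Function.update_of_ne h2]
            exact hdisj a haW b hbW hab
      have hIH := ih W' S' hc' hrW' hcl' hdis'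
      have hU : W'.biUnion S' = W.biUnion S := by
        ext i
        simp only [Finset.mem_biUnion]
        constructor
        · rintro ⟨a, ha, hi⟩
          by_cases h1 : a = p x
          · subst h1
            rw [hS', Function.update_self, Finset.mem_union] at hi
            rcases hi with hi | hi
            · exact ⟨x, hxW, hi⟩
            · exact ⟨_, hpx, hi⟩
          · rw [hS', Function.update_of_ne h1] at hi
            exact ⟨a, Finset.mem_of_mem_erase ha, hi⟩
        · rintro ⟨a, ha, hi⟩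
          by_cases h1 : a = x
          · subst h1
            refine ⟨p a, hpxW', ?_⟩
            rw [hS', Function.update_self, Finset.mem_union]
            exact Or.inl hi
          · by_cases h2 : a = p x
            · subst h2
              refine ⟨p x, hpxW', ?_⟩
              rw [hS', Function.update_self, Finset.mem_union]
              exact Or.inr hi
            · refine ⟨a, Finset.mem_erase.2 ⟨h1, ha⟩, ?_⟩
              rw [hS', Function.update_of_ne h2]
              exact hi
      rw [hU] at hIH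
      refine hIH.trans ?_
      -- compare sums
      have e1 : ∑ y ∈ W', g (S' y) y = g (S x ∪ S (p x)) (p x) + ∑ y ∈ W'.erase (p x), g (S y) y := by
        rw [← Finset.add_sum_erase _ _ hpxW', hS', Function.update_self]
        congr 1
        refine Finset.sum_congr rfl fun y hy => ?_
        rw [Function.update_of_ne (Finset.ne_of_mem_erase hy)]
      have e2 : ∑ y ∈ W, g (S y) y = g (S x) x + (g (S (p x)) (p x) +
          ∑ y ∈ W'.erase (p x), g (S y) y) := by
        rw [← Finset.add_sum_erase _ _ hxW, ← Finset.add_sum_erase _ _ hpxW']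
      have e3 : ∑ y ∈ W.erase r, len y = len x + ∑ y ∈ W'.erase r, len y := by
        rw [← Finset.add_sum_erase _ _ hx, hW', Finset.erase_right_comm]
      have h5 := hstep x (S x) (S (p x)) hxr (hdisj x hxW _ hpx (Ne.symm hpxx))
      rw [e1, e2, e3]
      linarith

end induct

section geom
variable {ι : Type} [Fintype ι] [DecidableEq ι]

/-- coordinate projection -/
noncomputable def P (S : Finset ι) (x : EuclideanSpace ℝ ι) : EuclideanSpace ℝ ι :=
  WithLp.toLp 2 (fun i => if i ∈ S then x i else 0)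

lemma P_apply (S : Finset ι) (x : EuclideanSpace ℝ ι) (i : ι) :
    P S x i = if i ∈ S then x i else 0 := rfl

lemma norm_P_sq (S : Finset ι) (x : EuclideanSpace ℝ ι) : ‖P S x‖ ^ 2 = ∑ i ∈ S, x i ^ 2 := by
  rw [EuclideanSpace.real_norm_sq_eq]
  simp only [P_apply]
  rw [← Finset.sum_filter_add_sum_filter_not Finset.univ (fun i => i ∈ S)]
  have h1 : ∑ i ∈ Finset.univ.filter (fun i => i ∈ S), (if i ∈ S then x i else 0) ^ 2 =
      ∑ i ∈ S, x i ^ 2 := by
    rw [Finset.filter_mem_eq_inter, Finset.univ_inter]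
    exact Finset.sum_congr rfl fun i hi => by rw [if_pos hi]
  have h2 : ∑ i ∈ Finset.univ.filter (fun i => i ∉ S), (if i ∈ S then x i else 0) ^ 2 = 0 := by
    refine Finset.sum_eq_zero fun i hi => ?_
    rw [if_neg (Finset.mem_filter.1 hi).2]; norm_num
  rw [h1, h2, add_zero]

lemma P_sub (S : Finset ι) (x y : EuclideanSpace ℝ ι) : P S (x - y) = P S x - P S y := by
  ext i
  simp only [P_apply, PiLp.sub_apply]
  split_ifs <;> simp

lemma norm_P_union {S₁ S₂ : Finset ι} (h : Disjoint S₁ S₂) (x : EuclideanSpace ℝ ι) :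
    ‖P (S₁ ∪ S₂) x‖ ^ 2 = ‖P S₁ x‖ ^ 2 + ‖P S₂ x‖ ^ 2 := by
  rw [norm_P_sq, norm_P_sq, norm_P_sq, Finset.sum_union h]

lemma norm_P_univ (x : EuclideanSpace ℝ ι) : ‖P Finset.univ x‖ ^ 2 = ‖x‖ ^ 2 := by
  rw [norm_P_sq, EuclideanSpace.real_norm_sq_eq]

noncomputable def cc : ℝ := Real.sqrt 3 / (2 * Real.sqrt 2 - 1)
noncomputable def ss : ℝ := (2 - Real.sqrt 2) / (2 * Real.sqrt 2 - 1)

lemma sqrt2_bds : 1.4 < Real.sqrt 2 ∧ Real.sqrt 2 < 1.5 := by
  constructor
  · rw [Real.lt_sqrt (by norm_num)]; norm_num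
  · rw [Real.sqrt_lt' (by norm_num)]; norm_num

lemma u_pos : 0 < 2 * Real.sqrt 2 - 1 := by linarith [sqrt2_bds.1]

lemma cc_pos : 0 < cc := div_pos (Real.sqrt_pos.2 (by norm_num)) u_pos

lemma ss_pos : 0 < ss := div_pos (by linarith [sqrt2_bds.2]) u_pos

lemma cc_sq_add_ss_sq : cc ^ 2 + ss ^ 2 = 1 := by
  have h2 : Real.sqrt 2 ^ 2 = 2 := Real.sq_sqrt (by norm_num)
  have h3 : Real.sqrt 3 ^ 2 = 3 := Real.sq_sqrt (by norm_num)
  rw [cc, ss, div_pow, div_pow, ← add_div, div_eq_one_iff_eq (pow_pos u_pos 2).ne']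
  nlinarith

/-- `c = c / √2 + s √3 / 2`, with `1/√2 = √2/2` -/
lemma cc_rel : cc = cc * (Real.sqrt 2 / 2) + ss * (Real.sqrt 3 / 2) := by
  have h2 : Real.sqrt 2 ^ 2 = 2 := Real.sq_sqrt (by norm_num)
  have hu := u_pos.ne'
  rw [cc, ss]
  field_simp
  ring

lemma le_sqrt_aux {p q a b : ℝ} (hpq : p ^ 2 + q ^ 2 = 1) :
    p * a + q * b ≤ Real.sqrt (a ^ 2 + b ^ 2) := by
  apply Real.le_sqrt_of_sq_le
  nlinarith [sq_nonneg (p * b - q * a)]

/-- the potential function -/
noncomputable def f (S : Finset ι) (x : EuclideanSpace ℝ ι) : ℝ :=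
  cc * (S.card - ‖P S x‖) + ss * ‖P Sᶜ x‖

lemma f_move (S : Finset ι) (x y : EuclideanSpace ℝ ι) : f S y ≤ f S x + dist x y := by
  have h1 : ‖P S x‖ - ‖P S y‖ ≤ ‖P S (x - y)‖ := by
    rw [P_sub]; exact norm_sub_norm_le _ _
  have h2 : ‖P Sᶜ y‖ - ‖P Sᶜ x‖ ≤ ‖P Sᶜ (x - y)‖ := by
    rw [P_sub, norm_sub_rev]; exact norm_sub_norm_le _ _
  have h3 : ‖P S (x - y)‖ ^ 2 + ‖P Sᶜ (x - y)‖ ^ 2 = ‖x - y‖ ^ 2 := by
    rw [← norm_P_union disjoint_compl_right, Finset.union_compl, norm_P_univ]
  have h4 : cc * ‖P S (x - y)‖ + ss * ‖P Sᶜ (x - y)‖ ≤ ‖x - y‖ := by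
    have := le_sqrt_aux (a := ‖P S (x - y)‖) (b := ‖P Sᶜ (x - y)‖) cc_sq_add_ss_sq
    rwa [h3, Real.sqrt_sq (norm_nonneg _)] at this
  rw [dist_eq_norm, f, f]
  nlinarith [mul_le_mul_of_nonneg_left h1 cc_pos.le, mul_le_mul_of_nonneg_left h2 ss_pos.le]

lemma f_merge {A B : Finset ι} (h : Disjoint A B) (x : EuclideanSpace ℝ ι) :
    f (A ∪ B) x ≤ f A x + f B x := by
  set a := ‖P A x‖ with ha
  set b := ‖P B x‖ with hb
  set t := ‖P (A ∪ B)ᶜ x‖ with ht
  have hAc : ‖P Aᶜ x‖ ^ 2 = b ^ 2 + t ^ 2 := by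
    have : Aᶜ = B ∪ (A ∪ B)ᶜ := by
      ext i
      simp only [Finset.mem_compl, Finset.mem_union, not_or]
      have h9 : i ∈ A → i ∉ B := fun h' => Finset.disjoint_left.1 h h'
      tauto
    rw [this, norm_P_union]
    rw [Finset.disjoint_left]; intro i hi
    simp [hi]
  have hBc : ‖P Bᶜ x‖ ^ 2 = a ^ 2 + t ^ 2 := by
    have : Bᶜ = A ∪ (A ∪ B)ᶜ := by
      ext i
      simp only [Finset.mem_compl, Finset.mem_union, not_or]
      have h9 : i ∈ A → i ∉ B := fun h' => Finset.disjoint_left.1 h h'
      tauto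
    rw [this, norm_P_union]
    rw [Finset.disjoint_left]; intro i hi
    simp [hi]
  have hU : ‖P (A ∪ B) x‖ ^ 2 = a ^ 2 + b ^ 2 := norm_P_union h x
  have h2 : Real.sqrt 2 ^ 2 = 2 := Real.sq_sqrt (by norm_num)
  have h3 : Real.sqrt 3 ^ 2 = 3 := Real.sq_sqrt (by norm_num)
  have e1 : (Real.sqrt 2 / 2) * a + (Real.sqrt 2 / 2) * b ≤ ‖P (A ∪ B) x‖ := by
    have := le_sqrt_aux (a := a) (b := b) (p := Real.sqrt 2 / 2) (q := Real.sqrt 2 / 2)
      (by nlinarith)
    rwa [← hU, Real.sqrt_sq (norm_nonneg _)] at this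
  have e2 : (Real.sqrt 3 / 2) * b + (1 / 2) * t ≤ ‖P Aᶜ x‖ := by
    have := le_sqrt_aux (a := b) (b := t) (p := Real.sqrt 3 / 2) (q := 1 / 2) (by nlinarith)
    rwa [← hAc, Real.sqrt_sq (norm_nonneg _)] at this
  have e3 : (Real.sqrt 3 / 2) * a + (1 / 2) * t ≤ ‖P Bᶜ x‖ := by
    have := le_sqrt_aux (a := a) (b := t) (p := Real.sqrt 3 / 2) (q := 1 / 2) (by nlinarith)
    rwa [← hBc, Real.sqrt_sq (norm_nonneg _)] at this
  have hcard : ((A ∪ B).card : ℝ) = A.card + B.card := by
    rw [Finset.card_union_of_disjoint h]; push_cast; ring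
  rw [f, f, f, hcard, ← ha, ← hb, ← ht]
  have g1 := mul_le_mul_of_nonneg_left e1 cc_pos.le
  have g2 := mul_le_mul_of_nonneg_left e2 ss_pos.le
  have g3 := mul_le_mul_of_nonneg_left e3 ss_pos.le
  have g4 : cc * a = (cc * (Real.sqrt 2 / 2) + ss * (Real.sqrt 3 / 2)) * a := by
    rw [← cc_rel]
  have g5 : cc * b = (cc * (Real.sqrt 2 / 2) + ss * (Real.sqrt 3 / 2)) * b := by
    rw [← cc_rel]
  nlinarith

noncomputable def g (S : Finset ι) (x : EuclideanSpace ℝ ι) : ℝ := if S = ∅ then 0 else f S x

lemma g_step {A B : Finset ι} (h : Disjoint A B) (x y : EuclideanSpace ℝ ι) :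
    g (A ∪ B) y ≤ g A x + dist x y + g B y := by
  by_cases hA : A = ∅
  · subst hA
    rw [Finset.empty_union, g, g, if_pos rfl]
    linarith [dist_nonneg (x := x) (y := y)]
  · by_cases hB : B = ∅
    · subst hB
      rw [Finset.union_empty, g, g, g, if_neg hA, if_neg hA, if_pos rfl]
      linarith [f_move A x y]
    · have hAB : A ∪ B ≠ ∅ := by
        intro h; rw [Finset.union_eq_empty] at h; exact hA h.1
      rw [g, g, g, if_neg hA, if_neg hB, if_neg hAB]
      linarith [f_move A x y, f_merge h y]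

end geom

section lower

/-- lower bound for every connected graph through the unit vectors -/
lemma lower (d : ℕ) (T : Finset (EuclideanSpace ℝ (Fin (d + 1))))
    (hT : (Finset.univ.image (fun i : Fin (d+1) => EuclideanSpace.single i (1:ℝ))) ⊆ T)
    (G : SimpleGraph T) (hG : G.Connected) :
    cc * d ≤ (∑ x : T, ∑ y : T,
      if G.Adj x y then
        dist (x : EuclideanSpace ℝ (Fin (d+1))) (y : EuclideanSpace ℝ (Fin (d+1)))
      else 0) / 2 := by
  have hmem : ∀ i : Fin (d + 1), EuclideanSpace.single i (1:ℝ) ∈ T := fun i =>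
    hT (Finset.mem_image_of_mem _ (Finset.mem_univ i))
  set r : T := ⟨EuclideanSpace.single 0 1, hmem 0⟩ with hr
  obtain ⟨p, hp, hle⟩ := exists_parent G hG r
    (fun x y => dist (x : EuclideanSpace ℝ (Fin (d+1))) (y : EuclideanSpace ℝ (Fin (d+1))))
    (fun x y => dist_comm _ _) (fun x y => dist_nonneg)
  refine le_trans ?_ hle
  have hinj : ∀ i j : Fin (d + 1), EuclideanSpace.single i (1:ℝ) = EuclideanSpace.single j (1:ℝ) →
      i = j := by
    intro i j hij
    by_contra hne
    have h1 : (EuclideanSpace.single i (1:ℝ) : EuclideanSpace ℝ (Fin (d+1))) i =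
      (EuclideanSpace.single j (1:ℝ) : EuclideanSpace ℝ (Fin (d+1))) i := by rw [hij]
    simp [hne] at h1
  set S : T → Finset (Fin (d + 1)) := fun x =>
    Finset.univ.filter (fun i => EuclideanSpace.single i (1:ℝ) =
      (x : EuclideanSpace ℝ (Fin (d+1)))) with hS
  have hpot := potential (fun x => G.dist r x) r p hp
    (fun (A : Finset (Fin (d + 1))) (x : T) => g A (x : EuclideanSpace ℝ (Fin (d+1))))
    (fun x => dist (x : EuclideanSpace ℝ (Fin (d+1))) (p x : EuclideanSpace ℝ (Fin (d+1))))
    (fun x A B _ hAB => g_step hAB _ _) _ Finset.univ S rfl (Finset.mem_univ _)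
    (fun _ _ _ => Finset.mem_univ _) (by
      intro x _ y _ hxy
      rw [Finset.disjoint_left]
      intro i hi hj
      simp only [hS, Finset.mem_filter, Finset.mem_univ, true_and] at hi hj
      exact hxy (Subtype.ext (hi.symm.trans hj)))
  have hU : Finset.univ.biUnion S = Finset.univ := by
    ext i
    simp only [Finset.mem_biUnion, Finset.mem_univ, true_and, iff_true]
    exact ⟨⟨_, hmem i⟩, by simp [hS]⟩
  have hzero : ∀ x : T, g (S x) (x : EuclideanSpace ℝ (Fin (d+1))) = 0 := by
    intro x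
    rw [g]
    split_ifs with h
    · rfl
    · obtain ⟨i, hi⟩ := Finset.nonempty_iff_ne_empty.2 h
      have hxi : EuclideanSpace.single i (1:ℝ) = (x : EuclideanSpace ℝ (Fin (d+1))) := by
        simpa [hS] using hi
      have hSx : S x = {i} := by
        ext j
        simp only [hS, Finset.mem_filter, Finset.mem_univ, true_and, Finset.mem_singleton]
        constructor
        · intro hj; exact hinj j i (hj.trans hxi.symm)
        · rintro rfl; exact hxi
      rw [hSx, ← hxi, f]
      have h1 : ‖P {i} (EuclideanSpace.single i (1:ℝ))‖ ^ 2 = 1 := by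
        rw [norm_P_sq]; simp
      have h2 : ‖P {i}ᶜ (EuclideanSpace.single i (1:ℝ))‖ ^ 2 = 0 := by
        rw [norm_P_sq]
        refine Finset.sum_eq_zero fun j hj => ?_
        have : j ≠ i := by simpa using hj
        simp [this]
      have h1' : ‖P {i} (EuclideanSpace.single i (1:ℝ))‖ = 1 := by
        have := norm_nonneg (P {i} (EuclideanSpace.single i (1:ℝ)))
        nlinarith
      have h2' : ‖P {i}ᶜ (EuclideanSpace.single i (1:ℝ))‖ = 0 := by
        exact pow_eq_zero_iff (two_ne_zero) |>.1 h2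
      rw [h1', h2']; simp
  rw [hU] at hpot
  simp only [hzero, Finset.sum_const_zero, zero_add] at hpot
  refine le_trans (le_of_eq ?_) hpot
  rw [g, if_neg (Finset.univ_nonempty.ne_empty), f]
  have h1 : ‖P Finset.univ (r : EuclideanSpace ℝ (Fin (d+1)))‖ = 1 := by
    have h2 := norm_P_univ (r : EuclideanSpace ℝ (Fin (d+1)))
    have h3 : ‖(r : EuclideanSpace ℝ (Fin (d+1)))‖ = 1 := by
      simp [hr]
    rw [h3] at h2
    have := norm_nonneg (P Finset.univ (r : EuclideanSpace ℝ (Fin (d+1))))
    nlinarith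
  have h2 : ‖P (Finset.univ)ᶜ (r : EuclideanSpace ℝ (Fin (d+1)))‖ = 0 := by
    have : ‖P (Finset.univ)ᶜ (r : EuclideanSpace ℝ (Fin (d+1)))‖ ^ 2 = 0 := by
      rw [norm_P_sq]; simp
    exact pow_eq_zero_iff (two_ne_zero) |>.1 this
  rw [h1, h2]
  simp

end lower

section net
variable {E : Type} [PseudoMetricSpace E]

/-- the symmetric relation spanned by a finite set of ordered pairs -/
def RF (F : Finset (E × E)) (x y : E) : Prop := (x, y) ∈ F ∨ (y, x) ∈ F

/-- a network of length at most `L` rooted at `r`, reaching all points of `Q` -/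
def Good (r : E) (Q : Finset E) (L : ℝ) : Prop :=
  ∃ F : Finset (E × E), ∑ e ∈ F, dist e.1 e.2 ≤ L ∧
    (∀ p ∈ Q, Relation.ReflTransGen (RF F) r p) ∧ (∀ e ∈ F, Relation.ReflTransGen (RF F) r e.1)

lemma RF_mono {F F' : Finset (E × E)} (h : F ⊆ F') {x y : E}
    (hxy : Relation.ReflTransGen (RF F) x y) : Relation.ReflTransGen (RF F') x y := by
  induction hxy with
  | refl => exact Relation.ReflTransGen.refl
  | tail _ hab ih =>
    refine ih.tail ?_
    rcases hab with h1 | h1
    · exact Or.inl (h h1)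
    · exact Or.inr (h h1)

lemma Good.mono {r : E} {Q : Finset E} {L L' : ℝ} (h : Good r Q L) (hL : L ≤ L') :
    Good r Q L' := by
  obtain ⟨F, h1, h2, h3⟩ := h
  exact ⟨F, h1.trans hL, h2, h3⟩

lemma good_empty (r : E) : Good r ∅ 0 :=
  ⟨∅, by simp, by simp, by simp⟩

lemma Good.union [DecidableEq E] {r : E} {Q Q' : Finset E} {L L' : ℝ} (h : Good r Q L)
    (h' : Good r Q' L') : Good r (Q ∪ Q') (L + L') := by
  obtain ⟨F, h1, h2, h3⟩ := h
  obtain ⟨F', h1', h2', h3'⟩ := h'
  refine ⟨F ∪ F', ?_, ?_, ?_⟩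
  · have h4 : ∑ e ∈ F ∪ F', dist e.1 e.2 + ∑ e ∈ F ∩ F', dist e.1 e.2 =
      ∑ e ∈ F, dist e.1 e.2 + ∑ e ∈ F', dist e.1 e.2 := Finset.sum_union_inter
    have h5 : 0 ≤ ∑ e ∈ F ∩ F', dist e.1 e.2 := Finset.sum_nonneg fun e _ => dist_nonneg
    linarith
  · intro p hp
    rw [Finset.mem_union] at hp
    rcases hp with hp | hp
    · exact RF_mono Finset.subset_union_left (h2 p hp)
    · exact RF_mono Finset.subset_union_right (h2' p hp)
  · intro p hp
    rw [Finset.mem_union] at hp
    rcases hp with hp | hp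
    · exact RF_mono Finset.subset_union_left (h3 p hp)
    · exact RF_mono Finset.subset_union_right (h3' p hp)

lemma Good.extend {z : E} {Q : Finset E} {L : ℝ} (h : Good z Q L) (r : E) :
    Good r Q (dist r z + L) := by
  obtain ⟨F, h1, h2, h3⟩ := h
  have hrz : Relation.ReflTransGen (RF (insert (r, z) F)) r z :=
    Relation.ReflTransGen.single (Or.inl (Finset.mem_insert_self _ _))
  refine ⟨insert (r, z) F, ?_, ?_, ?_⟩
  · by_cases hm : (r, z) ∈ F
    · rw [Finset.insert_eq_of_mem hm]
      linarith [dist_nonneg (x := r) (y := z)]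
    · rw [Finset.sum_insert hm]
      linarith
  · intro p hp
    exact hrz.trans (RF_mono (Finset.subset_insert _ _) (h2 p hp))
  · intro e he
    rw [Finset.mem_insert] at he
    rcases he with he | he
    · rw [he]
    · exact hrz.trans (RF_mono (Finset.subset_insert _ _) (h3 e he))

lemma good_single (r p : E) : Good r {p} (dist r p) := by
  have h : Good p {p} 0 := ⟨∅, by simp, by
    intro q hq; rw [Finset.mem_singleton] at hq; rw [hq], by simp⟩
  have := h.extend r
  rwa [add_zero] at this

lemma Good.exists_graph {r : E} {Q : Finset E} {L : ℝ} (h : Good r Q L) :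
    ∃ T : Finset E, Q ⊆ T ∧ ∃ G : SimpleGraph T, G.Connected ∧
      (∑ x : T, ∑ y : T, if G.Adj x y then dist (x : E) (y : E) else 0) / 2 ≤ L := by
  obtain ⟨F, h1, h2, h3⟩ := h
  set T : Finset E := insert r (Q ∪ (F.image Prod.fst ∪ F.image Prod.snd)) with hT
  have hrT : r ∈ T := Finset.mem_insert_self _ _
  have hF1 : ∀ e ∈ F, e.1 ∈ T := by
    intro e he
    refine Finset.mem_insert_of_mem (Finset.mem_union_right _ (Finset.mem_union_left _ ?_))
    exact Finset.mem_image_of_mem _ he
  have hF2 : ∀ e ∈ F, e.2 ∈ T := by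
    intro e he
    refine Finset.mem_insert_of_mem (Finset.mem_union_right _ (Finset.mem_union_right _ ?_))
    exact Finset.mem_image_of_mem _ he
  have hreach : ∀ x ∈ T, Relation.ReflTransGen (RF F) r x := by
    intro x hx
    rw [hT, Finset.mem_insert, Finset.mem_union, Finset.mem_union, Finset.mem_image,
      Finset.mem_image] at hx
    rcases hx with hx | hx | ⟨e, he, rfl⟩ | ⟨e, he, rfl⟩
    · rw [hx]
    · exact h2 x hx
    · exact h3 e he
    · exact (h3 e he).tail (Or.inl he)
  set G : SimpleGraph T := SimpleGraph.fromRel (fun x y : T => ((x : E), (y : E)) ∈ F) with hG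
  have hG1 : ∀ x : E, Relation.ReflTransGen (RF F) r x → ∀ hx : x ∈ T,
      G.Reachable ⟨r, hrT⟩ ⟨x, hx⟩ := by
    intro x hx
    induction hx with
    | refl => intro _; exact SimpleGraph.Reachable.refl _
    | @tail b c _ hbc ih =>
      intro hc
      have hb : b ∈ T := by
        rcases hbc with h | h
        · exact hF1 _ h
        · exact hF2 _ h
      refine (ih hb).trans ?_
      by_cases hbceq : b = c
      · subst hbceq; exact SimpleGraph.Reachable.refl _
      · refine SimpleGraph.Adj.reachable ?_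
        rw [hG, SimpleGraph.fromRel_adj]
        refine ⟨fun h => hbceq (congrArg Subtype.val h), hbc⟩
  refine ⟨T, ?_, G, ?_, ?_⟩
  · exact Finset.subset_union_left.trans (Finset.subset_insert _ _)
  · have : Nonempty T := ⟨⟨r, hrT⟩⟩
    rw [SimpleGraph.connected_iff]
    refine ⟨fun x y => ?_, inferInstance⟩
    exact (hG1 x (hreach x x.2) x.2).symm.trans (hG1 y (hreach y y.2) y.2)
  · set w : E → E → ℝ := fun x y => if (x, y) ∈ F then dist x y else 0 with hw
    have hwnn : ∀ x y, 0 ≤ w x y := by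
      intro x y; simp only [hw]; split_ifs; exacts [dist_nonneg, le_rfl]
    have e1 : (∑ x : T, ∑ y : T, @ite ℝ (G.Adj x y) (Classical.propDecidable _)
        (dist (x : E) (y : E)) 0) ≤
        ∑ x : T, ∑ y : T, w x y + ∑ x : T, ∑ y : T, w y x := by
      rw [← Finset.sum_add_distrib]
      refine Finset.sum_le_sum fun x _ => ?_
      rw [← Finset.sum_add_distrib]
      refine Finset.sum_le_sum fun y _ => ?_
      split_ifs with hadj
      · rw [hG, SimpleGraph.fromRel_adj] at hadj
        rcases hadj.2 with h | h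
        · have : w x y = dist (x : E) (y : E) := by simp only [hw]; rw [if_pos h]
          linarith [hwnn (y : E) x]
        · have : w y x = dist (x : E) (y : E) := by
            simp only [hw]; rw [if_pos h, dist_comm]
          linarith [hwnn (x : E) y]
      · linarith [hwnn (x : E) y, hwnn (y : E) x]
    have e2 : ∑ x : T, ∑ y : T, w y x = ∑ x : T, ∑ y : T, w x y := by
      rw [Finset.sum_comm]
    have e3 : ∑ x : T, ∑ y : T, w x y ≤ ∑ e ∈ F, dist e.1 e.2 := by
      have e4 : ∑ x : T, ∑ y : T, w x y = ∑ x ∈ T, ∑ y ∈ T, w x y := by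
        rw [← Finset.sum_coe_sort T (fun x => ∑ y ∈ T, w x y)]
        refine Finset.sum_congr rfl fun x _ => ?_
        rw [← Finset.sum_coe_sort T (fun y => w x y)]
      rw [e4, ← Finset.sum_product']
      have e5 : ∑ e ∈ T ×ˢ T, w e.1 e.2 = ∑ e ∈ (T ×ˢ T).filter (fun e => e ∈ F), dist e.1 e.2 := by
        rw [Finset.sum_filter]
      rw [e5]
      refine Finset.sum_le_sum_of_subset_of_nonneg ?_ (fun e _ _ => dist_nonneg)
      intro e he
      exact (Finset.mem_filter.1 he).2
    linarith

end net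

section cluster
variable {ι : Type} [Fintype ι] [DecidableEq ι]

noncomputable def sg (j : ℕ) : ℝ := (Real.sqrt 2 / 2) ^ j

lemma sg_pos (j : ℕ) : 0 < sg j := by
  rw [sg]
  have := sqrt2_bds.1
  exact pow_pos (by linarith) _

lemma sg_sq (j : ℕ) : sg j ^ 2 = 1 / 2 ^ j := by
  rw [sg, ← pow_mul, mul_comm, pow_mul]
  have h2 : Real.sqrt 2 ^ 2 = 2 := Real.sq_sqrt (by norm_num)
  have h3 : (Real.sqrt 2 / 2) ^ 2 = 1 / 2 := by rw [div_pow, h2]; norm_num
  rw [h3, div_pow, one_pow]

lemma sg_succ (j : ℕ) : sg (j + 1) = sg j * (Real.sqrt 2 / 2) := by rw [sg, sg, pow_succ]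

lemma sg_zero : sg 0 = 1 := by rw [sg, pow_zero]

/-- the centroid of the unit vectors indexed by `S` -/
noncomputable def cen (S : Finset ι) : EuclideanSpace ℝ ι :=
  WithLp.toLp 2 (fun i => if i ∈ S then (1 / (S.card : ℝ)) else 0)

lemma cen_apply (S : Finset ι) (i : ι) : cen S i = if i ∈ S then (1 / (S.card : ℝ)) else 0 := rfl

lemma norm_cen {j : ℕ} {S : Finset ι} (h : S.card = 2 ^ j) : ‖cen S‖ = sg j := by
  have h1 : ‖cen S‖ ^ 2 = sg j ^ 2 := by
    rw [EuclideanSpace.real_norm_sq_eq, sg_sq]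
    simp only [cen_apply]
    have : ∀ i, (if i ∈ S then (1 / (S.card : ℝ)) else 0) ^ 2 =
        if i ∈ S then (1 / (S.card : ℝ)) ^ 2 else 0 := by
      intro i; split_ifs <;> simp
    simp_rw [this]
    rw [Finset.sum_ite_mem, Finset.univ_inter, Finset.sum_const, h, nsmul_eq_mul]
    push_cast
    field_simp
  have h2 := norm_nonneg (cen S)
  have h3 := (sg_pos j).le
  exact (sq_eq_sq₀ h2 h3).1 h1

/-- distance from a symmetric point to the centroid of half of the block -/
lemma dist_half {j : ℕ} {S S' : Finset ι} (hS : S.card = 2 ^ (j + 1)) (hS' : S'.card = 2 ^ j)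
    (hsub : S' ⊆ S) (z : EuclideanSpace ℝ ι) (μ : ℝ) (hz : ∀ i ∈ S, z i = μ) :
    dist z (cen S') ^ 2 = dist z (cen S) ^ 2 + sg (j + 1) ^ 2 := by
  rw [dist_eq_norm, dist_eq_norm, EuclideanSpace.real_norm_sq_eq, EuclideanSpace.real_norm_sq_eq,
    sg_sq]
  simp only [PiLp.sub_apply]
  have h1 : ∀ i, (z i - cen S' i) ^ 2 = (z i - cen S i) ^ 2 +
      (if i ∈ S then (1 / 2 ^ (j+1) : ℝ) ^ 2 + 2 * (μ - 1 / 2 ^ (j + 1)) * (1 / 2 ^ (j + 1)) else 0)
      - (if i ∈ S' then 2 * (μ - 1 / 2 ^ (j + 1)) * (1 / 2 ^ j) else 0) := by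
    intro i
    rw [cen_apply, cen_apply, hS, hS']
    push_cast
    by_cases hi : i ∈ S
    · rw [hz i hi, if_pos hi, if_pos hi]
      by_cases hi' : i ∈ S'
      · rw [if_pos hi', if_pos hi', pow_succ]
        field_simp
        ring
      · rw [if_neg hi', if_neg hi']
        field_simp
        ring
    · have hi' : i ∉ S' := fun h => hi (hsub h)
      rw [if_neg hi, if_neg hi, if_neg hi', if_neg hi']
      ring
  simp_rw [h1]
  rw [Finset.sum_sub_distrib, Finset.sum_add_distrib, Finset.sum_ite_mem, Finset.sum_ite_mem,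
    Finset.univ_inter, Finset.univ_inter, Finset.sum_const, Finset.sum_const, hS, hS',
    nsmul_eq_mul, nsmul_eq_mul]
  push_cast
  rw [pow_succ]
  field_simp
  ring

lemma cluster (j : ℕ) : ∀ (S : Finset ι) (y : EuclideanSpace ℝ ι) (μ : ℝ), S.card = 2 ^ j →
    (∀ i ∈ S, y i = μ) → sg j / Real.sqrt 3 ≤ dist y (cen S) →
    Good y (S.image (fun i => EuclideanSpace.single i (1 : ℝ)))
      (dist y (cen S) + cc * (2 ^ j - sg j)) := by
  induction j with
  | zero =>
    intro S y μ hS _ _
    rw [pow_zero, Finset.card_eq_one] at hS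
    obtain ⟨i, rfl⟩ := hS
    have h1 : cen {i} = EuclideanSpace.single i (1 : ℝ) := by
      ext k
      rw [cen_apply]
      by_cases hk : k = i
      · subst hk; simp
      · simp [hk]
    rw [h1, sg_zero, Finset.image_singleton]
    have := good_single y (EuclideanSpace.single i (1 : ℝ))
    simpa using this
  | succ j ih =>
    intro S y μ hS hy hd
    set l := dist y (cen S) with hl
    set t := sg (j + 1) / Real.sqrt 3 with ht
    have h3 : 0 < Real.sqrt 3 := Real.sqrt_pos.2 (by norm_num)
    have h3s : Real.sqrt 3 ^ 2 = 3 := Real.sq_sqrt (by norm_num)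
    have h2s : Real.sqrt 2 ^ 2 = 2 := Real.sq_sqrt (by norm_num)
    have htpos : 0 < t := div_pos (sg_pos _) h3
    have hlpos : 0 < l := lt_of_lt_of_le htpos hd
    obtain ⟨S₁, hsub, hS₁⟩ := Finset.exists_subset_card_eq (s := S) (n := 2 ^ j) (by
      rw [hS, pow_succ]; omega)
    set S₂ := S \ S₁ with hS₂def
    have hS₂ : S₂.card = 2 ^ j := by
      rw [hS₂def, Finset.card_sdiff_of_subset hsub, hS, hS₁, pow_succ]; omega
    have hsub2 : S₂ ⊆ S := Finset.sdiff_subset
    set z : EuclideanSpace ℝ ι := cen S + (t / l) • (y - cen S) with hz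
    set ν : ℝ := 1 / (S.card : ℝ) + (t / l) * (μ - 1 / (S.card : ℝ)) with hν
    have hzS : ∀ i ∈ S, z i = ν := by
      intro i hi
      rw [hz, PiLp.add_apply, PiLp.smul_apply, PiLp.sub_apply, cen_apply, if_pos hi, hy i hi,
        smul_eq_mul]
    have hl' : ‖y - cen S‖ = l := by rw [hl, dist_eq_norm]
    have hyz : dist y z = l - t := by
      have e : y - z = (1 - t / l) • (y - cen S) := by
        rw [hz, sub_smul, one_smul]; abel
      rw [dist_eq_norm, e, norm_smul, hl', Real.norm_eq_abs, abs_of_nonneg]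
      · field_simp
      · rw [sub_nonneg, div_le_one hlpos]; exact hd
    have hzc : dist z (cen S) = t := by
      have e : z - cen S = (t / l) • (y - cen S) := by rw [hz]; abel
      rw [dist_eq_norm, e, norm_smul, hl', Real.norm_eq_abs,
        abs_of_pos (div_pos htpos hlpos)]
      field_simp
    have hts : sg (j + 1) ^ 2 = 3 * t ^ 2 := by
      rw [ht, div_pow, h3s]; ring
    have hhalf : ∀ S' : Finset ι, S'.card = 2 ^ j → S' ⊆ S → dist z (cen S') = 2 * t := by
      intro S' hc hs
      have := dist_half hS hc hs z ν hzS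
      rw [hzc, hts] at this
      have h5 : dist z (cen S') ^ 2 = (2 * t) ^ 2 := by rw [this]; ring
      exact (sq_eq_sq₀ dist_nonneg (by positivity)).1 h5
    have hcond : sg j / Real.sqrt 3 ≤ 2 * t := by
      rw [ht, sg_succ]
      have : 2 * (sg j * (Real.sqrt 2 / 2) / Real.sqrt 3) = (sg j / Real.sqrt 3) * Real.sqrt 2 := by
        field_simp
      rw [this]
      have h6 : 0 < sg j / Real.sqrt 3 := div_pos (sg_pos _) h3
      nlinarith [sqrt2_bds.1]
    have g1 := ih S₁ z ν hS₁ (fun i hi => hzS i (hsub hi)) (by rw [hhalf S₁ hS₁ hsub]; exact hcond)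
    have g2 := ih S₂ z ν hS₂ (fun i hi => hzS i (hsub2 hi)) (by rw [hhalf S₂ hS₂ hsub2]; exact hcond)
    have g3 := (g1.union g2).extend y
    have hU : S₁.image (fun i => EuclideanSpace.single i (1 : ℝ)) ∪
        S₂.image (fun i => EuclideanSpace.single i (1 : ℝ)) =
        S.image (fun i => EuclideanSpace.single i (1 : ℝ)) := by
      rw [← Finset.image_union, hS₂def, Finset.union_sdiff_of_subset hsub]
    rw [hU] at g3
    refine g3.mono (le_of_eq ?_)
    rw [hyz, hhalf S₁ hS₁ hsub, hhalf S₂ hS₂ hsub2]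
    have hrel : 3 * t = 2 * cc * sg j - cc * sg (j + 1) := by
      have hcc : cc * (2 * Real.sqrt 2 - 1) = Real.sqrt 3 := by
        rw [cc]; field_simp [u_pos.ne']
      have e1 : 3 * t = Real.sqrt 3 * (sg j * (Real.sqrt 2 / 2)) := by
        rw [ht, sg_succ]
        field_simp
        rw [h3s]; ring
      rw [e1, sg_succ, ← hcc]
      linear_combination (cc * sg j) * h2s
    rw [pow_succ]
    linarith

lemma blocks (j : ℕ) (q : ℕ) : ∀ (r : ℕ) (S : Finset ι), S.card = 2 ^ j * q + r →
    Good (0 : EuclideanSpace ℝ ι) (S.image (fun i => EuclideanSpace.single i (1 : ℝ)))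
      (q * (cc * 2 ^ j + sg j) + r) := by
  induction q with
  | zero =>
    intro r S hS
    have : ∀ S : Finset ι, Good (0 : EuclideanSpace ℝ ι)
        (S.image (fun i => EuclideanSpace.single i (1 : ℝ))) (S.card) := by
      intro S
      induction S using Finset.induction_on with
      | empty => simpa using good_empty (0 : EuclideanSpace ℝ ι)
      | @insert a S ha ih =>
        rw [Finset.image_insert, Finset.insert_eq, Finset.card_insert_of_notMem ha]
        refine ((good_single (0 : EuclideanSpace ℝ ι)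
          (EuclideanSpace.single a (1 : ℝ))).union ih).mono (le_of_eq ?_)
        rw [dist_zero_left]
        simp
        ring
    have h := this S
    rw [hS] at h
    simpa using h
  | succ q ih =>
    intro r S hS
    obtain ⟨S₁, hsub, hS₁⟩ := Finset.exists_subset_card_eq (s := S) (n := 2 ^ j) (by
      rw [hS, mul_add, mul_one]; omega)
    have hS₂ : (S \ S₁).card = 2 ^ j * q + r := by
      rw [Finset.card_sdiff_of_subset hsub, hS, hS₁, mul_add, mul_one]; omega
    have g2 := ih r (S \ S₁) hS₂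
    have h3 : 0 < Real.sqrt 3 := Real.sqrt_pos.2 (by norm_num)
    have hd : dist (0 : EuclideanSpace ℝ ι) (cen S₁) = sg j := by
      rw [dist_zero_left, norm_cen hS₁]
    have g1 := cluster j S₁ 0 0 hS₁ (fun i _ => rfl) (by
      rw [hd, div_le_iff₀ h3]
      have : (1 : ℝ) ≤ Real.sqrt 3 := by
        rw [Real.one_le_sqrt]; norm_num
      nlinarith [sg_pos j])
    rw [hd] at g1
    have g3 := g1.union g2
    have hU : S₁.image (fun i => EuclideanSpace.single i (1 : ℝ)) ∪
        (S \ S₁).image (fun i => EuclideanSpace.single i (1 : ℝ)) =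
        S.image (fun i => EuclideanSpace.single i (1 : ℝ)) := by
      rw [← Finset.image_union, Finset.union_sdiff_of_subset hsub]
    rw [hU] at g3
    refine g3.mono ?_
    push_cast
    nlinarith [mul_pos cc_pos (sg_pos j)]

end cluster

section final

/-- the set of lengths of connected graphs through the unit vectors -/
def numSet (d : ℕ) : Set ℝ := {L : ℝ | ∃ T : Finset (EuclideanSpace ℝ (Fin (d+1))),
          (Finset.univ.image (fun i : Fin (d+1) => EuclideanSpace.single i (1:ℝ))) ⊆ T ∧
          ∃ G : SimpleGraph T, G.Connected ∧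
            L = (∑ x : T, ∑ y : T,
                  if G.Adj x y then
                    dist (x : EuclideanSpace ℝ (Fin (d+1))) (y : EuclideanSpace ℝ (Fin (d+1)))
                  else 0) / 2}

def denSet (d : ℕ) : Set ℝ := {L : ℝ | ∃ T : Finset (EuclideanSpace ℝ (Fin (d+1))),
          T = Finset.univ.image (fun i : Fin (d+1) => EuclideanSpace.single i (1:ℝ)) ∧
          ∃ G : SimpleGraph T, G.Connected ∧
            L = (∑ x : T, ∑ y : T,
                  if G.Adj x y then
                    dist (x : EuclideanSpace ℝ (Fin (d+1))) (y : EuclideanSpace ℝ (Fin (d+1)))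
                  else 0) / 2}

lemma num_lb (d : ℕ) : ∀ L ∈ numSet d, cc * d ≤ L := by
  rintro L ⟨T, hT, G, hG, rfl⟩
  exact lower d T hT G hG

lemma num_ub (d j : ℕ) : ∃ L ∈ numSet d,
    L ≤ (((d + 1) / 2 ^ j : ℕ) : ℝ) * (cc * 2 ^ j + sg j) + (((d + 1) % 2 ^ j : ℕ) : ℝ) := by
  have hc : (Finset.univ : Finset (Fin (d + 1))).card =
      2 ^ j * ((d + 1) / 2 ^ j) + (d + 1) % 2 ^ j := by
    rw [Finset.card_univ, Fintype.card_fin, Nat.div_add_mod]
  obtain ⟨T, hT, G, hG, hle⟩ := (blocks j _ _ Finset.univ hc).exists_graph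
  refine ⟨_, ⟨T, ?_, G, hG, rfl⟩, ?_⟩
  · convert hT
  · convert hle

lemma num_bounds (d j : ℕ) : cc * d ≤ sInf (numSet d) ∧ sInf (numSet d) ≤
    (((d + 1) / 2 ^ j : ℕ) : ℝ) * (cc * 2 ^ j + sg j) + (((d + 1) % 2 ^ j : ℕ) : ℝ) := by
  obtain ⟨L, hL, hle⟩ := num_ub d j
  constructor
  · exact le_csInf ⟨L, hL⟩ (num_lb d)
  · exact (csInf_le ⟨cc * d, num_lb d⟩ hL).trans hle

lemma dist_single {ι : Type} [Fintype ι] [DecidableEq ι] {i k : ι} (h : i ≠ k) :
    dist (EuclideanSpace.single i (1:ℝ)) (EuclideanSpace.single k (1:ℝ)) = Real.sqrt 2 := by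
  rw [dist_eq_norm]
  have h1 : ‖(EuclideanSpace.single i (1:ℝ)) - (EuclideanSpace.single k (1:ℝ))‖ ^ 2 = 2 := by
    rw [norm_sub_sq_real, EuclideanSpace.inner_single_left]
    simp [h]
    norm_num
  rw [← h1, Real.sqrt_sq (norm_nonneg _)]

lemma den_eq (d : ℕ) : sInf (denSet d) = Real.sqrt 2 * d := by
  set T : Finset (EuclideanSpace ℝ (Fin (d+1))) :=
    Finset.univ.image (fun i : Fin (d+1) => EuclideanSpace.single i (1:ℝ)) with hTdef
  have hinj : Function.Injective (fun i : Fin (d+1) =>
      (EuclideanSpace.single i (1:ℝ) : EuclideanSpace ℝ (Fin (d+1)))) := by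
    intro i j hij
    by_contra hne
    have h0 := dist_single hne
    dsimp only at hij
    rw [hij, dist_self] at h0
    linarith [sqrt2_bds.1]
  have hcard : T.card = d + 1 := by
    rw [hTdef, Finset.card_image_of_injective _ hinj, Finset.card_univ, Fintype.card_fin]
  have hdist : ∀ x y : T, x ≠ y → dist (x : EuclideanSpace ℝ (Fin (d+1)))
      (y : EuclideanSpace ℝ (Fin (d+1))) = Real.sqrt 2 := by
    rintro ⟨x, hx⟩ ⟨y, hy⟩ hxy
    rw [hTdef, Finset.mem_image] at hx hy
    obtain ⟨i, -, rfl⟩ := hx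
    obtain ⟨k, -, rfl⟩ := hy
    refine dist_single ?_
    rintro rfl
    exact hxy rfl
  have hmem0 : (EuclideanSpace.single 0 (1:ℝ) : EuclideanSpace ℝ (Fin (d+1))) ∈ T :=
    Finset.mem_image_of_mem _ (Finset.mem_univ (0 : Fin (d+1)))
  set r : T := ⟨EuclideanSpace.single 0 (1:ℝ), hmem0⟩ with hr
  have hcardT : (((Finset.univ : Finset T).erase r).card : ℝ) = d := by
    rw [Finset.card_erase_of_mem (Finset.mem_univ r), Finset.card_univ, Fintype.card_coe, hcard]
    simp
  have hlb : ∀ L ∈ denSet d, Real.sqrt 2 * d ≤ L := by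
    rintro L ⟨T', hT', G, hG, rfl⟩
    have hTT : T' = T := hT'
    subst hTT
    obtain ⟨p, hp, hle⟩ := exists_parent G hG r
      (fun x y => dist (x : EuclideanSpace ℝ (Fin (d+1))) (y : EuclideanSpace ℝ (Fin (d+1))))
      (fun x y => dist_comm _ _) (fun x y => dist_nonneg)
    refine le_trans (le_of_eq ?_) hle
    have h1 : ∑ x ∈ (Finset.univ : Finset T).erase r, dist (x : EuclideanSpace ℝ (Fin (d+1)))
        ((p x : T) : EuclideanSpace ℝ (Fin (d+1))) =
        ∑ _x ∈ (Finset.univ : Finset T).erase r, Real.sqrt 2 := by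
      refine Finset.sum_congr rfl fun x hx => hdist _ _ ?_
      intro h
      have := hp x (Finset.ne_of_mem_erase hx)
      rw [← h] at this
      exact lt_irrefl _ this
    rw [h1, Finset.sum_const, nsmul_eq_mul, hcardT]
    ring
  have hub : ∃ L ∈ denSet d, L ≤ Real.sqrt 2 * d := by
    set G : SimpleGraph T := SimpleGraph.fromRel (fun x _ : T => x = r) with hG
    have hconn : G.Connected := by
      have : Nonempty T := ⟨r⟩
      rw [SimpleGraph.connected_iff]
      refine ⟨?_, inferInstance⟩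
      have h1 : ∀ x : T, G.Reachable r x := by
        intro x
        by_cases hx : r = x
        · rw [hx]
        · refine SimpleGraph.Adj.reachable ?_
          rw [hG, SimpleGraph.fromRel_adj]
          exact ⟨hx, Or.inl rfl⟩
      exact fun x y => (h1 x).symm.trans (h1 y)
    refine ⟨_, ⟨T, rfl, G, hconn, rfl⟩, ?_⟩
    have h1 : ∀ x y : T, (@ite ℝ (G.Adj x y) (Classical.propDecidable _)
        (dist (x : EuclideanSpace ℝ (Fin (d+1))) (y : EuclideanSpace ℝ (Fin (d+1)))) 0) ≤
        (if x = r then (if y ≠ r then Real.sqrt 2 else 0) else 0) +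
        (if y = r then (if x ≠ r then Real.sqrt 2 else 0) else 0) := by
      intro x y
      have hs : 0 < Real.sqrt 2 := by linarith [sqrt2_bds.1]
      have hnn1 : 0 ≤ (if x = r then (if y ≠ r then Real.sqrt 2 else 0) else 0) := by
        split_ifs <;> first | exact hs.le | exact le_rfl
      have hnn2 : 0 ≤ (if y = r then (if x ≠ r then Real.sqrt 2 else 0) else 0) := by
        split_ifs <;> first | exact hs.le | exact le_rfl
      by_cases hadj : G.Adj x y
      · rw [if_pos hadj]
        rw [hG, SimpleGraph.fromRel_adj] at hadj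
        rw [hdist x y hadj.1]
        rcases hadj.2 with h | h
        · rw [if_pos h, if_pos (fun h' => hadj.1 (h.trans h'.symm))]
          linarith
        · have : (if y = r then (if x ≠ r then Real.sqrt 2 else 0) else 0) = Real.sqrt 2 := by
            rw [if_pos h, if_pos (fun h' => hadj.1 (h'.trans h.symm))]
          linarith
      · rw [if_neg hadj]
        linarith
    have h2 : ∑ x : T, ∑ y : T, (if x = r then (if y ≠ r then Real.sqrt 2 else 0) else 0) =
        Real.sqrt 2 * d := by
      have : ∀ x : T, ∑ y : T, (if x = r then (if y ≠ r then Real.sqrt 2 else 0) else 0) =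
          if x = r then ∑ y : T, (if y ≠ r then Real.sqrt 2 else 0) else 0 := by
        intro x; split_ifs <;> simp
      simp_rw [this]
      rw [Finset.sum_ite_eq' Finset.univ r]
      simp only [Finset.mem_univ, if_true]
      rw [← Finset.sum_filter]
      have h3 : (Finset.univ.filter (fun y : T => y ≠ r)) = Finset.univ.erase r := by
        ext y; simp
      rw [h3, Finset.sum_const, nsmul_eq_mul, hcardT]; ring
    have h4 : ∑ x : T, ∑ y : T, (if y = r then (if x ≠ r then Real.sqrt 2 else 0) else 0) =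
        Real.sqrt 2 * d := by
      rw [Finset.sum_comm, ← h2]
    have h5 : (∑ x : T, ∑ y : T, @ite ℝ (G.Adj x y) (Classical.propDecidable _)
        (dist (x : EuclideanSpace ℝ (Fin (d+1))) (y : EuclideanSpace ℝ (Fin (d+1)))) 0) ≤
        Real.sqrt 2 * d + Real.sqrt 2 * d := by
      nth_rewrite 1 [← h2]
      rw [← h4, ← Finset.sum_add_distrib]
      refine Finset.sum_le_sum fun x _ => ?_
      rw [← Finset.sum_add_distrib]
      exact Finset.sum_le_sum fun y _ => h1 x y
    linarith
  obtain ⟨L, hL, hle⟩ := hub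
  exact le_antisymm ((csInf_le ⟨_, hlb⟩ hL).trans hle) (le_csInf ⟨L, hL⟩ hlb)

lemma sg_le_one (j : ℕ) : sg j ≤ 1 := by
  rw [sg]
  have := sqrt2_bds
  exact pow_le_one₀ (by linarith) (by linarith)

end final

/-- The ratio of Steiner minimal tree length to minimal spanning tree length for the vertices of a regular d-simplex converges, as d goes to infinity, to sqrt(3)/(4 - sqrt(2)). -/
theorem result :
    Filter.Tendsto
      (fun d : ℕ =>
        sInf {L : ℝ | ∃ T : Finset (EuclideanSpace ℝ (Fin (d+1))),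
          (Finset.univ.image (fun i : Fin (d+1) => EuclideanSpace.single i (1:ℝ))) ⊆ T ∧
          ∃ G : SimpleGraph T, G.Connected ∧
            L = (∑ x : T, ∑ y : T,
                  if G.Adj x y then
                    dist (x : EuclideanSpace ℝ (Fin (d+1))) (y : EuclideanSpace ℝ (Fin (d+1)))
                  else 0) / 2}
        /
        sInf {L : ℝ | ∃ T : Finset (EuclideanSpace ℝ (Fin (d+1))),
          T = Finset.univ.image (fun i : Fin (d+1) => EuclideanSpace.single i (1:ℝ)) ∧
          ∃ G : SimpleGraph T, G.Connected ∧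
            L = (∑ x : T, ∑ y : T,
                  if G.Adj x y then
                    dist (x : EuclideanSpace ℝ (Fin (d+1))) (y : EuclideanSpace ℝ (Fin (d+1)))
                  else 0) / 2})
      Filter.atTop (nhds (Real.sqrt 3 / (4 - Real.sqrt 2))) := by
  change Filter.Tendsto (fun d : ℕ => sInf (numSet d) / sInf (denSet d)) Filter.atTop _
  have hs2 : 0 < Real.sqrt 2 := by linarith [sqrt2_bds.1]
  have h2s : Real.sqrt 2 ^ 2 = 2 := Real.sq_sqrt (by norm_num)
  have hval : Real.sqrt 3 / (4 - Real.sqrt 2) = cc / Real.sqrt 2 := by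
    have e : 4 - Real.sqrt 2 = (2 * Real.sqrt 2 - 1) * Real.sqrt 2 := by nlinarith
    rw [e, cc, div_div]
  rw [hval, tendsto_order]
  constructor
  · intro a ha
    filter_upwards [Filter.eventually_ge_atTop 1] with d hd
    refine lt_of_lt_of_le ha ?_
    have hd' : (0 : ℝ) < d := by exact_mod_cast hd
    rw [den_eq, div_le_div_iff₀ hs2 (by positivity)]
    have := (num_bounds d 0).1
    nlinarith
  · intro b hb
    -- choose the level of the blocks
    obtain ⟨j, hj⟩ : ∃ j : ℕ, (cc + 1 / 2 ^ j) / Real.sqrt 2 < b := by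
      have hpos : 0 < b * Real.sqrt 2 - cc := by
        rw [gt_iff_lt, div_lt_iff₀ hs2] at hb; linarith
      obtain ⟨j, hj⟩ := exists_pow_lt_of_lt_one hpos (by norm_num : (1 / 2 : ℝ) < 1)
      refine ⟨j, ?_⟩
      rw [div_lt_iff₀ hs2]
      rw [div_pow, one_pow] at hj
      linarith
    have hlim : Filter.Tendsto (fun d : ℕ => (1 + 1 / (d : ℝ)) * ((cc + 1 / 2 ^ j) / Real.sqrt 2)
        + (2 ^ j / Real.sqrt 2) * (1 / (d : ℝ))) Filter.atTop
        (nhds ((1 + 0) * ((cc + 1 / 2 ^ j) / Real.sqrt 2) + (2 ^ j / Real.sqrt 2) * 0)) := by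
      have h0 := tendsto_one_div_atTop_nhds_zero_nat (𝕜 := ℝ)
      exact ((h0.const_add 1).mul_const _).add (h0.const_mul _)
    have hlt : (1 + 0) * ((cc + 1 / 2 ^ j) / Real.sqrt 2) + (2 ^ j / Real.sqrt 2) * 0 < b := by
      linarith
    filter_upwards [hlim.eventually (gt_mem_nhds hlt), Filter.eventually_ge_atTop 1] with d hd hd1
    refine lt_of_le_of_lt ?_ hd
    have hd' : (0 : ℝ) < d := by exact_mod_cast hd1
    rw [den_eq, div_le_iff₀ (by positivity)]
    refine (num_bounds d j).2.trans ?_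
    have hpow : (0 : ℝ) < 2 ^ j := by positivity
    have hq : (((d + 1) / 2 ^ j : ℕ) : ℝ) ≤ ((d : ℝ) + 1) / 2 ^ j := by
      have := @Nat.cast_div_le ℝ _ _ _ (d + 1) (2 ^ j)
      push_cast at this
      exact this
    have hr : (((d + 1) % 2 ^ j : ℕ) : ℝ) ≤ 2 ^ j := by
      have : (d + 1) % 2 ^ j ≤ 2 ^ j := (Nat.mod_lt _ (by positivity)).le
      exact_mod_cast this
    have hsg := sg_le_one j
    have hcs : 0 ≤ cc * 2 ^ j + sg j := by
      have := cc_pos; have := sg_pos j; positivity
    have h1 : (((d + 1) / 2 ^ j : ℕ) : ℝ) * (cc * 2 ^ j + sg j) ≤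
        ((d : ℝ) + 1) / 2 ^ j * (cc * 2 ^ j + 1) := by
      refine mul_le_mul hq ?_ hcs (by positivity)
      linarith
    have h2 : ((1 + 1 / (d : ℝ)) * ((cc + 1 / 2 ^ j) / Real.sqrt 2)
        + (2 ^ j / Real.sqrt 2) * (1 / (d : ℝ))) * (Real.sqrt 2 * d) =
        ((d : ℝ) + 1) / 2 ^ j * (cc * 2 ^ j + 1) + 2 ^ j := by
      field_simp
    rw [h2]
    linarith

end Pool.Agent.S11475
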