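import Pool.Statements.S11637
import Pool.Agent.LibS4C.MainA
import Pool.Agent.LibS4C.Orient

set_option autoImplicit false
open Pool Pool.MP_d2bbf8_co

namespace Pool.Agent.S11637

/-- For every finite graph in which each vertex has degree 2, and every partition of its vertices into blocks of exactly 4, adding all edges inside each block gives a graph that is properly 4-colourable. -/
theorem result :
    ∀ (V : Type) [Fintype V] [DecidableEq V] (G : SimpleGraph V) [DecidableRel G.Adj]
      (f : V → ℕ),
      (∀ v : V, G.degree v = 2) →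
      (∀ v : V, (Finset.univ.filter (fun w : V => f w = f v)).card = 4) →
      (G ⊔ SimpleGraph.fromRel (fun v w : V => f v = f w)).Colorable 4 := by
  intro V _ _ G _ f hdeg hf
  obtain ⟨σ, hσ⟩ := S4C.orient G hdeg
  obtain ⟨c, hc1, hc2⟩ := S4C.col4 f hf σ
  refine ⟨SimpleGraph.Coloring.mk c ?_⟩
  intro v w hvw
  rcases hvw with hvw | hvw
  · rcases hσ v w hvw with h | h
    · subst h
      exact (hc1 v (fun h => hvw.ne h.symm)).symm
    · subst h
      exact hc1 w (fun h => hvw.ne h)
  · rw [SimpleGraph.fromRel_adj] at hvw
    rcases hvw.2 with h | h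
    · exact hc2 v w hvw.1 h
    · exact hc2 v w hvw.1 h.symm

end Pool.Agent.S11637
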