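import Pool.Statements.S11749

set_option autoImplicit false
open Classical
open Pool Pool.MP_d883e0_co

namespace Pool.Agent.S11749

/-! ## The three-wise independent directions `(1, a, a^2)` in `K^3` -/

section lines

variable {K : Type} [Field K]

/-- The coordinates of the line through `x` with direction `(1, a, a^2)`. -/
def phi (a : K) (x : K × K × K) : K × K :=
  (x.2.1 - a * x.1, x.2.2 - a ^ 2 * x.1)

lemma eq_of_phi_eq_of_ne {a b : K} (hab : a ≠ b) {x y : K × K × K}
    (h1 : phi a x = phi a y) (h2 : phi b x = phi b y) : x = y := by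
  obtain ⟨x1, x2, x3⟩ := x
  obtain ⟨y1, y2, y3⟩ := y
  simp only [phi, Prod.mk.injEq] at h1 h2 ⊢
  obtain ⟨h11, h12⟩ := h1
  obtain ⟨h21, h22⟩ := h2
  have hx : (a - b) * (x1 - y1) = 0 := by linear_combination h21 - h11
  have hx1 : x1 = y1 := by
    rcases mul_eq_zero.mp hx with h | h
    · exact absurd (sub_eq_zero.mp h) hab
    · exact sub_eq_zero.mp h
  subst hx1
  refine ⟨rfl, ?_, ?_⟩
  · linear_combination h11
  · linear_combination h12

/-- Three directions that close up a nondegenerate triangle must coincide. -/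
lemma phi_triangle {a b c : K} {x y z : K × K × K} (hxy : x ≠ y) (hyz : y ≠ z) (hxz : x ≠ z)
    (h1 : phi a x = phi a y) (h2 : phi b y = phi b z) (h3 : phi c x = phi c z) :
    a = b ∧ b = c := by
  obtain ⟨x1, x2, x3⟩ := x
  obtain ⟨y1, y2, y3⟩ := y
  obtain ⟨z1, z2, z3⟩ := z
  simp only [phi, Prod.mk.injEq] at h1 h2 h3
  obtain ⟨h11, h12⟩ := h1
  obtain ⟨h21, h22⟩ := h2
  obtain ⟨h31, h32⟩ := h3
  -- nonvanishing of the first coordinate differences
  have nx : x1 ≠ y1 := by
    intro h; subst h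
    apply hxy
    have e2 : x2 = y2 := by linear_combination h11
    have e3 : x3 = y3 := by linear_combination h12
    rw [e2, e3]
  have ny : y1 ≠ z1 := by
    intro h; subst h
    apply hyz
    have e2 : y2 = z2 := by linear_combination h21
    have e3 : y3 = z3 := by linear_combination h22
    rw [e2, e3]
  have nz : x1 ≠ z1 := by
    intro h; subst h
    apply hxz
    have e2 : x2 = z2 := by linear_combination h31
    have e3 : x3 = z3 := by linear_combination h32
    rw [e2, e3]
  -- linear relations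
  have r1 : a * (x1 - y1) + b * (y1 - z1) = c * (x1 - z1) := by
    linear_combination h31 - h11 - h21
  have r2 : a ^ 2 * (x1 - y1) + b ^ 2 * (y1 - z1) = c ^ 2 * (x1 - z1) := by
    linear_combination h32 - h12 - h22
  have s1 : (a - b) * (b - c) * (y1 - z1) = 0 := by
    have e1 : (a - c) * (x1 - y1) = (c - b) * (y1 - z1) := by linear_combination r1
    have e2 : (a + c) * ((a - c) * (x1 - y1)) = (c + b) * ((c - b) * (y1 - z1)) := by
      linear_combination r2
    rw [e1] at e2
    linear_combination (-1 : K) * e2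
  have s2 : (a - b) * (a - c) * (x1 - y1) = 0 := by
    have e1 : (b - c) * (y1 - z1) = (c - a) * (x1 - y1) := by linear_combination r1
    have e2 : (b + c) * ((b - c) * (y1 - z1)) = (c + a) * ((c - a) * (x1 - y1)) := by
      linear_combination r2
    rw [e1] at e2
    linear_combination (1 : K) * e2
  have s3 : (c - a) * (c - b) * (x1 - z1) = 0 := by
    have e1 : (a - b) * (x1 - y1) = (c - b) * (x1 - z1) := by linear_combination r1
    have e2 : (a + b) * ((a - b) * (x1 - y1)) = (c + b) * ((c - b) * (x1 - z1)) := by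
      linear_combination r2
    rw [e1] at e2
    linear_combination (-1 : K) * e2
  have t1 : a = b ∨ b = c := by
    rcases mul_eq_zero.mp s1 with h | h
    · rcases mul_eq_zero.mp h with h | h
      · exact Or.inl (sub_eq_zero.mp h)
      · exact Or.inr (sub_eq_zero.mp h)
    · exact absurd (sub_eq_zero.mp h) ny
  have t2 : a = b ∨ a = c := by
    rcases mul_eq_zero.mp s2 with h | h
    · rcases mul_eq_zero.mp h with h | h
      · exact Or.inl (sub_eq_zero.mp h)
      · exact Or.inr (sub_eq_zero.mp h)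
    · exact absurd (sub_eq_zero.mp h) nx
  have t3 : c = a ∨ c = b := by
    rcases mul_eq_zero.mp s3 with h | h
    · rcases mul_eq_zero.mp h with h | h
      · exact Or.inl (sub_eq_zero.mp h)
      · exact Or.inr (sub_eq_zero.mp h)
    · exact absurd (sub_eq_zero.mp h) nz
  rcases t3 with h | h
  · rcases t1 with h' | h'
    · exact ⟨h', by rw [h, h']⟩
    · exact ⟨by rw [h', h], h'⟩
  · rcases t2 with h' | h'
    · exact ⟨h', h.symm⟩
    · exact ⟨by rw [h', h], h.symm⟩

end lines

/-! ## Indicators -/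

/-- The real indicator of a proposition. -/
noncomputable def ind (p : Prop) : ℝ := if p then 1 else 0

lemma ind_pos {p : Prop} (h : p) : ind p = 1 := if_pos h

lemma ind_neg {p : Prop} (h : ¬ p) : ind p = 0 := if_neg h

/-! ## Levels of pairs of bit strings -/

/-- `u` and `v` differ at bit `b`, and also at some earlier bit. -/
def lev {k : ℕ} (b : Fin k) (u v : Fin k → Bool) : Prop :=
  u b ≠ v b ∧ ∃ c, c < b ∧ u c ≠ v c

lemma lev_symm {k : ℕ} {b : Fin k} {u v : Fin k → Bool} (h : lev b u v) : lev b v u := by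
  obtain ⟨h1, c, hc, h2⟩ := h
  exact ⟨h1.symm, c, hc, h2.symm⟩

lemma lev_triangle {k : ℕ} {b : Fin k} {u v w : Fin k → Bool}
    (h1 : lev b u v) (h2 : lev b v w) (h3 : lev b u w) : False := by
  obtain ⟨h1, -⟩ := h1
  obtain ⟨h2, -⟩ := h2
  obtain ⟨h3, -⟩ := h3
  cases hu : u b <;> cases hv : v b <;> cases hw : w b <;> simp_all

/-- Number of differing bits versus number of differing bits that are not the first one. -/
lemma sum_lev {k : ℕ} (u v : Fin k → Bool) :
    (∑ b : Fin k, ind (u b ≠ v b)) = (1 - ind (u = v)) + ∑ b : Fin k, ind (lev b u v) := by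
  by_cases huv : u = v
  · subst huv
    simp [lev, ind]
  · have hex : ∃ b : Fin k, u b ≠ v b := by
      by_contra hcon
      push Not at hcon
      exact huv (funext hcon)
    obtain ⟨b0, hb0, hmin⟩ : ∃ b0 : Fin k, u b0 ≠ v b0 ∧ ∀ c, c < b0 → u c = v c := by
      obtain ⟨b0, hb0, hmin⟩ := WellFounded.has_min (wellFounded_lt (α := Fin k))
        {b : Fin k | u b ≠ v b} hex
      refine ⟨b0, hb0, fun c hc => ?_⟩
      by_contra hne
      exact hmin c hne hc
    rw [ind_neg huv]
    have key : ∀ b : Fin k, ind (u b ≠ v b) = (if b = b0 then 1 else 0) + ind (lev b u v) := by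
      intro b
      by_cases hb : b = b0
      · subst hb
        have hl : ¬ lev b u v := by
          rintro ⟨-, c, hc, hcc⟩
          exact hcc (hmin c hc)
        rw [ind_pos hb0, if_pos rfl, ind_neg hl, add_zero]
      · rw [if_neg hb, zero_add]
        by_cases hd : u b ≠ v b
        · have hlt : b0 < b := by
            rcases lt_trichotomy b b0 with h | h | h
            · exact absurd (hmin b h) hd
            · exact absurd h hb
            · exact h
          have hl : lev b u v := ⟨hd, b0, hlt, hb0⟩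
          rw [ind_pos hd, ind_pos hl]
        · have hl : ¬ lev b u v := fun h => hd h.1
          rw [ind_neg hd, ind_neg hl]
    rw [Finset.sum_congr rfl (fun b _ => key b), Finset.sum_add_distrib]
    simp

/-! ## The graph -/

/-- Vertices of the construction. -/
abbrev Vtx (k : ℕ) (K : Type) : Type := (Fin k → Bool) × (K × K × K)

section graph

variable {K : Type} [Field K] {k : ℕ}

/-- The adjacency relation of the construction. -/
def rel (a : Fin k → K) (p q : Vtx k K) : Prop :=
  p.2 ≠ q.2 ∧ ∃ b : Fin k, lev b p.1 q.1 ∧ phi (a b) p.2 = phi (a b) q.2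

lemma rel_symm {a : Fin k → K} {p q : Vtx k K} (h : rel a p q) : rel a q p := by
  obtain ⟨h1, b, h2, h3⟩ := h
  exact ⟨h1.symm, b, lev_symm h2, h3.symm⟩

lemma rel_irrefl {a : Fin k → K} {p : Vtx k K} : ¬ rel a p p := fun h => h.1 rfl

lemma rel_triangle {a : Fin k → K} (ha : Function.Injective a) {p q r : Vtx k K}
    (h1 : rel a p q) (h2 : rel a q r) (h3 : rel a p r) : False := by
  obtain ⟨n1, b1, l1, e1⟩ := h1
  obtain ⟨n2, b2, l2, e2⟩ := h2
  obtain ⟨n3, b3, l3, e3⟩ := h3
  obtain ⟨e12, e23⟩ := phi_triangle n1 n2 n3 e1 e2 e3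
  have h12 := ha e12
  have h23 := ha e23
  subst h12
  subst h23
  exact lev_triangle l1 l2 l3

/-- The key entrywise identity for `A + I`. -/
lemma entry {a : Fin k → K} (ha : Function.Injective a) (p q : Vtx k K) :
    ind (p = q) + ind (rel a p q) =
      (1 - ∑ b : Fin k, ind (p.1 b ≠ q.1 b)) * ind (p.2 = q.2) +
      ∑ b : Fin k, ind (lev b p.1 q.1) * ind (phi (a b) p.2 = phi (a b) q.2) := by
  obtain ⟨u, x⟩ := p
  obtain ⟨v, y⟩ := q
  simp only
  by_cases hxy : x = y
  · subst hxy
    have hr : ¬ rel a ((u, x) : Vtx k K) (v, x) := fun h => h.1 rfl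
    rw [ind_neg hr, ind_pos (rfl : x = x)]
    have hs : ∑ b : Fin k, ind (lev b u v) * ind (phi (a b) x = phi (a b) x) =
        ∑ b : Fin k, ind (lev b u v) := by
      refine Finset.sum_congr rfl (fun b _ => ?_)
      rw [ind_pos (rfl : phi (a b) x = phi (a b) x), mul_one]
    rw [hs, sum_lev u v]
    by_cases huv : u = v
    · subst huv
      rw [ind_pos rfl, ind_pos rfl]
      ring
    · have : ((u, x) : Vtx k K) ≠ (v, x) := fun h => huv (Prod.mk.inj h).1
      rw [ind_neg this, ind_neg huv]
      ring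
  · have hne : ((u, x) : Vtx k K) ≠ (v, y) := fun h => hxy (Prod.mk.inj h).2
    rw [ind_neg hne, ind_neg hxy, mul_zero, zero_add, zero_add]
    by_cases hr : rel a ((u, x) : Vtx k K) (v, y)
    · rw [ind_pos hr]
      obtain ⟨-, b, hl, hp⟩ := hr
      simp only at hl hp
      rw [Finset.sum_eq_single b]
      · rw [ind_pos hl, ind_pos hp, one_mul]
      · intro b' _ hb'
        have : phi (a b') x ≠ phi (a b') y := by
          intro h
          exact hxy (eq_of_phi_eq_of_ne (fun hh => hb' (ha hh)) h hp)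
        rw [ind_neg this, mul_zero]
      · intro h
        exact absurd (Finset.mem_univ b) h
    · rw [ind_neg hr]
      symm
      apply Finset.sum_eq_zero
      intro b _
      by_cases hl : lev b u v
      · have : phi (a b) x ≠ phi (a b) y := by
          intro h
          exact hr ⟨hxy, b, hl, h⟩
        rw [ind_neg this, mul_zero]
      · rw [ind_neg hl, zero_mul]

end graph

/-! ## Rank bounds through factorisations -/

/-- A matrix with a factorisation through an index type `κ` has rank at most `card κ`. -/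
lemma rank_le_of_factor {n : ℕ} {κ : Type} [Fintype κ] (M : Matrix (Fin n) (Fin n) ℝ)
    (P : Fin n → κ → ℝ) (Q : κ → Fin n → ℝ) (h : ∀ i j, M i j = ∑ t, P i t * Q t j) :
    M.rank ≤ Fintype.card κ := by
  have hM : M = (Matrix.of P) * (Matrix.of Q) := by
    ext i j
    rw [Matrix.mul_apply, h i j]
    rfl
  rw [hM]
  exact (Matrix.rank_mul_le_left _ _).trans (Matrix.rank_le_card_width _)

lemma sum_part2 {O X : Type} [Fintype O] [Fintype X] (f h : O → ℝ) (x y : X) :
    ∑ t : O × X, (f t.1 * ind (x = t.2)) * (h t.1 * ind (t.2 = y)) =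
      (∑ o, f o * h o) * ind (x = y) := by
  rw [Fintype.sum_prod_type, Finset.sum_mul]
  refine Finset.sum_congr rfl (fun o _ => ?_)
  rw [Finset.sum_eq_single x]
  · rw [ind_pos (rfl : x = x)]
    ring
  · intro b _ hb
    rw [ind_neg (fun h => hb h.symm)]
    ring
  · intro h
    exact absurd (Finset.mem_univ x) h

lemma sum_part3 {B U Z : Type} [Fintype B] [Fintype U] [Fintype Z] (f h : B → Z)
    (L : B → U → Prop) (u : U) :
    ∑ t : B × U × Z, (-ind (u = t.2.1) * ind (f t.1 = t.2.2)) *
      (ind (L t.1 t.2.1) * ind (t.2.2 = h t.1)) =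
      - ∑ b, ind (L b u) * ind (f b = h b) := by
  rw [Fintype.sum_prod_type, ← Finset.sum_neg_distrib]
  refine Finset.sum_congr rfl (fun b _ => ?_)
  rw [Fintype.sum_prod_type, Finset.sum_eq_single u]
  · rw [Finset.sum_eq_single (f b)]
    · rw [ind_pos (rfl : u = u), ind_pos (rfl : f b = f b)]
      ring
    · intro z _ hz
      rw [ind_neg (show ¬ f b = z from fun h => hz h.symm)]
      ring
    · intro h
      exact absurd (Finset.mem_univ (f b)) h
  · intro w _ hw
    apply Finset.sum_eq_zero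
    intro z _
    rw [ind_neg (show ¬ u = w from fun h => hw h.symm)]
    ring
  · intro h
    exact absurd (Finset.mem_univ u) h

/-- The sign of a bit. -/
def sgn (b : Bool) : ℝ := if b then 1 else -1

lemma ne_eq_sgn (b c : Bool) : ind (b ≠ c) = (1 - sgn b * sgn c) / 2 := by
  cases b <;> cases c <;> norm_num [sgn, ind]

/-- The main finite construction. -/
lemma exists_graph (k n : ℕ) (hk : 1 ≤ k) (hn : n ≤ 16 ^ k) :
    ∃ G : SimpleGraph (Fin n), G.CliqueFree 3 ∧
      ((Gᶜ).adjMatrix ℝ).rank ≤ 1 + (2 * k + 1) * 8 ^ k := by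
  have : Fact (Nat.Prime 2) := ⟨Nat.prime_two⟩
  let K : Type := GaloisField 2 k
  letI : Fintype K := Fintype.ofFinite K
  have hcard : Fintype.card K = 2 ^ k := by
    rw [← Nat.card_eq_fintype_card]
    exact GaloisField.card 2 k (by omega)
  -- directions
  obtain ⟨a⟩ : Nonempty (Fin k ↪ K) := by
    apply Function.Embedding.nonempty_of_card_le
    rw [hcard, Fintype.card_fin]
    exact Nat.lt_two_pow_self.le
  have ha : Function.Injective a := a.injective
  -- vertices
  obtain ⟨g⟩ : Nonempty (Fin n ↪ Vtx k K) := by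
    apply Function.Embedding.nonempty_of_card_le
    rw [Fintype.card_fin]
    refine hn.trans (le_of_eq ?_)
    simp only [Fintype.card_prod, Fintype.card_fun, Fintype.card_bool, Fintype.card_fin, hcard]
    rw [show (16 : ℕ) = 2 * 2 * 2 * 2 by norm_num, mul_pow, mul_pow, mul_pow]
    ring
  have hg : Function.Injective g := g.injective
  let G : SimpleGraph (Fin n) :=
    { Adj := fun i j => rel a (g i) (g j)
      symm := ⟨fun i j h => rel_symm h⟩
      loopless := ⟨fun i h => rel_irrefl h⟩ }
  refine ⟨G, ?_, ?_⟩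
  · intro s hs
    rw [SimpleGraph.is3Clique_iff] at hs
    obtain ⟨i, j, l, hij, hil, hjl, -⟩ := hs
    exact rel_triangle ha hij hjl hil
  · -- the factorisation
    let κ : Type := Unit ⊕ ((Option (Fin k) × (K × K × K)) ⊕ (Fin k × (Fin k → Bool) × (K × K)))
    let F : Fin n → Option (Fin k) → ℝ := fun i o => Option.elim o ((k : ℝ) / 2 - 1)
      (fun b => - sgn ((g i).1 b) / 2)
    let H : Fin n → Option (Fin k) → ℝ := fun i o => Option.elim o 1 (fun b => sgn ((g i).1 b))
    have hκ : Fintype.card κ = 1 + (2 * k + 1) * 8 ^ k := by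
      simp only [κ, Fintype.card_sum, Fintype.card_unit, Fintype.card_prod, Fintype.card_option,
        Fintype.card_fin, Fintype.card_fun, Fintype.card_bool, hcard]
      rw [show (8 : ℕ) = 2 * 2 * 2 by norm_num, mul_pow, mul_pow]
      ring
    rw [← hκ]
    refine rank_le_of_factor _
      (fun i => Sum.elim (fun _ => 1) (Sum.elim
        (fun t => F i t.1 * ind ((g i).2 = t.2))
        (fun t => -ind ((g i).1 = t.2.1) * ind (phi (a t.1) (g i).2 = t.2.2))))
      (fun s j => Sum.elim (fun _ => 1) (Sum.elim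
        (fun t => H j t.1 * ind (t.2 = (g j).2))
        (fun t => ind (lev t.1 t.2.1 (g j).1) * ind (t.2.2 = phi (a t.1) (g j).2))) s) ?_
    intro i j
    have hadj : ((Gᶜ).adjMatrix ℝ) i j =
        1 - (ind (g i = g j) + ind (rel a (g i) (g j))) := by
      rw [SimpleGraph.adjMatrix_apply]
      simp only [SimpleGraph.compl_adj]
      by_cases hij : i = j
      · subst hij
        rw [ind_pos rfl, ind_neg rel_irrefl]
        simp
      · have hgij : g i ≠ g j := fun h => hij (hg h)
        have hG : G.Adj i j ↔ rel a (g i) (g j) := Iff.rfl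
        rw [ind_neg hgij]
        by_cases hr : rel a (g i) (g j)
        · rw [ind_pos hr]
          simp [hij, hG, hr]
        · rw [ind_neg hr]
          simp [hij, hG, hr]
    rw [hadj, entry ha]
    rw [Fintype.sum_sum_type, Fintype.sum_sum_type]
    simp only [Sum.elim_inl, Sum.elim_inr]
    rw [sum_part2 (F i) (H j) (g i).2 (g j).2,
      sum_part3 (fun b => phi (a b) (g i).2) (fun b => phi (a b) (g j).2)
        (fun b w => lev b w (g j).1) (g i).1]
    have hF : (∑ o, F i o * H j o) =
        -(1 - ∑ b : Fin k, ind ((g i).1 b ≠ (g j).1 b)) := by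
      rw [Fintype.sum_option]
      simp only [F, H, Option.elim_none, Option.elim_some, ne_eq_sgn]
      rw [← Finset.sum_div, Finset.sum_sub_distrib, Finset.sum_const, Finset.card_univ,
        Fintype.card_fin, nsmul_eq_mul]
      have : (∑ b : Fin k, -sgn ((g i).1 b) / 2 * sgn ((g j).1 b)) =
          -(∑ b : Fin k, sgn ((g i).1 b) * sgn ((g j).1 b)) / 2 := by
        rw [← Finset.sum_neg_distrib, Finset.sum_div]
        refine Finset.sum_congr rfl (fun b _ => ?_)
        ring
      rw [this]
      ring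
    rw [hF]
    simp only [Finset.univ_unique, Finset.sum_singleton]
    ring

theorem result :
    ∃ c : ℝ, 0 < c ∧ ∃ C : ℝ, 0 < C ∧
      ∀ n : ℕ, 1 ≤ n →
        ∃ G : SimpleGraph (Fin n), G.CliqueFree 3 ∧
          (((Gᶜ).adjMatrix ℝ).rank : ℝ) ≤ C * (n : ℝ) ^ (1 - c) := by
  refine ⟨1 / 8, by norm_num, 48, by norm_num, fun n hn => ?_⟩
  set L : ℕ := Nat.log 16 n with hL
  have hlt : n < 16 ^ (L + 1) := Nat.lt_pow_succ_log_self (by norm_num) n
  have hle : 16 ^ L ≤ n := Nat.pow_log_le_self 16 (by omega)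
  obtain ⟨G, hG, hr⟩ := exists_graph (L + 1) n (by omega) hlt.le
  refine ⟨G, hG, ?_⟩
  have h1 : (((Gᶜ).adjMatrix ℝ).rank : ℝ) ≤ 1 + (2 * ((L : ℝ) + 1) + 1) * 8 ^ (L + 1) := by
    have := (Nat.cast_le (α := ℝ)).mpr hr
    push_cast at this
    exact this
  have h2 : (1 : ℝ) + (2 * ((L : ℝ) + 1) + 1) * 8 ^ (L + 1) ≤
      48 * ((1 + (L : ℝ) * (3 / 8)) * 8 ^ L) := by
    have h8 : (1 : ℝ) ≤ 8 ^ L := one_le_pow₀ (by norm_num)
    have hL0 : (0 : ℝ) ≤ (L : ℝ) := Nat.cast_nonneg L
    rw [pow_succ]
    nlinarith [mul_nonneg hL0 (by linarith : (0 : ℝ) ≤ 8 ^ L)]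
  have h3 : (1 + (L : ℝ) * (3 / 8)) * 8 ^ L ≤ (11 : ℝ) ^ L := by
    have hb : 1 + (L : ℝ) * (3 / 8) ≤ (1 + 3 / 8 : ℝ) ^ L :=
      one_add_mul_le_pow (by norm_num) L
    calc (1 + (L : ℝ) * (3 / 8)) * 8 ^ L ≤ (1 + 3 / 8 : ℝ) ^ L * 8 ^ L :=
          mul_le_mul_of_nonneg_right hb (by positivity)
      _ = (11 : ℝ) ^ L := by rw [← mul_pow]; norm_num
  have h4 : (11 : ℝ) ^ L ≤ (n : ℝ) ^ (1 - 1 / 8 : ℝ) := by
    have hc : (1 - 1 / 8 : ℝ) = 7 / 8 := by norm_num
    rw [hc]
    have h5 : ((16 : ℝ) ^ L) ^ (7 / 8 : ℝ) ≤ (n : ℝ) ^ (7 / 8 : ℝ) := by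
      apply Real.rpow_le_rpow (by positivity) _ (by norm_num)
      exact_mod_cast hle
    refine le_trans ?_ h5
    rw [← Real.rpow_natCast (16 : ℝ) L, ← Real.rpow_mul (by norm_num), mul_comm,
      Real.rpow_mul (by norm_num), Real.rpow_natCast]
    apply pow_le_pow_left₀ (by norm_num)
    have h6 : (11 : ℝ) = ((11 : ℝ) ^ (8 : ℕ)) ^ (1 / 8 : ℝ) := by
      rw [← Real.rpow_natCast, ← Real.rpow_mul (by norm_num)]
      norm_num
    rw [h6, show (7 / 8 : ℝ) = (7 : ℕ) * (1 / 8 : ℝ) by norm_num, Real.rpow_mul (by norm_num),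
      Real.rpow_natCast]
    apply Real.rpow_le_rpow (by positivity) _ (by norm_num)
    norm_num
  calc (((Gᶜ).adjMatrix ℝ).rank : ℝ) ≤ _ := h1
    _ ≤ _ := h2
    _ ≤ 48 * (11 : ℝ) ^ L := by linarith
    _ ≤ 48 * (n : ℝ) ^ (1 - 1 / 8 : ℝ) := by linarith

end Pool.Agent.S11749
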