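import Pool.Statements.S11957

set_option autoImplicit false
open Pool Pool.MP_dfdf13_co

namespace Pool.Agent.S11957

/-- Functions killed by all K-fold differences. -/
def PolyLE {A B : Type*} [AddCommGroup A] [AddCommGroup B] : ℕ → (A → B) → Prop
  | 0, f => ∀ x, f x = 0
  | (K + 1), f => ∀ h, PolyLE K (fun x => f (x + h) - f x)

lemma trig_aux_deriv (v : ℝ) :
    HasDerivAt (fun v : ℝ => 2 * v - (8/3) * Real.sin v + (1/3) * Real.sin (2 * v))
      ((4/3) * (1 - Real.cos v)^2) v := by
  have h1 : HasDerivAt (fun v : ℝ => 2 * v) 2 v := by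
    simpa using (hasDerivAt_id v).const_mul (2:ℝ)
  have h2 : HasDerivAt (fun v : ℝ => Real.sin (2 * v)) (Real.cos (2 * v) * 2) v :=
    (Real.hasDerivAt_sin (2 * v)).comp v h1
  have h3 := (h1.sub ((Real.hasDerivAt_sin v).const_mul (8/3))).add (h2.const_mul (1/3))
  refine h3.congr_deriv ?_
  rw [Real.cos_two_mul]
  ring

lemma trig_minorant_nonneg (v : ℝ) (hv : 0 ≤ v) :
    5/2 - (8/3) * Real.cos v + (1/6) * Real.cos (2*v) ≤ v^2 := by
  have hmono : Monotone (fun v : ℝ => 2 * v - (8/3) * Real.sin v + (1/3) * Real.sin (2 * v)) := by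
    apply monotone_of_deriv_nonneg
    · intro x; exact (trig_aux_deriv x).differentiableAt
    · intro x; rw [(trig_aux_deriv x).deriv]; positivity
  have hd : ∀ v : ℝ, HasDerivAt (fun v : ℝ => v^2 - 5/2 + (8/3) * Real.cos v
      - (1/6) * Real.cos (2*v)) (2 * v - (8/3) * Real.sin v + (1/3) * Real.sin (2 * v)) v := by
    intro v
    have h0 : HasDerivAt (fun v : ℝ => v^2) (2 * v) v := by
      simpa using hasDerivAt_pow 2 v
    have h1 : HasDerivAt (fun v : ℝ => 2 * v) 2 v := by
      simpa using (hasDerivAt_id v).const_mul (2:ℝ)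
    have h2 : HasDerivAt (fun v : ℝ => Real.cos (2 * v)) (-Real.sin (2 * v) * 2) v :=
      (Real.hasDerivAt_cos (2 * v)).comp v h1
    have h3 := ((h0.sub_const (5/2)).add ((Real.hasDerivAt_cos v).const_mul (8/3))).sub
      (h2.const_mul (1/6))
    refine h3.congr_deriv ?_
    ring
  have hmono2 : MonotoneOn (fun v : ℝ => v^2 - 5/2 + (8/3) * Real.cos v
      - (1/6) * Real.cos (2*v)) (Set.Ici 0) := by
    apply monotoneOn_of_deriv_nonneg (convex_Ici 0)
    · intro x _; exact (hd x).continuousAt.continuousWithinAt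
    · intro x _; exact (hd x).differentiableAt.differentiableWithinAt
    · intro x hx
      rw [(hd x).deriv]
      have hx' : 0 ≤ x := by
        rw [interior_Ici] at hx
        exact le_of_lt hx
      have := hmono hx'
      simpa using this
  have := hmono2 (Set.self_mem_Ici) (Set.mem_Ici.2 hv) hv
  simp only [] at this
  norm_num at this
  linarith

lemma trig_minorant (v : ℝ) :
    5/2 - (8/3) * Real.cos v + (1/6) * Real.cos (2*v) ≤ v^2 := by
  rcases le_total 0 v with hv | hv
  · exact trig_minorant_nonneg v hv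
  · have := trig_minorant_nonneg (-v) (by linarith)
    rw [Real.cos_neg, mul_neg, Real.cos_neg] at this
    simpa using this

lemma norm_char {p : ℕ} [Fact p.Prime] (ψ : AddChar (ZMod p) ℂ) (x : ZMod p) : ‖ψ x‖ = 1 :=
  AddChar.norm_apply ψ x

lemma sq_norm_sum {p : ℕ} [Fact p.Prime] (ψ : AddChar (ZMod p) ℂ) (g : ZMod p → ZMod p) :
    ((‖∑ b, ψ (g b)‖ ^ 2 : ℝ) : ℂ) = ∑ h, ∑ b, ψ (g (b + h) - g b) := by
  have h1 : ((‖∑ b, ψ (g b)‖ ^ 2 : ℝ) : ℂ) = (∑ b, ψ (g b)) * (starRingEnd ℂ) (∑ b, ψ (g b)) := by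
    rw [Complex.mul_conj, Complex.normSq_eq_norm_sq]
  rw [h1, map_sum, Finset.sum_mul_sum, Finset.sum_comm, Finset.sum_comm (s := Finset.univ) (t := Finset.univ)
    (f := fun h b => ψ (g (b + h) - g b))]
  apply Finset.sum_congr rfl
  intro b _
  rw [← Equiv.sum_comp (Equiv.addLeft b)]
  apply Finset.sum_congr rfl
  intro h _
  rw [Equiv.coe_addLeft, AddChar.map_sub_eq_div, div_eq_mul_inv, ← AddChar.map_neg_eq_inv,
    AddChar.map_neg_eq_conj]

lemma weyl (K : ℕ) : ∀ ε : ℝ, 0 < ε → ∃ P : ℕ, ∀ (p : ℕ) [Fact p.Prime], P < p →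
    ∀ (ψ : AddChar (ZMod p) ℂ), ψ ≠ 1 → ∀ g : ZMod p → ZMod p, PolyLE K g →
      (∃ x y, g x ≠ g y) → ‖∑ b, ψ (g b)‖ ≤ ε * p := by
  induction K with
  | zero =>
    intro ε hε
    refine ⟨0, ?_⟩
    intro p _ _ ψ _ g hg hne
    obtain ⟨x, y, hxy⟩ := hne
    exact absurd ((hg x).trans (hg y).symm) hxy
  | succ K ih =>
    intro ε hε
    obtain ⟨P, hP⟩ := ih (ε^2/2) (by positivity)
    obtain ⟨N, hN⟩ := exists_nat_gt (2/ε^2)
    refine ⟨max P N, ?_⟩
    intro p _ hp ψ hψ g hg hne
    have hpP : P < p := lt_of_le_of_lt (le_max_left _ _) hp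
    have hpN : N < p := lt_of_le_of_lt (le_max_right _ _) hp
    have hp0 : (0:ℝ) < p := by exact_mod_cast (Fact.out : p.Prime).pos
    by_cases hc : ∃ h : ZMod p, h ≠ 0 ∧ ∀ x y, g (x + h) - g x = g (y + h) - g y
    · -- affine case
      obtain ⟨h, hh, hconst⟩ := hc
      have key : ∀ (n : ℕ) (x : ZMod p), g (x + n * h) = g x + n * (g (0 + h) - g 0) := by
        intro n
        induction n with
        | zero => intro x; simp
        | succ n ihn =>
          intro x
          have h2 := hconst (x + n * h) 0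
          have h3 := ihn x
          push_cast
          have h4 : x + (↑n + 1) * h = x + ↑n * h + h := by ring
          rw [h4]
          have h5 : g (x + ↑n * h + h) = g (x + ↑n * h) + (g (0 + h) - g 0) := by
            rw [← h2]; ring
          rw [h5, h3]; ring
      have haff : ∀ x, g x = g 0 + x * (h⁻¹ * (g (0 + h) - g 0)) := by
        intro x
        have h2 := key (x * h⁻¹).val 0
        rw [ZMod.natCast_zmod_val] at h2
        have h3 : (0 : ZMod p) + x * h⁻¹ * h = x := by
          field_simp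
          ring
        rw [h3] at h2
        rw [h2]; ring
      set a := h⁻¹ * (g (0 + h) - g 0) with ha
      have ha0 : a ≠ 0 := by
        intro h0
        obtain ⟨x, y, hxy⟩ := hne
        apply hxy
        rw [haff x, haff y, h0]; simp
      have hsum : ∑ b, ψ (g b) = 0 := by
        have : ∀ b, ψ (g b) = ψ (g 0) * (AddChar.mulShift ψ a) b := by
          intro b
          rw [haff b, AddChar.map_add_eq_mul, AddChar.mulShift_apply, mul_comm b a]
        rw [Finset.sum_congr rfl (fun b _ => this b), ← Finset.mul_sum]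
        have hne1 : AddChar.mulShift ψ a ≠ 1 := (AddChar.IsPrimitive.of_ne_one hψ) ha0
        rw [AddChar.sum_eq_zero_of_ne_one hne1, mul_zero]
      rw [hsum, norm_zero]; positivity
    · push Not at hc
      have hbound : ∀ h : ZMod p, h ≠ 0 → ‖∑ b, ψ (g (b + h) - g b)‖ ≤ ε^2/2 * p := by
        intro h hh
        exact hP p hpP ψ hψ (fun x => g (x + h) - g x) (hg h) (hc h hh)
      have hsq : ‖∑ b, ψ (g b)‖ ^ 2 ≤ p + p * (ε^2/2 * p) := by
        have h1 : ‖∑ b, ψ (g b)‖ ^ 2 = ‖((‖∑ b, ψ (g b)‖ ^ 2 : ℝ) : ℂ)‖ := by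
          rw [Complex.norm_real, Real.norm_of_nonneg (by positivity)]
        rw [h1, sq_norm_sum]
        refine (norm_sum_le _ _).trans ?_
        have h2 : ∀ h ∈ (Finset.univ : Finset (ZMod p)), ‖∑ b, ψ (g (b + h) - g b)‖ ≤
            (if h = 0 then (p:ℝ) else 0) + ε^2/2 * p := by
          intro h _
          by_cases hh : h = 0
          · subst hh
            simp only [add_zero, sub_self, AddChar.map_zero_eq_one, Finset.sum_const,
              Finset.card_univ, ZMod.card, nsmul_eq_mul, mul_one, if_true]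
            simp only [Complex.norm_natCast]
            have : 0 ≤ ε^2/2 * p := by positivity
            linarith
          · rw [if_neg hh, zero_add]
            exact hbound h hh
        refine (Finset.sum_le_sum h2).trans ?_
        rw [Finset.sum_add_distrib]
        simp [ZMod.card]
      have hN' : 2/ε^2 < p := hN.trans (by exact_mod_cast hpN)
      have hfin : (p:ℝ) + p * (ε^2/2 * p) ≤ (ε * p)^2 := by
        have h3 : 2 < p * ε^2 := by
          rw [div_lt_iff₀ (by positivity)] at hN'
          exact hN'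
        have h4 : (p:ℝ) * 2 ≤ p * (p * ε^2) := mul_le_mul_of_nonneg_left h3.le hp0.le
        nlinarith
      exact abs_le_of_sq_le_sq' (hsq.trans hfin) (by positivity) |>.2

section
variable {p : ℕ}

/-- The linear form defining a direction. -/
def L (d : Option (ZMod p)) (q : ZMod p × ZMod p) : ZMod p :=
  d.elim q.1 (fun m => q.2 - m * q.1)

lemma L_none (q : ZMod p × ZMod p) : L none q = q.1 := rfl
lemma L_some (m : ZMod p) (q : ZMod p × ZMod p) : L (some m) q = q.2 - m * q.1 := rfl

lemma L_add (d : Option (ZMod p)) (q v : ZMod p × ZMod p) : L d (q + v) = L d q + L d v := by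
  cases d with
  | none => simp [L_none]
  | some m => simp only [L_some, Prod.snd_add, Prod.fst_add]; ring

lemma L_surj (d : Option (ZMod p)) (b : ZMod p) : ∃ q, L d q = b := by
  cases d with
  | none => exact ⟨(b, 0), rfl⟩
  | some m => exact ⟨(0, b), by simp [L_some]⟩

lemma L_vec [Fact p.Prime] (d e : Option (ZMod p)) (hde : e ≠ d) (h : ZMod p) :
    ∃ v, L e v = 0 ∧ L d v = h := by
  cases e with
  | none =>
    cases d with
    | none => exact absurd rfl hde
    | some m => exact ⟨(0, h), by simp [L_none], by simp [L_some]⟩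
  | some m =>
    cases d with
    | none => exact ⟨(h, m * h), by simp [L_some], by simp [L_none]⟩
    | some m' =>
      have hne : m - m' ≠ 0 := by
        intro h0
        apply hde
        rw [sub_eq_zero.1 h0]
      refine ⟨(h / (m - m'), m * (h / (m - m'))), by simp [L_some], ?_⟩
      simp only [L_some]
      field_simp

lemma poly_of_sum [Fact p.Prime] (d : Option (ZMod p)) (D : Finset (Option (ZMod p))) :
    d ∉ D → ∀ (g : ZMod p → ZMod p) (G : Option (ZMod p) → ZMod p → ZMod p) (c : ZMod p),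
      (∀ q, g (L d q) + ∑ e ∈ D, G e (L e q) = c) → PolyLE (D.card + 1) g := by
  induction D using Finset.induction_on with
  | empty =>
    intro _ g G c hg h x
    obtain ⟨q, hq⟩ := L_surj d (x + h)
    obtain ⟨q', hq'⟩ := L_surj d x
    have h1 := hg q
    have h2 := hg q'
    rw [hq] at h1
    rw [hq'] at h2
    simp only [Finset.sum_empty, add_zero] at h1 h2
    show g (x + h) - g x = 0
    rw [h1, h2, sub_self]
  | insert e D he ih =>
    intro hd g G c hg
    rw [Finset.card_insert_of_notMem he]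
    have hed : e ≠ d := by
      rintro rfl
      exact hd (Finset.mem_insert_self _ _)
    have hdD : d ∉ D := fun h => hd (Finset.mem_insert_of_mem h)
    intro h
    obtain ⟨v, hv1, hv2⟩ := L_vec d e hed h
    apply ih hdD _ (fun e' x => G e' (x + L e' v) - G e' x) 0
    intro q
    have h1 := hg (q + v)
    have h2 := hg q
    rw [Finset.sum_insert he] at h1 h2
    rw [L_add, L_add, hv1, hv2, add_zero] at h1
    simp only [L_add] at h1
    rw [Finset.sum_sub_distrib]
    have h3 := congrArg₂ (fun a b => a - b) h1 h2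
    simp only [sub_self] at h3
    rw [← h3]
    ring

lemma unique_dir [Fact p.Prime] (s q : ZMod p × ZMod p) (hsq : s ≠ q) :
    (Finset.univ.filter (fun d : Option (ZMod p) => L d s = L d q)).card = 1 := by
  rw [Finset.card_eq_one]
  by_cases h1 : s.1 = q.1
  · refine ⟨none, ?_⟩
    ext d
    simp only [Finset.mem_filter, Finset.mem_univ, true_and, Finset.mem_singleton]
    constructor
    · intro h
      cases d with
      | none => rfl
      | some m =>
        exfalso
        apply hsq
        simp only [L_some, h1] at h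
        exact Prod.ext h1 (sub_left_injective h)
    · rintro rfl
      exact h1
  · have h1' : s.1 - q.1 ≠ 0 := sub_ne_zero.2 h1
    refine ⟨some ((s.2 - q.2) / (s.1 - q.1)), ?_⟩
    ext d
    simp only [Finset.mem_filter, Finset.mem_univ, true_and, Finset.mem_singleton]
    constructor
    · intro h
      cases d with
      | none => exact absurd h h1
      | some m =>
        simp only [L_some] at h
        congr 1
        rw [eq_div_iff h1']
        linear_combination -h
    · rintro rfl
      simp only [L_some]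
      field_simp
      ring

/-- The number of points of S on a line. -/
def N (S : Finset (ZMod p × ZMod p)) (d : Option (ZMod p)) (b : ZMod p) : ℕ :=
  (S.filter (fun q => L d q = b)).card

lemma sum_dir [Fact p.Prime] (S : Finset (ZMod p × ZMod p)) (q : ZMod p × ZMod p) :
    ∑ d, N S d (L d q) = S.card + p * (if q ∈ S then 1 else 0) := by
  have h1 : ∀ d, N S d (L d q) = ∑ s ∈ S, if L d s = L d q then 1 else 0 := by
    intro d
    rw [N, Finset.card_filter]
  rw [Finset.sum_congr rfl (fun d _ => h1 d), Finset.sum_comm]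
  have h2 : ∀ s ∈ S, (∑ d, if L d s = L d q then 1 else 0) = 1 + if s = q then p else 0 := by
    intro s _
    rw [← Finset.card_filter]
    by_cases hs : s = q
    · subst hs
      simp only [if_true, Finset.filter_true, Finset.card_univ, Fintype.card_option, ZMod.card]
      ring
    · rw [unique_dir s q hs, if_neg hs]
  rw [Finset.sum_congr rfl h2, Finset.sum_add_distrib]
  simp only [Finset.sum_const, smul_eq_mul, mul_one, Finset.sum_ite_eq']
  split_ifs <;> simp

lemma sum_fiber [Fact p.Prime] (d : Option (ZMod p)) (φ : ZMod p → ℝ) :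
    ∑ q : ZMod p × ZMod p, φ (L d q) = p * ∑ b, φ b := by
  rw [Fintype.sum_prod_type]
  cases d with
  | none =>
    simp only [L_none, Finset.sum_const, Finset.card_univ, ZMod.card, nsmul_eq_mul]
    rw [Finset.mul_sum]
  | some m =>
    simp only [L_some]
    have : ∀ x : ZMod p, ∑ y, φ (y - m * x) = ∑ b, φ b := by
      intro x
      exact Equiv.sum_comp (Equiv.subRight (m * x)) φ
    rw [Finset.sum_congr rfl (fun x _ => this x)]
    simp [ZMod.card]

lemma sum_S [Fact p.Prime] (S : Finset (ZMod p × ZMod p)) (d : Option (ZMod p)) (φ : ZMod p → ℝ) :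
    ∑ q ∈ S, φ (L d q) = ∑ b, (N S d b : ℝ) * φ b := by
  rw [← Finset.sum_fiberwise S (fun q => L d q) (fun q => φ (L d q))]
  apply Finset.sum_congr rfl
  intro b _
  rw [Finset.sum_congr rfl (g := fun _ => φ b)]
  · simp [N]
  · intro q hq
    rw [(Finset.mem_filter.1 hq).2]

lemma variance [Fact p.Prime] (S : Finset (ZMod p × ZMod p)) (n : ℕ) (hn : S.card = p * n) :
    ∑ d, ∑ b, ((N S d b : ℝ) - n)^2 = (n:ℝ) * p * ((p:ℝ) - n) := by
  have hp0 : (0:ℝ) < p := by exact_mod_cast (Fact.out : p.Prime).pos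
  have hcard : (S.card : ℝ) = p * n := by rw [hn]; push_cast; ring
  have hB : ∀ q, ∑ d, ((N S d (L d q) : ℝ) - n) = p * (if q ∈ S then 1 else 0) - n := by
    intro q
    have h1 := sum_dir S q
    have h2 : ∑ d, (N S d (L d q) : ℝ) = S.card + p * (if q ∈ S then 1 else 0) := by
      exact_mod_cast h1
    rw [Finset.sum_sub_distrib, h2, hcard]
    simp only [Finset.sum_const, Finset.card_univ, Fintype.card_option, ZMod.card, nsmul_eq_mul]
    push_cast
    ring
  have hind : ∀ φ : ZMod p × ZMod p → ℝ, ∑ q, (if q ∈ S then (1:ℝ) else 0) * φ q = ∑ q ∈ S, φ q := by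
    intro φ
    simp
  have e1 : ∑ q : ZMod p × ZMod p, ((p:ℝ) * (if q ∈ S then 1 else 0) - n)^2 = (n:ℝ) * (p:ℝ)^2 * ((p:ℝ) - n) := by
    have : ∀ q : ZMod p × ZMod p, ((p:ℝ) * (if q ∈ S then 1 else 0) - n)^2
        = (if q ∈ S then (1:ℝ) else 0) * (p^2 - 2 * p * n) + n^2 := by
      intro q
      split_ifs <;> ring
    rw [Finset.sum_congr rfl (fun q _ => this q), Finset.sum_add_distrib, hind (fun _ => _)]
    simp only [Finset.sum_const, Finset.card_univ, Fintype.card_prod, ZMod.card, nsmul_eq_mul, hcard]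
    push_cast
    ring
  have e2 : ∑ q : ZMod p × ZMod p, ((p:ℝ) * (if q ∈ S then 1 else 0) - n)^2
      = p * ∑ d, ∑ b, ((N S d b : ℝ) - n)^2 := by
    have h1 : ∀ q : ZMod p × ZMod p, ((p:ℝ) * (if q ∈ S then 1 else 0) - n)^2
        = ∑ d, ((p:ℝ) * ((if q ∈ S then 1 else 0) * ((N S d (L d q) : ℝ) - n))
          - n * ((N S d (L d q) : ℝ) - n)) := by
      intro q
      rw [Finset.sum_sub_distrib, ← Finset.mul_sum, ← Finset.mul_sum, ← Finset.mul_sum, hB]
      ring
    rw [Finset.sum_congr rfl (fun q _ => h1 q), Finset.sum_comm, Finset.mul_sum]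
    apply Finset.sum_congr rfl
    intro d _
    rw [Finset.sum_sub_distrib, ← Finset.mul_sum, ← Finset.mul_sum, hind,
      sum_S S d (fun b => (N S d b : ℝ) - n), sum_fiber d (fun b => (N S d b : ℝ) - n)]
    rw [Finset.mul_sum, Finset.mul_sum, Finset.mul_sum, Finset.mul_sum, ← Finset.sum_sub_distrib]
    apply Finset.sum_congr rfl
    intro b _
    ring
  have h3 : (p:ℝ) * ∑ d, ∑ b, ((N S d b : ℝ) - n)^2 = p * ((n:ℝ) * p * ((p:ℝ) - n)) := by
    rw [← e2, e1]; ring
  exact mul_left_cancel₀ hp0.ne' h3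

lemma sum_N [Fact p.Prime] (S : Finset (ZMod p × ZMod p)) (d : Option (ZMod p)) :
    ∑ b, (N S d b : ℝ) = S.card := by
  have := sum_S S d (fun _ => 1)
  simp only [mul_one, Finset.sum_const, nsmul_eq_mul] at this
  exact this.symm

lemma N_le [Fact p.Prime] (S : Finset (ZMod p × ZMod p)) (d : Option (ZMod p)) (b : ZMod p) :
    N S d b ≤ p := by
  have h1 : N S d b ≤ N Finset.univ d b := by
    apply Finset.card_le_card
    exact Finset.filter_subset_filter _ (Finset.subset_univ _)
  have h2 : (N Finset.univ d b : ℝ) = p := by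
    have h3 := sum_fiber d (fun x => if x = b then (1:ℝ) else 0)
    have h4 := sum_S Finset.univ d (fun x => if x = b then (1:ℝ) else 0)
    rw [h3] at h4
    simp at h4
    exact_mod_cast h4.symm
  have h5 : N Finset.univ d b = p := by exact_mod_cast h2
  omega

end

lemma const_case {p : ℕ} [Fact p.Prime] (S : Finset (ZMod p × ZMod p)) (n : ℕ)
    (hn : S.card = p * n) (d : Option (ZMod p)) (hd : ∃ b, N S d b ≠ n)
    (hc : ∀ x y, ((N S d x : ℕ) : ZMod p) = ((N S d y : ℕ) : ZMod p)) :
    ∀ e, e ≠ d → ∀ b, N S e b = n := by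
  have hp0 : (0:ℝ) < p := by exact_mod_cast (Fact.out : p.Prime).pos
  have hcard : (S.card : ℝ) = p * n := by rw [hn]; push_cast; ring
  have h01 : ∀ b, N S d b = 0 ∨ N S d b = p := by
    by_contra hcon
    push Not at hcon
    obtain ⟨b1, hb0, hbp⟩ := hcon
    have hall : ∀ b, N S d b = N S d b1 := by
      intro b
      have h1 := hc b b1
      rw [ZMod.natCast_eq_natCast_iff] at h1
      have h2 := N_le S d b
      have h3 := N_le S d b1
      have h4 : N S d b1 < p := lt_of_le_of_ne h3 hbp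
      have h5 : N S d b1 % p = N S d b1 := Nat.mod_eq_of_lt h4
      rw [Nat.ModEq, h5] at h1
      rcases Nat.lt_or_ge (N S d b) p with h6 | h6
      · rw [Nat.mod_eq_of_lt h6] at h1
        exact h1
      · have h7 : N S d b = p := le_antisymm h2 h6
        rw [h7, Nat.mod_self] at h1
        exact absurd h1.symm hb0
    have hsum := sum_N S d
    rw [Finset.sum_congr rfl (fun b _ => by rw [hall b] : ∀ b ∈ Finset.univ,
      (N S d b : ℝ) = (N S d b1 : ℝ))] at hsum
    simp only [Finset.sum_const, Finset.card_univ, ZMod.card, nsmul_eq_mul, hcard] at hsum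
    have h8 : (N S d b1 : ℝ) = n := mul_left_cancel₀ hp0.ne' hsum
    obtain ⟨b, hb⟩ := hd
    apply hb
    rw [hall b]
    exact_mod_cast h8
  have hvar : ∑ b, ((N S d b : ℝ) - n)^2 = (n:ℝ) * p * ((p:ℝ) - n) := by
    have h1 : ∀ b, ((N S d b : ℝ) - n)^2 = (N S d b : ℝ) * (p - 2 * n) + n^2 := by
      intro b
      rcases h01 b with h | h
      · rw [h]; push_cast; ring
      · rw [h]; ring
    rw [Finset.sum_congr rfl (fun b _ => h1 b), Finset.sum_add_distrib, ← Finset.sum_mul, sum_N,
      hcard]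
    simp only [Finset.sum_const, Finset.card_univ, ZMod.card, nsmul_eq_mul]
    ring
  have htot := variance S n hn
  intro e he b
  have h2 : ∑ d' ∈ Finset.univ.erase d, ∑ b, ((N S d' b : ℝ) - n)^2 = 0 := by
    have h3 := Finset.add_sum_erase Finset.univ (fun d' => ∑ b, ((N S d' b : ℝ) - n)^2)
      (Finset.mem_univ d)
    rw [htot, hvar] at h3
    linarith
  rw [Finset.sum_eq_zero_iff_of_nonneg (fun d' _ => Finset.sum_nonneg (fun b _ => sq_nonneg _))] at h2
  have h4 := h2 e (Finset.mem_erase.2 ⟨he, Finset.mem_univ _⟩)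
  rw [Finset.sum_eq_zero_iff_of_nonneg (fun b _ => sq_nonneg _)] at h4
  have h5 := h4 b (Finset.mem_univ _)
  have h6 : (N S e b : ℝ) - n = 0 := by
    exact pow_eq_zero_iff (two_ne_zero) |>.1 h5
  have h7 : (N S e b : ℝ) = n := by linarith
  exact_mod_cast h7

lemma char_val {p : ℕ} [Fact p.Prime] (m : ℕ) :
    (ZMod.stdAddChar (m : ZMod p) : ℂ) = Complex.exp (2 * Real.pi * Complex.I * m / p) := by
  have := ZMod.stdAddChar_coe (N := p) (m : ℤ)
  simpa using this

lemma cos_sum_bound {p : ℕ} [Fact p.Prime] (f : ZMod p → ℕ) (n k : ℕ) :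
    |∑ b, Real.cos (k * (2 * Real.pi * ((f b : ℝ) - n) / p))| ≤
      ‖∑ b, ((ZMod.stdAddChar (N := p))^k) (f b : ZMod p)‖ := by
  have h1 : ∑ b, Real.cos (k * (2 * Real.pi * ((f b : ℝ) - n) / p))
      = (Complex.exp (((-(k * (2 * Real.pi * n / p)) : ℝ) : ℂ) * Complex.I)
        * ∑ b, ((ZMod.stdAddChar (N := p))^k) (f b : ZMod p)).re := by
    rw [Finset.mul_sum, Complex.re_sum]
    apply Finset.sum_congr rfl
    intro b _
    rw [AddChar.pow_apply, char_val, ← Complex.exp_nat_mul, ← Complex.exp_add]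
    have h2 : (((-(k * (2 * Real.pi * n / p)) : ℝ) : ℂ) * Complex.I
        + (k:ℂ) * (2 * Real.pi * Complex.I * (f b : ℂ) / p))
        = ((k * (2 * Real.pi * ((f b : ℝ) - n) / p) : ℝ) : ℂ) * Complex.I := by
      push_cast
      ring
    rw [h2, Complex.exp_ofReal_mul_I_re]
  rw [h1]
  refine (Complex.abs_re_le_norm _).trans ?_
  rw [norm_mul, Complex.norm_exp_ofReal_mul_I, one_mul]

lemma stdAddChar_ne_one {p : ℕ} [Fact p.Prime] : (ZMod.stdAddChar (N := p)) ≠ 1 := by
  intro h
  have h1 := ZMod.injective_stdAddChar (N := p)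
  have h2 : (ZMod.stdAddChar (1 : ZMod p) : ℂ) = ZMod.stdAddChar (0 : ZMod p) := by
    rw [h]; simp
  exact one_ne_zero (h1 h2)

lemma stdAddChar_sq_ne_one {p : ℕ} [Fact p.Prime] (hp : 2 < p) :
    (ZMod.stdAddChar (N := p))^2 ≠ 1 := by
  intro h
  have h1 := ZMod.injective_stdAddChar (N := p)
  have h2 : (ZMod.stdAddChar (2 : ZMod p) : ℂ) = ZMod.stdAddChar (0 : ZMod p) := by
    have h3 : ((ZMod.stdAddChar (N := p))^2) 1 = 1 := by rw [h]; simp
    rw [AddChar.pow_apply] at h3
    rw [AddChar.map_zero_eq_one, ← h3, ← AddChar.map_nsmul_eq_pow]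
    norm_num
  have h4 := h1 h2
  have h5 : ((2 : ℕ) : ZMod p) = 0 := by exact_mod_cast h4
  rw [ZMod.natCast_eq_zero_iff] at h5
  exact absurd (Nat.le_of_dvd (by norm_num) h5) (by omega)

/-- For every k ≥ 4 there is p₀ such that for all primes p > p₀, no point set S in the plane over 𝔽_p with p dividing ∣S∣ has exactly k directions in which some line meets S in other than ∣S∣/p points. -/
theorem result :
    ∀ k : ℕ, 4 ≤ k → ∃ p₀ : ℕ, ∀ p : ℕ, p.Prime → p₀ < p →
      ∀ S : Finset (ZMod p × ZMod p), p ∣ S.card →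
        {d : Option (ZMod p) | ∃ b : ZMod p,
            (S.filter (fun q => d.elim q.1 (fun m => q.2 - m * q.1) = b)).card * p
              ≠ S.card}.ncard ≠ k := by
  intro k hk
  obtain ⟨P, hP⟩ := weyl k (1/1000) (by norm_num)
  refine ⟨max P 2, ?_⟩
  intro p hprime hp S hdvd hcardk
  have : Fact p.Prime := ⟨hprime⟩
  have hpP : P < p := lt_of_le_of_lt (le_max_left _ _) hp
  have hp2 : 2 < p := lt_of_le_of_lt (le_max_right _ _) hp
  have hp0 : (0:ℝ) < p := by exact_mod_cast hprime.pos
  obtain ⟨n, hn⟩ := hdvd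
  have hmem : ∀ d b, (N S d b * p ≠ S.card ↔ N S d b ≠ n) := by
    intro d b
    rw [hn, mul_comm p n]
    constructor
    · intro h h'
      exact h (by rw [h'])
    · intro h h'
      exact h (Nat.eq_of_mul_eq_mul_right hprime.pos h')
  set D : Finset (Option (ZMod p)) := Finset.univ.filter (fun d => ∃ b, N S d b ≠ n) with hD
  have hset : {d : Option (ZMod p) | ∃ b : ZMod p,
            (S.filter (fun q => d.elim q.1 (fun m => q.2 - m * q.1) = b)).card * p
              ≠ S.card} = (D : Set (Option (ZMod p))) := by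
    ext d
    simp only [Set.mem_ofPred_eq, hD, Finset.coe_filter, Finset.mem_univ, true_and]
    exact exists_congr (fun b => hmem d b)
  rw [hset, Set.ncard_coe_finset] at hcardk
  -- every special direction has a nonconstant count modulo p
  have hnonconst : ∀ d ∈ D, ∃ x y, ((N S d x : ℕ) : ZMod p) ≠ ((N S d y : ℕ) : ZMod p) := by
    intro d hd
    by_contra hcon
    push Not at hcon
    have h1 := const_case S n hn d (Finset.mem_filter.1 hd).2 hcon
    have h2 : D ⊆ {d} := by
      intro e he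
      rw [Finset.mem_singleton]
      by_contra hne
      obtain ⟨b, hb⟩ := (Finset.mem_filter.1 he).2
      exact hb (h1 e hne b)
    have h3 := Finset.card_le_card h2
    rw [Finset.card_singleton] at h3
    omega
  -- polynomiality
  have hpoly : ∀ d ∈ D, PolyLE k (fun b => ((N S d b : ℕ) : ZMod p)) := by
    intro d hd
    have h1 : (D.erase d).card + 1 = k := by
      rw [Finset.card_erase_add_one hd, hcardk]
    rw [← h1]
    apply poly_of_sum d (D.erase d) (Finset.notMem_erase d D) _
      (fun e b => ((N S e b : ℕ) : ZMod p)) (k * n - n)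
    intro q
    rw [Finset.add_sum_erase D (fun e => ((N S e (L e q) : ℕ) : ZMod p)) hd]
    have h2 := sum_dir S q
    have h3 : ∑ e, ((N S e (L e q) : ℕ) : ZMod p) = 0 := by
      have h4 := congrArg (fun m : ℕ => (m : ZMod p)) h2
      simp only [hn] at h4
      push_cast at h4
      rw [h4]
      simp
    have h5 : ∑ e, (((N S e (L e q) : ℕ) : ZMod p) - n)
        = ∑ e ∈ D, (((N S e (L e q) : ℕ) : ZMod p) - n) := by
      symm
      apply Finset.sum_subset (Finset.subset_univ D)
      intro e _ he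
      have h6 : N S e (L e q) = n := by
        by_contra h7
        exact he (Finset.mem_filter.2 ⟨Finset.mem_univ _, ⟨_, h7⟩⟩)
      rw [h6, sub_self]
    rw [Finset.sum_sub_distrib, Finset.sum_sub_distrib, h3] at h5
    simp only [Finset.sum_const, Finset.card_univ, Fintype.card_option, ZMod.card, nsmul_eq_mul,
      hcardk] at h5
    have h8 : ((p + 1 : ℕ) : ZMod p) = 1 := by simp
    rw [h8] at h5
    linear_combination -h5
  -- lower bound for each direction
  have hlow : ∀ d ∈ D, (p:ℝ)^3 * (2497 / 1000)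
      ≤ (4 * Real.pi^2) * ∑ b, ((N S d b : ℝ) - n)^2 := by
    intro d hd
    obtain ⟨x, y, hxy⟩ := hnonconst d hd
    have e1 := hP p hpP (ZMod.stdAddChar (N := p)) stdAddChar_ne_one
      (fun b => ((N S d b : ℕ) : ZMod p)) (hpoly d hd) ⟨x, y, hxy⟩
    have e2 := hP p hpP ((ZMod.stdAddChar (N := p))^2) (stdAddChar_sq_ne_one hp2)
      (fun b => ((N S d b : ℕ) : ZMod p)) (hpoly d hd) ⟨x, y, hxy⟩
    have c1 := cos_sum_bound (fun b => N S d b) n 1
    have c2 := cos_sum_bound (fun b => N S d b) n 2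
    rw [pow_one] at c1
    have c1' := (abs_le.1 (c1.trans e1)).2
    have c2' := (abs_le.1 (c2.trans e2)).1
    have hmin : ∑ b, (5/2 - (8/3) * Real.cos ((1:ℕ) * (2 * Real.pi * ((N S d b : ℝ) - n) / p))
        + (1/6) * Real.cos ((2:ℕ) * (2 * Real.pi * ((N S d b : ℝ) - n) / p)))
        ≤ ∑ b, (2 * Real.pi * ((N S d b : ℝ) - n) / p)^2 := by
      apply Finset.sum_le_sum
      intro b _
      have := trig_minorant (2 * Real.pi * ((N S d b : ℝ) - n) / p)
      push_cast
      rw [one_mul]
      exact this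
    rw [Finset.sum_add_distrib, Finset.sum_sub_distrib, ← Finset.mul_sum, ← Finset.mul_sum] at hmin
    simp only [Finset.sum_const, Finset.card_univ, ZMod.card, nsmul_eq_mul] at hmin
    have hsq : ∑ b, (2 * Real.pi * ((N S d b : ℝ) - n) / p)^2
        = (4 * Real.pi^2) * (∑ b, ((N S d b : ℝ) - n)^2) / p^2 := by
      rw [Finset.mul_sum, Finset.sum_div]
      apply Finset.sum_congr rfl
      intro b _
      ring
    rw [hsq] at hmin
    have h1 : (p:ℝ) * (2497 / 1000) ≤
        (4 * Real.pi^2) * (∑ b, ((N S d b : ℝ) - n)^2) / p^2 := by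
      refine le_trans ?_ hmin
      linarith
    rw [le_div_iff₀ (by positivity)] at h1
    calc (p:ℝ)^3 * (2497 / 1000) = (p:ℝ) * (2497 / 1000) * p^2 := by ring
      _ ≤ _ := h1
  have hsum : ∑ d ∈ D, ∑ b, ((N S d b : ℝ) - n)^2 ≤ (p:ℝ)^3 / 4 := by
    have h1 : ∑ d ∈ D, ∑ b, ((N S d b : ℝ) - n)^2 ≤ ∑ d, ∑ b, ((N S d b : ℝ) - n)^2 :=
      Finset.sum_le_sum_of_subset_of_nonneg (Finset.subset_univ D)
        (fun d _ _ => Finset.sum_nonneg (fun b _ => sq_nonneg _))
    refine h1.trans ?_
    rw [variance S n hn]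
    nlinarith [mul_nonneg hp0.le (sq_nonneg ((p:ℝ) - 2 * n))]
  have hsum2 : (D.card : ℝ) * ((p:ℝ)^3 * (2497 / 1000)) ≤ (4 * Real.pi^2) * ((p:ℝ)^3 / 4) := by
    have h1 := Finset.sum_le_sum hlow
    rw [Finset.sum_const, nsmul_eq_mul, ← Finset.mul_sum] at h1
    exact h1.trans (mul_le_mul_of_nonneg_left hsum (by positivity))
  have hk4 : (4:ℝ) ≤ D.card := by
    rw [hcardk]; exact_mod_cast hk
  have hpi : Real.pi^2 < 9.9225 := by
    have h1 := Real.pi_lt_d2
    have h2 := Real.pi_pos
    nlinarith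
  have hp3 : (0:ℝ) < (p:ℝ)^3 := by positivity
  have h5 : (4:ℝ) * ((p:ℝ)^3 * (2497 / 1000)) ≤ (D.card : ℝ) * ((p:ℝ)^3 * (2497 / 1000)) :=
    mul_le_mul_of_nonneg_right hk4 (by positivity)
  nlinarith

end Pool.Agent.S11957
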