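import Pool.Statements.S12383

set_option autoImplicit false
open Pool Pool.MP_f2f693_co

namespace Pool.Agent.S12383

/-- The sign character. -/
def chi (a : ZMod 2) : ℤ := (-1 : ℤ) ^ a.val

lemma chi_add (a b : ZMod 2) : chi (a + b) = chi a * chi b := by
  revert a b; decide

lemma chi_zero : chi 0 = 1 := by decide

lemma chi_one : chi 1 = -1 := by decide

lemma chi_sum {ι : Type*} (s : Finset ι) (g : ι → ZMod 2) :
    chi (∑ i ∈ s, g i) = ∏ i ∈ s, chi (g i) := by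
  classical
  induction s using Finset.induction_on with
  | empty => simp [chi_zero]
  | insert a s ha ih => rw [Finset.sum_insert ha, Finset.prod_insert ha, chi_add, ih]

lemma sum_chi_mul (a : ZMod 2) : ∑ c : ZMod 2, chi (c * a) = if a = 0 then 2 else 0 := by
  revert a; decide

lemma sum_chi {κ : Type*} [Fintype κ] [DecidableEq κ] (a : κ → ZMod 2) :
    ∑ v : κ → ZMod 2, chi (∑ i, v i * a i) = if a = 0 then 2 ^ Fintype.card κ else 0 := by
  have h1 : ∀ v : κ → ZMod 2, chi (∑ i, v i * a i) = ∏ i, chi (v i * a i) := fun v => chi_sum _ _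
  simp_rw [h1]
  have h2 := Finset.prod_univ_sum (fun _ : κ => (Finset.univ : Finset (ZMod 2)))
    (fun i c => chi (c * a i))
  rw [Fintype.piFinset_univ] at h2
  rw [← h2]
  simp_rw [sum_chi_mul]
  by_cases ha : a = 0
  · subst ha; simp
  · rw [if_neg ha]
    obtain ⟨i, hi⟩ := Function.ne_iff.mp ha
    exact Finset.prod_eq_zero (Finset.mem_univ i) (if_neg hi)

/-- Walsh transform. -/
def Wh (m : ℕ) (f : (Fin m → ZMod 2) → ZMod 2) (y : Fin m → ZMod 2) : ℤ :=
  ∑ x : Fin m → ZMod 2, chi (f x + ∑ i, x i * y i)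

/-- Bent functions. -/
def Bn (m : ℕ) : Set ((Fin m → ZMod 2) → ZMod 2) := {f | ∀ y, |Wh m f y| = 2 ^ (m / 2)}

lemma Wh_add_lin (m : ℕ) (f : (Fin m → ZMod 2) → ZMod 2) (a y : Fin m → ZMod 2) :
    Wh m (fun x => f x + ∑ i, x i * a i) y = Wh m f (a + y) := by
  unfold Wh
  refine Finset.sum_congr rfl fun x _ => ?_
  congr 1
  rw [add_assoc, ← Finset.sum_add_distrib]
  simp only [Pi.add_apply, mul_add]

lemma Wh_add_one (m : ℕ) (f : (Fin m → ZMod 2) → ZMod 2) (y : Fin m → ZMod 2) :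
    Wh m (f + 1) y = - Wh m f y := by
  unfold Wh
  rw [← Finset.sum_neg_distrib]
  refine Finset.sum_congr rfl fun x _ => ?_
  have : (f + 1) x + ∑ i, x i * y i = (f x + ∑ i, x i * y i) + 1 := by
    simp only [Pi.add_apply, Pi.one_apply]; ring
  rw [this, chi_add, chi_one]; ring

lemma Bn_add_lin {m : ℕ} {f : (Fin m → ZMod 2) → ZMod 2} (hf : f ∈ Bn m) (a : Fin m → ZMod 2) :
    (fun x => f x + ∑ i, x i * a i) ∈ Bn m := by
  intro y
  rw [Wh_add_lin]; exact hf _

lemma Bn_add_one {m : ℕ} {f : (Fin m → ZMod 2) → ZMod 2} (hf : f ∈ Bn m) :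
    f + 1 ∈ Bn m := by
  intro y
  rw [Wh_add_one, abs_neg]; exact hf _

lemma abs_chi (a : ZMod 2) : |chi a| = 1 := by revert a; decide

lemma exists_bent (k : ℕ) : (Bn (2 * k)).Nonempty := by
  classical
  let e : Fin (2 * k) ≃ Fin k ⊕ Fin k := Fintype.equivOfCardEq (by simp; ring)
  let F : (Fin (2 * k) → ZMod 2) ≃ (Fin k → ZMod 2) × (Fin k → ZMod 2) :=
    (Equiv.arrowCongr e (Equiv.refl _)).trans (Equiv.sumArrowEquivProdArrow _ _ _)
  have hF1 : ∀ x i, (F x).1 i = x (e.symm (Sum.inl i)) := fun x i => rfl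
  have hF2 : ∀ x i, (F x).2 i = x (e.symm (Sum.inr i)) := fun x i => rfl
  refine ⟨fun x => ∑ i, (F x).1 i * (F x).2 i, ?_⟩
  intro y
  have key : Wh (2 * k) (fun x => ∑ i, (F x).1 i * (F x).2 i) y
      = 2 ^ k * chi (∑ i, (F y).2 i * (F y).1 i) := by
    unfold Wh
    have hdot : ∀ x : Fin (2 * k) → ZMod 2, ∑ i, x i * y i
        = ∑ i, (F x).1 i * (F y).1 i + ∑ i, (F x).2 i * (F y).2 i := by
      intro x
      rw [← Equiv.sum_comp e.symm, Fintype.sum_sum_type]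
      rfl
    simp_rw [hdot]
    rw [← Equiv.sum_comp F.symm]
    simp only [Equiv.apply_symm_apply]
    rw [Fintype.sum_prod_type]
    have hin : ∀ u : Fin k → ZMod 2, ∑ v : Fin k → ZMod 2,
        chi (∑ i, u i * v i + (∑ i, u i * (F y).1 i + ∑ i, v i * (F y).2 i))
        = if u = (F y).2 then 2 ^ k * chi (∑ i, u i * (F y).1 i) else 0 := by
      intro u
      have h3 : ∀ v : Fin k → ZMod 2,
          chi (∑ i, u i * v i + (∑ i, u i * (F y).1 i + ∑ i, v i * (F y).2 i))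
          = chi (∑ i, v i * (u + (F y).2) i) * chi (∑ i, u i * (F y).1 i) := by
        intro v
        rw [← chi_add]
        congr 1
        simp only [Pi.add_apply, mul_add, Finset.sum_add_distrib]
        have : ∑ i, u i * v i = ∑ i, v i * u i := Finset.sum_congr rfl fun i _ => mul_comm _ _
        rw [this]; ring
      simp_rw [h3]
      rw [← Finset.sum_mul, sum_chi]
      have h4 : (u + (F y).2 = 0) ↔ u = (F y).2 := by
        constructor
        · intro h
          have := eq_neg_of_add_eq_zero_left h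
          rw [this]
          funext i
          simp only [Pi.neg_apply]
          exact ZMod.neg_eq_self_mod_two _
        · intro h
          rw [h]
          funext i
          simp only [Pi.add_apply, Pi.zero_apply]
          exact CharTwo.add_self_eq_zero _
      by_cases h : u = (F y).2
      · rw [if_pos (h4.mpr h), if_pos h, Fintype.card_fin]
      · rw [if_neg (fun h' => h (h4.mp h')), if_neg h, zero_mul]
    simp_rw [hin]
    simp
  rw [key, abs_mul, abs_chi, mul_one, abs_of_nonneg (by positivity)]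
  congr 1
  omega

lemma card_Bn_ge (k : ℕ) : 2 ^ (2 * k) ≤ (Bn (2 * k)).ncard := by
  classical
  obtain ⟨f, hf⟩ := exists_bent k
  let φ : (Fin (2 * k) → ZMod 2) → ((Fin (2 * k) → ZMod 2) → ZMod 2) :=
    fun a x => f x + ∑ i, x i * a i
  have hinj : Function.Injective φ := by
    intro a b hab
    funext j
    have := congrFun hab (Pi.single j 1)
    simpa [φ, Pi.single_apply] using this
  have hsub : Set.range φ ⊆ Bn (2 * k) := by
    rintro _ ⟨a, rfl⟩
    exact Bn_add_lin hf a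
  have h1 := Set.ncard_le_ncard hsub (Set.toFinite _)
  have h2 : (Set.range φ).ncard = 2 ^ (2 * k) := by
    rw [← Set.image_univ, Set.ncard_image_of_injective _ hinj, Set.ncard_univ]
    simp
  omega

lemma ratio_tendsto (u x y : ℕ → ℝ) (hu : Filter.Tendsto u Filter.atTop Filter.atTop)
    (hx1 : ∀ᶠ k in Filter.atTop, 1 + u k ≤ x k) (hx2 : ∀ᶠ k in Filter.atTop, x k ≤ 2 + u k)
    (hy1 : ∀ᶠ k in Filter.atTop, 1 + u k ≤ y k) (hy2 : ∀ᶠ k in Filter.atTop, y k ≤ 2 + u k) :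
    Filter.Tendsto (fun k => x k / y k) Filter.atTop (nhds 1) := by
  have hpos : ∀ᶠ k in Filter.atTop, 1 ≤ u k := hu.eventually_ge_atTop 1
  have hinv : Filter.Tendsto (fun k => (u k)⁻¹) Filter.atTop (nhds 0) :=
    tendsto_inv_atTop_zero.comp hu
  have hlow : Filter.Tendsto (fun k => 1 - (u k)⁻¹) Filter.atTop (nhds 1) := by
    simpa using (tendsto_const_nhds (x := (1 : ℝ))).sub hinv
  have hup : Filter.Tendsto (fun k => 1 + (u k)⁻¹) Filter.atTop (nhds 1) := by
    simpa using (tendsto_const_nhds (x := (1 : ℝ))).add hinv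
  refine tendsto_of_tendsto_of_tendsto_of_le_of_le' hlow hup ?_ ?_
  · filter_upwards [hpos, hx1, hx2, hy1, hy2] with k h0 h1 h2 h3 h4
    have hy : 0 < y k := by linarith
    rw [le_div_iff₀ hy]
    have hu0 : 0 < u k := by linarith
    have h5 : 1 - (u k)⁻¹ ≤ 1 := by
      have := inv_pos.mpr hu0; linarith
    have h6 : 0 ≤ 1 - (u k)⁻¹ := by
      have : (u k)⁻¹ ≤ 1 := inv_le_one_of_one_le₀ h0
      linarith
    calc (1 - (u k)⁻¹) * y k ≤ (1 - (u k)⁻¹) * (2 + u k) := mul_le_mul_of_nonneg_left h4 h6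
      _ = 1 + u k - 2 * (u k)⁻¹ := by field_simp; ring
      _ ≤ 1 + u k := by have := inv_pos.mpr hu0; linarith
      _ ≤ x k := h1
  · filter_upwards [hpos, hx1, hx2, hy1, hy2] with k h0 h1 h2 h3 h4
    have hy : 0 < y k := by linarith
    rw [div_le_iff₀ hy]
    have hu0 : 0 < u k := by linarith
    have h6 : 0 ≤ 1 + (u k)⁻¹ := by
      have := inv_pos.mpr hu0; linarith
    calc x k ≤ 2 + u k := h2
      _ ≤ (1 + (u k)⁻¹) * (1 + u k) := by
        have : (1 + (u k)⁻¹) * (1 + u k) = 2 + u k + (u k)⁻¹ := by field_simp; ring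
        rw [this]; have := inv_pos.mpr hu0; linarith
      _ ≤ (1 + (u k)⁻¹) * y k := mul_le_mul_of_nonneg_left h3 h6

/-- From `b ^ 2 ≤ t ≤ b ^ 4` and `2 < b`, bounds for the iterated logarithm. -/
lemma loglog_bounds {b t : ℝ} (hb : 2 < b) (h1 : b ^ 2 ≤ t) (h2 : t ≤ b ^ 4) :
    1 + Real.logb 2 (Real.logb 2 b) ≤ Real.logb 2 (Real.logb 2 t) ∧
      Real.logb 2 (Real.logb 2 t) ≤ 2 + Real.logb 2 (Real.logb 2 b) := by
  have hb0 : 0 < b := by linarith
  have ht0 : 0 < t := lt_of_lt_of_le (by positivity) h1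
  have hlb : 0 < Real.logb 2 b := Real.logb_pos (by norm_num) (by linarith)
  have e1 : 2 * Real.logb 2 b ≤ Real.logb 2 t := by
    have := Real.logb_le_logb_of_le (b := 2) (by norm_num) (by positivity) h1
    rw [Real.logb_pow] at this
    exact_mod_cast this
  have e2 : Real.logb 2 t ≤ 4 * Real.logb 2 b := by
    have := Real.logb_le_logb_of_le (b := 2) (by norm_num) ht0 h2
    rw [Real.logb_pow] at this
    exact_mod_cast this
  constructor
  · have := Real.logb_le_logb_of_le (b := 2) (by norm_num) (by positivity) e1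
    rw [Real.logb_mul (by norm_num) hlb.ne', Real.logb_self_eq_one (by norm_num)] at this
    exact this
  · have := Real.logb_le_logb_of_le (b := 2) (by norm_num) (by linarith) e2
    rw [Real.logb_mul (by norm_num) hlb.ne'] at this
    have h4 : Real.logb 2 4 = 2 := by
      rw [show (4 : ℝ) = 2 ^ (2 : ℕ) by norm_num, Real.logb_pow, Real.logb_self_eq_one (by norm_num)]
      norm_num
    rw [h4] at this
    exact this

lemma card_X_le {α : Type*} [AddCommGroup α] [Finite α] (S : Set α) :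
    ({g | ∃ f ∈ S, ∃ h ∈ S, g = f + h} : Set α).ncard ≤ S.ncard ^ 2 := by
  have h : ({g | ∃ f ∈ S, ∃ h ∈ S, g = f + h} : Set α) = (fun p : α × α => p.1 + p.2) '' (S ×ˢ S) := by
    ext g
    simp only [Set.mem_ofPred_eq, Set.mem_image, Set.mem_prod, Prod.exists]
    constructor
    · rintro ⟨f, hf, h, hh, rfl⟩
      exact ⟨f, h, ⟨hf, hh⟩, rfl⟩
    · rintro ⟨f, h, ⟨hf, hh⟩, rfl⟩
      exact ⟨f, hf, h, hh, rfl⟩
  rw [h]
  calc _ ≤ (S ×ˢ S).ncard := Set.ncard_image_le (Set.toFinite _)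
    _ = S.ncard ^ 2 := by rw [Set.ncard_prod]; ring

lemma card_X_pos {α : Type*} [AddCommGroup α] [Finite α] (S : Set α) (hS : S.Nonempty) :
    0 < ({g | ∃ f ∈ S, ∃ h ∈ S, g = f + h} : Set α).ncard := by
  obtain ⟨f, hf⟩ := hS
  exact (Set.ncard_pos (Set.toFinite _)).mpr ⟨f + f, f, hf, f, hf, rfl⟩

lemma card_BI_le {α : Type*} [Finite α] (S : Set α) (P : (Fin 4 → α) → Prop) :
    ({t : Fin 4 → α | (∀ i, t i ∈ S) ∧ P t}).ncard ≤ S.ncard ^ 4 := by
  have h1 : ({t : Fin 4 → α | (∀ i, t i ∈ S) ∧ P t}) ⊆ {t : Fin 4 → α | ∀ i, t i ∈ S} :=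
    fun t ht => ht.1
  refine (Set.ncard_le_ncard h1 (Set.toFinite _)).trans ?_
  have h2 : ({t : Fin 4 → α | ∀ i, t i ∈ S}) = Set.range (fun s : Fin 4 → S => fun i => (s i : α)) := by
    ext t
    simp only [Set.mem_ofPred_eq, Set.mem_range]
    constructor
    · intro h
      exact ⟨fun i => ⟨t i, h i⟩, rfl⟩
    · rintro ⟨s, rfl⟩ i
      exact (s i).2
  rw [h2, ← Set.image_univ]
  refine (Set.ncard_image_le (Set.toFinite _)).trans ?_
  rw [Set.ncard_univ, Nat.card_fun]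
  simp [Set.ncard]

lemma card_BI_ge (m : ℕ) (c : ℤ) (hc : ∀ f ∈ Bn m, ∀ y, Wh m f y ^ 2 = c ^ 2) :
    (Bn m).ncard ^ 2 ≤ ({t : Fin 4 → ((Fin m → ZMod 2) → ZMod 2) |
        (∀ i, t i ∈ Bn m) ∧ ∀ y, ∏ i, Wh m (t i) y = -c ^ 4}).ncard := by
  have h1 : (fun p : ((Fin m → ZMod 2) → ZMod 2) × ((Fin m → ZMod 2) → ZMod 2) =>
      (![p.1, p.1 + 1, p.2, p.2] : Fin 4 → ((Fin m → ZMod 2) → ZMod 2))) '' (Bn m ×ˢ Bn m) ⊆
      {t : Fin 4 → ((Fin m → ZMod 2) → ZMod 2) |
        (∀ i, t i ∈ Bn m) ∧ ∀ y, ∏ i, Wh m (t i) y = -c ^ 4} := by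
    rintro _ ⟨⟨f, g⟩, ⟨hf, hg⟩, rfl⟩
    refine ⟨?_, ?_⟩
    · intro i
      fin_cases i
      · exact hf
      · exact Bn_add_one hf
      · exact hg
      · exact hg
    · intro y
      simp only [Fin.prod_univ_four, Matrix.cons_val]
      rw [Wh_add_one]
      have e1 := hc f hf y
      have e2 := hc g hg y
      calc Wh m f y * -Wh m f y * Wh m g y * Wh m g y
          = -((Wh m f y) ^ 2 * (Wh m g y) ^ 2) := by ring
        _ = -c ^ 4 := by rw [e1, e2]; ring
  have h2 := Set.ncard_le_ncard h1 (Set.toFinite _)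
  rw [Set.ncard_image_of_injective] at h2
  · rw [Set.ncard_prod] at h2
    rw [sq]; exact h2
  · rintro ⟨f, g⟩ ⟨f', g'⟩ h
    have a0 := congrFun h 0
    have a2 := congrFun h 2
    simp only [Matrix.cons_val] at a0 a2
    rw [a0, a2]

/-- For m=2k: eventually ∣B_m∣^4/∣X_m∣>1, and loglog(∣B_m∣^4/∣X_m∣)/loglog(#bent-iterative functions on m+2 variables) tends to 1 as k grows, logs base 2, counted via 4-tuples of bent functions with duals summing to 1. -/
theorem result :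
  ∀ (W : (m : ℕ) → ((Fin m → ZMod 2) → ZMod 2) → (Fin m → ZMod 2) → ℤ),
    (∀ m f y, W m f y = ∑ x : Fin m → ZMod 2, (-1 : ℤ) ^ (f x + ∑ i, x i * y i).val) →
  ∀ (B : (m : ℕ) → Set ((Fin m → ZMod 2) → ZMod 2)),
    (∀ m, B m = {f | ∀ y, |W m f y| = 2 ^ (m / 2)}) →
  ∀ (L : ℕ → ℝ),
    (∀ m, L m = ((B m).ncard : ℝ) ^ 4 /
      (({g | ∃ f ∈ B m, ∃ h ∈ B m, g = f + h} : Set ((Fin m → ZMod 2) → ZMod 2)).ncard : ℝ)) →
  ∀ (BI : ℕ → ℝ),
    (∀ m, BI m = (({t : Fin 4 → ((Fin m → ZMod 2) → ZMod 2) |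
        (∀ i, t i ∈ B m) ∧ ∀ y, ∏ i, W m (t i) y = -(2 ^ (m / 2)) ^ 4}).ncard : ℝ)) →
  (∃ K : ℕ, ∀ k ≥ K, 1 < L (2 * k)) ∧
  Filter.Tendsto
    (fun k : ℕ => Real.logb 2 (Real.logb 2 (L (2 * k))) / Real.logb 2 (Real.logb 2 (BI (2 * k))))
    Filter.atTop (nhds 1) := by
  intro W hW B hB L hL BI hBI
  have hWW : W = Wh := by
    funext m f y
    rw [hW]; rfl
  subst hWW
  have hBB : B = Bn := by
    funext m
    rw [hB]; rfl
  subst hBB
  -- the two-sided bounds
  have hcard : ∀ k : ℕ, ((2 : ℝ) ^ (2 * k)) ≤ ((Bn (2 * k)).ncard : ℝ) := fun k => by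
    exact_mod_cast card_Bn_ge k
  have hbpos : ∀ k : ℕ, (0 : ℝ) < ((Bn (2 * k)).ncard : ℝ) := fun k =>
    lt_of_lt_of_le (by positivity) (hcard k)
  have hL1 : ∀ k, ((Bn (2 * k)).ncard : ℝ) ^ 2 ≤ L (2 * k) := by
    intro k
    rw [hL]
    have hx := card_X_pos (Bn (2 * k)) (exists_bent k)
    have hx' := card_X_le (Bn (2 * k))
    rw [le_div_iff₀ (by exact_mod_cast hx)]
    have hx'' : ((({g | ∃ f ∈ Bn (2 * k), ∃ h ∈ Bn (2 * k), g = f + h} :
        Set ((Fin (2 * k) → ZMod 2) → ZMod 2)).ncard : ℕ) : ℝ) ≤ ((Bn (2 * k)).ncard : ℝ) ^ 2 := by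
      exact_mod_cast hx'
    calc ((Bn (2 * k)).ncard : ℝ) ^ 2 * _ ≤ ((Bn (2 * k)).ncard : ℝ) ^ 2 * ((Bn (2 * k)).ncard : ℝ) ^ 2 :=
          mul_le_mul_of_nonneg_left hx'' (by positivity)
      _ = ((Bn (2 * k)).ncard : ℝ) ^ 4 := by ring
  have hL2 : ∀ k, L (2 * k) ≤ ((Bn (2 * k)).ncard : ℝ) ^ 4 := by
    intro k
    rw [hL]
    have hx := card_X_pos (Bn (2 * k)) (exists_bent k)
    refine div_le_self (by positivity) ?_
    exact_mod_cast hx
  have hB1 : ∀ k, ((Bn (2 * k)).ncard : ℝ) ^ 2 ≤ BI (2 * k) := by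
    intro k
    rw [hBI]
    have := card_BI_ge (2 * k) (2 ^ (2 * k / 2)) (by
      intro f hf y
      have h := hf y
      rw [← sq_abs, h])
    exact_mod_cast this
  have hB2 : ∀ k, BI (2 * k) ≤ ((Bn (2 * k)).ncard : ℝ) ^ 4 := by
    intro k
    rw [hBI]
    have := card_BI_le (Bn (2 * k)) (fun t => ∀ y, ∏ i, Wh (2 * k) (t i) y = -(2 ^ (2 * k / 2)) ^ 4)
    exact_mod_cast this
  constructor
  · refine ⟨1, fun k hk => ?_⟩
    have h4 : (4 : ℝ) ≤ ((Bn (2 * k)).ncard : ℝ) := by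
      refine le_trans ?_ (hcard k)
      calc (4 : ℝ) = 2 ^ 2 := by norm_num
        _ ≤ 2 ^ (2 * k) := pow_le_pow_right₀ (by norm_num) (by omega)
    have := hL1 k
    nlinarith
  · refine ratio_tendsto (fun k => Real.logb 2 (Real.logb 2 ((Bn (2 * k)).ncard : ℝ))) _ _ ?_ ?_ ?_ ?_ ?_
    · have hlog : Filter.Tendsto (fun x : ℝ => Real.logb 2 x) Filter.atTop Filter.atTop :=
        Real.tendsto_logb_atTop (by norm_num)
      refine (hlog.comp hlog).comp ?_
      refine Filter.tendsto_atTop_mono hcard ?_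
      have h2k : Filter.Tendsto (fun k : ℕ => 2 * k) Filter.atTop Filter.atTop :=
        Filter.tendsto_atTop_mono (fun k => by simpa using (by omega : k ≤ 2 * k)) Filter.tendsto_id
      exact (tendsto_pow_atTop_atTop_of_one_lt (by norm_num : (1 : ℝ) < 2)).comp h2k
    all_goals
      filter_upwards [Filter.eventually_ge_atTop 1] with k hk
      have h4 : (2 : ℝ) < ((Bn (2 * k)).ncard : ℝ) := by
        refine lt_of_lt_of_le ?_ (hcard k)
        calc (2 : ℝ) < 2 ^ 2 := by norm_num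
          _ ≤ 2 ^ (2 * k) := pow_le_pow_right₀ (by norm_num) (by omega)
    · exact (loglog_bounds h4 (hL1 k) (hL2 k)).1
    · exact (loglog_bounds h4 (hL1 k) (hL2 k)).2
    · exact (loglog_bounds h4 (hB1 k) (hB2 k)).1
    · exact (loglog_bounds h4 (hB1 k) (hB2 k)).2

end Pool.Agent.S12383
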