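import Pool.Statements.S12824

set_option autoImplicit false
open Pool Pool.MP_189718_gt

namespace Pool.Agent.S12824

open Filter Topology Set

/-- iterated power types -/
def X : ℕ → Type
  | 0 => ℕ
  | (n + 1) => Set (X n)

/-- the disjoint sum of the spaces of ultrafilters on the iterated power types -/
abbrev Sm : Type := Σ n : ℕ, Ultrafilter (X n)

/-- index set of cardinality beth omega -/
abbrev J : Type := Σ n : ℕ, X n

instance : WeaklyLocallyCompactSpace Sm where
  exists_compact_mem_nhds := by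
    rintro ⟨n, u⟩
    refine ⟨Set.range (Sigma.mk n), isCompact_range continuous_sigmaMk, ?_⟩
    exact isOpen_range_sigmaMk.mem_nhds ⟨u, rfl⟩

abbrev K : Type := OnePoint Sm

theorem card_X_lt_succ (n : ℕ) : Cardinal.mk (X n) < Cardinal.mk (X (n + 1)) := by
  change Cardinal.mk (X n) < Cardinal.mk (Set (X n))
  rw [Cardinal.mk_set]
  exact Cardinal.cantor _

theorem card_X_le_J (n : ℕ) : Cardinal.mk (X n) ≤ Cardinal.mk J :=
  Cardinal.mk_le_of_injective (f := fun a => (⟨n, a⟩ : J)) sigma_mk_injective

theorem card_X_lt_J (n : ℕ) : Cardinal.mk (X n) < Cardinal.mk J :=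
  (card_X_lt_succ n).trans_le (card_X_le_J (n + 1))

theorem card_X_mono {m n : ℕ} (h : m ≤ n) : Cardinal.mk (X m) ≤ Cardinal.mk (X n) := by
  induction h with
  | refl => exact le_rfl
  | step _ ih => exact ih.trans (card_X_lt_succ _).le

theorem aleph0_le_X (n : ℕ) : Cardinal.aleph0 ≤ Cardinal.mk (X n) := by
  have h0 : Cardinal.aleph0 ≤ Cardinal.mk (X 0) := by
    change Cardinal.aleph0 ≤ Cardinal.mk ℕ
    simp
  exact h0.trans (card_X_mono (Nat.zero_le n))

theorem card_ultra (n : ℕ) : Cardinal.mk (Ultrafilter (X n)) ≤ Cardinal.mk (X (n + 2)) := by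
  change Cardinal.mk (Ultrafilter (X n)) ≤ Cardinal.mk (Set (Set (X n)))
  refine Cardinal.mk_le_of_injective (f := fun u => {s | s ∈ u}) ?_
  intro u v h
  ext s
  exact Set.ext_iff.1 h s

/-- the surjection -/
noncomputable def phi (f : {f : K → ℝ // Continuous f}) : J → unitInterval := fun p =>
  Set.projIcc (0 : ℝ) 1 zero_le_one
    ((p.1 + 1 : ℝ) * (f.1 (OnePoint.some ⟨p.1, pure p.2⟩) - f.1 OnePoint.infty))

theorem phi_continuous : Continuous phi := by
  refine continuous_pi fun p => ?_
  refine continuous_projIcc.comp ?_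
  have h1 : ∀ z : K, Continuous fun f : {f : K → ℝ // Continuous f} => f.1 z := fun z =>
    (continuous_apply z).comp continuous_subtype_val
  exact continuous_const.mul ((h1 _).sub (h1 _))

/-- the preimage of a given point -/
noncomputable def pre (t : J → unitInterval) : K → ℝ := fun z =>
  OnePoint.elim z (0 : ℝ) (fun s : Sm =>
    ((Ultrafilter.extend (fun a : X s.1 => t ⟨s.1, a⟩) s.2 : unitInterval) : ℝ) / (s.1 + 1 : ℝ))

theorem pre_infty (t : J → unitInterval) : pre t OnePoint.infty = 0 := rfl

theorem pre_some (t : J → unitInterval) (n : ℕ) (u : Ultrafilter (X n)) :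
    pre t (OnePoint.some ⟨n, u⟩) =
      ((Ultrafilter.extend (fun a : X n => t ⟨n, a⟩) u : unitInterval) : ℝ) / (n + 1 : ℝ) := rfl

theorem pre_continuous (t : J → unitInterval) : Continuous (pre t) := by
  rw [OnePoint.continuous_iff]
  constructor
  · rw [Metric.tendsto_nhds]
    intro ε hε
    obtain ⟨N, hN⟩ := exists_nat_one_div_lt hε
    rw [Filter.coclosedCompact_eq_cocompact]
    have hc : IsCompact (⋃ n ∈ Finset.range (N + 1), Set.range (fun u : Ultrafilter (X n) => (⟨n, u⟩ : Sm))) := by
      refine (Finset.range (N + 1)).isCompact_biUnion fun n _ => ?_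
      exact isCompact_range (continuous_sigmaMk (σ := fun n => Ultrafilter (X n)) (i := n))
    filter_upwards [hc.compl_mem_cocompact]
    rintro ⟨n, u⟩ hnu
    have hn : N < n := by
      by_contra hcon
      apply hnu
      simp only [Set.mem_iUnion]
      exact ⟨n, Finset.mem_range.2 (by omega), u, rfl⟩
    have e1 : pre t (OnePoint.some ⟨n, u⟩) =
      ((Ultrafilter.extend (fun a : X n => t ⟨n, a⟩) u : unitInterval) : ℝ) / (n + 1 : ℝ) := rfl
    rw [pre_infty, e1, Real.dist_eq, sub_zero]
    set r := (Ultrafilter.extend (fun a : X n => t ⟨n, a⟩) u : unitInterval)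
    have hr0 : (0 : ℝ) ≤ r := r.2.1
    have hr1 : (r : ℝ) ≤ 1 := r.2.2
    have hpos : (0 : ℝ) < (n : ℝ) + 1 := by positivity
    rw [abs_of_nonneg (div_nonneg hr0 hpos.le)]
    calc (r : ℝ) / (n + 1) ≤ 1 / (n + 1) := by gcongr
      _ ≤ 1 / (N + 1) := by
        have : (N : ℝ) < n := by exact_mod_cast hn
        gcongr
      _ < ε := hN
  · rw [continuous_sigma_iff]
    intro n
    have : Continuous fun u : Ultrafilter (X n) =>
        ((Ultrafilter.extend (fun a : X n => t ⟨n, a⟩) u : unitInterval) : ℝ) / (n + 1 : ℝ) :=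
      (continuous_subtype_val.comp (continuous_ultrafilter_extend _)).div_const _
    exact this

theorem phi_surjective : Function.Surjective phi := by
  intro t
  refine ⟨⟨pre t, pre_continuous t⟩, ?_⟩
  funext p
  obtain ⟨n, a⟩ := p
  have hpos : (0 : ℝ) < (n : ℝ) + 1 := by positivity
  have key : (((n : ℝ) + 1) * (pre t (OnePoint.some ⟨n, pure a⟩) - pre t OnePoint.infty))
      = (t ⟨n, a⟩ : ℝ) := by
    rw [pre_infty, pre_some, ultrafilter_extend_pure, sub_zero]
    field_simp
  change Set.projIcc (0 : ℝ) 1 zero_le_one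
    (((n : ℝ) + 1) * (pre t (OnePoint.some ⟨n, pure a⟩) - pre t OnePoint.infty)) = t ⟨n, a⟩
  rw [key, Set.projIcc_val]

/-- a set meeting only finitely many summands is small -/
theorem small_of_bounded (D : Set K) (N : ℕ)
    (h : ∀ n, N < n → ∀ u : Ultrafilter (X n), (OnePoint.some ⟨n, u⟩ : K) ∉ D) :
    Cardinal.mk D < Cardinal.mk J := by
  have hsub : D ⊆ {OnePoint.infty} ∪ ⋃ n ∈ Finset.range (N + 1),
      Set.range (fun u : Ultrafilter (X n) => (OnePoint.some ⟨n, u⟩ : K)) := by
    intro z hz
    induction z using OnePoint.rec with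
    | infty => left; rfl
    | coe s =>
      right
      obtain ⟨n, u⟩ := s
      simp only [Set.mem_iUnion]
      refine ⟨n, ?_, u, rfl⟩
      rw [Finset.mem_range]
      by_contra hcon
      exact h n (by omega) u hz
  have hbig : Cardinal.aleph0 ≤ Cardinal.mk (X (N + 2)) := aleph0_le_X _
  have hfin : Cardinal.mk (⋃ n ∈ Finset.range (N + 1),
      Set.range (fun u : Ultrafilter (X n) => (OnePoint.some ⟨n, u⟩ : K)) : Set K)
      ≤ Cardinal.mk (X (N + 2)) := by
    have h1 : (⋃ n ∈ Finset.range (N + 1),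
        Set.range (fun u : Ultrafilter (X n) => (OnePoint.some ⟨n, u⟩ : K)) : Set K)
        ⊆ ⋃ i : Fin (N + 1), Set.range (fun u : Ultrafilter (X i) => (OnePoint.some ⟨i, u⟩ : K)) := by
      intro z hz
      simp only [Set.mem_iUnion] at hz ⊢
      obtain ⟨n, hn, hz⟩ := hz
      exact ⟨⟨n, Finset.mem_range.1 hn⟩, hz⟩
    refine (Cardinal.mk_le_mk_of_subset h1).trans ?_
    refine (Cardinal.mk_iUnion_le _).trans ?_
    have h2 : Cardinal.mk (Fin (N + 1)) ≤ Cardinal.mk (X (N + 2)) := by
      refine le_trans ?_ hbig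
      exact (Cardinal.lt_aleph0_of_finite _).le
    have h3 : (⨆ i : Fin (N + 1), Cardinal.mk
        (Set.range (fun u : Ultrafilter (X i) => (OnePoint.some ⟨i, u⟩ : K)) : Set K))
        ≤ Cardinal.mk (X (N + 2)) := by
      refine ciSup_le' fun i => ?_
      refine Cardinal.mk_range_le.trans ((card_ultra _).trans (card_X_mono ?_))
      have := i.2
      omega
    calc _ ≤ Cardinal.mk (X (N + 2)) * Cardinal.mk (X (N + 2)) := mul_le_mul' h2 h3
      _ = _ := Cardinal.mul_eq_self hbig
  calc Cardinal.mk D ≤ _ := Cardinal.mk_le_mk_of_subset hsub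
    _ ≤ Cardinal.mk ({OnePoint.infty} : Set K) + _ := Cardinal.mk_union_le _ _
    _ ≤ Cardinal.mk (X (N + 2)) + Cardinal.mk (X (N + 2)) := by
      refine add_le_add ?_ hfin
      rw [Cardinal.mk_singleton]
      exact Cardinal.one_le_aleph0.trans hbig
    _ = Cardinal.mk (X (N + 2)) := Cardinal.add_eq_self hbig
    _ < _ := card_X_lt_J _

theorem tendsto_of_strictMono (k : ℕ → ℕ) (hk : StrictMono k)
    (d : ∀ i, Ultrafilter (X (k i))) :
    Tendsto (fun i => (OnePoint.some ⟨k i, d i⟩ : K)) atTop (𝓝 OnePoint.infty) := by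
  have h1 : Tendsto (fun i => (⟨k i, d i⟩ : Sm)) atTop (coclosedCompact Sm) := by
    rw [Filter.coclosedCompact_eq_cocompact]
    intro s hs
    rw [Filter.mem_cocompact] at hs
    obtain ⟨t, ht, hts⟩ := hs
    -- a compact set meets finitely many summands
    have hfin : ∃ N : ℕ, ∀ z ∈ t, z.1 < N := by
      have hc : IsCompact ((fun z : Sm => z.1) '' t) := by
        refine ht.image ?_
        rw [continuous_sigma_iff]
        intro n
        exact continuous_const
      have hf : ((fun z : Sm => z.1) '' t).Finite := hc.finite_of_discrete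
      obtain ⟨N, hN⟩ := hf.bddAbove
      exact ⟨N + 1, fun z hz => Nat.lt_succ_of_le (hN ⟨z, hz, rfl⟩)⟩
    obtain ⟨N, hN⟩ := hfin
    rw [Filter.mem_map]
    filter_upwards [Filter.eventually_ge_atTop N] with i hi
    apply hts
    intro hmem
    have := hN _ hmem
    have h2 : i ≤ k i := hk.id_le i
    simp only at this
    omega
  exact OnePoint.tendsto_coe_infty.comp h1

/-- The negation of the preceding statement: For compact Hausdorff K and uncountable κ: if C_p(K) with the pointwise topology maps continuously onto [0,1]^κ, then K has a discrete subset of size κ on which every bounded continuous real function extends continuously to K. -/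
theorem result :
    ¬ (∀ (K : Type) [TopologicalSpace K] [CompactSpace K] [T2Space K] (ι : Type),
      Cardinal.aleph0 < Cardinal.mk ι →
      (∃ φ : {f : K → ℝ // Continuous f} → (ι → unitInterval),
          Continuous φ ∧ Function.Surjective φ) →
      ∃ D : Set K, DiscreteTopology (↥D) ∧ Cardinal.mk (↥D) = Cardinal.mk ι ∧
        ∀ g : (↥D) → ℝ, Continuous g → (∃ M : ℝ, ∀ x : ↥D, |g x| ≤ M) →
          ∃ G : K → ℝ, Continuous G ∧ ∀ x : ↥D, G (x : K) = g x) := by
  intro H
  obtain ⟨D, hD, hcard, hext⟩ := H K J ((aleph0_le_X 0).trans_lt (card_X_lt_J 0))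
    ⟨phi, phi_continuous, phi_surjective⟩
  -- infinitely many summands are met
  have hinf : ∀ N : ℕ, ∃ n, N < n ∧ ∃ u : Ultrafilter (X n), (OnePoint.some ⟨n, u⟩ : K) ∈ D := by
    intro N
    by_contra hcon
    push Not at hcon
    have := small_of_bounded D N hcon
    rw [hcard] at this
    exact lt_irrefl _ this
  choose nx hnx ux hux using hinf
  -- strictly increasing sequence of indices
  obtain ⟨k, hk, hmem⟩ : ∃ k : ℕ → ℕ, StrictMono k ∧
      ∀ i, ∃ u : Ultrafilter (X (k i)), (OnePoint.some ⟨k i, u⟩ : K) ∈ D := by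
    let k : ℕ → ℕ := fun i => Nat.rec (nx 0) (fun _ m => nx m) i
    have hks : ∀ i, k (i + 1) = nx (k i) := fun i => rfl
    refine ⟨k, strictMono_nat_of_lt_succ fun i => by rw [hks]; exact hnx _, ?_⟩
    intro i
    cases i with
    | zero => exact ⟨ux 0, hux 0⟩
    | succ i => exact ⟨ux (k i), hux (k i)⟩
  choose d hd using hmem
  -- the function on D
  classical
  let g : D → ℝ := fun x => if ∃ i : ℕ, (x : K) = OnePoint.some ⟨k (2 * i), d (2 * i)⟩ then 1 else 0
  obtain ⟨G, hG, hGg⟩ := hext g continuous_of_discreteTopology ⟨1, fun x => by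
    by_cases hx : ∃ i : ℕ, (x : K) = OnePoint.some ⟨k (2 * i), d (2 * i)⟩
    · simp only [g, if_pos hx]; norm_num
    · simp only [g, if_neg hx]; norm_num⟩
  have hlim : Tendsto (fun i => G (OnePoint.some ⟨k i, d i⟩)) atTop (𝓝 (G OnePoint.infty)) :=
    (hG.tendsto _).comp (tendsto_of_strictMono k hk d)
  have heven : Tendsto (fun i : ℕ => 2 * i) atTop atTop :=
    Filter.tendsto_atTop_mono (fun i => by simp only [id]; omega) Filter.tendsto_id
  have hodd : Tendsto (fun i : ℕ => 2 * i + 1) atTop atTop :=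
    Filter.tendsto_atTop_mono (fun i => by simp only [id]; omega) Filter.tendsto_id
  have h1 : G OnePoint.infty = 1 := by
    have ht := hlim.comp heven
    refine tendsto_nhds_unique ht ?_
    have : ((fun i => G (OnePoint.some ⟨k i, d i⟩)) ∘ fun i : ℕ => 2 * i) = fun _ => (1 : ℝ) := by
      funext i
      have := hGg ⟨_, hd (2 * i)⟩
      simp only [Function.comp]
      rw [this]
      simp only [g]
      rw [if_pos ⟨i, rfl⟩]
    rw [this]
    exact tendsto_const_nhds
  have h0 : G OnePoint.infty = 0 := by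
    have ht := hlim.comp hodd
    refine tendsto_nhds_unique ht ?_
    have : ((fun i => G (OnePoint.some ⟨k i, d i⟩)) ∘ fun i : ℕ => 2 * i + 1) = fun _ => (0 : ℝ) := by
      funext i
      have := hGg ⟨_, hd (2 * i + 1)⟩
      simp only [Function.comp]
      rw [this]
      simp only [g]
      rw [if_neg]
      rintro ⟨j, hj⟩
      rw [OnePoint.coe_eq_coe] at hj
      have h2 := congrArg Sigma.fst hj
      simp only at h2
      have := hk.injective h2
      omega
    rw [this]
    exact tendsto_const_nhds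
  rw [h1] at h0
  exact one_ne_zero h0

end Pool.Agent.S12824
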