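import Pool.Statements.S12922

set_option autoImplicit false
open Pool Pool.MP_28e94d_gt

noncomputable section

namespace Pool.Agent.S12922

/-- The underlying set of the semidirect product of the 2-adic numbers by the integers,
where `1` acts by multiplication by `2`. -/
@[ext] structure Aff where
  x : ℚ_[2]
  n : ℤ

namespace Aff

instance : Mul Aff := ⟨fun p q => ⟨p.x + (2 : ℚ_[2]) ^ p.n * q.x, p.n + q.n⟩⟩
instance : One Aff := ⟨⟨0, 0⟩⟩
instance : Inv Aff := ⟨fun p => ⟨-((2 : ℚ_[2]) ^ (-p.n) * p.x), -p.n⟩⟩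

@[simp] lemma mul_x (p q : Aff) : (p * q).x = p.x + (2 : ℚ_[2]) ^ p.n * q.x := rfl
@[simp] lemma mul_n (p q : Aff) : (p * q).n = p.n + q.n := rfl
@[simp] lemma one_x : (1 : Aff).x = 0 := rfl
@[simp] lemma one_n : (1 : Aff).n = 0 := rfl
@[simp] lemma inv_x (p : Aff) : (p⁻¹).x = -((2 : ℚ_[2]) ^ (-p.n) * p.x) := rfl
@[simp] lemma inv_n (p : Aff) : (p⁻¹).n = -p.n := rfl

lemma two_ne : (2 : ℚ_[2]) ≠ 0 := by norm_num

instance : Group Aff where
  mul_assoc a b c := by
    ext
    · simp only [mul_x, mul_n, zpow_add₀ two_ne]; ring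
    · simp [add_assoc]
  one_mul a := by ext <;> simp
  mul_one a := by ext <;> simp
  inv_mul_cancel a := by ext <;> simp

/-- Aff is, as a set, a product. -/
def toProd (p : Aff) : ℚ_[2] × ℤ := (p.x, p.n)

lemma toProd_injective : Function.Injective toProd := by
  intro p q h
  simp only [toProd, Prod.mk.injEq] at h
  exact Aff.ext h.1 h.2

instance : TopologicalSpace Aff := TopologicalSpace.induced toProd inferInstance

lemma isInducing : Topology.IsInducing toProd := ⟨rfl⟩
lemma isEmbedding : Topology.IsEmbedding toProd := ⟨isInducing, toProd_injective⟩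

instance : T2Space Aff := isEmbedding.t2Space

instance : SecondCountableTopology Aff := isInducing.secondCountableTopology

lemma continuous_x : Continuous (fun p : Aff => p.x) :=
  continuous_fst.comp isInducing.continuous

lemma continuous_n : Continuous (fun p : Aff => p.n) :=
  continuous_snd.comp isInducing.continuous

lemma continuous_mk {X : Type*} [TopologicalSpace X] {f : X → ℚ_[2]} {g : X → ℤ}
    (hf : Continuous f) (hg : Continuous g) : Continuous (fun t => (⟨f t, g t⟩ : Aff)) := by
  rw [isInducing.continuous_iff]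
  exact hf.prodMk hg

lemma continuous_zpow_n : Continuous (fun m : ℤ => (2 : ℚ_[2]) ^ m) :=
  continuous_of_discreteTopology

instance : IsTopologicalGroup Aff where
  continuous_mul := by
    refine continuous_mk ?_ ?_
    · exact (continuous_x.comp continuous_fst).add
        ((continuous_zpow_n.comp (continuous_n.comp continuous_fst)).mul
          (continuous_x.comp continuous_snd))
    · exact (continuous_n.comp continuous_fst).add (continuous_n.comp continuous_snd)
  continuous_inv := by
    refine continuous_mk ?_ ?_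
    · exact ((continuous_zpow_n.comp (continuous_n.neg)).mul continuous_x).neg
    · exact continuous_n.neg

/-- The compact open subgroup of 2-adic integers. -/
def K : Subgroup Aff where
  carrier := {p | p.n = 0 ∧ ‖p.x‖ ≤ 1}
  mul_mem' := by
    rintro a b ⟨ha, ha'⟩ ⟨hb, hb'⟩
    refine ⟨by simp [ha, hb], ?_⟩
    simp only [mul_x, ha, zpow_zero, one_mul]
    exact (Padic.nonarchimedean _ _).trans (max_le ha' hb')
  one_mem' := by simp
  inv_mem' := by
    rintro a ⟨ha, ha'⟩
    refine ⟨by simp [ha], ?_⟩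
    simpa [ha] using ha'

lemma mem_K {p : Aff} : p ∈ K ↔ p.n = 0 ∧ ‖p.x‖ ≤ 1 := Iff.rfl

lemma isCompact_K : IsCompact (K : Set Aff) := by
  have h : (K : Set Aff) = (fun t : ℚ_[2] => (⟨t, 0⟩ : Aff)) '' Metric.closedBall 0 1 := by
    ext p
    constructor
    · rintro ⟨h1, h2⟩
      exact ⟨p.x, by simpa using h2, by ext <;> simp [h1]⟩
    · rintro ⟨t, ht, rfl⟩
      exact ⟨rfl, by simpa using ht⟩
  rw [h]
  exact (isCompact_closedBall _ _).image (continuous_mk continuous_id continuous_const)

lemma isOpen_K : IsOpen (K : Set Aff) := by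
  have h1 : IsOpen {p : Aff | p.n = 0} := by
    have : {p : Aff | p.n = 0} = (fun p : Aff => p.n) ⁻¹' {0} := rfl
    rw [this]
    exact (isOpen_discrete _).preimage continuous_n
  have h2 : IsOpen {p : Aff | ‖p.x‖ ≤ 1} := by
    have : {p : Aff | ‖p.x‖ ≤ 1} = (fun p : Aff => p.x) ⁻¹' Metric.closedBall 0 1 := by
      ext p; simp
    rw [this]
    exact (IsUltrametricDist.isOpen_closedBall _ one_ne_zero).preimage continuous_x
  exact h1.inter h2

lemma separable_K : TopologicalSpace.SeparableSpace K := by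
  have : SecondCountableTopology K :=
    (Topology.IsInducing.subtypeVal (t := (K : Set Aff))).secondCountableTopology
  infer_instance

lemma countable_quot : Countable (Aff ⧸ K) := by
  have : DiscreteTopology (Aff ⧸ K) := QuotientGroup.discreteTopology isOpen_K
  exact TopologicalSpace.separableSpace_iff_countable.1 inferInstance

end Aff

/-- The invariant: there is a homomorphism to a countable group with compact kernel. -/
def Inv (H : Type) [Group H] [TopologicalSpace H] : Prop :=
  ∃ (Q : Type) (_ : Group Q) (φ : H →* Q), Countable Q ∧ IsCompact (φ.ker : Set H)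

lemma inv_image (H₁ : Type) [Group H₁] [TopologicalSpace H₁] (H₂ : Type) [Group H₂]
    [TopologicalSpace H₂] (f : H₁ →* H₂) (hf : Continuous f) (hs : Function.Surjective f)
    (h : Inv H₁) : Inv H₂ := by
  obtain ⟨Q, _, φ, hQ, hφ⟩ := h
  have : (φ.ker.map f).Normal := Subgroup.Normal.map inferInstance f hs
  refine ⟨H₂ ⧸ (φ.ker.map f), inferInstance, QuotientGroup.mk' _, ?_, ?_⟩
  · have : Countable (H₁ ⧸ φ.ker) := (QuotientGroup.kerLift_injective φ).countable
    have hsurj : Function.Surjective (QuotientGroup.map φ.ker (φ.ker.map f) f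
        (Subgroup.le_comap_map _ _)) := by
      intro y
      obtain ⟨y, rfl⟩ := QuotientGroup.mk_surjective y
      obtain ⟨x, rfl⟩ := hs y
      exact ⟨(x : H₁ ⧸ φ.ker), rfl⟩
    exact hsurj.countable
  · rw [QuotientGroup.ker_mk']
    simpa using hφ.image hf

lemma not_inv_aff : ¬ Inv Aff := by
  rintro ⟨Q, _, φ, hQ, hφ⟩
  -- a nontrivial translation in the kernel
  have hunc : ¬ Countable ℚ_[2] := by
    intro hc
    have h1 := continuum_le_cardinal_of_nontriviallyNormedField ℚ_[2]
    have h2 : Cardinal.mk ℚ_[2] ≤ Cardinal.aleph0 := Cardinal.mk_le_aleph0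
    exact absurd (h1.trans h2) (not_le.2 Cardinal.aleph0_lt_continuum)
  have hni : ¬ Function.Injective (fun t : ℚ_[2] => φ ⟨t, 0⟩) := fun hi => hunc hi.countable
  simp only [Function.Injective, not_forall] at hni
  obtain ⟨s, t, hst, hne⟩ := hni
  set z : ℚ_[2] := s - t with hz
  have hz0 : z ≠ 0 := sub_ne_zero.2 hne
  have hzker : φ ⟨z, 0⟩ = 1 := by
    have h3 : (⟨s, 0⟩ : Aff) = ⟨z, 0⟩ * ⟨t, 0⟩ := by ext <;> simp [hz]
    rw [h3, map_mul] at hst
    exact mul_eq_right.1 hst
  have hconj : ∀ m : ℕ, (⟨(2 : ℚ_[2]) ^ (-(m : ℤ)) * z, 0⟩ : Aff) ∈ φ.ker := by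
    intro m
    have h4 : (⟨(2 : ℚ_[2]) ^ (-(m : ℤ)) * z, 0⟩ : Aff) =
        (⟨0, -(m : ℤ)⟩ : Aff) * ⟨z, 0⟩ * (⟨0, -(m : ℤ)⟩ : Aff)⁻¹ := by
      ext <;> simp
    rw [h4, MonoidHom.mem_ker, map_mul, map_mul, hzker, map_inv]
    simp
  obtain ⟨C, hC⟩ := (hφ.image Aff.continuous_x).isBounded.exists_norm_le
  have hb : ∀ m : ℕ, (2 : ℝ) ^ m * ‖z‖ ≤ C := by
    intro m
    have h5 := hC _ ⟨_, hconj m, rfl⟩
    simp only [norm_mul, norm_zpow] at h5
    have h6 : ‖(2 : ℚ_[2])‖ = (2 : ℝ)⁻¹ := by
      have := @Padic.norm_p 2 _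
      simpa using this
    rw [h6] at h5
    simpa using h5
  have hzpos : 0 < ‖z‖ := norm_pos_iff.2 hz0
  obtain ⟨m, hm⟩ := pow_unbounded_of_one_lt (C / ‖z‖) (one_lt_two)
  have h7 := hb m
  rw [div_lt_iff₀ hzpos] at hm
  linarith

/-- The negation of the preceding statement: A Hausdorff topological group lies in the smallest class containing compact separable and countable groups, closed under finite products, closed subgroups and continuous homomorphic images, iff it has a compact separable subgroup with countably many cosets. -/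
theorem result :
    ¬ (∀ (G : Type) [Group G] [TopologicalSpace G] [IsTopologicalGroup G] [T2Space G],
      ((∀ P : (H : Type) → [Group H] → [TopologicalSpace H] → Prop,
          (∀ (H : Type) [Group H] [TopologicalSpace H] [IsTopologicalGroup H] [T2Space H],
              CompactSpace H → TopologicalSpace.SeparableSpace H → P H) →
          (∀ (H : Type) [Group H] [TopologicalSpace H] [IsTopologicalGroup H] [T2Space H],
              Countable H → P H) →
          (∀ (H₁ : Type) [Group H₁] [TopologicalSpace H₁] [IsTopologicalGroup H₁] [T2Space H₁]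
              (H₂ : Type) [Group H₂] [TopologicalSpace H₂] [IsTopologicalGroup H₂] [T2Space H₂],
              P H₁ → P H₂ → P (H₁ × H₂)) →
          (∀ (H : Type) [Group H] [TopologicalSpace H] [IsTopologicalGroup H] [T2Space H]
              (L : Subgroup H), IsClosed (L : Set H) → P H → P L) →
          (∀ (H₁ : Type) [Group H₁] [TopologicalSpace H₁] [IsTopologicalGroup H₁] [T2Space H₁]
              (H₂ : Type) [Group H₂] [TopologicalSpace H₂] [IsTopologicalGroup H₂] [T2Space H₂]
              (f : H₁ →* H₂), Continuous f → Function.Surjective f → P H₁ → P H₂) →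
          P G) ↔
        ∃ K : Subgroup G, CompactSpace K ∧ TopologicalSpace.SeparableSpace K ∧
          Countable (G ⧸ K))) := by
  intro hall
  have hCK : ∃ K : Subgroup Aff, CompactSpace K ∧ TopologicalSpace.SeparableSpace K ∧
      Countable (Aff ⧸ K) :=
    ⟨Aff.K, isCompact_iff_compactSpace.1 Aff.isCompact_K, Aff.separable_K, Aff.countable_quot⟩
  have hmem := (hall Aff).2 hCK
  refine not_inv_aff (hmem (fun H _ _ => Inv H) ?_ ?_ ?_ ?_ ?_)
  · intro H _ _ _ _ hc _
    refine ⟨Unit, inferInstance, 1, inferInstance, ?_⟩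
    rw [MonoidHom.ker_one]
    simpa using isCompact_univ
  · intro H _ _ _ _ hc
    refine ⟨H, inferInstance, MonoidHom.id H, hc, ?_⟩
    have : ((MonoidHom.id H).ker : Set H) = {1} := by
      ext x; simp
    rw [this]
    exact isCompact_singleton
  · intro H₁ _ _ _ _ H₂ _ _ _ _ h₁ h₂
    obtain ⟨Q₁, _, φ₁, hQ₁, hφ₁⟩ := h₁
    obtain ⟨Q₂, _, φ₂, hQ₂, hφ₂⟩ := h₂
    refine ⟨Q₁ × Q₂, inferInstance, φ₁.prodMap φ₂, inferInstance, ?_⟩
    have : ((φ₁.prodMap φ₂).ker : Set (H₁ × H₂)) = (φ₁.ker : Set H₁) ×ˢ (φ₂.ker : Set H₂) := by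
      ext x
      simp [MonoidHom.mem_ker, Prod.ext_iff]
    rw [this]
    exact hφ₁.prod hφ₂
  · intro H _ _ _ _ L hL h
    obtain ⟨Q, _, φ, hQ, hφ⟩ := h
    refine ⟨Q, inferInstance, φ.comp L.subtype, hQ, ?_⟩
    have : ((φ.comp L.subtype).ker : Set L) = (Subtype.val : L → H) ⁻¹' (φ.ker : Set H) := by
      ext x
      simp [MonoidHom.mem_ker]
    rw [this]
    exact hL.isClosedEmbedding_subtypeVal.isCompact_preimage hφ
  · intro H₁ _ _ _ _ H₂ _ _ _ _ f hf hs h
    exact inv_image H₁ H₂ f hf hs h

end Pool.Agent.S12922
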