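import Pool.Statements.S13394
import Pool.Agent.LibTD67.Lower

set_option autoImplicit false
open Pool Pool.MP_74a0f8_gt

namespace Pool.Agent.S13394

/-- The negation of the preceding statement: For every metric space X, subset M and ordinal α, if M has small transfinite inductive dimension at most α, then some G-delta set in X containing M also has small transfinite inductive dimension at most α. -/
theorem result :
    ¬ (∀ (X : Type) [MetricSpace X] (M : Set X) (α : Ordinal.{0}),
      (∀ R : Set X → Ordinal.{0} → Prop,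
        (∀ (T : Set X) (γ : Ordinal.{0}),
          (∀ x ∈ T, ∀ U : Set X, IsOpen U → x ∈ U →
            ∃ V : Set X, IsOpen V ∧ x ∈ V ∧ V ∩ T ⊆ U ∧
              ((T ∩ closure (V ∩ T)) \ V = ∅ ∨
                ∃ β < γ, R ((T ∩ closure (V ∩ T)) \ V) β)) → R T γ) →
        R M α) →
      ∃ M' : Set X, IsGδ M' ∧ M ⊆ M' ∧
        (∀ R : Set X → Ordinal.{0} → Prop,
          (∀ (T : Set X) (γ : Ordinal.{0}),
            (∀ x ∈ T, ∀ U : Set X, IsOpen U → x ∈ U →
              ∃ V : Set X, IsOpen V ∧ x ∈ V ∧ V ∩ T ⊆ U ∧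
                ((T ∩ closure (V ∩ T)) \ V = ∅ ∨
                  ∃ β < γ, R ((T ∩ closure (V ∩ T)) \ V) β)) → R T γ) →
          R M' α)) := by
  intro h
  obtain ⟨M, hM, hno⟩ := Pool.Agent.LibTD67.enlargement_fails
  obtain ⟨M', hG, hMM', hT⟩ := h Pool.Agent.LibTD67.E M Ordinal.omega0 hM
  exact hno M' hG hMM' hT


end Pool.Agent.S13394
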