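import Pool.Statements.S13587
-- import your own Pool.Agent.* helpers here
import Pool.Agent.LibGS.Fin
import Pool.Agent.LibGPR.FinalR
import Pool.Agent.LibBV24.Main

set_option autoImplicit false
open Pool Pool.MP_93862b_gt

namespace Pool.Agent.S13587

/-- For every infinite set A and cardinal γ, if A carries an almost disjoint family of γ sets, then every uniform ultrafilter on A lies on the boundary of each of γ pairwise disjoint open sets in the space of uniform ultrafilters. -/
theorem result :
    ∀ (A : Type) [Infinite A] (γ : Cardinal.{0}),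
      (∃ F : Set (Set A), Cardinal.mk F = γ ∧
          (∀ s ∈ F, Cardinal.mk s = Cardinal.mk A) ∧
          F.Pairwise (fun s t => Cardinal.mk (s ∩ t : Set A) < Cardinal.mk A)) →
      ∀ p : {u : Ultrafilter A // ∀ s ∈ u, Cardinal.mk s = Cardinal.mk A},
        ∃ 𝒪 : Set (Set {u : Ultrafilter A // ∀ s ∈ u, Cardinal.mk s = Cardinal.mk A}),
          Cardinal.mk 𝒪 = γ ∧ 𝒪.PairwiseDisjoint id ∧
            (∀ O ∈ 𝒪, IsOpen O ∧ p ∈ frontier O) := by
  rintro A hinf γ ⟨F, rfl, hF, hFF⟩ p
  have hA : Cardinal.aleph0 ≤ Cardinal.mk A := Cardinal.infinite_iff.1 hinf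
  rcases hA.eq_or_lt with h | h
  · exact Pool.Agent.LibBV24.main_countable h.symm p F
  · by_cases hr : (Cardinal.mk A).IsRegular
    · exact Pool.Agent.LibGPR.main_regular h hr p F hF hFF
    · exact Pool.Agent.LibGS.main_singular hA hr p F hF hFF

end Pool.Agent.S13587
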