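import Pool.Statements.S13599
import Pool.Agent.H78String.Main

set_option autoImplicit false
open Pool Pool.MP_94e842_gt

namespace Pool.Agent.S13599

/-- Any planar convex body whose boundary has the transitivity property is an ellipse. Transitivity: string construction at length ℓ1, then at any ℓ2 above the new perimeter, equals a single string construction at some ℓ3. -/
theorem result :
    ∀ K : Set (EuclideanSpace ℝ (Fin 2)), IsCompact K → Convex ℝ K → (interior K).Nonempty →
      (∀ ℓ1 : ℝ, (MeasureTheory.Measure.hausdorffMeasure 1 (frontier K)).toReal < ℓ1 →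
        ∀ ℓ2 : ℝ,
          (MeasureTheory.Measure.hausdorffMeasure 1
              (frontier {x : EuclideanSpace ℝ (Fin 2) |
                (MeasureTheory.Measure.hausdorffMeasure 1
                  (frontier (convexHull ℝ (insert x K)))).toReal ≤ ℓ1})).toReal < ℓ2 →
          ∃ ℓ3 : ℝ,
            {y : EuclideanSpace ℝ (Fin 2) |
              (MeasureTheory.Measure.hausdorffMeasure 1
                (frontier (convexHull ℝ (insert y
                  {x : EuclideanSpace ℝ (Fin 2) |
                    (MeasureTheory.Measure.hausdorffMeasure 1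
                      (frontier (convexHull ℝ (insert x K)))).toReal ≤ ℓ1})))).toReal = ℓ2}
            = {y : EuclideanSpace ℝ (Fin 2) |
              (MeasureTheory.Measure.hausdorffMeasure 1
                (frontier (convexHull ℝ (insert y K)))).toReal = ℓ3}) →
      ∃ f : EuclideanSpace ℝ (Fin 2) ≃ᵃ[ℝ] EuclideanSpace ℝ (Fin 2),
        K = f '' Metric.closedBall 0 1 := by
  intro K hcomp hconv hint h
  have hK : Pool.Agent.H78String.Body K := ⟨hcomp, hconv, hint⟩
  refine Pool.Agent.H78String.body_ellipse hK ?_
  have hsub : ∀ c : ℝ, {x : EuclideanSpace ℝ (Fin 2) |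
      (MeasureTheory.Measure.hausdorffMeasure 1
        (frontier (convexHull ℝ (insert x K)))).toReal ≤ c} = Pool.Agent.H78String.sub K c := by
    intro c
    ext x
    show _ ≤ c ↔ _ ≤ c
    rw [Pool.Agent.H78String.F_eq_perimeter hK]
  intro c hc l hl
  have hb := Pool.Agent.H78String.sub_body hK hc.le
  obtain ⟨l', hl'⟩ := h c (by rw [Pool.Agent.H78String.cauchy_toReal hK]; exact hc) l
    (by rw [hsub, Pool.Agent.H78String.cauchy_toReal hb]; exact hl)
  refine ⟨l', ?_⟩
  rw [hsub] at hl'
  simp only [Pool.Agent.H78String.F_eq_perimeter hb,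
    Pool.Agent.H78String.F_eq_perimeter hK] at hl'
  exact hl'

end Pool.Agent.S13599
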