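import Pool.Statements.S14128
import Pool.Agent.AtEq.Fan

set_option autoImplicit false
open Pool Pool.MP_e28848_gt

namespace Pool.Agent.S14128

open Pool.Agent.AtEq Filter Topology

theorem exists_pair :
    ∃ φ : (NSp (fanF (⊥ : Filter Empty)) → ℝ) ≃ₜ (NSp (fanF brF) → ℝ),
      φ '' {f | Continuous f} = {g | Continuous g} := by
  obtain ⟨A, a, ha⟩ := exists_absorber (⊥ : Filter Empty) bot_le (fun _ _ => Set.univ)
    (fun _ _ => isClosed_univ) (fun _ _ _ _ => subset_rfl)
    (fun g => ⟨fun _ _ => ⟨0, trivial⟩, fun _ => tendsto_bot⟩)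
  obtain ⟨B, b, hb⟩ := exists_absorber brF brF_le_cofinite BB isClosed_BB BB_mono tendsto_brF_iff
  obtain ⟨G, hG⟩ := absorber_homeo A B
  refine ⟨(a.trans G).trans b.symm, ?_⟩
  ext g
  constructor
  · rintro ⟨f, hf, rfl⟩
    have h1 : a f ∈ A.Om := (ha f).1 hf
    have h2 : G (a f) ∈ B.Om := (hG _).1 h1
    change Continuous (b.symm (G (a f)))
    rw [hb, Homeomorph.apply_symm_apply]
    exact h2
  · intro hg
    have h1 : b g ∈ B.Om := (hb g).1 hg
    refine ⟨a.symm (G.symm (b g)), ?_, ?_⟩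
    · change Continuous (a.symm (G.symm (b g)))
      rw [ha, Homeomorph.apply_symm_apply, hG, Homeomorph.apply_symm_apply]
      exact h1
    · change b.symm (G (a (a.symm (G.symm (b g))))) = g
      simp

/-- The negation of the preceding statement: For Tychonoff spaces X, Y: if some homeomorphism of ℝ^X onto ℝ^Y carries C_p(X) onto C_p(Y), and X has a countable k-network (is an ℵ0-space), then Y also has a countable k-network. -/
theorem result :
    ¬ (∀ (X Y : Type) [TopologicalSpace X] [TopologicalSpace Y] [T35Space X] [T35Space Y],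
      (∃ φ : (X → ℝ) ≃ₜ (Y → ℝ),
          φ '' {f : X → ℝ | Continuous f} = {g : Y → ℝ | Continuous g}) →
      (∃ 𝒩 : Set (Set X), 𝒩.Countable ∧
          ∀ K U : Set X, IsCompact K → IsOpen U → K ⊆ U →
            ∃ F : Set (Set X), F.Finite ∧ F ⊆ 𝒩 ∧ K ⊆ ⋃₀ F ∧ ⋃₀ F ⊆ U) →
      (∃ 𝒩 : Set (Set Y), 𝒩.Countable ∧
          ∀ K U : Set Y, IsCompact K → IsOpen U → K ⊆ U →
            ∃ F : Set (Set Y), F.Finite ∧ F ⊆ 𝒩 ∧ K ⊆ ⋃₀ F ∧ ⋃₀ F ⊆ U)) := by
  intro H
  have i1 : T35Space (NSp (fanF (⊥ : Filter Empty))) := t35_nsp _ (fanF_le_cofinite bot_le)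
  have i2 : T35Space (NSp (fanF brF)) := t35_nsp _ (fanF_le_cofinite brF_le_cofinite)
  exact tree_no_network (H (NSp (fanF (⊥ : Filter Empty))) (NSp (fanF brF)) exists_pair
    fan_network)

end Pool.Agent.S14128
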