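import Pool.Statements.S14163

set_option autoImplicit false
open Pool Pool.MP_eb94e1_gt

namespace Pool.Agent.S14163

open Set Topology TopologicalSpace

/-- countable subsets of `I` -/
abbrev Jx (I : Type) : Type := {A : Set I // A.Countable}

/-- the index set -/
abbrev Nx (I : Type) : Type := I ⊕ Jx I

variable {I : Type}

/-- the points of the space -/
structure Adm (f : Nx I → Bool) : Prop where
  cs : {n | f n = true}.Countable
  one : ∀ j j' : Jx I, f (Sum.inr j) = true → f (Sum.inr j') = true → j = j'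
  fin : ∀ j : Jx I, f (Sum.inr j) = true → {i | i ∈ j.1 ∧ f (Sum.inl i) = false}.Finite

/-- closed index sets -/
def GoodSet (B : Set (Nx I)) : Prop :=
  ∀ j : Jx I, Sum.inr j ∈ B → ∀ i ∈ j.1, Sum.inl i ∈ B

/-- the closed index set generated by a set -/
def gcl (B : Set (Nx I)) : Set (Nx I) :=
  B ∪ ⋃ n ∈ B, {m | ∃ j : Jx I, n = Sum.inr j ∧ ∃ i ∈ j.1, m = Sum.inl i}

theorem gcl_countable {B : Set (Nx I)} (hB : B.Countable) : (gcl B).Countable := by
  refine hB.union (hB.biUnion fun n _ => ?_)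
  rcases n with i | j
  · refine Set.Countable.mono (s₂ := ∅) ?_ Set.countable_empty
    rintro m ⟨j, hj, _⟩
    cases hj
  · refine Set.Countable.mono (s₂ := Sum.inl '' j.1) ?_ (j.2.image _)
    rintro m ⟨j', hj, i, hi, rfl⟩
    have : j = j' := Sum.inr_injective hj
    subst this
    exact ⟨i, hi, rfl⟩

theorem gcl_good (B : Set (Nx I)) : GoodSet (gcl B) := by
  intro j hj i hi
  rcases hj with hj | hj
  · right
    simp only [Set.mem_iUnion]
    exact ⟨Sum.inr j, hj, j, rfl, i, hi, rfl⟩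
  · exfalso
    simp only [Set.mem_iUnion] at hj
    obtain ⟨n, hn, j', hj', i', hi', h⟩ := hj
    cases h

theorem subset_gcl (B : Set (Nx I)) : B ⊆ gcl B := Set.subset_union_left

theorem exists_seq (Q : Set (Nx I) → Set (Nx I) → Prop)
    (hmono : ∀ B C C', C ⊆ C' → Q B C → Q B C')
    (hstep : ∀ B : Set (Nx I), B.Countable → ∃ C : Set (Nx I), C.Countable ∧ Q B C) :
    ∃ B : ℕ → Set (Nx I), (∀ n, (B n).Countable) ∧ (∀ n, GoodSet (B n)) ∧ Monotone B ∧
      ∀ n, Q (B n) (B (n + 1)) := by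
  choose C hC hC' using hstep
  let E : Type := {B : Set (Nx I) // B.Countable ∧ GoodSet B}
  let s0 : E := ⟨∅, Set.countable_empty, fun j hj => absurd hj (Set.notMem_empty _)⟩
  let st : E → E := fun B => ⟨gcl (B.1 ∪ C B.1 B.2.1),
    gcl_countable (B.2.1.union (hC B.1 B.2.1)), gcl_good _⟩
  let B : ℕ → E := fun n => Nat.rec s0 (fun _ B => st B) n
  refine ⟨fun n => (B n).1, fun n => (B n).2.1, fun n => (B n).2.2, ?_, fun n => ?_⟩
  · refine monotone_nat_of_le_succ fun n => ?_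
    exact Set.subset_union_left.trans (subset_gcl ((B n).1 ∪ C (B n).1 (B n).2.1))
  · refine hmono _ _ _ ?_ (hC' (B n).1 (B n).2.1)
    exact Set.subset_union_right.trans (subset_gcl ((B n).1 ∪ C (B n).1 (B n).2.1))

theorem iUnion_good {B : ℕ → Set (Nx I)} (h : ∀ n, GoodSet (B n)) : GoodSet (⋃ n, B n) := by
  intro j hj i hi
  simp only [Set.mem_iUnion] at hj ⊢
  obtain ⟨n, hn⟩ := hj
  exact ⟨n, h n j hn i hi⟩

/-- selection of countably many representatives -/
theorem exists_sel {T : Type} (v : T → Nx I → Bool) (Fs : T → Finset (Nx I)) (B : Set (Nx I))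
    (hB : B.Countable) : ∃ D : Set T, D.Countable ∧ ∀ t : T, ∃ d ∈ D,
      (∀ n ∈ B, (n ∈ Fs d ↔ n ∈ Fs t)) ∧ ∀ n ∈ B, n ∈ Fs t → v d n = v t n := by
  classical
  have : Countable B := hB
  let code : T → Finset B × Finset B := fun t =>
    ((Fs t).subtype (· ∈ B), ((Fs t).subtype (· ∈ B)).filter (fun n : B => v t n = true))
  refine ⟨Set.range (fun c : Set.range code => c.2.choose), Set.countable_range _, fun t => ?_⟩
  let c : Set.range code := ⟨code t, t, rfl⟩
  refine ⟨c.2.choose, ⟨c, rfl⟩, ?_⟩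
  have hc : code c.2.choose = code t := c.2.choose_spec
  generalize c.2.choose = d at hc
  have h1 : (Fs d).subtype (· ∈ B) = (Fs t).subtype (· ∈ B) := congrArg Prod.fst hc
  have h2 : ((Fs d).subtype (· ∈ B)).filter (fun n : B => v d n = true) =
    ((Fs t).subtype (· ∈ B)).filter (fun n : B => v t n = true) := congrArg Prod.snd hc
  have h3 : ∀ n ∈ B, (n ∈ Fs d ↔ n ∈ Fs t) := by
    intro n hn
    have := Finset.ext_iff.1 h1 ⟨n, hn⟩
    simpa using this
  refine ⟨h3, fun n hn hnt => ?_⟩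
  have h4 := Finset.ext_iff.1 h2 ⟨n, hn⟩
  simp only [Finset.mem_filter, Finset.mem_subtype] at h4
  rw [h3 n hn] at h4
  have h5 : v d n = true ↔ v t n = true := by
    constructor
    · intro h
      exact (h4.1 ⟨hnt, h⟩).2
    · intro h
      exact (h4.2 ⟨hnt, h⟩).2
  exact Bool.eq_iff_iff.2 h5

/-- the space -/
abbrev X (I : Type) : Type := {f : Nx I → Bool // Adm f}

theorem exists_basic {U : Set (X I)} (hU : IsOpen U) {x : X I} (hx : x ∈ U) :
    ∃ F : Finset (Nx I), ∀ y : X I, (∀ n ∈ F, y.1 n = x.1 n) → y ∈ U := by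
  obtain ⟨V, hV, rfl⟩ := isOpen_induced_iff.1 hU
  obtain ⟨F, u, hu, hF⟩ := isOpen_pi_iff.1 hV x.1 hx
  refine ⟨F, fun y hy => hF fun n hn => ?_⟩
  rw [hy n hn]
  exact (hu n hn).2

theorem isOpen_basic (F : Finset (Nx I)) (f : Nx I → Bool) :
    IsOpen {y : X I | ∀ n ∈ F, y.1 n = f n} := by
  have : {y : X I | ∀ n ∈ F, y.1 n = f n} = ⋂ n ∈ F, {y : X I | y.1 n = f n} := by
    ext y
    simp
  rw [this]
  refine isOpen_biInter_finset fun n _ => ?_
  have h1 : Continuous (fun y : X I => y.1 n) := (continuous_apply n).comp continuous_subtype_val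
  exact (isOpen_discrete {f n}).preimage h1

open Classical in
/-- restriction to a closed index set -/
noncomputable def restr (B : Set (Nx I)) (f : Nx I → Bool) : Nx I → Bool :=
  fun n => if n ∈ B then f n else false

theorem restr_of_mem {B : Set (Nx I)} {n : Nx I} (hn : n ∈ B) (f : Nx I → Bool) :
    restr B f n = f n := by
  unfold restr
  rw [if_pos hn]

theorem restr_of_notMem {B : Set (Nx I)} {n : Nx I} (hn : n ∉ B) (f : Nx I → Bool) :
    restr B f n = false := by
  unfold restr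
  rw [if_neg hn]

theorem restr_true {B : Set (Nx I)} {n : Nx I} {f : Nx I → Bool} (h : restr B f n = true) :
    n ∈ B ∧ f n = true := by
  by_cases hn : n ∈ B
  · rw [restr_of_mem hn] at h
    exact ⟨hn, h⟩
  · rw [restr_of_notMem hn] at h
    cases h

theorem restr_adm {B : Set (Nx I)} (hB : GoodSet B) {f : Nx I → Bool} (hf : Adm f) :
    Adm (restr B f) where
  cs := hf.cs.mono fun n hn => (restr_true hn).2
  one := fun j j' hj hj' => hf.one j j' (restr_true hj).2 (restr_true hj').2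
  fin := fun j hj => by
    refine (hf.fin j (restr_true hj).2).subset ?_
    rintro i ⟨hi, hi'⟩
    refine ⟨hi, ?_⟩
    rwa [restr_of_mem (hB j (restr_true hj).1 i hi)] at hi'

/-- the key closing off step for normality -/
theorem disj_closure {H K : Set (X I)} (hH : IsClosed H) (hK : IsClosed K) (hHK : Disjoint H K)
    {B : Set (Nx I)} (hB : GoodSet B)
    (h1 : ∀ h ∈ H, ∀ F : Finset (Nx I), ∃ d ∈ H, (∀ n, d.1 n = true → n ∈ B) ∧
      ∀ n ∈ F, n ∈ B → d.1 n = h.1 n)
    (h2 : ∀ h ∈ K, ∀ F : Finset (Nx I), ∃ d ∈ K, (∀ n, d.1 n = true → n ∈ B) ∧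
      ∀ n ∈ F, n ∈ B → d.1 n = h.1 n) :
    Disjoint (closure ((fun (x : X I) (n : B) => x.1 n) '' H))
      ((fun (x : X I) (n : B) => x.1 n) '' K) := by
  classical
  rw [Set.disjoint_left]
  rintro z hz ⟨k, hk, rfl⟩
  let z' : X I := ⟨restr B k.1, restr_adm hB k.2⟩
  have hzK : z' ∈ K := by
    rw [← hK.closure_eq, mem_closure_iff]
    intro o ho hzo
    obtain ⟨F, hF⟩ := exists_basic ho hzo
    obtain ⟨d, hd, hd1, hd2⟩ := h2 k hk F
    refine ⟨d, hF d fun n hn => ?_, hd⟩
    by_cases hnB : n ∈ B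
    · rw [hd2 n hn hnB]
      exact (restr_of_mem hnB _).symm
    · have : d.1 n = false := by
        by_contra h
        rw [Bool.not_eq_false] at h
        exact hnB (hd1 n h)
      rw [this]
      exact (restr_of_notMem hnB _).symm
  have hzH : z' ∈ H := by
    rw [← hH.closure_eq, mem_closure_iff]
    intro o ho hzo
    obtain ⟨F, hF⟩ := exists_basic ho hzo
    have hopen : IsOpen {w : B → Bool | ∀ n ∈ F.subtype (· ∈ B), w n = k.1 n} := by
      have : {w : B → Bool | ∀ n ∈ F.subtype (· ∈ B), w n = k.1 n} =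
          ⋂ n ∈ F.subtype (· ∈ B), {w : B → Bool | w n = k.1 n} := by
        ext w
        simp only [Set.mem_ofPred_eq, Set.mem_iInter]
      rw [this]
      refine isOpen_biInter_finset fun n _ => ?_
      have hc : Continuous (fun w : B → Bool => w n) := continuous_apply n
      exact (isOpen_discrete {k.1 n}).preimage hc
    obtain ⟨w, hw, h, hh, rfl⟩ := mem_closure_iff.1 hz _ hopen (fun n _ => rfl)
    obtain ⟨d, hd, hd1, hd2⟩ := h1 h hh F
    refine ⟨d, hF d fun n hn => ?_, hd⟩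
    by_cases hnB : n ∈ B
    · rw [hd2 n hn hnB]
      have h3 : h.1 n = k.1 n := hw ⟨n, hnB⟩ (by simpa using hn)
      rw [h3]
      exact (restr_of_mem hnB _).symm
    · have : d.1 n = false := by
        by_contra h
        rw [Bool.not_eq_false] at h
        exact hnB (hd1 n h)
      rw [this]
      exact (restr_of_notMem hnB _).symm
  exact (Set.disjoint_left.1 hHK) hzH hzK

theorem finset_subset_of_iUnion {B : ℕ → Set (Nx I)} (hB : Monotone B) (F : Finset (Nx I)) :
    ∃ m, ∀ n ∈ F, n ∈ (⋃ k, B k) → n ∈ B m := by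
  classical
  induction F using Finset.induction_on with
  | empty => exact ⟨0, by simp⟩
  | insert a s ha ih =>
    obtain ⟨m, hm⟩ := ih
    by_cases h : a ∈ ⋃ k, B k
    · obtain ⟨k, hk⟩ := Set.mem_iUnion.1 h
      refine ⟨max m k, fun n hn hn' => ?_⟩
      rcases Finset.mem_insert.1 hn with rfl | hn
      · exact hB (le_max_right m k) hk
      · exact hB (le_max_left m k) (hm n hn hn')
    · refine ⟨m, fun n hn hn' => ?_⟩
      rcases Finset.mem_insert.1 hn with rfl | hn
      · exact absurd hn' h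
      · exact hm n hn hn'

instance X_normal : NormalSpace (X I) := by
  classical
  refine ⟨fun H K hH hK hHK => ?_⟩
  -- selection
  have hsel : ∀ (H : Set (X I)) (B : Set (Nx I)), B.Countable → ∃ C : Set (Nx I), C.Countable ∧
      ∀ h ∈ H, ∀ F : Finset (Nx I), (∀ n ∈ F, n ∈ B) → ∃ d ∈ H, (∀ n, d.1 n = true → n ∈ C) ∧
        ∀ n ∈ F, d.1 n = h.1 n := by
    intro H B hB
    obtain ⟨D, hD, hD'⟩ := exists_sel (T := H × Finset (Nx I)) (fun t => t.1.1.1) (fun t => t.2) B hB
    refine ⟨⋃ d ∈ D, {n | d.1.1.1 n = true}, hD.biUnion fun d _ => d.1.1.2.cs, ?_⟩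
    intro h hh F hF
    obtain ⟨d, hd, h1, h2⟩ := hD' (⟨h, hh⟩, F)
    refine ⟨d.1.1, d.1.2, fun n hn => ?_, fun n hn => h2 n (hF n hn) hn⟩
    simp only [Set.mem_iUnion]
    exact ⟨d, hd, hn⟩
  obtain ⟨Bs, hBc, hBg, hBm, hBQ⟩ := exists_seq (I := I)
    (fun B C => (∀ h ∈ H, ∀ F : Finset (Nx I), (∀ n ∈ F, n ∈ B) →
      ∃ d ∈ H, (∀ n, d.1 n = true → n ∈ C) ∧ ∀ n ∈ F, d.1 n = h.1 n) ∧
      (∀ h ∈ K, ∀ F : Finset (Nx I), (∀ n ∈ F, n ∈ B) →
      ∃ d ∈ K, (∀ n, d.1 n = true → n ∈ C) ∧ ∀ n ∈ F, d.1 n = h.1 n))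
    (by
      rintro B C C' hCC ⟨h1, h2⟩
      refine ⟨fun h hh F hF => ?_, fun h hh F hF => ?_⟩
      · obtain ⟨d, hd, h3, h4⟩ := h1 h hh F hF
        exact ⟨d, hd, fun n hn => hCC (h3 n hn), h4⟩
      · obtain ⟨d, hd, h3, h4⟩ := h2 h hh F hF
        exact ⟨d, hd, fun n hn => hCC (h3 n hn), h4⟩)
    (by
      intro B hB
      obtain ⟨C, hC, h1⟩ := hsel H B hB
      obtain ⟨C', hC', h2⟩ := hsel K B hB
      refine ⟨C ∪ C', hC.union hC', fun h hh F hF => ?_, fun h hh F hF => ?_⟩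
      · obtain ⟨d, hd, h3, h4⟩ := h1 h hh F hF
        exact ⟨d, hd, fun n hn => Or.inl (h3 n hn), h4⟩
      · obtain ⟨d, hd, h3, h4⟩ := h2 h hh F hF
        exact ⟨d, hd, fun n hn => Or.inr (h3 n hn), h4⟩)
  let B : Set (Nx I) := ⋃ n, Bs n
  have hBcount : B.Countable := Set.countable_iUnion hBc
  have hBgood : GoodSet B := iUnion_good hBg
  have hstar : ∀ (L : Set (X I)), (∀ m, ∀ h ∈ L, ∀ F : Finset (Nx I), (∀ n ∈ F, n ∈ Bs m) →
      ∃ d ∈ L, (∀ n, d.1 n = true → n ∈ Bs (m + 1)) ∧ ∀ n ∈ F, d.1 n = h.1 n) →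
      ∀ h ∈ L, ∀ F : Finset (Nx I), ∃ d ∈ L, (∀ n, d.1 n = true → n ∈ B) ∧
      ∀ n ∈ F, n ∈ B → d.1 n = h.1 n := by
    intro L hL h hh F
    obtain ⟨m, hm⟩ := finset_subset_of_iUnion hBm F
    obtain ⟨d, hd, h1, h2⟩ := hL m h hh (F.filter (· ∈ B)) (fun n hn => by
      rw [Finset.mem_filter] at hn
      exact hm n hn.1 hn.2)
    refine ⟨d, hd, fun n hn => Set.mem_iUnion.2 ⟨m + 1, h1 n hn⟩, fun n hn hnB => ?_⟩
    exact h2 n (Finset.mem_filter.2 ⟨hn, hnB⟩)
  have hs1 := hstar H (fun m => (hBQ m).1)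
  have hs2 := hstar K (fun m => (hBQ m).2)
  have hd1 := disj_closure hH hK hHK hBgood hs1 hs2
  have hd2 := disj_closure hK hH hHK.symm hBgood hs2 hs1
  have : Countable B := hBcount
  have h3 := CompletelyNormalSpace.completely_normal hd1 hd2.symm
  rw [← separatedNhds_iff_disjoint] at h3
  obtain ⟨U, V, hU, hV, hHU, hKV, hUV⟩ := h3
  have hcont : Continuous (fun (x : X I) (n : B) => x.1 n) :=
    continuous_pi fun n => (continuous_apply (n : Nx I)).comp continuous_subtype_val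
  refine ⟨(fun (x : X I) (n : B) => x.1 n) ⁻¹' U, (fun (x : X I) (n : B) => x.1 n) ⁻¹' V,
    hU.preimage hcont, hV.preimage hcont, ?_, ?_, hUV.preimage _⟩
  · exact fun x hx => hHU ⟨x, hx, rfl⟩
  · exact fun x hx => hKV ⟨x, hx, rfl⟩

theorem X_weak (𝒰 : Set (Set (X I))) (h𝒰 : ∀ U ∈ 𝒰, IsOpen U) (hcov : ⋃₀ 𝒰 = Set.univ) :
    ∃ 𝒱 ⊆ 𝒰, 𝒱.Countable ∧ Dense (⋃₀ 𝒱) := by
  classical
  have h1 : ∀ x : X I, ∃ U ∈ 𝒰, ∃ F : Finset (Nx I), ∀ y : X I, (∀ n ∈ F, y.1 n = x.1 n) → y ∈ U := by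
    intro x
    have : x ∈ ⋃₀ 𝒰 := by rw [hcov]; trivial
    obtain ⟨U, hU, hx⟩ := this
    obtain ⟨F, hF⟩ := exists_basic (h𝒰 U hU) hx
    exact ⟨U, hU, F, hF⟩
  choose U hU F hF using h1
  obtain ⟨Bs, hBc, hBg, hBm, hBQ⟩ := exists_seq (I := I)
    (fun B C => ∃ D : Set (X I), D.Countable ∧ ∀ y : X I, (∀ n, y.1 n = true → n ∈ B) →
      ∃ e ∈ D, (∀ n ∈ F e, n ∈ C) ∧ ∀ n ∈ F e, y.1 n = e.1 n)
    (by
      rintro B C C' hCC ⟨D, hD, h⟩
      refine ⟨D, hD, fun y hy => ?_⟩
      obtain ⟨e, he, h1, h2⟩ := h y hy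
      exact ⟨e, he, fun n hn => hCC (h1 n hn), h2⟩)
    (by
      intro B hB
      obtain ⟨D, hD, hD'⟩ := exists_sel (T := {y : X I // ∀ n, y.1 n = true → n ∈ B})
        (fun t => t.1.1) (fun t => F t.1) B hB
      refine ⟨⋃ d ∈ D, (F d.1 : Set (Nx I)), hD.biUnion fun d _ => (F d.1).countable_toSet,
        Subtype.val '' D, hD.image _, fun y hy => ?_⟩
      obtain ⟨d, hd, h2, h3⟩ := hD' ⟨y, hy⟩
      refine ⟨d.1, ⟨d, hd, rfl⟩, fun n hn => ?_, fun n hn => ?_⟩
      · simp only [Set.mem_iUnion]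
        exact ⟨d, hd, hn⟩
      · by_cases hnB : n ∈ B
        · exact (h3 n hnB ((h2 n hnB).1 hn)).symm
        · have e1 : y.1 n = false := by
            by_contra h
            rw [Bool.not_eq_false] at h
            exact hnB (hy n h)
          have e2 : d.1.1 n = false := by
            by_contra h
            rw [Bool.not_eq_false] at h
            exact hnB (d.2 n h)
          rw [e1, e2])
  choose D hD hD' using hBQ
  refine ⟨U '' (⋃ m, D m), ?_, (Set.countable_iUnion hD).image _, ?_⟩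
  · rintro _ ⟨e, _, rfl⟩
    exact hU e
  · intro x
    rw [mem_closure_iff]
    intro o ho hxo
    obtain ⟨G, hG⟩ := exists_basic ho hxo
    obtain ⟨m, hm⟩ := finset_subset_of_iUnion hBm G
    let y : X I := ⟨restr (Bs m) x.1, restr_adm (hBg m) x.2⟩
    obtain ⟨e, he, he1, he2⟩ := hD' m y (fun n hn => (restr_true hn).1)
    let w0 : Nx I → Bool := fun n => if n ∈ F e ∧ n ∉ Bs m then false else x.1 n
    have hw0 : ∀ n, w0 n = true → x.1 n = true := by
      intro n hn
      by_contra h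
      simp only [w0] at hn
      split_ifs at hn
      exact h hn
    have hw : Adm w0 := by
      refine ⟨x.2.cs.mono fun n hn => hw0 n hn,
        fun j j' hj hj' => x.2.one j j' (hw0 _ hj) (hw0 _ hj'), fun j hj => ?_⟩
      refine ((x.2.fin j (hw0 _ hj)).union ((F e).finite_toSet.preimage
        Sum.inl_injective.injOn)).subset ?_
      rintro i ⟨hi, hi'⟩
      by_cases h : (Sum.inl i : Nx I) ∈ F e
      · exact Or.inr h
      · left
        refine ⟨hi, ?_⟩
        simp only [w0] at hi'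
        rwa [if_neg (fun h' => h h'.1)] at hi'
    refine ⟨⟨w0, hw⟩, hG _ fun n hn => ?_, U e, ⟨e, Set.mem_iUnion.2 ⟨m, he⟩, rfl⟩,
      hF e _ fun n hn => ?_⟩
    · show w0 n = x.1 n
      simp only [w0]
      split_ifs with h
      · exfalso
        exact h.2 (hm n hn (Set.mem_iUnion.2 ⟨m + 1, he1 n h.1⟩))
      · rfl
    · show w0 n = e.1 n
      rw [← he2 n hn]
      simp only [w0]
      by_cases h : n ∈ Bs m
      · rw [if_neg (fun h' => h'.2 h)]
        exact (restr_of_mem h _).symm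
      · rw [if_pos ⟨hn, h⟩]
        exact (restr_of_notMem h _).symm

/-- the members of the cellular family -/
def cell (j : Jx I) : Set (X I) := {x | x.1 (Sum.inr j) = true}

theorem isOpen_cell (j : Jx I) : IsOpen (cell j) := by
  have h1 : Continuous (fun y : X I => y.1 (Sum.inr j)) :=
    (continuous_apply _).comp continuous_subtype_val
  exact (isOpen_discrete {true}).preimage h1

theorem cell_nonempty (j : Jx I) : (cell j).Nonempty := by
  classical
  let f : Nx I → Bool := fun n => Sum.elim (fun i => decide (i ∈ j.1)) (fun j' => decide (j' = j)) n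
  have hf : Adm f := by
    refine ⟨?_, fun a b ha hb => ?_, fun a ha => ?_⟩
    · refine Set.Countable.mono (s₂ := Sum.inl '' j.1 ∪ {Sum.inr j}) ?_
        ((j.2.image _).union (Set.countable_singleton _))
      rintro (i | a) h
      · left
        have : i ∈ j.1 := by simpa [f] using h
        exact ⟨i, this, rfl⟩
      · right
        have : a = j := by simpa [f] using h
        rw [this]
        rfl
    · have h1 : a = j := by simpa [f] using ha
      have h2 : b = j := by simpa [f] using hb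
      rw [h1, h2]
    · have h1 : a = j := by simpa [f] using ha
      subst h1
      refine Set.finite_empty.subset ?_
      rintro i ⟨hi, hi'⟩
      have : i ∉ a.1 := by simpa [f] using hi'
      exact absurd hi this
  exact ⟨⟨f, hf⟩, by simp [cell, f]⟩

theorem cell_disjoint {j j' : Jx I} (h : j ≠ j') : Disjoint (cell j) (cell j') := by
  rw [Set.disjoint_left]
  intro x hx hx'
  exact h (x.2.one j j' hx hx')

theorem not_meets [Uncountable I] (L : Set (X I)) (hL : IsLindelof L) :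
    ∃ j : Jx I, Disjoint (cell j) L := by
  by_contra hcon
  push Not at hcon
  obtain ⟨Bs, hBc, hBg, hBm, hBQ⟩ := exists_seq (I := I)
    (fun B C => ∀ x ∈ L, ∃ i : I, Sum.inl i ∈ C ∧ (Sum.inl i : Nx I) ∉ B ∧ x.1 (Sum.inl i) = false)
    (by
      intro B C C' hCC h x hx
      obtain ⟨i, h1, h2, h3⟩ := h x hx
      exact ⟨i, hCC h1, h2, h3⟩)
    (by
      intro B hB
      obtain ⟨r, hr, hLr⟩ := hL.elim_countable_subcover
        (fun i : {i : I // (Sum.inl i : Nx I) ∉ B} => {x : X I | x.1 (Sum.inl i.1) = false})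
        (fun i => by
          have h1 : Continuous (fun y : X I => y.1 (Sum.inl i.1)) :=
            (continuous_apply _).comp continuous_subtype_val
          exact (isOpen_discrete {false}).preimage h1)
        (by
          intro x _
          by_contra h
          simp only [Set.mem_iUnion, not_exists] at h
          have h2 : (Set.univ : Set I) ⊆ Sum.inl ⁻¹' B ∪ Sum.inl ⁻¹' {n : Nx I | x.1 n = true} := by
            intro i _
            by_cases hi : (Sum.inl i : Nx I) ∈ B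
            · exact Or.inl hi
            · right
              have := h ⟨i, hi⟩
              simpa using this
          have h3 : (Set.univ : Set I).Countable :=
            ((hB.preimage Sum.inl_injective).union (x.2.cs.preimage Sum.inl_injective)).mono h2
          exact not_countable_univ h3)
      refine ⟨(fun i : {i : I // (Sum.inl i : Nx I) ∉ B} => Sum.inl i.1) '' r, hr.image _, ?_⟩
      intro x hx
      have := hLr hx
      simp only [Set.mem_iUnion] at this
      obtain ⟨i, hi, hxi⟩ := this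
      exact ⟨i.1, ⟨i, hi, rfl⟩, i.2, hxi⟩)
  let A : Set I := Sum.inl ⁻¹' (⋃ n, Bs n)
  have hA : A.Countable := (Set.countable_iUnion hBc).preimage Sum.inl_injective
  have h1 := hcon ⟨A, hA⟩
  rw [Set.not_disjoint_iff] at h1
  obtain ⟨x, hx, hxL⟩ := h1
  have hfin := x.2.fin _ hx
  obtain ⟨m, hm⟩ := finset_subset_of_iUnion hBm (hfin.toFinset.map ⟨Sum.inl, Sum.inl_injective⟩)
  obtain ⟨i, hi1, hi2, hi3⟩ := hBQ m x hxL
  apply hi2
  have hiA : (Sum.inl i : Nx I) ∈ ⋃ n, Bs n := Set.mem_iUnion.2 ⟨m + 1, hi1⟩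
  refine hm _ ?_ hiA
  rw [Finset.mem_map]
  exact ⟨i, by
    rw [Set.Finite.mem_toFinset]
    exact ⟨hiA, hi3⟩, rfl⟩

/-- There is a normal T1 space in which every open cover has a countable subfamily with dense union, but some family of disjoint nonempty open sets is not met entirely by any Lindelöf subset. -/
theorem result :
    ∃ (X : Type) (_ : TopologicalSpace X), T4Space X ∧
      (∀ 𝒰 : Set (Set X), (∀ U ∈ 𝒰, IsOpen U) → ⋃₀ 𝒰 = Set.univ →
        ∃ 𝒱 ⊆ 𝒰, 𝒱.Countable ∧ Dense (⋃₀ 𝒱)) ∧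
      (∃ 𝒰 : Set (Set X), (∀ U ∈ 𝒰, IsOpen U ∧ U.Nonempty) ∧ 𝒰.PairwiseDisjoint id ∧
        ∀ L : Set X, IsLindelof L → ∃ U ∈ 𝒰, Disjoint U L) := by
  refine ⟨X ℝ, inferInstance, ?_, X_weak, Set.range cell, ?_, ?_, ?_⟩
  · exact { toT1Space := inferInstance, toNormalSpace := X_normal }
  · rintro _ ⟨j, rfl⟩
    exact ⟨isOpen_cell j, cell_nonempty j⟩
  · rintro _ ⟨j, rfl⟩ _ ⟨j', rfl⟩ h
    refine cell_disjoint fun h' => h ?_
    rw [h']
  · intro L hL
    obtain ⟨j, hj⟩ := not_meets L hL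
    exact ⟨cell j, ⟨j, rfl⟩, hj⟩

end Pool.Agent.S14163
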