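import Pool.Statements.S14293
import Pool.Agent.DimType.Shift

set_option autoImplicit false
open Pool Pool.MP_fe23ac_gt

namespace Pool.Agent.S14293

open Pool.Agent.DimType Topology Set

/-- Embedding between images, in terms of the original spaces. -/
theorem le_iff {e : W → ℝ} (he : IsEmbedding e) (S T : Set W) :
    (∃ f : (e '' S) → (e '' T), IsEmbedding f) ↔ ∃ g : S → T, IsEmbedding g := by
  constructor
  · rintro ⟨f, hf⟩
    exact ⟨(he.homeomorphImage T).symm ∘ f ∘ (he.homeomorphImage S),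
      (he.homeomorphImage T).symm.isEmbedding.comp (hf.comp (he.homeomorphImage S).isEmbedding)⟩
  · rintro ⟨g, hg⟩
    exact ⟨(he.homeomorphImage T) ∘ g ∘ (he.homeomorphImage S).symm,
      (he.homeomorphImage T).isEmbedding.comp (hg.comp (he.homeomorphImage S).symm.isEmbedding)⟩

theorem A_mono (E : Set X) {F G : Set Line} (h : F ⊆ G) : A E F ⊆ A E G := by
  intro z hz
  rcases z with ⟨x, n⟩ | ⟨i, n⟩ | ⟨j, m⟩ | _
  · exact hz
  · rcases hz with h' | h'
    · exact Or.inl h'
    · exact Or.inr (h h')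
  · rcases hz with h' | h'
    · exact Or.inl h'
    · exact Or.inr (h h')
  · trivial

theorem no_emb' {E : Set X} (hE : Rig E) {F : Set Line} {y : Line} (hy : y ∉ F) :
    ¬ ∃ g : A E (insert y F) → A E F, IsEmbedding g := by
  rintro ⟨g, hg⟩
  obtain ⟨f, hf, _⟩ := exists_emb g hg
  exact no_emb hE hy hf

/-- For sets of reals ordered by embeddability (E<F: E embeds in F, not conversely; E p F: E<F with nothing strictly between), there exist A,B,C and A_1,A_2,... with A p B p C, A p A_1 p A_2 p ..., and every A_n < C. -/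
theorem result :
    ∀ (le lt p : Set ℝ → Set ℝ → Prop),
      (∀ E F : Set ℝ, le E F ↔ ∃ f : E → F, Topology.IsEmbedding f) →
      (∀ E F : Set ℝ, lt E F ↔ le E F ∧ ¬ le F E) →
      (∀ E F : Set ℝ, p E F ↔ lt E F ∧ ¬ ∃ G : Set ℝ, lt E G ∧ lt G F) →
      ∃ (A B C : Set ℝ) (S : ℕ → Set ℝ),
        p A B ∧ p B C ∧ p A (S 0) ∧ (∀ n : ℕ, p (S n) (S (n + 1))) ∧
          ∀ n : ℕ, lt (S n) C := by
  intro le lt p hle hlt hp
  obtain ⟨E, hE1, hE2⟩ := rigid_exists (X := DimType.X) card_open
  have hE : Rig E := ⟨hE1, hE2⟩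
  obtain ⟨e, he⟩ := W_embeds
  have hle' : ∀ S T : Set W, le (e '' S) (e '' T) ↔ ∃ g : S → T, IsEmbedding g :=
    fun S T => (hle _ _).trans (le_iff he S T)
  have hmono : ∀ S T : Set W, S ⊆ T → le (e '' S) (e '' T) := fun S T h =>
    (hle' S T).2 ⟨inclusion h, IsEmbedding.inclusion h⟩
  -- the basic successor relation
  have step : ∀ (F : Set Line) (y : Line), y ∉ F →
      p (e '' DimType.A E F) (e '' DimType.A E (insert y F)) := by
    intro F y hy
    rw [hp]
    refine ⟨(hlt _ _).2 ⟨hmono _ _ (A_mono E (subset_insert y F)), fun h =>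
      no_emb' hE hy ((hle' _ _).1 h)⟩, ?_⟩
    rintro ⟨G, hG1, hG2⟩
    rw [hlt, hle, hle] at hG1 hG2
    obtain ⟨⟨f, hf⟩, hnG⟩ := hG1
    obtain ⟨⟨g, hg⟩, hnT⟩ := hG2
    let hS := he.homeomorphImage (DimType.A E F)
    let hT := he.homeomorphImage (DimType.A E (insert y F))
    let g' : G → DimType.A E (insert y F) := hT.symm ∘ g
    have hg' : IsEmbedding g' := hT.symm.isEmbedding.comp hg
    let f' : DimType.A E F → G := f ∘ hS
    have hf' : IsEmbedding f' := hf.comp hS.isEmbedding
    have hc : IsEmbedding (g' ∘ f') := hg'.comp hf'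
    obtain ⟨F', hF', hFe⟩ := exists_emb (g' ∘ f') hc
    have hran : ∀ z : DimType.A E (insert y F), z ∉ range (g' ∘ f') →
        (z : W) ∉ F' '' (DimType.A E F) := by
      rintro z hz ⟨w, hw, hwe⟩
      apply hz
      refine ⟨⟨w, hw⟩, ?_⟩
      exact Subtype.ext ((hFe ⟨w, hw⟩).symm.trans hwe)
    by_cases hcase : range g' ⊆ range (g' ∘ f')
    · -- G embeds in the smaller set
      apply hnG
      have hk : ∀ x : G, ∃ a, (g' ∘ f') a = g' x := fun x => hcase ⟨x, rfl⟩
      choose k hk using hk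
      have hke : (g' ∘ f') ∘ k = g' := funext hk
      have hkemb : IsEmbedding k := by
        have h1 : IsEmbedding ((g' ∘ f') ∘ k) := by rw [hke]; exact hg'
        exact (IsEmbedding.of_comp_iff hc).1 h1
      exact ⟨hS ∘ k, hS.isEmbedding.comp hkemb⟩
    · -- G is everything
      apply hnT
      obtain ⟨z, ⟨x, rfl⟩, hx⟩ := not_subset.1 hcase
      have hsurj : Function.Surjective g' := by
        intro t
        by_cases ht : t ∈ range (g' ∘ f')
        · obtain ⟨a, ha⟩ := ht
          exact ⟨f' a, ha⟩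
        · refine ⟨x, ?_⟩
          exact Subtype.ext (sub_one hE hF' (g' x).2 t.2 (hran _ hx) (hran _ ht))
      let hh := hg'.toHomeomorphOfSurjective hsurj
      exact ⟨hh.symm ∘ hT.symm, hh.symm.isEmbedding.comp hT.symm.isEmbedding⟩
  -- the data
  let FS : ℕ → Set Line := fun n => {l | ∃ j ≤ n, l = Sum.inr j}
  have hFS0 : FS 0 = insert (Sum.inr 0) ∅ := by
    ext l
    constructor
    · rintro ⟨j, hj, rfl⟩
      have : j = 0 := by omega
      subst this; exact Or.inl rfl
    · rintro (rfl | h)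
      · exact ⟨0, le_rfl, rfl⟩
      · exact h.elim
  have hFSn : ∀ n, FS (n + 1) = insert (Sum.inr (n + 1)) (FS n) := by
    intro n
    ext l
    constructor
    · rintro ⟨j, hj, rfl⟩
      rcases Nat.lt_or_ge j (n + 1) with h | h
      · exact Or.inr ⟨j, by omega, rfl⟩
      · have : j = n + 1 := by omega
        subst this; exact Or.inl rfl
    · rintro (rfl | ⟨j, hj, rfl⟩)
      · exact ⟨n + 1, le_rfl, rfl⟩
      · exact ⟨j, by omega, rfl⟩
  have hFSnot : ∀ n, (Sum.inr (n + 1) : Line) ∉ FS n := by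
    rintro n ⟨j, hj, h⟩
    have : n + 1 = j := Sum.inr.inj h
    omega
  have hFL : (FL : Set Line) = insert (Sum.inl true) (insert (Sum.inl false) ∅) := by
    ext l
    constructor
    · rintro ⟨i, rfl⟩
      cases i
      · exact Or.inr (Or.inl rfl)
      · exact Or.inl rfl
    · rintro (rfl | rfl | h)
      · exact ⟨true, rfl⟩
      · exact ⟨false, rfl⟩
      · exact h.elim
  refine ⟨e '' DimType.A E ∅, e '' DimType.A E (insert (Sum.inl false) ∅), e '' DimType.A E FL,
    fun n => e '' DimType.A E (FS n), ?_, ?_, ?_, ?_, ?_⟩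
  · exact step ∅ _ (notMem_empty _)
  · rw [hFL]
    apply step
    rintro (h | h)
    · exact absurd (Sum.inl.inj h) (by decide)
    · exact h
  · show p _ (e '' DimType.A E (FS 0))
    rw [hFS0]
    exact step ∅ _ (notMem_empty _)
  · intro n
    show p (e '' DimType.A E (FS n)) (e '' DimType.A E (FS (n + 1)))
    rw [hFSn]
    exact step _ _ (hFSnot n)
  · intro n
    show lt (e '' DimType.A E (FS n)) _
    obtain ⟨g, hg⟩ := emb_RL E
    have hsub : ∀ n, DimType.A E (FS n) ⊆ DimType.A E FR := fun n => A_mono E (by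
      rintro l ⟨j, _, rfl⟩; exact ⟨j, rfl⟩)
    rw [hlt, hle', hle']
    refine ⟨⟨g ∘ inclusion (hsub n), hg.comp (IsEmbedding.inclusion _)⟩, ?_⟩
    rintro ⟨h, hh⟩
    apply no_emb' hE (hFSnot n)
    rw [← hFSn]
    exact ⟨h ∘ g ∘ inclusion (hsub (n + 1)), hh.comp (hg.comp (IsEmbedding.inclusion _))⟩

end Pool.Agent.S14293
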