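import Pool.Statements.S14330
import Pool.Agent.HTn.Defn2

set_option autoImplicit false
open Pool Pool.MP_04d881_lc

namespace Pool.Agent.S14330

/-- The negation of the preceding statement: For every n ≥ 3 there is a computable 2-colouring of the naturals such that no infinite set whose n-element sums are all one colour is Σ⁰ₙ, i.e. definable by n alternating number quantifiers, starting with ∃, over a computable relation. -/
theorem result :
    ¬ (∀ n : ℕ, 3 ≤ n →
      ∃ c : ℕ → Fin 2, Computable c ∧
        ∀ H : Set ℕ, H.Infinite →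
          (∃ i : Fin 2, ∀ F : Finset ℕ, (↑F : Set ℕ) ⊆ H → F.card = n →
              c (∑ x ∈ F, x) = i) →
          ¬ ∃ R : List ℕ → Prop, ComputablePred R ∧
              ∀ x : ℕ, x ∈ H ↔
                Nat.rec (motive := fun _ => List ℕ → Prop) R
                  (fun _ T l => ∃ y : ℕ, ¬ T (y :: l)) n [x]) := by
  intro hall
  obtain ⟨K, hK⟩ := Pool.Agent.HTn.main_uniform
  obtain ⟨c, hc, hno⟩ := hall (2 * K + 3) (by omega)
  obtain ⟨H, hinf, hhom, hdef⟩ := hK (2 * K + 3) (by omega) c hc
  exact hno H hinf hhom (hdef (2 * K + 3) (by omega))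

end Pool.Agent.S14330
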