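import Pool.Statements.S14476
-- import your own Pool.Agent.* helpers here

set_option autoImplicit false
open Pool Pool.MP_220cb1_lc

namespace Pool.Agent.S14476

/-!
The counterexample lives on the tree `T = ω^{<ω}` (transported to `ℕ` by a bijection). For a node `s` a *fan at `s`*
is a set `B` of nodes above `s` such that `B ∩ cone (s⌢N)` is a chain for each `N`; the fans at `s` form a compact
hereditary family. The ideal `II` consists of the sets covered by finitely many fans which contain no infinite chain.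
* `II` is `Π⁰₃`: a set covered by finitely many fans contains an infinite chain iff for some node `t` and some `k` its
  part above `t` is infinite without an antichain of size `k + 1`.
* `II` is not of the Farah form: no branch is in `II`; so for each branch `x` there is `n` with all tails of `x` outside
  `K n`; by a category argument there are `n` and `s` such that for each `N` such a branch passes through `s⌢N`; finite
  pieces of these branches outside `K n` form a fan in `II` no tail of which is in `K n`.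
-/

/-- The bijection between the tree `ω^{<ω}` of finite sequences and `ℕ`. -/
noncomputable def c : List ℕ ≃ ℕ := Denumerable.eqv (List ℕ)

/-- `GF s`: subsets `B` of the cone above `s` such that `B ∩ cone (s ++ [N])` is a chain for every `N`. -/
def GF (s : List ℕ) : Set (ℕ → Bool) :=
  {x | (∀ t, x (c t) = true → s <+: t) ∧
    ∀ N u v, x (c u) = true → x (c v) = true → s ++ [N] <+: u → s ++ [N] <+: v →
      (u <+: v ∨ v <+: u)}

/-- sets covered by the fans at the nodes of the list -/
def Fan : List (List ℕ) → Set (ℕ → Bool)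
  | [] => {x | ∀ n, x n = false}
  | s :: L => (fun p : (ℕ → Bool) × (ℕ → Bool) => p.1 ⊔ p.2) '' (GF s ×ˢ Fan L)

/-- the counterexample -/
def II : Set (ℕ → Bool) :=
  {x | (∃ L, x ∈ Fan L) ∧ ∀ C : Set (List ℕ), (∀ t ∈ C, x (c t) = true) →
    (∀ u ∈ C, ∀ v ∈ C, u <+: v ∨ v <+: u) → C.Finite}

theorem closed_coord (n : ℕ) (b : Bool) : IsClosed {x : ℕ → Bool | x n = b} :=
  isClosed_singleton.preimage (continuous_apply n : Continuous fun x : ℕ → Bool => x n)

theorem open_coord (n : ℕ) (b : Bool) : IsOpen {x : ℕ → Bool | x n = b} :=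
  (isOpen_discrete {b}).preimage (continuous_apply n : Continuous fun x : ℕ → Bool => x n)

theorem GF_closed (s : List ℕ) : IsClosed (GF s) := by
  have h : GF s = (⋂ t : List ℕ, {x : ℕ → Bool | x (c t) = true → s <+: t}) ∩
      ⋂ (N : ℕ) (u : List ℕ) (v : List ℕ), {x : ℕ → Bool | x (c u) = true → x (c v) = true →
        s ++ [N] <+: u → s ++ [N] <+: v → (u <+: v ∨ v <+: u)} := by
    ext x
    simp only [GF, Set.mem_inter_iff, Set.mem_iInter, Set.mem_ofPred_eq]
  rw [h]
  refine IsClosed.inter (isClosed_iInter fun t => ?_)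
    (isClosed_iInter fun N => isClosed_iInter fun u => isClosed_iInter fun v => ?_)
  · by_cases hst : s <+: t
    · simp [hst]
    · have : {x : ℕ → Bool | x (c t) = true → s <+: t} = {x | x (c t) = false} := by
        ext x; simp [hst]
      rw [this]; exact closed_coord _ _
  · by_cases hst : s ++ [N] <+: u → s ++ [N] <+: v → (u <+: v ∨ v <+: u)
    · have : {x : ℕ → Bool | x (c u) = true → x (c v) = true →
        s ++ [N] <+: u → s ++ [N] <+: v → (u <+: v ∨ v <+: u)} = Set.univ := by
        ext x
        simp only [Set.mem_ofPred_eq, Set.mem_univ, iff_true]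
        intro _ _
        exact hst
      rw [this]; exact isClosed_univ
    · have : {x : ℕ → Bool | x (c u) = true → x (c v) = true →
        s ++ [N] <+: u → s ++ [N] <+: v → (u <+: v ∨ v <+: u)} =
          {x | x (c u) = false} ∪ {x | x (c v) = false} := by
        ext x
        simp only [Set.mem_ofPred_eq, Set.mem_union]
        constructor
        · intro hx
          by_contra hcon
          push Not at hcon
          apply hst
          exact hx (by simpa using hcon.1) (by simpa using hcon.2)
        · rintro (h1 | h1) h2 h3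
          · rw [h1] at h2; exact absurd h2 (by simp)
          · rw [h1] at h3; exact absurd h3 (by simp)
      rw [this]; exact (closed_coord _ _).union (closed_coord _ _)

theorem Fan_compact (L : List (List ℕ)) : IsCompact (Fan L) := by
  induction L with
  | nil =>
    have : Fan [] = ⋂ n : ℕ, {x : ℕ → Bool | x n = false} := by
      ext x; simp [Fan]
    rw [this]
    exact (isClosed_iInter fun n => closed_coord n false).isCompact
  | cons s L ih =>
    have hcont : Continuous (fun p : (ℕ → Bool) × (ℕ → Bool) => p.1 ⊔ p.2) := by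
      refine continuous_pi fun n => ?_
      have h1 : Continuous fun p : (ℕ → Bool) × (ℕ → Bool) => p.1 n :=
        (continuous_apply n).comp continuous_fst
      have h2 : Continuous fun p : (ℕ → Bool) × (ℕ → Bool) => p.2 n :=
        (continuous_apply n).comp continuous_snd
      have h3 : Continuous fun q : Bool × Bool => q.1 ⊔ q.2 := continuous_of_discreteTopology
      exact h3.comp (h1.prodMk h2)
    exact ((GF_closed s).isCompact.prod ih).image hcont

theorem GF_mono {s : List ℕ} {x y : ℕ → Bool} (hx : x ∈ GF s)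
    (h : ∀ n, y n = true → x n = true) : y ∈ GF s :=
  ⟨fun t ht => hx.1 t (h _ ht), fun N u v hu hv => hx.2 N u v (h _ hu) (h _ hv)⟩

theorem Fan_mono {L : List (List ℕ)} : ∀ {x y : ℕ → Bool}, x ∈ Fan L →
    (∀ n, y n = true → x n = true) → y ∈ Fan L := by
  induction L with
  | nil =>
    intro x y hx h n
    by_contra hn
    have := h n (by simpa using hn)
    rw [hx n] at this
    exact absurd this (by simp)
  | cons s L ih =>
    rintro x y ⟨⟨a, b⟩, ⟨ha, hb⟩, rfl⟩ h
    refine ⟨(fun n => a n && y n, fun n => b n && y n), ⟨?_, ?_⟩, ?_⟩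
    · exact GF_mono ha (by intro n; simp; tauto)
    · exact ih hb (by intro n; simp; tauto)
    · funext n
      have := h n
      simp only [Pi.sup_apply] at this ⊢
      cases hy : y n <;> cases ha' : a n <;> cases hb' : b n <;> simp_all

theorem Fan_sup {L L' : List (List ℕ)} : ∀ {x y : ℕ → Bool}, x ∈ Fan L → y ∈ Fan L' →
    x ⊔ y ∈ Fan (L ++ L') := by
  induction L with
  | nil =>
    intro x y hx hy
    have : x ⊔ y = y := by
      funext n
      simp [hx n]
    rw [this]; simpa using hy
  | cons s L ih =>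
    rintro x y ⟨⟨a, b⟩, ⟨ha, hb⟩, rfl⟩ hy
    exact ⟨(a, b ⊔ y), ⟨ha, ih hb hy⟩, (sup_assoc a b y).symm⟩

theorem le_imp {x y : ℕ → Bool} (h : y ≤ x) : ∀ n, y n = true → x n = true := by
  intro n hn
  exact (Bool.le_iff_imp.mp (h n)) hn

theorem Fan_finset (F : Finset ℕ) : ∃ L, (fun n => decide (n ∈ F)) ∈ Fan L := by
  classical
  induction F using Finset.induction_on with
  | empty => exact ⟨[], by intro n; simp⟩
  | insert a F ha ih =>
    obtain ⟨L, hL⟩ := ih
    refine ⟨c.symm a :: L, ⟨(fun n => decide (n = a), fun n => decide (n ∈ F)), ⟨⟨?_, ?_⟩, hL⟩, ?_⟩⟩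
    · intro t ht
      have : c t = a := by simpa using ht
      rw [← this]; simp
    · intro N u v hu hv h1 h2
      have : c u = a := by simpa using hu
      have h3 : c v = a := by simpa using hv
      left
      rw [c.injective (this.trans h3.symm)]
    · funext n
      simp only [Pi.sup_apply, Finset.mem_insert]
      by_cases h1 : n = a <;> by_cases h2 : n ∈ F <;> simp [h1, h2]

theorem prefix_comparable {u v w : List ℕ} (h1 : u <+: w) (h2 : v <+: w) : u <+: v ∨ v <+: u := by
  rcases le_total u.length v.length with h | h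
  · exact Or.inl (List.prefix_of_prefix_length_le h1 h2 h)
  · exact Or.inr (List.prefix_of_prefix_length_le h2 h1 h)

theorem strict_prefix {s t : List ℕ} (h : s <+: t) (hl : s.length < t.length) :
    ∃ N, s ++ [N] <+: t := by
  obtain ⟨r, rfl⟩ := h
  cases r with
  | nil => simp at hl
  | cons N r => exact ⟨N, ⟨r, by simp⟩⟩

theorem antichain_card {L : List (List ℕ)} {t : List ℕ} (hL : ∀ s ∈ L, s.length < t.length) :
    ∀ {x : ℕ → Bool}, x ∈ Fan L → ∀ F : Finset (List ℕ), (∀ u ∈ F, x (c u) = true ∧ t <+: u) →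
      (∀ u ∈ F, ∀ v ∈ F, u <+: v → u = v) → F.card ≤ L.length := by
  classical
  induction L with
  | nil =>
    intro x hx F hF _
    have : F = ∅ := by
      by_contra hne
      obtain ⟨u, hu⟩ := Finset.nonempty_iff_ne_empty.mpr hne
      have := (hF u hu).1
      rw [hx] at this
      exact absurd this (by simp)
    simp [this]
  | cons s L ih =>
    rintro x ⟨⟨a, b⟩, ⟨ha, hb⟩, rfl⟩ F hF hanti
    have h1 : (F.filter fun u => a (c u) = true).card ≤ 1 := by
      rw [Finset.card_le_one]
      intro u hu v hv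
      rw [Finset.mem_filter] at hu hv
      have htu := (hF u hu.1).2
      have htv := (hF v hv.1).2
      have hsl := hL s (by simp)
      have hst : s <+: t := List.prefix_of_prefix_length_le (ha.1 u hu.2) htu hsl.le
      obtain ⟨N, hN⟩ := strict_prefix hst hsl
      rcases ha.2 N u v hu.2 hv.2 (hN.trans htu) (hN.trans htv) with h | h
      · exact hanti u hu.1 v hv.1 h
      · exact (hanti v hv.1 u hu.1 h).symm
    have h2 : (F.filter fun u => b (c u) = true).card ≤ L.length := by
      apply ih (fun s hs => hL s (by simp [hs])) hb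
      · intro u hu
        rw [Finset.mem_filter] at hu
        exact ⟨hu.2, (hF u hu.1).2⟩
      · intro u hu v hv
        rw [Finset.mem_filter] at hu hv
        exact hanti u hu.1 v hv.1
    have h3 : F ⊆ (F.filter fun u => a (c u) = true) ∪ (F.filter fun u => b (c u) = true) := by
      intro u hu
      have := (hF u hu).1
      simp only [Pi.sup_apply] at this
      rw [Finset.mem_union, Finset.mem_filter, Finset.mem_filter]
      cases ha' : a (c u) <;> cases hb' : b (c u) <;> simp_all
    calc F.card ≤ _ := Finset.card_le_card h3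
      _ ≤ _ := Finset.card_union_le _ _
      _ ≤ 1 + L.length := add_le_add h1 h2
      _ = (s :: L).length := by simp [add_comm]

/-- Infinite Ramsey theorem for comparability in the tree. -/
theorem ramsey {S : Set (List ℕ)} (hS : S.Infinite) :
    (∃ C ⊆ S, C.Infinite ∧ ∀ u ∈ C, ∀ v ∈ C, u <+: v ∨ v <+: u) ∨
    (∃ C ⊆ S, C.Infinite ∧ ∀ u ∈ C, ∀ v ∈ C, u <+: v → u = v) := by
  classical
  have : IsTrans (List ℕ) (fun u v => u <+: v) := ⟨fun a b c h1 h2 => h1.trans h2⟩
  have : IsTrans (List ℕ) (fun u v => v <+: u) := ⟨fun a b c h1 h2 => h2.trans h1⟩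
  let f : ℕ → List ℕ := fun n => (hS.natEmbedding S n : List ℕ)
  have hf : Function.Injective f := fun a b h => (hS.natEmbedding S).injective (Subtype.ext h)
  have hfS : ∀ n, f n ∈ S := fun n => (hS.natEmbedding S n).2
  obtain ⟨g, hg | hg⟩ := exists_increasing_or_nonincreasing_subseq (fun u v : List ℕ => u <+: v) f
  · left
    refine ⟨Set.range fun n => f (g n), ?_, Set.infinite_range_of_injective (hf.comp g.injective), ?_⟩
    · rintro _ ⟨n, rfl⟩; exact hfS _
    · rintro _ ⟨m, rfl⟩ _ ⟨n, rfl⟩
      rcases lt_trichotomy m n with h | h | h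
      · exact Or.inl (hg m n h)
      · subst h; exact Or.inl (List.prefix_refl _)
      · exact Or.inr (hg n m h)
  · obtain ⟨g', hg' | hg'⟩ := exists_increasing_or_nonincreasing_subseq
      (fun u v : List ℕ => v <+: u) (fun n => f (g n))
    · left
      refine ⟨Set.range fun n => f (g (g' n)), ?_,
        Set.infinite_range_of_injective (hf.comp (g.injective.comp g'.injective)), ?_⟩
      · rintro _ ⟨n, rfl⟩; exact hfS _
      · rintro _ ⟨m, rfl⟩ _ ⟨n, rfl⟩
        rcases lt_trichotomy m n with h | h | h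
        · exact Or.inr (hg' m n h)
        · subst h; exact Or.inl (List.prefix_refl _)
        · exact Or.inl (hg' n m h)
    · right
      refine ⟨Set.range fun n => f (g (g' n)), ?_,
        Set.infinite_range_of_injective (hf.comp (g.injective.comp g'.injective)), ?_⟩
      · rintro _ ⟨n, rfl⟩; exact hfS _
      · rintro _ ⟨m, rfl⟩ _ ⟨n, rfl⟩ hpre
        rcases lt_trichotomy m n with h | h | h
        · exact absurd hpre (hg _ _ (g'.strictMono h))
        · subst h; rfl
        · exact absurd hpre (hg' _ _ h)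

/-- an infinite chain gives a node with infinitely many elements of the chain above it, of any
prescribed minimal length. -/
theorem chain_node {C : Set (List ℕ)} (hC : C.Infinite)
    (hch : ∀ u ∈ C, ∀ v ∈ C, u <+: v ∨ v <+: u) (m : ℕ) :
    ∃ t : List ℕ, t.length = m ∧ {u ∈ C | t <+: u}.Infinite := by
  have hinj : Set.InjOn List.length C := by
    intro u hu v hv h
    rcases hch u hu v hv with h1 | h1
    · exact h1.eq_of_length h
    · exact (h1.eq_of_length h.symm).symm
  have hfin : ∀ n : ℕ, {u ∈ C | u.length < n}.Finite := by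
    intro n
    refine Set.Finite.of_finite_image ((Set.finite_lt_nat n).subset ?_) (hinj.mono (Set.sep_subset _ _))
    rintro _ ⟨u, hu, rfl⟩
    exact hu.2
  have hex : ∃ u ∈ C, m ≤ u.length := by
    by_contra hcon
    push Not at hcon
    exact hC ((hfin m).subset fun u hu => ⟨hu, hcon u hu⟩)
  obtain ⟨u₀, hu₀, hm⟩ := hex
  refine ⟨u₀.take m, by simp [hm], ?_⟩
  have h1 : (C \ {u ∈ C | u.length < u₀.length}).Infinite := hC.sdiff (hfin _)
  refine h1.mono ?_
  rintro u ⟨hu, hlen⟩
  refine ⟨hu, (List.take_prefix m u₀).trans ?_⟩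
  have hlen' : u₀.length ≤ u.length := by
    by_contra hcon
    exact hlen ⟨hu, not_le.mp hcon⟩
  rcases hch u₀ hu₀ u hu with h | h
  · exact h
  · rw [h.eq_of_length (le_antisymm h.length_le hlen')]

/-- The Borel description. -/
theorem II_eq : II = {x | (∃ L, x ∈ Fan L) ∧ ∀ (t : List ℕ) (k : ℕ),
    {u | x (c u) = true ∧ t <+: u}.Finite ∨
      ∃ F : Finset (List ℕ), F.card = k + 1 ∧ (∀ u ∈ F, x (c u) = true ∧ t <+: u) ∧
        (∀ u ∈ F, ∀ v ∈ F, u <+: v → u = v)} := by
  ext x
  constructor
  · rintro ⟨hL, hch⟩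
    refine ⟨hL, fun t k => ?_⟩
    by_contra hcon
    push Not at hcon
    obtain ⟨hinf, hno⟩ := hcon
    rcases ramsey hinf with ⟨C, hCS, hC, hC'⟩ | ⟨C, hCS, hC, hC'⟩
    · exact hC (hch C (fun t ht => (hCS ht).1) hC')
    · obtain ⟨F, hFC, hF⟩ := hC.exists_subset_card_eq (k + 1)
      obtain ⟨u, hu, v, hv, h1, h2⟩ := hno F hF fun u hu => hCS (hFC hu)
      exact h2 (hC' u (hFC hu) v (hFC hv) h1)
  · rintro ⟨⟨L, hL⟩, h⟩
    refine ⟨⟨L, hL⟩, fun C hCx hC' => ?_⟩
    by_contra hinf
    obtain ⟨t, ht, hinf'⟩ := chain_node hinf hC' ((L.map List.length).sum + 1)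
    rcases h t L.length with hfin | ⟨F, hF, hF1, hF2⟩
    · refine hinf' (hfin.subset ?_)
      rintro u ⟨hu, htu⟩
      exact ⟨hCx u hu, htu⟩
    · have := antichain_card (L := L) (t := t) (fun s hs => ?_) hL F hF1 hF2
      · omega
      · have : s.length ≤ (L.map List.length).sum :=
          List.le_sum_of_mem (List.mem_map_of_mem hs)
        omega

/-- index of the `F_σδ` description -/
noncomputable def CC : Option (List ℕ × ℕ) → List (List ℕ) → Set (ℕ → Bool)
  | none, L => Fan L
  | some (t, k), L => {x | ∀ u, x (c u) = true → t <+: u → u ∈ L} ∪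
      {x | L.toFinset.card = k + 1 ∧ (∀ u ∈ L, x (c u) = true ∧ t <+: u) ∧
        (∀ u ∈ L, ∀ v ∈ L, u <+: v → u = v)}

theorem CC_closed (i : Option (List ℕ × ℕ)) (L : List (List ℕ)) : IsClosed (CC i L) := by
  rcases i with _ | ⟨t, k⟩
  · exact (Fan_compact L).isClosed
  · refine IsClosed.union ?_ ?_
    · have : {x : ℕ → Bool | ∀ u, x (c u) = true → t <+: u → u ∈ L} =
        ⋂ u, {x | x (c u) = true → t <+: u → u ∈ L} := by
        ext x; simp
      rw [this]
      refine isClosed_iInter fun u => ?_
      by_cases hu : t <+: u → u ∈ L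
      · have : {x : ℕ → Bool | x (c u) = true → t <+: u → u ∈ L} = Set.univ := by
          ext x
          simp only [Set.mem_ofPred_eq, Set.mem_univ, iff_true]
          intro _; exact hu
        rw [this]; exact isClosed_univ
      · have : {x : ℕ → Bool | x (c u) = true → t <+: u → u ∈ L} = {x | x (c u) = false} := by
          ext x
          simp only [Set.mem_ofPred_eq]
          constructor
          · intro hx
            by_contra hcon
            exact hu (hx (by simpa using hcon))
          · intro h1 h2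
            rw [h1] at h2; exact absurd h2 (by simp)
        rw [this]; exact closed_coord _ _
    · by_cases hL : L.toFinset.card = k + 1 ∧ (∀ u ∈ L, t <+: u) ∧
        (∀ u ∈ L, ∀ v ∈ L, u <+: v → u = v)
      · have : {x : ℕ → Bool | L.toFinset.card = k + 1 ∧ (∀ u ∈ L, x (c u) = true ∧ t <+: u) ∧
          (∀ u ∈ L, ∀ v ∈ L, u <+: v → u = v)} = ⋂ u, ⋂ (_ : u ∈ L), {x | x (c u) = true} := by
          ext x
          simp only [Set.mem_ofPred_eq, Set.mem_iInter]
          constructor
          · rintro ⟨_, h, _⟩ u hu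
            exact (h u hu).1
          · intro h
            exact ⟨hL.1, fun u hu => ⟨h u hu, hL.2.1 u hu⟩, hL.2.2⟩
        rw [this]
        exact isClosed_iInter fun u => isClosed_iInter fun _ => closed_coord _ _
      · have : {x : ℕ → Bool | L.toFinset.card = k + 1 ∧ (∀ u ∈ L, x (c u) = true ∧ t <+: u) ∧
          (∀ u ∈ L, ∀ v ∈ L, u <+: v → u = v)} = ∅ := by
          ext x
          simp only [Set.mem_ofPred_eq, Set.mem_empty_iff_false, iff_false]
          rintro ⟨h1, h2, h3⟩
          exact hL ⟨h1, fun u hu => (h2 u hu).2, h3⟩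
        rw [this]; exact isClosed_empty

theorem II_eq_CC : II = ⋂ i, ⋃ L, CC i L := by
  classical
  rw [II_eq]
  ext x
  simp only [Set.mem_ofPred_eq, Set.mem_iInter, Set.mem_iUnion]
  constructor
  · rintro ⟨hL, h⟩ i
    rcases i with _ | ⟨t, k⟩
    · exact hL
    · rcases h t k with hfin | ⟨F, hF, hF1, hF2⟩
      · refine ⟨hfin.toFinset.toList, Or.inl ?_⟩
        intro u hu htu
        simp [hu, htu]
      · refine ⟨F.toList, Or.inr ⟨?_, ?_, ?_⟩⟩
        · simpa using hF
        · intro u hu
          exact hF1 u (by simpa using hu)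
        · intro u hu v hv
          exact hF2 u (by simpa using hu) v (by simpa using hv)
  · intro h
    refine ⟨h none, fun t k => ?_⟩
    obtain ⟨L, hL | ⟨h1, h2, h3⟩⟩ := h (some (t, k))
    · left
      exact (List.finite_toSet L).subset fun u hu => hL u hu.1 hu.2
    · right
      exact ⟨L.toFinset, h1, fun u hu => h2 u (by simpa using hu),
        fun u hu v hv => h3 u (by simpa using hu) v (by simpa using hv)⟩

theorem II_pi3 : ∃ C : ℕ → ℕ → Set (ℕ → Bool), (∀ i j, IsClosed (C i j)) ∧
    II = ⋂ i, ⋃ j, C i j := by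
  refine ⟨fun i j => CC ((Denumerable.eqv (Option (List ℕ × ℕ))).symm i)
    ((Denumerable.eqv (List (List ℕ))).symm j), fun i j => CC_closed _ _, ?_⟩
  rw [II_eq_CC]
  ext x
  simp only [Set.mem_iInter, Set.mem_iUnion]
  constructor
  · intro h i
    obtain ⟨L, hL⟩ := h ((Denumerable.eqv (Option (List ℕ × ℕ))).symm i)
    exact ⟨Denumerable.eqv (List (List ℕ)) L, by simpa using hL⟩
  · intro h i
    obtain ⟨j, hj⟩ := h (Denumerable.eqv (Option (List ℕ × ℕ)) i)
    exact ⟨_, by simpa using hj⟩

/-- prefix of length `n` of a branch -/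
def pf (x : ℕ → ℕ) (n : ℕ) : List ℕ := (List.range n).map x

theorem pf_length (x : ℕ → ℕ) (n : ℕ) : (pf x n).length = n := by simp [pf]

theorem pf_succ (x : ℕ → ℕ) (n : ℕ) : pf x (n + 1) = pf x n ++ [x n] := by
  simp [pf, List.range_succ]

theorem pf_prefix (x : ℕ → ℕ) {m n : ℕ} (h : m ≤ n) : pf x m <+: pf x n := by
  induction n, h using Nat.le_induction with
  | base => exact List.prefix_refl _
  | succ n _ ih => rw [pf_succ]; exact ih.trans (List.prefix_append _ _)

open Classical in
/-- The set of nodes of a branch. -/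
noncomputable def AA (x : ℕ → ℕ) : ℕ → Bool := fun m => decide (∃ n, c (pf x n) = m)

theorem AA_not_mem (x : ℕ → ℕ) : AA x ∉ II := by
  rintro ⟨_, h⟩
  have hinf : (Set.range (pf x)).Infinite := by
    apply Set.infinite_range_of_injective
    intro m n hmn
    have := congrArg List.length hmn
    simpa [pf_length] using this
  apply hinf
  apply h
  · rintro _ ⟨n, rfl⟩
    simp [AA]
  · rintro _ ⟨m, rfl⟩ _ ⟨n, rfl⟩
    rcases le_total m n with h | h
    · exact Or.inl (pf_prefix x h)
    · exact Or.inr (pf_prefix x h)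

/-- The category argument. -/
theorem baire (X : ℕ → Set (ℕ → ℕ)) (hX : ∀ x, ∃ n, x ∈ X n) :
    ∃ n s, ∀ N, ∃ x ∈ X n, pf x (s.length + 1) = s ++ [N] := by
  by_contra hcon
  push Not at hcon
  choose N hN using hcon
  let seq : ℕ → List ℕ := fun n => Nat.rec [] (fun m l => l ++ [N m l]) n
  have hseq : ∀ n, seq (n + 1) = seq n ++ [N n (seq n)] := fun n => rfl
  let x : ℕ → ℕ := fun n => N n (seq n)
  have hpf : ∀ n, pf x n = seq n := by
    intro n
    induction n with
    | zero => rfl
    | succ n ih => rw [pf_succ, ih, hseq]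
  obtain ⟨n, hn⟩ := hX x
  apply hN n (seq n) x hn
  rw [← hpf n, pf_length, pf_succ]
  rw [hpf n]

theorem trunc_exists {K : Set (ℕ → Bool)} (hK : IsClosed K) {y : ℕ → Bool} (hy : y ∉ K) :
    ∃ m : ℕ, (fun i => y i && decide (i < m)) ∉ K := by
  by_contra hcon
  push Not at hcon
  apply hy
  refine hK.mem_of_tendsto (b := Filter.atTop) (f := fun m : ℕ => fun i => y i && decide (i < m)) ?_
    (Filter.Eventually.of_forall hcon)
  rw [tendsto_pi_nhds]
  intro i
  refine tendsto_const_nhds.congr' ?_
  filter_upwards [Filter.eventually_gt_atTop i] with m hm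
  simp [hm]

theorem II_down : ∀ x ∈ II, ∀ y : ℕ → Bool, y ≤ x → y ∈ II := by
  rintro x ⟨⟨L, hL⟩, h⟩ y hyx
  have hyx' := le_imp hyx
  exact ⟨⟨L, Fan_mono hL hyx'⟩, fun C hC => h C fun t ht => hyx' _ (hC t ht)⟩

theorem II_sup : ∀ x ∈ II, ∀ y ∈ II, x ⊔ y ∈ II := by
  rintro x ⟨⟨L, hL⟩, h⟩ y ⟨⟨L', hL'⟩, h'⟩
  refine ⟨⟨L ++ L', Fan_sup hL hL'⟩, fun C hC hch => ?_⟩
  have h1 : {t ∈ C | x (c t) = true}.Finite := h _ (fun t ht => ht.2)
    fun u hu v hv => hch u hu.1 v hv.1
  have h2 : {t ∈ C | y (c t) = true}.Finite := h' _ (fun t ht => ht.2)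
    fun u hu v hv => hch u hu.1 v hv.1
  refine (h1.union h2).subset fun t ht => ?_
  have := hC t ht
  simp only [Pi.sup_apply] at this
  cases hxt : x (c t) <;> cases hyt : y (c t) <;> simp_all

theorem II_finite : ∀ x : ℕ → Bool, {n : ℕ | x n = true}.Finite → x ∈ II := by
  intro x hx
  constructor
  · obtain ⟨L, hL⟩ := Fan_finset hx.toFinset
    refine ⟨L, Fan_mono hL ?_⟩
    intro n hn
    simpa using hn
  · intro C hC _
    exact (hx.preimage c.injective.injOn).subset hC

/-- The negation of the preceding statement: Every ideal on ℕ (closed under subsets and unions, containing all finite sets) that is Π⁰₃ in Cantor space equals {S : for all n there is k with S minus {0..k-1} in K_n} for some hereditary compact sets K_n. -/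
theorem result :
    ¬ (∀ I : Set (ℕ → Bool),
      (∀ x ∈ I, ∀ y : ℕ → Bool, y ≤ x → y ∈ I) →
      (∀ x ∈ I, ∀ y ∈ I, x ⊔ y ∈ I) →
      (∀ x : ℕ → Bool, {n : ℕ | x n = true}.Finite → x ∈ I) →
      (∃ C : ℕ → ℕ → Set (ℕ → Bool), (∀ i j, IsClosed (C i j)) ∧ I = ⋂ i, ⋃ j, C i j) →
      ∃ K : ℕ → Set (ℕ → Bool),
        (∀ n, IsCompact (K n)) ∧
        (∀ n, ∀ x ∈ K n, ∀ y : ℕ → Bool, y ≤ x → y ∈ K n) ∧
        I = {x : ℕ → Bool | ∀ n : ℕ, ∃ k : ℕ, (fun m => x m && decide (k ≤ m)) ∈ K n}) := by
  intro hall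
  obtain ⟨K, hKc, hKh, hK⟩ := hall II II_down II_sup II_finite II_pi3
  have hmem : ∀ x, x ∈ II ↔ ∀ n : ℕ, ∃ k : ℕ, (fun m => x m && decide (k ≤ m)) ∈ K n := by
    intro x
    conv_lhs => rw [hK]
    rfl
  obtain ⟨n, s, hns⟩ := baire
    (fun n => {x | ∀ k : ℕ, (fun m => AA x m && decide (k ≤ m)) ∉ K n}) (by
      intro x
      have := AA_not_mem x
      rw [hmem] at this
      push Not at this
      exact this)
  choose x hx hxs using hns
  have hk : ∀ N, ∃ k, N ≤ k ∧ ∀ j ≤ s.length, c (pf (x N) j) < k := by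
    intro N
    refine ⟨N + 1 + ∑ j ∈ Finset.range (s.length + 1), c (pf (x N) j), by omega, ?_⟩
    intro j hj
    have : c (pf (x N) j) ≤ ∑ j ∈ Finset.range (s.length + 1), c (pf (x N) j) :=
      Finset.single_le_sum (f := fun j => c (pf (x N) j)) (fun _ _ => Nat.zero_le _)
        (Finset.mem_range.mpr (by omega))
    omega
  choose k hkN hks using hk
  have htr : ∀ N, ∃ m : ℕ, (fun i => (AA (x N) i && decide (k N ≤ i)) && decide (i < m)) ∉ K n :=
    fun N => trunc_exists (hKc n).isClosed (hx N (k N))
  choose m hm using htr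
  classical
  let b : ℕ → ℕ → Bool := fun N i => (AA (x N) i && decide (k N ≤ i)) && decide (i < m N)
  have hb : ∀ N t, b N (c t) = true → c t < m N ∧ k N ≤ c t ∧ s ++ [N] <+: t ∧
      ∃ j, t = pf (x N) j := by
    intro N t ht
    simp only [b, AA, Bool.and_eq_true, decide_eq_true_eq] at ht
    obtain ⟨⟨⟨j, hj⟩, h1⟩, h2⟩ := ht
    have hj' : pf (x N) j = t := c.injective hj
    refine ⟨h2, h1, ?_, j, hj'.symm⟩
    have hjs : s.length + 1 ≤ j := by
      by_contra hcon
      have := hks N j (by omega)
      rw [hj] at this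
      omega
    rw [← hxs N, ← hj']
    exact pf_prefix _ hjs
  let B : ℕ → Bool := fun i => decide (∃ N, b N i = true)
  have hB : ∀ t, B (c t) = true → ∃ N, b N (c t) = true := by
    intro t ht
    simpa [B] using ht
  have huniq : ∀ {N N' : ℕ} {w : List ℕ}, s ++ [N] <+: w → s ++ [N'] <+: w → N = N' := by
    intro N N' w h1 h2
    have h3 : s ++ [N] <+: s ++ [N'] := List.prefix_of_prefix_length_le h1 h2 (by simp)
    have h4 := h3.eq_of_length (by simp)
    simpa using h4
  have hBII : B ∈ II := by
    refine ⟨⟨[s], ⟨(B, fun _ => false), ⟨⟨?_, ?_⟩, fun _ => rfl⟩, ?_⟩⟩, ?_⟩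
    · intro t ht
      obtain ⟨N, hN⟩ := hB t ht
      exact (List.prefix_append s [N]).trans (hb N t hN).2.2.1
    · intro N u v hu hv h1 h2
      obtain ⟨N1, hN1⟩ := hB u hu
      obtain ⟨N2, hN2⟩ := hB v hv
      obtain ⟨_, _, h3, j, hj⟩ := hb N1 u hN1
      obtain ⟨_, _, h4, j', hj'⟩ := hb N2 v hN2
      have e1 := huniq h1 h3
      have e2 := huniq h2 h4
      subst e1
      subst e2
      rw [hj, hj']
      rcases le_total j j' with h | h
      · exact Or.inl (pf_prefix _ h)
      · exact Or.inr (pf_prefix _ h)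
    · funext i
      simp
    · intro C hC hch
      rcases C.eq_empty_or_nonempty with rfl | ⟨u, hu⟩
      · exact Set.finite_empty
      · obtain ⟨N, hN⟩ := hB u (hC u hu)
        have : C ⊆ c ⁻¹' {i | i < m N} := by
          intro v hv
          obtain ⟨N', hN'⟩ := hB v (hC v hv)
          have e : N = N' := by
            rcases hch u hu v hv with h | h
            · exact huniq ((hb N u hN).2.2.1.trans h) (hb N' v hN').2.2.1
            · exact huniq (hb N u hN).2.2.1 ((hb N' v hN').2.2.1.trans h)
          subst e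
          exact (hb N v hN').1
        exact ((Set.finite_lt_nat (m N)).preimage c.injective.injOn).subset this
  obtain ⟨k', hk'⟩ := (hmem B).mp hBII n
  apply hm k'
  refine hKh n _ hk' _ ?_
  intro i
  rw [Bool.le_iff_imp]
  intro hi
  have hbi : b k' i = true := hi
  have h1 : k' ≤ i := by
    obtain ⟨t, rfl⟩ := c.surjective i
    exact (hkN k').trans (hb k' t hbi).2.1
  simp only [Bool.and_eq_true, decide_eq_true_eq, B]
  exact ⟨⟨k', hbi⟩, h1⟩

end Pool.Agent.S14476
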