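import Pool.Statements.S14899

set_option autoImplicit false
open Pool Pool.MP_73efbe_lc

namespace Pool.Agent.S14899

open Topology Set Function
open Nat.Partrec (Code)

/-- Index set of the generic object: (kind, side, node). -/
abbrev Idx := Bool × Bool × List ℕ

/-- The Baire space of generic objects. -/
abbrev Sp := Idx → ℕ

/-- Index of the bit that tells whether a child of a member is a member. -/
abbrev ib (i : Bool) (s : List ℕ) : Idx := (false, i, s)

/-- Index of the unique member child of a non-member. -/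
abbrev ch (i : Bool) (s : List ℕ) : Idx := (true, i, s)

/-- The tree labelling attached to a generic object. -/
def Mem (g : Sp) : Bool → List ℕ → Prop
  | i, [] => g (ib i []) = 0
  | i, k :: t =>
      (Mem g (!i) t ∧ (k < 2 ∨ g (ib i (k :: t)) = 0)) ∨ (¬ Mem g (!i) t ∧ k = g (ch (!i) t))

/-- Decoding of nodes. -/
abbrev dec (n : ℕ) : List ℕ := Denumerable.ofNat (List ℕ) n

/-- Encoding of nodes. -/
abbrev enc (s : List ℕ) : ℕ := Encodable.encode s

lemma dec_succ_pair (j n : ℕ) : dec (Nat.pair j n + 1) = j :: dec n := by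
  have := Denumerable.list_ofNat_succ (α := ℕ) (Nat.pair j n)
  simpa using this

lemma enc_cons (k : ℕ) (t : List ℕ) : enc (k :: t) = Nat.pair k (enc t) + 1 := by
  simp [enc]

lemma enc_lt_cons (k : ℕ) (t : List ℕ) : enc t < enc (k :: t) := by
  rw [enc_cons]
  exact Nat.lt_succ_of_le (Nat.right_le_pair _ _)

lemma length_le_enc : ∀ s : List ℕ, s.length ≤ enc s
  | [] => by simp
  | k :: t => by
      have h1 := length_le_enc t
      have h2 := enc_lt_cons k t
      simp only [List.length_cons]
      omega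

/-- Two generic objects agree at all nodes of code below n. -/
def Agree (n : ℕ) (g g' : Sp) : Prop := ∀ a : Idx, enc a.2.2 < n → g' a = g a

lemma Agree.refl (n : ℕ) (g : Sp) : Agree n g g := fun _ _ => rfl

lemma Agree.mono {m n : ℕ} {g g' : Sp} (h : Agree n g g') (hm : m ≤ n) : Agree m g g' :=
  fun a ha => h a (lt_of_lt_of_le ha hm)

lemma Agree.trans {n : ℕ} {g g' g'' : Sp} (h : Agree n g g') (h' : Agree n g' g'') :
    Agree n g g'' :=
  fun a ha => (h' a ha).trans (h a ha)

lemma Agree.mem_iff {n : ℕ} {g g' : Sp} (h : Agree n g g') :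
    ∀ (s : List ℕ) (j : Bool), enc s < n → (Mem g' j s ↔ Mem g j s) := by
  intro s
  induction s with
  | nil =>
      intro j hs
      simp only [Mem]
      rw [h (ib j []) hs]
  | cons k t ih =>
      intro j hs
      have ht : enc t < n := lt_trans (enc_lt_cons k t) hs
      simp only [Mem]
      rw [ih (!j) ht, h (ib j (k :: t)) hs, h (ch (!j) t) ht]

lemma mem_upd_ib (g : Sp) (i : Bool) (s : List ℕ) (v : ℕ) :
    ∀ (u : List ℕ) (j : Bool), u.length < s.length →
      (Mem (update g (ib i s) v) j u ↔ Mem g j u) := by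
  intro u
  induction u with
  | nil =>
      intro j hs
      have hne : ib j [] ≠ ib i s := by
        intro h
        simp only [ib, Prod.mk.injEq, true_and] at h
        rw [← h.2] at hs
        simp at hs
      simp only [Mem]
      rw [update_of_ne hne]
  | cons k t ih =>
      intro j hs
      have hs' : t.length < s.length := by
        simp only [List.length_cons] at hs
        omega
      have hne : ib j (k :: t) ≠ ib i s := by
        intro h
        simp only [ib, Prod.mk.injEq, true_and] at h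
        rw [← h.2] at hs
        simp at hs
      have hne2 : ch (!j) t ≠ ib i s := by
        intro h
        simp [ch, ib] at h
      simp only [Mem]
      rw [ih (!j) hs', update_of_ne hne, update_of_ne hne2]

lemma mem_upd_ch (g : Sp) (i : Bool) (s : List ℕ) (v : ℕ) :
    ∀ (u : List ℕ) (j : Bool), u.length ≤ s.length →
      (Mem (update g (ch i s) v) j u ↔ Mem g j u) := by
  intro u
  induction u with
  | nil =>
      intro j _
      have hne : ib j [] ≠ ch i s := by
        intro h
        simp [ib, ch] at h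
      simp only [Mem]
      rw [update_of_ne hne]
  | cons k t ih =>
      intro j hs
      have hs' : t.length < s.length := by
        simp only [List.length_cons] at hs
        omega
      have hne : ib j (k :: t) ≠ ch i s := by
        intro h
        simp [ib, ch] at h
      have hne2 : ch (!j) t ≠ ch i s := by
        intro h
        simp only [ch, Prod.mk.injEq, true_and] at h
        rw [← h.2] at hs'
        simp at hs'
      simp only [Mem]
      rw [ih (!j) hs'.le, update_of_ne hne, update_of_ne hne2]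

/-- The node is forced out by the part of g below n. -/
def Out (g : Sp) (n : ℕ) (i : Bool) (s : List ℕ) : Prop :=
  (enc s < n ∧ ¬ Mem g i s) ∨
    ∃ k t, s = k :: t ∧ enc t < n ∧ ¬ Mem g (!i) t ∧ k ≠ g (ch (!i) t)

lemma Out.not_mem {g g' : Sp} {n : ℕ} {i : Bool} {s : List ℕ} (h : Out g n i s)
    (hg : Agree n g g') : ¬ Mem g' i s := by
  rcases h with ⟨h1, h2⟩ | ⟨k, t, rfl, h1, h2, h3⟩
  · rw [hg.mem_iff s i h1]
    exact h2
  · simp only [Mem]
    rw [hg.mem_iff t (!i) h1, hg (ch (!i) t) h1]
    tauto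

lemma Out.length_le {g : Sp} {n : ℕ} {i : Bool} {s : List ℕ} (h : Out g n i s) :
    s.length ≤ n := by
  rcases h with ⟨h1, _⟩ | ⟨k, t, rfl, h1, _, _⟩
  · have := length_le_enc s
    omega
  · have := length_le_enc t
    simp only [List.length_cons]
    omega

/-- A node that is not forced out can be put in by one change, which is local. -/
lemma put_in {g : Sp} {n : ℕ} {i : Bool} {s : List ℕ} (h : ¬ Out g n i s) (hm : ¬ Mem g i s) :
    ∃ (a : Idx) (v : ℕ), n ≤ enc a.2.2 ∧ Mem (update g a v) i s ∧
      ∀ (g'' : Sp) (v' : ℕ) (j : Bool) (u : List ℕ),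
        (u.length < s.length ∨ (u.length = s.length ∧ j = !i)) →
        (Mem (update g'' a v') j u ↔ Mem g'' j u) := by
  have hs : n ≤ enc s := by
    by_contra hlt
    exact h (Or.inl ⟨by omega, hm⟩)
  cases s with
  | nil =>
      refine ⟨ib i [], 0, hs, by simp [Mem], ?_⟩
      intro g'' v' j u hu
      rcases hu with hu | ⟨hu, rfl⟩
      · simp at hu
      · have hu' : u = [] := by simpa using hu
        subst hu'
        have hne : ib (!i) [] ≠ ib i [] := by
          intro h
          simp [ib] at h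
        simp only [Mem]
        rw [update_of_ne hne]
  | cons k t =>
      by_cases ht : Mem g (!i) t
      · -- parent in
        refine ⟨ib i (k :: t), 0, hs, ?_, ?_⟩
        · simp only [Mem]
          rw [mem_upd_ib g i (k :: t) 0 t (!i) (by simp)]
          exact Or.inl ⟨ht, Or.inr (by simp)⟩
        · intro g'' v' j u hu
          rcases hu with hu | ⟨hu, rfl⟩
          · exact mem_upd_ib g'' i (k :: t) v' u j hu
          · cases u with
            | nil => simp at hu
            | cons k' t' =>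
                have hne : ib (!i) (k' :: t') ≠ ib i (k :: t) := by
                  intro h
                  simp [ib] at h
                have hne2 : ch (!!i) t' ≠ ib i (k :: t) := by
                  intro h
                  simp [ch, ib] at h
                have hl : t'.length < (k :: t).length := by
                  simp only [List.length_cons] at hu ⊢
                  omega
                simp only [Mem]
                rw [mem_upd_ib g'' i (k :: t) v' t' (!!i) hl, update_of_ne hne,
                  update_of_ne hne2]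
      · -- parent out
        have hk : k ≠ g (ch (!i) t) := by
          intro hk
          exact hm (by simp only [Mem]; exact Or.inr ⟨ht, hk⟩)
        have htn : n ≤ enc t := by
          by_contra hlt
          exact h (Or.inr ⟨k, t, rfl, by omega, ht, hk⟩)
        refine ⟨ch (!i) t, k, htn, ?_, ?_⟩
        · simp only [Mem]
          rw [mem_upd_ch g (!i) t k t (!i) le_rfl]
          exact Or.inr ⟨ht, by simp⟩
        · intro g'' v' j u hu
          rcases hu with hu | ⟨hu, rfl⟩
          · refine mem_upd_ch g'' (!i) t v' u j ?_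
            simp only [List.length_cons] at hu
            omega
          · cases u with
            | nil => simp at hu
            | cons k' t' =>
                have hne : ib (!i) (k' :: t') ≠ ch (!i) t := by
                  intro h
                  simp [ib, ch] at h
                have hne2 : ch (!!i) t' ≠ ch (!i) t := by
                  intro h
                  simp [ch] at h
                have hl : t'.length ≤ t.length := by
                  simp only [List.length_cons] at hu
                  omega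
                simp only [Mem]
                rw [mem_upd_ch g'' (!i) t v' t' (!!i) hl, update_of_ne hne,
                  update_of_ne hne2]

lemma agree_update {g : Sp} {n : ℕ} {a : Idx} {v : ℕ} (h : n ≤ enc a.2.2) :
    Agree n g (update g a v) := by
  intro b hb
  have : b ≠ a := by
    rintro rfl
    omega
  rw [update_of_ne this]

/-- The main combinatorial step. -/
lemma split (g : Sp) (n n' : ℕ) (hnn : n ≤ n') (Z : Bool → Set (List ℕ))
    (h1 : ∀ g', Agree n' g g' → ∀ i, ∀ s ∈ Z i, ¬ Mem g' i s)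
    (h2 : ∃ i s, s ∈ Z i ∧ ¬ Out g n i s) :
    ∃ (h : Sp) (i : Bool) (m : ℕ), Agree n g h ∧
      ∀ h', Agree m h h' → (∃ s ∈ Z i, Mem h' i s) ∧ (∀ s ∈ Z (!i), ¬ Mem h' (!i) s) := by
  classical
  -- every element of Z is out at stage n'
  have hout : ∀ i, ∀ s ∈ Z i, Out g n' i s := by
    intro i s hs
    by_contra hno
    obtain ⟨a, v, ha, hmem, _⟩ := put_in hno (h1 g (Agree.refl _ _) i s hs)
    exact h1 _ (agree_update ha) i s hs hmem
  -- choose one of maximal length
  let L : Set ℕ := {l | ∃ i s, s ∈ Z i ∧ ¬ Out g n i s ∧ s.length = l}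
  have hLne : L.Nonempty := by
    obtain ⟨i, s, hs, ho⟩ := h2
    exact ⟨_, i, s, hs, ho, rfl⟩
  have hLb : BddAbove L := by
    refine ⟨n', ?_⟩
    rintro l ⟨i, s, hs, _, rfl⟩
    exact (hout i s hs).length_le
  obtain ⟨i, s, hs, ho, hl⟩ := Nat.sSup_mem hLne hLb
  have hmax : ∀ j u, u ∈ Z j → ¬ Out g n j u → u.length ≤ s.length := by
    intro j u hu huo
    rw [hl]
    exact le_csSup hLb ⟨j, u, hu, huo, rfl⟩
  obtain ⟨a, v, ha, hmem, hloc⟩ := put_in ho (h1 g (Agree.refl _ _) i s hs)
  refine ⟨update g a v, i, max n' (enc s + 1), agree_update ha, ?_⟩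
  intro h' hh'
  have hag : Agree n g h' :=
    (agree_update ha).trans (hh'.mono (le_trans hnn (le_max_left _ _)))
  refine ⟨⟨s, hs, ?_⟩, ?_⟩
  · rw [hh'.mem_iff s i (lt_of_lt_of_le (Nat.lt_succ_self _) (le_max_right _ _))]
    exact hmem
  · intro u hu
    by_cases huo : Out g n (!i) u
    · exact huo.not_mem hag
    · have hlen := hmax (!i) u hu huo
      have hcond : u.length < s.length ∨ (u.length = s.length ∧ (!i) = !i) := by
        rcases lt_or_eq_of_le hlen with h | h
        · exact Or.inl h
        · exact Or.inr ⟨h, rfl⟩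
      rw [← hloc h' (g a) (!i) u hcond]
      refine h1 _ ?_ (!i) u hu
      intro b hb
      by_cases hba : b = a
      · subst hba
        simp
      · rw [update_of_ne hba, hh' b (lt_of_lt_of_le hb (le_max_left _ _)), update_of_ne hba]

/-! ### Topology -/

lemma finite_enc_lt (n : ℕ) : {a : Idx | enc a.2.2 < n}.Finite := by
  have h1 : {s : List ℕ | enc s < n}.Finite :=
    Set.Finite.preimage (Encodable.encode_injective.injOn) (Set.finite_lt_nat n)
  have h2 : ((Set.univ : Set Bool) ×ˢ ((Set.univ : Set Bool) ×ˢ {s : List ℕ | enc s < n})).Finite :=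
    Set.finite_univ.prod (Set.finite_univ.prod h1)
  refine h2.subset ?_
  rintro ⟨b, i, s⟩ h
  simpa using h

lemma isOpen_agree (n : ℕ) (g : Sp) : IsOpen {g' | Agree n g g'} := by
  have : {g' | Agree n g g'} = ⋂ a ∈ {a : Idx | enc a.2.2 < n}, {g' : Sp | g' a = g a} := by
    ext g'
    simp [Agree]
  rw [this]
  refine (finite_enc_lt n).isOpen_biInter ?_
  intro a _
  have hc : Continuous (fun g' : Sp => g' a) := continuous_apply a
  exact (isOpen_discrete ({g a} : Set ℕ)).preimage hc

lemma exists_agree {O : Set Sp} (hO : IsOpen O) {g : Sp} (hg : g ∈ O) :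
    ∃ n, ∀ g', Agree n g g' → g' ∈ O := by
  obtain ⟨I, u, hu, hsub⟩ := isOpen_pi_iff.1 hO g hg
  refine ⟨I.sup (fun a => enc a.2.2) + 1, ?_⟩
  intro g' hg'
  apply hsub
  intro a ha
  have ha' : enc a.2.2 < I.sup (fun a => enc a.2.2) + 1 :=
    Nat.lt_succ_of_le (Finset.le_sup (f := fun a : Idx => enc a.2.2) (by simpa using ha))
  rw [hg' a ha']
  exact (hu a (by simpa using ha)).2

lemma isOpen_of_agree {P : Sp → Prop} (h : ∀ g, P g → ∃ n, ∀ g', Agree n g g' → P g') :
    IsOpen {g | P g} := by
  rw [isOpen_iff_forall_mem_open]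
  intro g hg
  obtain ⟨n, hn⟩ := h g hg
  exact ⟨{g' | Agree n g g'}, fun g' hg' => hn g' hg', isOpen_agree n g, Agree.refl n g⟩

lemma dense_compl_frontier {O : Set Sp} (hO : IsOpen O) : Dense (frontier O)ᶜ := by
  rw [← interior_eq_empty_iff_dense_compl, ← frontier_compl]
  exact interior_frontier hO.isClosed_compl

/-- Being away from the frontier of an open set decides it locally. -/
lemma decide_of_notMem_frontier {O : Set Sp} (hO : IsOpen O) {g : Sp} (hg : g ∉ frontier O) :
    g ∈ O ∨ ∃ n, ∀ g', Agree n g g' → g' ∉ O := by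
  by_cases hgO : g ∈ O
  · exact Or.inl hgO
  · right
    have : g ∈ (closure O)ᶜ := by
      intro hc
      apply hg
      rw [frontier, hO.interior_eq]
      exact ⟨hc, hgO⟩
    obtain ⟨n, hn⟩ := exists_agree isClosed_closure.isOpen_compl this
    exact ⟨n, fun g' hg' hO' => hn g' hg' (subset_closure hO')⟩

/-! ### The generic sets -/

/-- Section of a c.e. relation given by a code. -/
def Rel (c : Code) (x y : ℕ) : Prop := (c.eval (Nat.pair x y)).Dom

/-- x is enumerated from side i via code c. -/
def Hit (c : Code) (i : Bool) (x : ℕ) (g : Sp) : Prop := ∃ y, Rel c x y ∧ Mem g i (dec y)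

lemma isOpen_hit (c : Code) (i : Bool) (x : ℕ) : IsOpen {g | Hit c i x g} := by
  apply isOpen_of_agree
  rintro g ⟨y, hy, hm⟩
  refine ⟨enc (dec y) + 1, fun g' hg' => ⟨y, hy, ?_⟩⟩
  rw [hg'.mem_iff (dec y) i (Nat.lt_succ_self _)]
  exact hm

/-- Somewhere the two enumerations stably differ. -/
def Diff (c d : Code) : Set Sp :=
  ⋃ x, interior {g | ¬ (Hit c false x g ↔ Hit d true x g)}

lemma isOpen_diff (c d : Code) : IsOpen (Diff c d) :=
  isOpen_iUnion fun _ => isOpen_interior

/-- Side i is not the domain of code c. -/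
def Non (c : Code) (i : Bool) : Set Sp := {g | ∃ y, ¬ (Mem g i (dec y) ↔ (c.eval y).Dom)}

lemma isOpen_non (c : Code) (i : Bool) : IsOpen (Non c i) := by
  apply isOpen_of_agree
  rintro g ⟨y, hy⟩
  refine ⟨enc (dec y) + 1, fun g' hg' => ⟨y, ?_⟩⟩
  rw [hg'.mem_iff (dec y) i (Nat.lt_succ_self _)]
  exact hy

lemma dense_non (c : Code) (i : Bool) : Dense (Non c i) := by
  classical
  rw [dense_iff_inter_open]
  rintro O hO ⟨g, hg⟩
  obtain ⟨n, hn⟩ := exists_agree hO hg
  -- use the node 2 :: [n]
  have hencn : n ≤ enc [n] := by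
    have : enc [n] = Nat.pair n (enc []) + 1 := enc_cons n []
    rw [this]
    have := Nat.left_le_pair n (enc [])
    omega
  have hencs : n ≤ enc (2 :: [n]) := le_trans hencn (enc_lt_cons 2 [n]).le
  let y := enc (2 :: [n])
  have hdy : dec y = 2 :: [n] := Denumerable.ofNat_encode _
  by_cases hd : (c.eval y).Dom
  · -- keep the node out
    refine ⟨update (update g (ch (!i) [n]) 3) (ib i (2 :: [n])) 1, hn _ ?_, y, ?_⟩
    · exact (agree_update hencn).trans (agree_update hencs)
    · rw [hdy]
      simp only [hd, iff_true, Mem]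
      have hne : ch (!i) [n] ≠ ib i (2 :: [n]) := by simp [ch, ib]
      rw [update_self, update_of_ne hne, update_self]
      simp
  · -- put the node in
    refine ⟨update (update g (ch (!i) [n]) 2) (ib i (2 :: [n])) 0, hn _ ?_, y, ?_⟩
    · exact (agree_update hencn).trans (agree_update hencs)
    · rw [hdy]
      have hne : ch (!i) [n] ≠ ib i (2 :: [n]) := by simp [ch, ib]
      have : Mem (update (update g (ch (!i) [n]) 2) (ib i (2 :: [n])) 0) i (2 :: [n]) := by
        rw [Mem]
        rw [update_self, update_of_ne hne, update_self]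
        tauto
      tauto

/-- The existence of a sufficiently generic object. -/
lemma exists_generic : ∃ g : Sp,
    (∀ c i x, g ∉ frontier {g | Hit c i x g}) ∧ (∀ c d, g ∉ frontier (Diff c d)) ∧
      (∀ c i, g ∈ Non c i) := by
  let F : (Code × Bool × ℕ) ⊕ ((Code × Code) ⊕ (Code × Bool)) → Set Sp := fun q =>
    match q with
    | Sum.inl p => (frontier {g | Hit p.1 p.2.1 p.2.2 g})ᶜ
    | Sum.inr (Sum.inl p) => (frontier (Diff p.1 p.2))ᶜ
    | Sum.inr (Sum.inr p) => Non p.1 p.2
  have hopen : ∀ q, IsOpen (F q) := by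
    rintro (p | p | p)
    · exact isClosed_frontier.isOpen_compl
    · exact isClosed_frontier.isOpen_compl
    · exact isOpen_non _ _
  have hdense : ∀ q, Dense (F q) := by
    rintro (p | p | p)
    · exact dense_compl_frontier (isOpen_hit _ _ _)
    · exact dense_compl_frontier (isOpen_diff _ _)
    · exact dense_non _ _
  obtain ⟨g, hg⟩ := (dense_iInter_of_isOpen hopen hdense).nonempty
  rw [mem_iInter] at hg
  refine ⟨g, fun c i x => hg (Sum.inl (c, i, x)), fun c d => hg (Sum.inr (Sum.inl (c, d))),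
    fun c i => hg (Sum.inr (Sum.inr (c, i)))⟩

/-! ### Computability -/

lemma primrec_table (n : ℕ) (f : ℕ → ℕ) : Primrec (fun t => if t < n then f t + 1 else 0) := by
  have h1 : Primrec (fun t : ℕ => ((List.range n).map f)[t]?) :=
    Primrec.list_getElem?.comp (Primrec.const _) Primrec.id
  have h2 : Primrec (fun t : ℕ => Option.casesOn (motive := fun _ => ℕ)
      (((List.range n).map f)[t]?) 0 (fun v => v + 1)) :=
    Primrec.option_casesOn h1 (Primrec.const 0) (Primrec.succ.comp Primrec.snd).to₂
  refine h2.of_eq ?_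
  intro t
  by_cases ht : t < n
  · simp [ht]
  · simp [ht]

/-- The complement of the forced-out set is computable. -/
lemma computable_not_out (g : Sp) (n : ℕ) (i : Bool) :
    ∃ P : ℕ → Bool, Computable P ∧ ∀ y, P y = true ↔ ¬ Out g n i (dec y) := by
  classical
  let w1 : ℕ → ℕ := fun t => if t < n then (if Mem g i (dec t) then 1 else 0) + 1 else 0
  let w2 : ℕ → ℕ := fun t =>
    if t < n then (if Mem g (!i) (dec t) then 0 else g (ch (!i) (dec t)) + 1) + 1 else 0
  have hw1 : Primrec w1 := primrec_table n _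
  have hw2 : Primrec w2 := primrec_table n _
  have hu1 : Primrec (fun y : ℕ => (y - 1).unpair.1) :=
    Primrec.fst.comp (Primrec.unpair.comp (Primrec.pred))
  have hu2 : Primrec (fun y : ℕ => (y - 1).unpair.2) :=
    Primrec.snd.comp (Primrec.unpair.comp (Primrec.pred))
  have hw2' : Primrec (fun y : ℕ => w2 (y - 1).unpair.2) := hw2.comp hu2
  have hpred : PrimrecPred (fun y : ℕ => ¬ (w1 y = 1 ∨
      (¬ (y = 0) ∧ ¬ (w2 (y - 1).unpair.2 ≤ 1) ∧
        ¬ (w2 (y - 1).unpair.2 = (y - 1).unpair.1 + 2)))) := by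
    refine PrimrecPred.not (PrimrecPred.or ?_ (PrimrecPred.and ?_ (PrimrecPred.and ?_ ?_)))
    · exact Primrec.eq.comp hw1 (Primrec.const 1)
    · exact PrimrecPred.not (Primrec.eq.comp Primrec.id (Primrec.const 0))
    · exact PrimrecPred.not (Primrec.nat_le.comp hw2' (Primrec.const 1))
    · exact PrimrecPred.not (Primrec.eq.comp hw2'
        (Primrec.succ.comp (Primrec.succ.comp hu1)))
  refine ⟨fun y => decide (¬ (w1 y = 1 ∨
      (¬ (y = 0) ∧ ¬ (w2 (y - 1).unpair.2 ≤ 1) ∧
        ¬ (w2 (y - 1).unpair.2 = (y - 1).unpair.1 + 2)))), ?_, ?_⟩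
  · exact hpred.computablePred.decide
  · intro y
    rw [decide_eq_true_iff]
    apply not_congr
    unfold Out
    apply or_congr
    · -- first disjunct
      have he : enc (dec y) = y := Denumerable.encode_ofNat y
      rw [he]
      show (if y < n then (if Mem g i (dec y) then 1 else 0) + 1 else 0) = 1 ↔ _
      by_cases hy : y < n <;> by_cases hm : Mem g i (dec y) <;> simp [hy, hm]
    · -- second disjunct
      cases y with
      | zero =>
          constructor
          · rintro ⟨h, _⟩
            exact absurd rfl h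
          · rintro ⟨k, t, ht, _⟩
            simp [dec] at ht
      | succ m =>
          have hd : dec (m + 1) = m.unpair.1 :: dec m.unpair.2 := by
            conv_lhs => rw [← Nat.pair_unpair m]
            exact dec_succ_pair _ _
          have he : enc (dec m.unpair.2) = m.unpair.2 := Denumerable.encode_ofNat _
          have hiff : (∃ k t, dec (m + 1) = k :: t ∧ enc t < n ∧ ¬ Mem g (!i) t ∧
              k ≠ g (ch (!i) t)) ↔ (m.unpair.2 < n ∧ ¬ Mem g (!i) (dec m.unpair.2) ∧
              m.unpair.1 ≠ g (ch (!i) (dec m.unpair.2))) := by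
            rw [hd]
            constructor
            · rintro ⟨k, t, ht, h1, h2, h3⟩
              simp only [List.cons.injEq] at ht
              obtain ⟨rfl, rfl⟩ := ht
              rw [he] at h1
              exact ⟨h1, h2, h3⟩
            · rintro ⟨h1, h2, h3⟩
              exact ⟨_, _, rfl, by rw [he]; exact h1, h2, h3⟩
          rw [hiff]
          simp only [Nat.add_sub_cancel]
          show (¬ (m + 1 = 0) ∧ ¬ ((if m.unpair.2 < n then
              (if Mem g (!i) (dec m.unpair.2) then 0 else g (ch (!i) (dec m.unpair.2)) + 1) + 1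
              else 0) ≤ 1) ∧ ¬ ((if m.unpair.2 < n then
              (if Mem g (!i) (dec m.unpair.2) then 0 else g (ch (!i) (dec m.unpair.2)) + 1) + 1
              else 0) = m.unpair.1 + 2)) ↔ _
          by_cases hy : m.unpair.2 < n <;> by_cases hm : Mem g (!i) (dec m.unpair.2) <;>
            simp [hy, hm]
          constructor
          · intro h h'
            exact h h'.symm
          · intro h h'
            exact h h'.symm

lemma re_proj (c : Code) (P : ℕ → Bool) (hP : Computable P) :
    ∃ f : ℕ →. ℕ, Partrec f ∧ ∀ x, (f x).Dom ↔ ∃ y, Rel c x y ∧ P y = true := by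
  refine ⟨fun x => Nat.rfindOpt (fun m => bif P m.unpair.1 then
    Code.evaln m.unpair.2 c (Nat.pair x m.unpair.1) else none), ?_, ?_⟩
  · apply Partrec.rfindOpt
    have hm1 : Computable (fun p : ℕ × ℕ => p.2.unpair.1) :=
      (Primrec.fst.comp (Primrec.unpair.comp Primrec.snd)).to_comp
    have hm2 : Computable (fun p : ℕ × ℕ => p.2.unpair.2) :=
      (Primrec.snd.comp (Primrec.unpair.comp Primrec.snd)).to_comp
    have hpair : Computable (fun p : ℕ × ℕ => Nat.pair p.1 p.2.unpair.1) :=
      (Primrec₂.natPair.to_comp).comp Computable.fst hm1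
    exact Computable.cond (hP.comp hm1)
      (Code.primrec_evaln.to_comp.comp ((hm2.pair (Computable.const c)).pair hpair))
      (Computable.const none)
  · intro x
    rw [Nat.rfindOpt_dom]
    constructor
    · rintro ⟨m, a, ha⟩
      by_cases hPm : P m.unpair.1 = true
      · rw [hPm] at ha
        simp only [cond_true] at ha
        refine ⟨m.unpair.1, ?_, hPm⟩
        unfold Rel
        rw [Part.dom_iff_mem]
        exact ⟨a, Code.evaln_sound ha⟩
      · simp only [Bool.not_eq_true] at hPm
        rw [hPm] at ha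
        simp at ha
    · rintro ⟨y, hy, hPy⟩
      unfold Rel at hy
      rw [Part.dom_iff_mem] at hy
      obtain ⟨a, ha⟩ := hy
      rw [Code.evaln_complete] at ha
      obtain ⟨k, hk⟩ := ha
      refine ⟨Nat.pair y k, a, ?_⟩
      simp only [Nat.unpair_pair, hPy, cond_true]
      exact hk

/-- Codes for c.e. relations. -/
lemma exists_code_rel (W : Set (ℕ × ℕ))
    (h : ∃ f : ℕ × ℕ →. ℕ, Partrec f ∧ ∀ p : ℕ × ℕ, (f p).Dom ↔ p ∈ W) :
    ∃ c : Code, ∀ x y, Rel c x y ↔ (x, y) ∈ W := by
  obtain ⟨f, hf, hd⟩ := h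
  have hf' : Nat.Partrec (fun n => f n.unpair : ℕ →. ℕ) :=
    Partrec.nat_iff.1 (hf.comp Primrec.unpair.to_comp)
  obtain ⟨c, hc⟩ := Code.exists_code.1 hf'
  refine ⟨c, fun x y => ?_⟩
  unfold Rel
  rw [hc]
  simp only [Nat.unpair_pair]
  exact hd (x, y)

lemma exists_code_set (f : ℕ →. ℕ) (hf : Partrec f) : ∃ c : Code, ∀ n, c.eval n = f n := by
  obtain ⟨c, hc⟩ := Code.exists_code.1 (Partrec.nat_iff.1 hf)
  exact ⟨c, fun n => by rw [hc]⟩

/-- The axioms of the two enumeration reductions. -/
def Ax : Set (ℕ × List ℕ) :=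
  {p | ∃ j k, j ≠ k ∧ p.2 = [Nat.pair j p.1 + 1, Nat.pair k p.1 + 1]}

lemma ax_re : ∃ f : ℕ × List ℕ →. ℕ, Partrec f ∧ ∀ p : ℕ × List ℕ, (f p).Dom ↔ p ∈ Ax := by
  have hpred : PrimrecPred (fun q : (ℕ × List ℕ) × ℕ =>
      ¬ (q.2.unpair.1 = q.2.unpair.2) ∧
        q.1.2 = [Nat.pair q.2.unpair.1 q.1.1 + 1, Nat.pair q.2.unpair.2 q.1.1 + 1]) := by
    have h1 : Primrec (fun q : (ℕ × List ℕ) × ℕ => q.2.unpair.1) :=
      Primrec.fst.comp (Primrec.unpair.comp Primrec.snd)
    have h2 : Primrec (fun q : (ℕ × List ℕ) × ℕ => q.2.unpair.2) :=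
      Primrec.snd.comp (Primrec.unpair.comp Primrec.snd)
    have hx : Primrec (fun q : (ℕ × List ℕ) × ℕ => q.1.1) := Primrec.fst.comp Primrec.fst
    have hl : Primrec (fun q : (ℕ × List ℕ) × ℕ => q.1.2) := Primrec.snd.comp Primrec.fst
    refine PrimrecPred.and (PrimrecPred.not (Primrec.eq.comp h1 h2)) ?_
    refine Primrec.eq.comp hl ?_
    exact Primrec.list_cons.comp (Primrec.succ.comp (Primrec₂.natPair.comp h1 hx))
      (Primrec.list_cons.comp (Primrec.succ.comp (Primrec₂.natPair.comp h2 hx))
        (Primrec.const []))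
  classical
  refine ⟨fun p => Nat.rfind (fun m => Part.some (decide (¬ (m.unpair.1 = m.unpair.2) ∧
        p.2 = [Nat.pair m.unpair.1 p.1 + 1, Nat.pair m.unpair.2 p.1 + 1]))), ?_, ?_⟩
  · apply Partrec.rfind
    exact hpred.computablePred.decide.partrec
  · intro p
    refine Nat.rfind_dom.trans ?_
    constructor
    · rintro ⟨m, hm, _⟩
      simp only [Part.mem_some_iff] at hm
      have := of_decide_eq_true hm.symm
      exact ⟨_, _, this.1, this.2⟩
    · rintro ⟨j, k, hjk, hp⟩
      refine ⟨Nat.pair j k, ?_, fun {m} _ => trivial⟩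
      simp only [Part.mem_some_iff, Nat.unpair_pair]
      exact (decide_eq_true ⟨hjk, hp⟩).symm

lemma mem_iff_children (g : Sp) (i : Bool) (s : List ℕ) :
    Mem g i s ↔ ∃ j k, j ≠ k ∧ Mem g (!i) (j :: s) ∧ Mem g (!i) (k :: s) := by
  constructor
  · intro h
    refine ⟨0, 1, by decide, ?_, ?_⟩
    · simp only [Mem, Bool.not_not]
      exact Or.inl ⟨h, Or.inl (by decide)⟩
    · simp only [Mem, Bool.not_not]
      exact Or.inl ⟨h, Or.inl (by decide)⟩
  · rintro ⟨j, k, hjk, hj, hk⟩
    by_contra hno
    simp only [Mem, Bool.not_not] at hj hk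
    apply hjk
    rcases hj with ⟨h, _⟩ | ⟨_, h1⟩
    · exact absurd h hno
    · rcases hk with ⟨h, _⟩ | ⟨_, h2⟩
      · exact absurd h hno
      · rw [h1, h2]

lemma ereduce (g : Sp) (i : Bool) (x : ℕ) :
    Mem g i (dec x) ↔ ∃ l : List ℕ, (x, l) ∈ Ax ∧ ∀ y ∈ l, Mem g (!i) (dec y) := by
  rw [mem_iff_children]
  constructor
  · rintro ⟨j, k, hjk, hj, hk⟩
    refine ⟨[Nat.pair j x + 1, Nat.pair k x + 1], ⟨j, k, hjk, rfl⟩, ?_⟩
    intro y hy
    simp only [List.mem_cons, List.not_mem_nil, or_false] at hy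
    rcases hy with rfl | rfl
    · rw [dec_succ_pair]
      exact hj
    · rw [dec_succ_pair]
      exact hk
  · rintro ⟨l, ⟨j, k, hjk, hl⟩, hy⟩
    simp only at hl
    subst hl
    refine ⟨j, k, hjk, ?_, ?_⟩
    · rw [← dec_succ_pair]
      exact hy _ (by simp)
    · rw [← dec_succ_pair]
      exact hy _ (by simp)

/-- There are non-c.e. sets A, B of the same enumeration degree such that every set s-reducible to both A and B is c.e. -/
theorem result :
    ∃ A B : Set ℕ,
      (∃ W : Set (ℕ × List ℕ),
        (∃ f : ℕ × List ℕ →. ℕ, Partrec f ∧ ∀ p : ℕ × List ℕ, (f p).Dom ↔ p ∈ W) ∧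
        ∀ x : ℕ, x ∈ A ↔ ∃ l : List ℕ, (x, l) ∈ W ∧ ∀ y ∈ l, y ∈ B) ∧
      (∃ W : Set (ℕ × List ℕ),
        (∃ f : ℕ × List ℕ →. ℕ, Partrec f ∧ ∀ p : ℕ × List ℕ, (f p).Dom ↔ p ∈ W) ∧
        ∀ x : ℕ, x ∈ B ↔ ∃ l : List ℕ, (x, l) ∈ W ∧ ∀ y ∈ l, y ∈ A) ∧
      (¬ ∃ f : ℕ →. ℕ, Partrec f ∧ ∀ n : ℕ, (f n).Dom ↔ n ∈ A) ∧
      (¬ ∃ f : ℕ →. ℕ, Partrec f ∧ ∀ n : ℕ, (f n).Dom ↔ n ∈ B) ∧
      ∀ C : Set ℕ,
        (∃ W : Set (ℕ × ℕ),
          (∃ f : ℕ × ℕ →. ℕ, Partrec f ∧ ∀ p : ℕ × ℕ, (f p).Dom ↔ p ∈ W) ∧
          ∀ x : ℕ, x ∈ C ↔ ∃ y ∈ A, (x, y) ∈ W) →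
        (∃ W : Set (ℕ × ℕ),
          (∃ f : ℕ × ℕ →. ℕ, Partrec f ∧ ∀ p : ℕ × ℕ, (f p).Dom ↔ p ∈ W) ∧
          ∀ x : ℕ, x ∈ C ↔ ∃ y ∈ B, (x, y) ∈ W) →
        ∃ f : ℕ →. ℕ, Partrec f ∧ ∀ n : ℕ, (f n).Dom ↔ n ∈ C := by
  classical
  obtain ⟨g, hfr, hdf, hnon⟩ := exists_generic
  refine ⟨{n | Mem g false (dec n)}, {n | Mem g true (dec n)},
    ⟨Ax, ax_re, fun x => ereduce g false x⟩, ⟨Ax, ax_re, fun x => ereduce g true x⟩, ?_, ?_, ?_⟩
  · rintro ⟨f, hf, hd⟩
    obtain ⟨c, hc⟩ := exists_code_set f hf
    obtain ⟨y, hy⟩ := hnon c false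
    apply hy
    rw [hc, hd y]
    rfl
  · rintro ⟨f, hf, hd⟩
    obtain ⟨c, hc⟩ := exists_code_set f hf
    obtain ⟨y, hy⟩ := hnon c true
    apply hy
    rw [hc, hd y]
    rfl
  · rintro C ⟨W0, hW0, hC0⟩ ⟨W1, hW1, hC1⟩
    obtain ⟨c, hc⟩ := exists_code_rel W0 hW0
    obtain ⟨d, hd⟩ := exists_code_rel W1 hW1
    have hCc : ∀ x, x ∈ C ↔ Hit c false x g := by
      intro x
      rw [hC0 x]
      unfold Hit
      constructor
      · rintro ⟨y, hy, hW⟩
        exact ⟨y, (hc x y).2 hW, hy⟩
      · rintro ⟨y, hR, hy⟩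
        exact ⟨y, hy, (hc x y).1 hR⟩
    have hCd : ∀ x, x ∈ C ↔ Hit d true x g := by
      intro x
      rw [hC1 x]
      unfold Hit
      constructor
      · rintro ⟨y, hy, hW⟩
        exact ⟨y, (hd x y).2 hW, hy⟩
      · rintro ⟨y, hR, hy⟩
        exact ⟨y, hy, (hd x y).1 hR⟩
    -- g is outside Diff, so some neighbourhood of g is
    have hnd : g ∉ Diff c d := by
      intro h
      unfold Diff at h
      rw [mem_iUnion] at h
      obtain ⟨x, hx⟩ := h
      have := interior_subset hx
      apply this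
      rw [← hCc x, ← hCd x]
    obtain ⟨n, hn⟩ : ∃ n, ∀ g', Agree n g g' → g' ∉ Diff c d := by
      rcases decide_of_notMem_frontier (isOpen_diff c d) (hdf c d) with h | h
      · exact absurd h hnd
      · exact h
    obtain ⟨P, hP, hPout⟩ := computable_not_out g n false
    obtain ⟨f, hf, hfd⟩ := re_proj c P hP
    refine ⟨f, hf, fun x => ?_⟩
    rw [hfd x, hCc x]
    constructor
    · rintro ⟨y, hRy, hPy⟩
      rw [hPout y] at hPy
      by_contra hno
      have hno' : ¬ Hit d true x g := by
        rw [← hCd x, hCc x]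
        exact hno
      -- stable negation
      obtain ⟨n0, hn0⟩ : ∃ n, ∀ g', Agree n g g' → ¬ Hit c false x g' := by
        rcases decide_of_notMem_frontier (isOpen_hit c false x) (hfr c false x) with h | h
        · exact absurd h hno
        · exact h
      obtain ⟨n1, hn1⟩ : ∃ n, ∀ g', Agree n g g' → ¬ Hit d true x g' := by
        rcases decide_of_notMem_frontier (isOpen_hit d true x) (hfr d true x) with h | h
        · exact absurd h hno'
        · exact h
      let Z : Bool → Set (List ℕ) := fun i =>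
        if i = false then {s | ∃ y, Rel c x y ∧ s = dec y} else {s | ∃ y, Rel d x y ∧ s = dec y}
      obtain ⟨h, i, m, hag, hm⟩ := split g n (max n (max n0 n1)) (le_max_left _ _) Z
        (by
          intro g' hg' i s hs
          cases i with
          | false =>
              obtain ⟨y, hy, rfl⟩ := hs
              intro hmem
              exact hn0 g' (hg'.mono (le_trans (le_max_left _ _) (le_max_right _ _))) ⟨y, hy, hmem⟩
          | true =>
              obtain ⟨y, hy, rfl⟩ := hs
              intro hmem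
              exact hn1 g' (hg'.mono (le_trans (le_max_right _ _) (le_max_right _ _))) ⟨y, hy, hmem⟩)
        ⟨false, dec y, ⟨y, hRy, rfl⟩, hPy⟩
      apply hn h hag
      unfold Diff
      rw [mem_iUnion]
      refine ⟨x, mem_interior.2 ⟨{h' | Agree m h h'}, ?_, isOpen_agree m h, Agree.refl m h⟩⟩
      intro h' hh'
      obtain ⟨⟨s, hs, hsm⟩, hother⟩ := hm h' hh'
      cases i with
      | false =>
          obtain ⟨y', hy', rfl⟩ := hs
          intro hiff
          obtain ⟨z, hz, hzm⟩ := hiff.1 ⟨y', hy', hsm⟩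
          exact hother (dec z) ⟨z, hz, rfl⟩ hzm
      | true =>
          obtain ⟨y', hy', rfl⟩ := hs
          intro hiff
          obtain ⟨z, hz, hzm⟩ := hiff.2 ⟨y', hy', hsm⟩
          exact hother (dec z) ⟨z, hz, rfl⟩ hzm
    · rintro ⟨y, hRy, hmem⟩
      refine ⟨y, hRy, ?_⟩
      rw [hPout y]
      intro hout
      exact hout.not_mem (Agree.refl n g) hmem

end Pool.Agent.S14899
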