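import Pool.Statements.S15529
import Pool.Agent.LibZetaOmega.Arith

set_option autoImplicit false
open Pool Pool.MP_e58cbf_lc

namespace Pool.Agent.S15529

/-- There is a computable strict linear order on the naturals, isomorphic to rationals-many copies of zeta^omega, such that no arithmetical set of naturals is ordered by it like the rationals. -/
theorem result :
    ∃ R : ℕ → ℕ → Prop,
      ComputablePred (fun p : ℕ × ℕ => R p.1 p.2) ∧
      (∃ f : ℕ ≃ Lex (ℚ × Lex (ℕᵒᵈ →₀ ℤ)), ∀ a b : ℕ, R a b ↔ f a < f b) ∧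
      ∀ S : Set ℕ,
        (∀ A : (k : ℕ) → Set ((Fin k → ℕ) → Prop),
          (∀ k : ℕ, ∀ P : (Fin k → ℕ) → Prop, ComputablePred P → P ∈ A k) →
          (∀ k : ℕ, ∀ P : (Fin k → ℕ) → Prop, P ∈ A k → (fun v => ¬ P v) ∈ A k) →
          (∀ k : ℕ, ∀ P : (Fin (k + 1) → ℕ) → Prop, P ∈ A (k + 1) →
              (fun v : Fin k → ℕ => ∃ m : ℕ, P (Fin.cons m v : Fin (k + 1) → ℕ)) ∈ A k) →
          (fun v : Fin 1 → ℕ => v 0 ∈ S) ∈ A 1) →
        ¬ ∃ g : S ≃ ℚ, ∀ a b : S, R a b ↔ g a < g b := by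
  refine ⟨LibZetaOmega.ltR, LibZetaOmega.comp_ltR, LibZetaOmega.exists_iso, ?_⟩
  intro S hS
  rintro ⟨g, hg⟩
  obtain ⟨n, c, hc⟩ := hS LibZetaOmega.AF LibZetaOmega.AF_comp LibZetaOmega.AF_not
    LibZetaOmega.AF_ex
  have hc' : ∀ x, x ∈ S ↔
      LibZetaOmega.Tr (n + 1) (Nat.pair c (LibZetaOmega.en (fun _ : Fin 1 => x))) :=
    fun x => hc (fun _ => x)
  have hinf : S.Infinite := by
    rw [← Set.infinite_coe_iff]
    exact Infinite.of_injective g.symm g.symm.injective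
  obtain ⟨r, hr, hlt⟩ := LibZetaOmega.growth S hinf n c hc'
  obtain ⟨ρ, hρ, hinj⟩ := LibZetaOmega.exists_rho
  have hdense : ∀ a ∈ S, ∀ b ∈ S, LibZetaOmega.ltR a b →
      ∃ d ∈ S, LibZetaOmega.ltR a d ∧ LibZetaOmega.ltR d b := by
    intro a ha b hb hab
    have h1 : g ⟨a, ha⟩ < g ⟨b, hb⟩ := (hg ⟨a, ha⟩ ⟨b, hb⟩).mp hab
    obtain ⟨q, h2, h3⟩ := exists_between h1
    refine ⟨(g.symm q).1, (g.symm q).2, ?_, ?_⟩
    · exact (hg ⟨a, ha⟩ (g.symm q)).mpr (by simpa using h2)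
    · exact (hg (g.symm q) ⟨b, hb⟩).mpr (by simpa using h3)
  have hle : (S ∩ Set.Iio r).ncard ≤ (LibZetaOmega.Tw ∩ Set.Iio r).ncard := by
    apply Set.ncard_le_ncard_of_injOn ρ
    · rintro x ⟨_, hx⟩
      exact ⟨(hρ x).1, lt_of_le_of_lt (hρ x).2 hx⟩
    · exact (hinj S hdense).mono Set.inter_subset_left
  omega

end Pool.Agent.S15529
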