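import Pool.Statements.S15772
import Pool.Agent.LibRabi30.Core

set_option autoImplicit false
open Pool Pool.MP_a47312_mp

namespace Pool.Agent.S15772

/-- The negation of the preceding statement: For g, Δ > 0 and each parity sector of the Rabi model, written as a Jacobi matrix on ℓ²(ℕ), each [n,n+1) with n ≥ 0 holds 0, 1 or 2 shifted eigenvalues e+g², and no two adjacent intervals both hold 2 or both hold 0. -/
theorem result :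
    ¬ (∀ g Δ : ℝ, 0 < g → 0 < Δ → ∀ s : ℝ, (s = 1 ∨ s = -1) →
    ∀ E : Set ℝ,
      E = {e : ℝ | ∃ u : ℕ → ℝ, u ≠ 0 ∧ Summable (fun k => u k ^ 2) ∧
            ∀ k : ℕ, ((k : ℝ) + s * (-1 : ℝ) ^ k * Δ) * u k
              + g * (Real.sqrt (k : ℝ) * u (k - 1) + Real.sqrt ((k : ℝ) + 1) * u (k + 1))
              = e * u k} →
    ∀ n : ℕ,
      ({e : ℝ | e ∈ E ∧ (n : ℝ) ≤ e + g ^ 2 ∧ e + g ^ 2 < (n : ℝ) + 1}).encard ≤ 2 ∧
      ¬ (({e : ℝ | e ∈ E ∧ (n : ℝ) ≤ e + g ^ 2 ∧ e + g ^ 2 < (n : ℝ) + 1}).encard = 2 ∧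
         ({e : ℝ | e ∈ E ∧ ((n + 1 : ℕ) : ℝ) ≤ e + g ^ 2 ∧ e + g ^ 2 < ((n + 1 : ℕ) : ℝ) + 1}).encard = 2) ∧
      ¬ (({e : ℝ | e ∈ E ∧ (n : ℝ) ≤ e + g ^ 2 ∧ e + g ^ 2 < (n : ℝ) + 1}).encard = 0 ∧
         ({e : ℝ | e ∈ E ∧ ((n + 1 : ℕ) : ℝ) ≤ e + g ^ 2 ∧ e + g ^ 2 < ((n + 1 : ℕ) : ℝ) + 1}).encard = 0)) := by
  intro hall
  obtain ⟨e0, a0, b0, s0⟩ := LibRabi30.four 0 (by norm_num)
  obtain ⟨e1, a1, b1, s1⟩ := LibRabi30.four 1 (by norm_num)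
  obtain ⟨e2, a2, b2, s2⟩ := LibRabi30.four 2 (by norm_num)
  obtain ⟨e3, a3, b3, s3⟩ := LibRabi30.four 3 (by norm_num)
  push_cast at a0 b0 a1 b1 a2 b2 a3 b3
  have h := hall 5 (237 / 10) (by norm_num) (by norm_num) (-1) (Or.inr rfl) _ rfl
  have hE : ∀ e : ℝ, Summable (fun k => LibRabi30.U e k ^ 2) →
      e ∈ {e : ℝ | ∃ u : ℕ → ℝ, u ≠ 0 ∧ Summable (fun k => u k ^ 2) ∧
            ∀ k : ℕ, ((k : ℝ) + (-1) * (-1 : ℝ) ^ k * (237 / 10)) * u k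
              + 5 * (Real.sqrt (k : ℝ) * u (k - 1) + Real.sqrt ((k : ℝ) + 1) * u (k + 1))
              = e * u k} := by
    intro e he
    refine ⟨LibRabi30.U e, ?_, he, LibRabi30.U_eq e⟩
    intro h0
    have h1 : LibRabi30.U e 0 = 0 := by rw [h0]; rfl
    have h2 : LibRabi30.U e 0 = 1 := rfl
    rw [h2] at h1
    exact one_ne_zero h1
  generalize {e : ℝ | ∃ u : ℕ → ℝ, u ≠ 0 ∧ Summable (fun k => u k ^ 2) ∧
            ∀ k : ℕ, ((k : ℝ) + (-1) * (-1 : ℝ) ^ k * (237 / 10)) * u k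
              + 5 * (Real.sqrt (k : ℝ) * u (k - 1) + Real.sqrt ((k : ℝ) + 1) * u (k + 1))
              = e * u k} = E at h hE
  have key : ∀ (S : Set ℝ) (x y : ℝ), x ∈ S → y ∈ S → x ≠ y → S.encard ≤ 2 → S.encard = 2 := by
    intro S x y hx hy hxy hS
    refine le_antisymm hS ?_
    rw [← Set.encard_pair hxy]
    exact Set.encard_le_encard (Set.insert_subset hx (Set.singleton_subset_iff.2 hy))
  have h0 := h 0
  have h1 := h 1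
  have c0 : ({e : ℝ | e ∈ E ∧ ((0 : ℕ) : ℝ) ≤ e + 5 ^ 2 ∧ e + 5 ^ 2 < ((0 : ℕ) : ℝ) + 1}).encard
      = 2 := by
    refine key _ e0 e1 ?_ ?_ (by intro hh; linarith) h0.1
    · exact ⟨hE e0 s0, by push_cast; linarith, by push_cast; linarith⟩
    · exact ⟨hE e1 s1, by push_cast; linarith, by push_cast; linarith⟩
  have c1 : ({e : ℝ | e ∈ E ∧ ((1 : ℕ) : ℝ) ≤ e + 5 ^ 2 ∧ e + 5 ^ 2 < ((1 : ℕ) : ℝ) + 1}).encard
      = 2 := by
    refine key _ e2 e3 ?_ ?_ (by intro hh; linarith) h1.1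
    · exact ⟨hE e2 s2, by push_cast; linarith, by push_cast; linarith⟩
    · exact ⟨hE e3 s3, by push_cast; linarith, by push_cast; linarith⟩
  exact h0.2.1 ⟨c0, c1⟩

end Pool.Agent.S15772
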