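import Pool.Statements.S19150
import Pool.Agent.LibMP0f946f.FinalE

set_option autoImplicit false
open MeasureTheory ProbabilityTheory
open Pool Pool.MP_0f946f_pr

namespace Pool.Agent.S19150

/-- The negation of the preceding statement: For every mixed p-spin model (p≥2, Σ2^pβ_p²<∞, no external field) there are positive a_k such that for all k₀, ε, large N, with probability ≥3/4 some sets A_0..A_k₀ have Gibbs mass ≥a_k and pairwise Gibbs-averaged ∣overlap∣ below ε. -/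
theorem result :
    ¬ (∀ β : ℕ → ℝ, β 0 = 0 → β 1 = 0 → Summable (fun p : ℕ => (2:ℝ) ^ p * β p ^ 2) →
  ∃ a : ℕ → ℝ, (∀ k, 0 < a k) ∧ ∀ k₀ : ℕ, ∀ ε : ℝ, 0 < ε → ∃ N₀ : ℕ, ∀ N : ℕ, N₀ ≤ N →
   ∀ μ : Measure ((Fin N → Bool) → ℝ), IsGaussian μ →
   (∀ σ : Fin N → Bool, ∫ H, H σ ∂μ = 0) →
   (∀ σ τ : Fin N → Bool, ∫ H, H σ * H τ ∂μ =
      (N:ℝ) * ∑' p : ℕ, β p ^ 2 * ((∑ i, if σ i = τ i then (1:ℝ) else -1) / N) ^ p) →
   (3/4 : ENNReal) ≤ μ {H | ∃ A : ℕ → Finset (Fin N → Bool),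
      (∀ k ≤ k₀, a k ≤ (∑ σ ∈ A k, Real.exp (H σ)) / ∑ σ, Real.exp (H σ)) ∧
      ∀ k ≤ k₀, ∀ l ≤ k₀, k ≠ l →
        (∑ σ ∈ A k, ∑ τ ∈ A l, Real.exp (H σ) * Real.exp (H τ) *
            |(∑ i, if σ i = τ i then (1:ℝ) else -1) / N|) /
          (∑ σ, Real.exp (H σ)) ^ 2 < ε}) :=
  fun h => Pool.Agent.OS.final h

end Pool.Agent.S19150
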