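import Pool.Statements.S19240
import Pool.Agent.LibStable.Cover

set_option autoImplicit false
open Filter Topology MeasureTheory
open Pool Pool.MP_2c66a4_pr

namespace Pool.Agent.S19240

open Pool.Agent.LibStable in
/-- finiteness of the truncated square mark integral -/
lemma q_fin : ∫⁻ x : ℝ × ℝ, min ‖(if 0 < x.1 ∧ x.1 ≤ 1 then min (|x.2⁻¹| ^ 2) 1 else 0 : ℝ)‖ₑ 1 ≠ ⊤ := by
  have h0 : ∀ x : ℝ × ℝ, min ‖(if 0 < x.1 ∧ x.1 ≤ 1 then min (|x.2⁻¹| ^ 2) 1 else 0 : ℝ)‖ₑ 1 ≤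
      (Set.Ioc (0:ℝ) 1).indicator (fun _ => (1 : ENNReal)) x.1 *
        ENNReal.ofReal (min (|x.2⁻¹| ^ 2) 1) := by
    intro x
    refine (min_le_left _ _).trans ?_
    by_cases h : 0 < x.1 ∧ x.1 ≤ 1
    · rw [Set.indicator_of_mem (by exact h), one_mul, if_pos h, Real.enorm_of_nonneg (by positivity)]
    · rw [if_neg h]
      simp
  have hm : Measurable fun v : ℝ => ENNReal.ofReal (min (|v⁻¹| ^ 2) 1) := by fun_prop
  have h1 : ∫⁻ x : ℝ × ℝ, (Set.Ioc (0:ℝ) 1).indicator (fun _ => (1 : ENNReal)) x.1 *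
        ENNReal.ofReal (min (|x.2⁻¹| ^ 2) 1) =
      (∫⁻ u : ℝ, (Set.Ioc (0:ℝ) 1).indicator (fun _ => (1 : ENNReal)) u) *
        ∫⁻ v : ℝ, ENNReal.ofReal (min (|v⁻¹| ^ 2) 1) := by
    rw [Measure.volume_eq_prod]
    exact lintegral_prod_mul (measurable_const.indicator measurableSet_Ioc).aemeasurable
      hm.aemeasurable
  refine ne_top_of_le_ne_top ?_ (lintegral_mono h0)
  rw [h1]
  refine ENNReal.mul_ne_top ?_ lintegral_q_ne_top
  rw [lintegral_indicator measurableSet_Ioc, setLIntegral_const]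
  exact ENNReal.mul_ne_top (by simp) (by simp [Real.volume_Ioc])

open Pool.Agent.LibStable in
lemma q_meas : Measurable (fun x : ℝ × ℝ => (if 0 < x.1 ∧ x.1 ≤ 1 then min (|x.2⁻¹| ^ 2) 1 else 0 : ℝ)) := by
  refine Measurable.ite ?_ (by fun_prop) measurable_const
  exact (measurableSet_lt measurable_const measurable_fst).inter
    (measurableSet_le measurable_fst measurable_const)

/-- The negation of the preceding statement: For 0<α<1 and any symmetric α-stable Lévy process, almost surely the graph over [0,1] has Fourier dimension 1: for each s<1 some compactly carried probability measure on it has Fourier decay ‖ξ‖^(-s/2), and for no s>1. -/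
theorem result :
    ¬ (∀ (α : ℝ), 0 < α → α < 1 →
  ∀ (Ω : Type) [MeasurableSpace Ω] (P : Measure Ω) [IsProbabilityMeasure P] (X : ℝ → Ω → ℝ),
    (∀ t : ℝ, Measurable (X t)) →
    (∀ᵐ ω ∂P, X 0 ω = 0) →
    (∀ᵐ ω ∂P, ∀ t : ℝ, 0 ≤ t →
        ContinuousWithinAt (fun s => X s ω) (Set.Ici t) t ∧
        (0 < t → ∃ l : ℝ, Tendsto (fun s => X s ω) (𝓝[<] t) (𝓝 l))) →
    (∀ (n : ℕ) (t : Fin (n + 1) → ℝ), 0 ≤ t 0 → StrictMono t →
        ProbabilityTheory.iIndepFun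
          (fun (i : Fin n) (ω : Ω) => X (t i.succ) ω - X (t i.castSucc) ω) P) →
    (∀ s t : ℝ, 0 ≤ s → s ≤ t → ∀ ξ : ℝ,
        ∫ ω, Complex.exp (((ξ * (X t ω - X s ω) : ℝ) : ℂ) * Complex.I) ∂P
          = ((Real.exp (-(t - s) * |ξ| ^ α) : ℝ) : ℂ)) →
    ∀ᵐ ω ∂P,
      (∀ s : ℝ, 0 < s → s < 1 →
        ∃ (μ : Measure (ℝ × ℝ)) (K : Set (ℝ × ℝ)),
          IsProbabilityMeasure μ ∧ IsCompact K ∧
          K ⊆ {p : ℝ × ℝ | p.1 ∈ Set.Icc (0 : ℝ) 1 ∧ p.2 = X p.1 ω} ∧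
          μ Kᶜ = 0 ∧
          ∃ C : ℝ, ∀ ξ : ℝ × ℝ, 1 ≤ ‖ξ‖ →
            ‖∫ p, Complex.exp (((ξ.1 * p.1 + ξ.2 * p.2 : ℝ) : ℂ) * Complex.I) ∂μ‖
              ≤ C * ‖ξ‖ ^ (-s / 2)) ∧
      (∀ s : ℝ, 1 < s →
        ¬ ∃ (μ : Measure (ℝ × ℝ)) (K : Set (ℝ × ℝ)),
          IsProbabilityMeasure μ ∧ IsCompact K ∧
          K ⊆ {p : ℝ × ℝ | p.1 ∈ Set.Icc (0 : ℝ) 1 ∧ p.2 = X p.1 ω} ∧
          μ Kᶜ = 0 ∧
          ∃ C : ℝ, ∀ ξ : ℝ × ℝ, 1 ≤ ‖ξ‖ →
            ‖∫ p, Complex.exp (((ξ.1 * p.1 + ξ.2 * p.2 : ℝ) : ℂ) * Complex.I) ∂μ‖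
              ≤ C * ‖ξ‖ ^ (-s / 2))) := by
  intro H
  have h1 := H ((1:ℝ)/21) (by norm_num) (by norm_num) LibStable.Om LibStable.PP LibStable.X
    LibStable.measurable_X (ae_of_all _ LibStable.X_zero)
    (by
      filter_upwards [LibStable.ae_good] with ω hω t _
      exact ⟨(LibStable.cadlag_X hω t).1, fun _ => (LibStable.cadlag_X hω t).2⟩)
    LibStable.indep_incr
    LibStable.incr_char
  have h2 := LibStable.ae_summable q_meas q_fin
  have h3 : ∀ᵐ ω ∂LibStable.PP, False := by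
    filter_upwards [h1, h2, LibStable.ae_good] with ω hω1 hω2 hω3
    obtain ⟨μ, K, hμ, -, hK, hμK, C, hC⟩ := hω1.1 (4/5) (by norm_num) (by norm_num)
    refine LibStable.no_measure (LibStable.wt ω) (LibStable.tm ω)
      (fun p => LibStable.pt (fun x : ℝ × ℝ => (if 0 < x.1 ∧ x.1 ≤ 1 then min (|x.2⁻¹| ^ 2) 1 else 0 : ℝ)) ω p)
      LibStable.kap LibStable.kap_pos ?_ ?_ ?_ ?_ μ K ?_ hμK C hC
    · intro p
      unfold LibStable.pt
      split_ifs <;> positivity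
    · exact hω2.of_norm
    · intro r hr p hu hw hq
      unfold LibStable.wt LibStable.pt at hw ⊢
      unfold LibStable.tm at hu
      unfold LibStable.pt at hq
      by_cases hN : p.2 < (ω p.1).1
      · rw [if_pos hN] at hw hq ⊢
        rw [if_pos hN]
        beta_reduce at hw hq ⊢
        by_cases h0 : 0 < ((ω p.1).2 p.2).1
        · rw [if_pos h0]
          rw [if_pos ⟨h0, hu⟩] at hq ⊢
          set v := ((ω p.1).2 p.2).2 with hv
          have hr0 : 0 < r := by linarith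
          have hr2 : (r ^ 2)⁻¹ ≤ 1 := inv_le_one_of_one_le₀ (one_le_pow₀ hr)
          have hv2 : |v⁻¹| ^ 2 < (r ^ 2)⁻¹ := by
            rcases min_lt_iff.1 hq with h | h
            · exact h
            · exact absurd (h.trans_le hr2) (lt_irrefl _)
          have hmin : min (|v⁻¹| ^ 2) 1 = |v⁻¹| ^ 2 := min_eq_left (hv2.le.trans hr2)
          have hv1 : |v⁻¹| ≤ r⁻¹ := by
            rw [← inv_pow] at hv2
            exact (lt_of_pow_lt_pow_left₀ 2 (by positivity) hv2).le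
          rw [hmin, abs_mul, abs_of_pos LibStable.kap_pos]
          unfold LibStable.jp
          rw [abs_pow, mul_assoc]
          refine mul_le_mul_of_nonneg_left ?_ LibStable.kap_pos.le
          rw [← inv_pow]
          calc |v⁻¹| ^ 21 = |v⁻¹| ^ 19 * |v⁻¹| ^ 2 := by ring
            _ ≤ r⁻¹ ^ 19 * |v⁻¹| ^ 2 :=
              mul_le_mul_of_nonneg_right (pow_le_pow_left₀ (abs_nonneg _) hv1 19) (by positivity)
        · rw [if_neg h0] at hw
          exact absurd rfl hw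
      · rw [if_neg hN] at hw
        exact absurd rfl hw
    · intro t
      have := hω3.summable t
      simp_rw [LibStable.pt_gt_eq] at this
      exact this
    · intro x hx
      have := hK hx
      refine ⟨this.1, ?_⟩
      rw [this.2, LibStable.X_eq]
  have h4 : ∃ ω, False := h3.exists
  exact h4.elim (fun _ h => h)

end Pool.Agent.S19240
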